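import Pool.Agent.Lib.MP_bafc89_co.BQ.Spec3

set_option autoImplicit false

namespace Pool.Agent.Lib.MPbafc89.BQ

open SimpleGraph

universe u v

theorem specAAA (hHFA : SpecHFA.{u}) (hZCO : SpecZCO.{u}) (hPHI : SpecPHI.{u})
    (hDEP : SpecDEP.{u}) (hFZC : SpecFZC.{u}) : SpecAAA.{u} := by
  intro V G r k a Hb hS hk o n z hz x1 hx1
  obtain ⟨hf1, -, hf3, -, hf5, -, -, hf8⟩ := hHFA V G r k a Hb hS
  have hZ := hZCO V G r k a Hb hS
  have hG := hS.conn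
  obtain ⟨Φ, hΦ1, hΦ2, hΦ3, hΦ4⟩ := hPHI V G r k a Hb hS (x1 : V) x1.2
  have hC := hFZC _ (ZZ G r a Hb) hZ o n z
  set S : Set (↥(UU G r a) ⊕ (Fin k × Bool)) :=
    {y | ∀ b, y ∈ Dn (ZZ G r a Hb) o (z b) → (ZZ G r a Hb).dist o y ≤ (ZZ G r a Hb).dist o (z b)}
    with hSdef
  have hD := fun b => hDEP V G r k a Hb hS o (z b) (hz b)
  -- the values of `dep` on `S`
  have hdep0 : ∀ b, ∀ y : ↥(UU G r a), Sum.inl y ∈ S → dep G r a Hb o (z b) (y : V) = 0 := by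
    intro b y hy
    obtain ⟨-, -, -, h4⟩ := hD b
    by_cases hmem : Sum.inl y ∈ Dn (ZZ G r a Hb) o (z b)
    · have h5 := ((h4 y).1 hmem).2
      have h6 := hy b hmem
      omega
    · exact (h4 y).2 hmem
  -- points near a boundary point
  have hball : ∀ i, ∀ w ∈ bd G r a i, ∀ x : V, G.dist w x ≤ 12 * r + 10 →
      (∀ j, 8 * r + 10 < G.dist (a j 0) x) ∧
      (∀ b, dep G r a Hb o (z b) x ≤ 12 * r + 10) ∧ G.dist (a i 0) x ≤ 32 * r + 31 := by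
    intro i w hw x hx
    refine ⟨fun j => ?_, fun b => ?_, ?_⟩
    · have h1 : 20 * r + 20 < G.dist (a j 0) w := hw.1 j
      have h2 := hG.dist_triangle (u := a j 0) (v := x) (w := w)
      have h3 : G.dist x w = G.dist w x := SimpleGraph.dist_comm
      omega
    · obtain ⟨h1, h2, -, -⟩ := hD b
      have h3 := h1 w x
      have h4 := h2 i w hw
      omega
    · have h1 : G.dist (a i 0) w = 20 * r + 21 := hw.2
      have h2 := hG.dist_triangle (u := a i 0) (v := w) (w := x)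
      omega
  have hx1S : Sum.inl x1 ∈ S := fun b hb => hx1 b hb
  have hx1A : (x1 : V) ∈ {x | ∃ y ∈ S, x ∈ Φ y} := by
    refine ⟨Sum.inl x1, hx1S, ?_⟩
    rw [hΦ4 x1 (Jn.refl x1.2)]
    exact Set.mem_singleton _
  refine ⟨{x | ∃ y ∈ S, x ∈ Φ y}, ?_, hx1A, ?_, ?_, ?_, ?_⟩
  · exact Cn.map hC (fun y _ => hΦ1 y) (fun y _ y' _ hyy => hΦ2 y y' hyy)
  · intro hx1H
    have key : ∀ (j : Fin k) (t : ℤ), t.natAbs = 20 * r + 21 → a j t ∈ bd G r a j →
        a j t ∈ {x | ∃ y ∈ S, x ∈ Φ y} := by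
      intro j t ht htb
      have hpH : a j t ∈ HH G r a Hb := hf3 j t (by omega) (by omega)
      have hpU : a j t ∈ UU G r a := htb.1
      have hj : Jn G (UU G r a) (x1 : V) (a j t) := (hf5.2 _ hx1H _ hpH).mono hf1
      refine ⟨Sum.inl ⟨a j t, hpU⟩, ?_, ?_⟩
      · intro b hb
        obtain ⟨-, h2, -, h4⟩ := hD b
        have h5 := (h4 ⟨a j t, hpU⟩).1 hb
        have h6 := h2 j (a j t) htb
        have h7 : dep G r a Hb o (z b) (a j t) =
          (ZZ G r a Hb).dist o (Sum.inl ⟨a j t, hpU⟩) - (ZZ G r a Hb).dist o (z b) := h5.2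
        omega
      · rw [hΦ4 ⟨a j t, hpU⟩ hj]
        exact Set.mem_singleton _
    intro j
    exact ⟨key j _ (by omega) (hf8 j).1, key j _ (by omega) (hf8 j).2⟩
  · rintro x ⟨y, hy, hxy⟩ j
    rcases hΦ3 y with ⟨x', rfl, hx'⟩ | ⟨i, w, hw, hsub⟩
    · rw [hx', Set.mem_singleton_iff] at hxy
      subst hxy
      have h1 : 20 * r + 20 < G.dist (a j 0) x' := x'.2 j
      omega
    · exact (hball i w hw x (hsub hxy)).1 j
  · rintro b x ⟨y, hy, hxy⟩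
    rcases hΦ3 y with ⟨x', rfl, hx'⟩ | ⟨i, w, hw, hsub⟩
    · rw [hx', Set.mem_singleton_iff] at hxy
      subst hxy
      rw [hdep0 b x' hy]
      exact Nat.zero_le _
    · exact (hball i w hw x (hsub hxy)).2.1 b
  · have hyS : (Sum.inr (⟨0, hk⟩, true) : ↥(UU G r a) ⊕ (Fin k × Bool)) ∈ S :=
      fun b hb => absurd hb (hz b _)
    obtain ⟨x, hx⟩ := (hΦ1 (Sum.inr (⟨0, hk⟩, true))).1
    refine ⟨x, ⟨_, hyS, hx⟩, ?_⟩
    rcases hΦ3 (Sum.inr (⟨0, hk⟩, true)) with ⟨x', hx', -⟩ | ⟨i, w, hw, hsub⟩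
    · exact absurd hx' (by simp)
    · exact ⟨i, (hball i w hw x (hsub hx)).2.2⟩

end Pool.Agent.Lib.MPbafc89.BQ
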