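import Pool.Agent.Lib.MP_bafc89_co.BQ.Spec

set_option autoImplicit false

namespace Pool.Agent.Lib.MPbafc89.BQ

open SimpleGraph

universe u v

namespace BCTM

variable {c : ℕ} (m : Fin c → ℕ)

/-- the vertices of the `i`-th cycle -/
def P (i : Fin c) (q : ℕ) : Option (Σ i : Fin c, Fin (m i)) :=
  if h : 1 ≤ q ∧ q ≤ m i then some ⟨i, ⟨q - 1, by omega⟩⟩ else none

theorem P_some {i : Fin c} {q : ℕ} (h1 : 1 ≤ q) (h2 : q ≤ m i) :
    P m i q = some ⟨i, ⟨q - 1, by omega⟩⟩ := by
  unfold P
  rw [dif_pos ⟨h1, h2⟩]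

theorem P_none {i : Fin c} {q : ℕ} (h : q = 0 ∨ m i < q) : P m i q = none := by
  unfold P
  rw [dif_neg]
  omega

theorem P_eq {i j : Fin c} {q r : ℕ} (hq : q ≤ m i + 1) (hr : r ≤ m j + 1)
    (h : P m i q = P m j r) :
    ((q = 0 ∨ q = m i + 1) ∧ (r = 0 ∨ r = m j + 1)) ∨ (i = j ∧ q = r) := by
  by_cases h1 : 1 ≤ q ∧ q ≤ m i
  · by_cases h2 : 1 ≤ r ∧ r ≤ m j
    · right
      rw [P_some m h1.1 h1.2, P_some m h2.1 h2.2] at h
      have h3 := Option.some.inj h
      obtain ⟨h4, h5⟩ := Sigma.mk.inj h3
      subst h4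
      have h6 := eq_of_heq h5
      have h7 := congrArg Fin.val h6
      simp only at h7
      exact ⟨rfl, by omega⟩
    · rw [P_some m h1.1 h1.2, P_none m (by omega)] at h
      exact absurd h (by simp)
  · by_cases h2 : 1 ≤ r ∧ r ≤ m j
    · rw [P_some m h2.1 h2.2, P_none m (by omega)] at h
      exact absurd h (by simp)
    · left
      omega

theorem P_adj {i : Fin c} (hm : 2 ≤ m i) {q : ℕ} (hq : q ≤ m i) :
    (bouquet m).Adj (P m i q) (P m i (q + 1)) := by
  rcases Nat.eq_zero_or_pos q with rfl | h0
  · rw [P_none m (Or.inl rfl), P_some m (by omega) (by omega)]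
    show (_ = 0 ∨ _ = _)
    left
    rfl
  · rcases Nat.lt_or_ge q (m i) with h1 | h1
    · rw [P_some m h0 hq, P_some m (by omega) (by omega)]
      refine ⟨rfl, Or.inl ?_⟩
      show q - 1 + 1 = q + 1 - 1
      omega
    · rw [P_some m h0 hq, P_none m (by omega)]
      show (_ = 0 ∨ _ = _)
      right
      show q - 1 + 1 = m i
      omega

end BCTM

theorem specBCT : SpecBCT := by
  intro c m hm
  constructor
  · rw [SimpleGraph.connected_iff_exists_forall_reachable]
    refine ⟨none, ?_⟩
    have key : ∀ (i : Fin c) (q : ℕ), q ≤ m i → (bouquet m).Reachable none (BCTM.P m i q) := by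
      intro i q
      induction q with
      | zero =>
        intro _
        rw [BCTM.P_none m (Or.inl rfl)]
      | succ q ih =>
        intro hq
        exact (ih (by omega)).trans (BCTM.P_adj m (hm i) (by omega)).reachable
    rintro (_ | ⟨i, q⟩)
    · exact Reachable.refl _
    · have h := key i (q.val + 1) q.2
      rw [BCTM.P_some m (by omega) q.2] at h
      exact h
  · have hcard : Nat.card (Option (Σ i : Fin c, Fin (m i))) = (∑ i, m i) + 1 := by
      rw [Nat.card_eq_fintype_card, Fintype.card_option, Fintype.card_sigma]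
      simp
    let F : (Σ i : Fin c, Fin (m i + 1)) → (bouquet m).edgeSet := fun x =>
      ⟨s(BCTM.P m x.1 x.2.val, BCTM.P m x.1 (x.2.val + 1)), by
        rw [mem_edgeSet]
        exact BCTM.P_adj m (hm x.1) (by have := x.2.2; omega)⟩
    have hF : Function.Injective F := by
      rintro ⟨i, q, hq⟩ ⟨j, r, hr⟩ h
      have h1 : s(BCTM.P m i q, BCTM.P m i (q + 1)) = s(BCTM.P m j r, BCTM.P m j (r + 1)) :=
        congrArg Subtype.val h
      have hi := hm i
      have hj := hm j
      have fin : i = j ∧ q = r := by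
        rw [Sym2.eq_iff] at h1
        rcases h1 with ⟨h1, h2⟩ | ⟨h1, h2⟩
        · rcases BCTM.P_eq m (by omega) (by omega) h1 with h3 | h3
          · rcases BCTM.P_eq m (by omega) (by omega) h2 with h4 | h4
            · omega
            · exact ⟨h4.1, by omega⟩
          · exact h3
        · rcases BCTM.P_eq m (by omega) (by omega) h1 with h3 | h3
          · rcases BCTM.P_eq m (by omega) (by omega) h2 with h4 | h4
            · omega
            · obtain ⟨rfl, h4⟩ := h4
              omega
          · obtain ⟨rfl, h3⟩ := h3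
            rcases BCTM.P_eq m (by omega) (by omega) h2 with h4 | h4
            · omega
            · omega
      obtain ⟨rfl, rfl⟩ := fin
      rfl
    have hfin : Finite (bouquet m).edgeSet := inferInstance
    have h2 := Nat.card_le_card_of_injective F hF
    have h3 : Nat.card (Σ i : Fin c, Fin (m i + 1)) = (∑ i, m i) + c := by
      rw [Nat.card_eq_fintype_card, Fintype.card_sigma]
      simp [Finset.sum_add_distrib]
    rw [h3] at h2
    rw [hcard]
    omega

end Pool.Agent.Lib.MPbafc89.BQ
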