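import Pool.Agent.Lib.MP_bafc89_co.BQ.Spec

set_option autoImplicit false

namespace Pool.Agent.Lib.MPbafc89.BQ

open SimpleGraph

universe u v

namespace BEFM

variable {V : Type u} {G : SimpleGraph V}

theorem cn_support {x y : V} (w : G.Walk x y) : Cn G {z | z ∈ w.support} := by
  classical
  refine Cn.of_center (c := x) w.start_mem_support ?_
  intro z hz
  exact ⟨w.takeUntil z hz, fun t ht => w.support_takeUntil_subset_support hz ht⟩

theorem exists_fin {S : Set V} (hS : Cn G S) (T : Finset V) (hT : ∀ t ∈ T, t ∈ S) :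
    ∃ F : Finset V, (∀ z ∈ F, z ∈ S) ∧ Cn G (F : Set V) ∧ ∀ t ∈ T, t ∈ F := by
  classical
  induction T using Finset.induction_on with
  | empty =>
    obtain ⟨c, hc⟩ := hS.1
    refine ⟨{c}, ?_, ?_, ?_⟩
    · intro z hz
      rw [Finset.mem_singleton] at hz
      rw [hz]; exact hc
    · rw [Finset.coe_singleton]
      exact Cn.singleton c
    · intro t ht
      simp at ht
  | insert t T ht ih =>
    obtain ⟨F, hF1, hF2, hF3⟩ := ih (fun z hz => hT z (Finset.mem_insert_of_mem hz))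
    obtain ⟨c, hc⟩ := hF2.1
    have hc' : c ∈ S := hF1 c hc
    obtain ⟨w, hw⟩ := hS.2 c hc' t (hT t (Finset.mem_insert_self t T))
    refine ⟨F ∪ w.support.toFinset, ?_, ?_, ?_⟩
    · intro z hz
      rcases Finset.mem_union.mp hz with hz | hz
      · exact hF1 z hz
      · exact hw z (List.mem_toFinset.mp hz)
    · have h1 : ((F ∪ w.support.toFinset : Finset V) : Set V) =
          (F : Set V) ∪ {z | z ∈ w.support} := by
        ext z
        simp
      rw [h1]
      exact hF2.union (cn_support w) hc w.start_mem_support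
    · intro s hs
      rcases Finset.mem_insert.mp hs with rfl | hs
      · exact Finset.mem_union_right _ (List.mem_toFinset.mpr w.end_mem_support)
      · exact Finset.mem_union_left _ (hF3 s hs)

end BEFM

theorem specBEF : SpecBEF.{u, v} := by
  classical
  rintro W G' α hfin H ⟨B, hB1, hB2, hB3⟩
  have hc : ∀ i, Cn G' (B i) := fun i => cn_iff.mpr (hB1 i)
  have hex : ∀ i j, ∃ p : W × W, H.Adj i j → p.1 ∈ B i ∧ p.2 ∈ B j ∧ G'.Adj p.1 p.2 := by
    intro i j
    by_cases h : H.Adj i j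
    · obtain ⟨x, hx, y, hy, hxy⟩ := hB3 i j h
      exact ⟨(x, y), fun _ => ⟨hx, hy, hxy⟩⟩
    · obtain ⟨c, -⟩ := (hc i).1
      exact ⟨(c, c), fun h' => absurd h' h⟩
  choose p hp using hex
  have hTfin : ∀ i, {t | ∃ j, H.Adj i j ∧ (t = (p i j).1 ∨ t = (p j i).2)}.Finite := by
    intro i
    refine ((Set.finite_range (fun j => (p i j).1)).union
      (Set.finite_range (fun j => (p j i).2))).subset ?_
    rintro t ⟨j, -, rfl | rfl⟩
    · exact Or.inl ⟨j, rfl⟩
    · exact Or.inr ⟨j, rfl⟩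
  have hF : ∀ i, ∃ F : Finset W, (∀ z ∈ F, z ∈ B i) ∧ Cn G' (F : Set W) ∧
      ∀ t ∈ (hTfin i).toFinset, t ∈ F := by
    intro i
    refine BEFM.exists_fin (hc i) _ ?_
    intro t ht
    rw [Set.Finite.mem_toFinset] at ht
    obtain ⟨j, hj, rfl | rfl⟩ := ht
    · exact (hp i j hj).1
    · exact (hp j i hj.symm).2.1
  choose F hF1 hF2 hF3 using hF
  refine ⟨F, hF2, ?_, ?_⟩
  · intro i j hij
    rw [Finset.disjoint_left]
    intro z hz hz'
    exact Set.disjoint_left.mp (hB2 i j hij) (hF1 i z hz) (hF1 j z hz')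
  · intro i j hij
    refine ⟨(p i j).1, hF3 i _ ?_, (p i j).2, hF3 j _ ?_, (hp i j hij).2.2⟩
    · rw [Set.Finite.mem_toFinset]
      exact ⟨j, hij, Or.inl rfl⟩
    · rw [Set.Finite.mem_toFinset]
      exact ⟨i, hij.symm, Or.inr rfl⟩

end Pool.Agent.Lib.MPbafc89.BQ
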