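import Pool.Agent.Lib.MP_bafc89_co.BQ.Spec

/-!
# Module BLO: lower bound for the number of edges
-/

set_option autoImplicit false

namespace Pool.Agent.Lib.MPbafc89.BQ

open SimpleGraph

universe u v

namespace BLOM

/-- the edges inside a finite set -/
noncomputable def Ein {W : Type u} (G' : SimpleGraph W) (B : Finset W) : Set (Sym2 W) :=
  Sym2.map (fun z : ↥(↑B : Set W) => (z : W)) '' (G'.induce (↑B : Set W)).edgeSet

lemma mem_Ein {W : Type u} {G' : SimpleGraph W} {B : Finset W} {e : Sym2 W} (h : e ∈ Ein G' B) :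
    ∃ x ∈ B, ∃ y ∈ B, G'.Adj x y ∧ e = s(x, y) := by
  obtain ⟨e', he', rfl⟩ := h
  induction e' using Sym2.ind with
  | _ a b =>
    rw [mem_edgeSet] at he'
    exact ⟨a, a.2, b, b.2, by simpa using he', by simp⟩

lemma Ein_finite {W : Type u} (G' : SimpleGraph W) (B : Finset W) : (Ein G' B).Finite :=
  (Set.toFinite _).image _

lemma card_Ein {W : Type u} {G' : SimpleGraph W} {B : Finset W} (h : Cn G' (B : Set W)) :
    B.card ≤ (Ein_finite G' B).toFinset.card + 1 := by
  rw [cn_iff] at h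
  have h1 := h.card_vert_le_card_edgeSet_add_one
  have h2 : Nat.card (B : Set W) = B.card := by simp
  have h3 : (Ein_finite G' B).toFinset.card = Nat.card (G'.induce (B : Set W)).edgeSet := by
    rw [← Set.ncard_eq_toFinset_card (Ein G' B) (Ein_finite G' B), Ein,
      Set.ncard_image_of_injective _ (Sym2.map.injective Subtype.val_injective)]
    rfl
  omega

end BLOM

open BLOM

theorem specBLO : SpecBLO.{u, v} := by
  classical
  intro W G' α _ H B hB hd hadj
  have : Fintype α := Fintype.ofFinite α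
  -- the edges between the branch sets
  have hφ : ∀ e : H.edgeSet, ∃ f : Sym2 W, ∃ i j x y, (e : Sym2 α) = s(i, j) ∧ H.Adj i j ∧
      x ∈ B i ∧ y ∈ B j ∧ G'.Adj x y ∧ f = s(x, y) := by
    rintro ⟨e, he⟩
    induction e using Sym2.ind with
    | _ i j =>
      rw [mem_edgeSet] at he
      obtain ⟨x, hx, y, hy, hxy⟩ := hadj i j he
      exact ⟨s(x, y), i, j, x, y, rfl, he, hx, hy, hxy, rfl⟩
  choose φ hφ using hφ
  have idx : ∀ i j x, x ∈ B i → x ∈ B j → i = j := by
    intro i j x hi hj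
    by_contra hij
    exact Finset.disjoint_left.1 (hd i j hij) hi hj
  have hinj : Function.Injective φ := by
    intro e e' hee
    obtain ⟨i, j, x, y, h1, -, hx, hy, -, h2⟩ := hφ e
    obtain ⟨i', j', x', y', h1', -, hx', hy', -, h2'⟩ := hφ e'
    apply Subtype.ext
    rw [h1, h1']
    rw [h2, h2', Sym2.eq_iff] at hee
    rcases hee with ⟨rfl, rfl⟩ | ⟨rfl, rfl⟩
    · rw [idx i i' x hx hx', idx j j' y hy hy']
    · rw [idx i j' x hx hy', idx j i' y hy hx', Sym2.eq_swap]
  have : Fintype H.edgeSet := Fintype.ofFinite _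
  set E1 : Finset (Sym2 W) := Finset.univ.biUnion fun i => (Ein_finite G' (B i)).toFinset with hE1
  set E2 : Finset (Sym2 W) := Finset.univ.image φ with hE2
  have hE1m : ∀ e ∈ E1, ∃ i, ∃ x ∈ B i, ∃ y ∈ B i, G'.Adj x y ∧ e = s(x, y) := by
    intro e he
    rw [hE1, Finset.mem_biUnion] at he
    obtain ⟨i, -, hi⟩ := he
    rw [Set.Finite.mem_toFinset] at hi
    exact ⟨i, mem_Ein hi⟩
  have hE2m : ∀ e ∈ E2, ∃ i j x y, H.Adj i j ∧ x ∈ B i ∧ y ∈ B j ∧ G'.Adj x y ∧ e = s(x, y) := by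
    intro e he
    rw [hE2, Finset.mem_image] at he
    obtain ⟨e', -, rfl⟩ := he
    obtain ⟨i, j, x, y, -, h⟩ := hφ e'
    exact ⟨i, j, x, y, h⟩
  have hdis : Disjoint E1 E2 := by
    rw [Finset.disjoint_left]
    intro e h1 h2
    obtain ⟨k, x, hx, y, hy, -, h3⟩ := hE1m e h1
    obtain ⟨i, j, x', y', hij, hx', hy', -, h4⟩ := hE2m e h2
    rw [h3, Sym2.eq_iff] at h4
    apply hij.ne
    rcases h4 with ⟨rfl, rfl⟩ | ⟨rfl, rfl⟩
    · rw [idx i k x hx' hx, idx j k y hy' hy]
    · rw [idx i k y hx' hy, idx j k x hy' hx]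
  have hc1 : E1.card = ∑ i, (Ein_finite G' (B i)).toFinset.card := by
    rw [hE1]
    apply Finset.card_biUnion
    intro i _ j _ hij
    rw [Function.onFun, Finset.disjoint_left]
    intro e h1 h2
    rw [Set.Finite.mem_toFinset] at h1 h2
    obtain ⟨x, hx, y, hy, -, h3⟩ := mem_Ein h1
    obtain ⟨x', hx', y', hy', -, h4⟩ := mem_Ein h2
    rw [h3, Sym2.eq_iff] at h4
    rcases h4 with ⟨rfl, rfl⟩ | ⟨rfl, rfl⟩
    · exact hij (idx i j x hx hx')
    · exact hij (idx i j x hx hy')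
  have hc2 : E2.card = Nat.card H.edgeSet := by
    rw [hE2, Finset.card_image_of_injective _ hinj, Finset.card_univ, Nat.card_eq_fintype_card]
  have hX : (Finset.univ.biUnion B).card = ∑ i, (B i).card := by
    apply Finset.card_biUnion
    intro i _ j _ hij
    exact hd i j hij
  refine ⟨Finset.univ.biUnion B, E1 ∪ E2, fun i => ?_, ?_, ?_⟩
  · intro x hx
    exact Finset.mem_biUnion.2 ⟨i, Finset.mem_univ _, hx⟩
  · intro e he
    rcases Finset.mem_union.1 he with he | he
    · obtain ⟨i, x, hx, y, hy, hxy, rfl⟩ := hE1m e he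
      refine ⟨hxy, fun z hz => ?_⟩
      rw [Sym2.mem_iff] at hz
      rcases hz with rfl | rfl
      · exact Finset.mem_biUnion.2 ⟨i, Finset.mem_univ _, hx⟩
      · exact Finset.mem_biUnion.2 ⟨i, Finset.mem_univ _, hy⟩
    · obtain ⟨i, j, x, y, -, hx, hy, hxy, rfl⟩ := hE2m e he
      refine ⟨hxy, fun z hz => ?_⟩
      rw [Sym2.mem_iff] at hz
      rcases hz with rfl | rfl
      · exact Finset.mem_biUnion.2 ⟨i, Finset.mem_univ _, hx⟩
      · exact Finset.mem_biUnion.2 ⟨j, Finset.mem_univ _, hy⟩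
  · rw [Finset.card_union_of_disjoint hdis, hc1, hc2, hX]
    have h1 : ∑ i, (B i).card ≤ ∑ i, ((Ein_finite G' (B i)).toFinset.card + 1) :=
      Finset.sum_le_sum fun i _ => card_Ein (hB i)
    rw [Finset.sum_add_distrib] at h1
    have h2 : ∑ _i : α, 1 = Nat.card α := by simp
    rw [h2] at h1
    omega

end Pool.Agent.Lib.MPbafc89.BQ
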