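import Pool.Agent.Lib.MP_bafc89_co.BQ.Spec

/-!
# Module BOU: a system of size `c` and radius `l + 1` gives the induced minor
-/

set_option autoImplicit false

namespace Pool.Agent.Lib.MPbafc89.BQ

open SimpleGraph

universe u v

namespace BOUM

variable {V : Type u} {G : SimpleGraph V}

/-- the two ends of the legs -/
def Tl {c : ℕ} (l : ℕ) (m : Fin c → ℕ) (a : Fin c → ℤ → V) : Fin c × Bool → Set V
  | (i, false) => {x | ∃ s : ℤ, -((l : ℤ) + 2) ≤ s ∧ s ≤ -1 ∧ a i s = x}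
  | (i, true) => {x | ∃ s : ℤ, (m i : ℤ) ≤ s ∧ s ≤ (l : ℤ) + 2 ∧ a i s = x}

/-- the big branch set -/
def FF {c : ℕ} (l : ℕ) (m : Fin c → ℕ) (a : Fin c → ℤ → V) (Hb : Set V) : Set V :=
  Hb ∪ ⋃ p, Tl l m a p

/-- the branch sets -/
def BB {c : ℕ} (l : ℕ) (m : Fin c → ℕ) (a : Fin c → ℤ → V) (Hb : Set V) :
    Option (Σ i : Fin c, Fin (m i)) → Set V
  | none => FF l m a Hb
  | some q => {a q.1 ((q.2.val : ℕ) : ℤ)}

theorem ff_cn {c l : ℕ} {m : Fin c → ℕ} (hm : ∀ i, m i ≤ l) {a : Fin c → ℤ → V} {Hb : Set V}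
    (h : Sys G (l + 1) c a Hb) : Cn G (FF l m a Hb) := by
  refine h.cn.union_iUnion ?_ ?_
  · rintro ⟨i, b⟩
    have := hm i
    cases b
    · exact (h.geo i).cn (by omega) (by omega) (by omega)
    · exact (h.geo i).cn (by omega) (by omega) (by omega)
  · rintro ⟨i, b⟩
    have := hm i
    cases b
    · refine ⟨a i (-(((l + 1 : ℕ) : ℤ) + 1)), h.neg i, -(((l + 1 : ℕ) : ℤ) + 1), ?_, ?_, rfl⟩
      · push_cast; omega
      · push_cast; omega
    · refine ⟨a i (((l + 1 : ℕ) : ℤ) + 1), h.pos i, ((l + 1 : ℕ) : ℤ) + 1, ?_, ?_, rfl⟩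
      · push_cast; omega
      · push_cast; omega

theorem leg_far (hG : G.Connected) {c l : ℕ} {a : Fin c → ℤ → V} {Hb : Set V}
    (h : Sys G (l + 1) c a Hb) {i j : Fin c} (hij : i ≠ j) {s t : ℤ} (hs : s.natAbs ≤ l + 2)
    (ht : t.natAbs ≤ l + 2) :
    2 * l + 6 ≤ G.dist (a i s) (a j t) + s.natAbs + t.natAbs := by
  have h1 := h.sep i j hij
  have h2 := h.geo i 0 s (by simp) (by omega)
  have h3 := h.geo j t 0 (by omega) (by simp)
  have h4 := hG.dist_triangle (u := a i 0) (v := a i s) (w := a j 0)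
  have h5 := hG.dist_triangle (u := a i s) (v := a j t) (w := a j 0)
  omega

theorem hub_far (hG : G.Connected) {c l : ℕ} {a : Fin c → ℤ → V} {Hb : Set V}
    (h : Sys G (l + 1) c a Hb) {i : Fin c} {s : ℤ} (hs : s.natAbs ≤ l + 2) {x : V}
    (hx : x ∈ Hb) : l + 2 ≤ G.dist (a i s) x + s.natAbs := by
  have h1 := h.far i x hx
  have h2 := h.geo i 0 s (by simp) (by omega)
  have h4 := hG.dist_triangle (u := a i 0) (v := a i s) (w := x)
  omega

theorem ff_dist (hG : G.Connected) {c l : ℕ} {m : Fin c → ℕ} (hm : ∀ i, m i ≤ l)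
    {a : Fin c → ℤ → V} {Hb : Set V} (h : Sys G (l + 1) c a Hb) (i : Fin c) (q : ℕ)
    (hq : q < m i) {x : V} (hx : x ∈ FF l m a Hb) :
    1 ≤ G.dist (a i (q : ℤ)) x ∧ (G.dist (a i (q : ℤ)) x = 1 → (q = 0 ∨ q + 1 = m i)) := by
  have hmi := hm i
  rcases hx with hx | hx
  · have h1 := hub_far hG h (i := i) (s := (q : ℤ)) (by omega) hx
    omega
  · obtain ⟨⟨j, b⟩, hx⟩ := Set.mem_iUnion.mp hx
    have key : ∃ t : ℤ, t.natAbs ≤ l + 2 ∧ (t ≤ -1 ∨ (m j : ℤ) ≤ t) ∧ a j t = x := by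
      cases b
      · obtain ⟨t, h1, h2, h3⟩ := hx
        exact ⟨t, by omega, Or.inl h2, h3⟩
      · obtain ⟨t, h1, h2, h3⟩ := hx
        exact ⟨t, by omega, Or.inr h1, h3⟩
    obtain ⟨t, h1, h2, rfl⟩ := key
    by_cases hij : i = j
    · subst hij
      have h3 := h.geo i (q : ℤ) t (by omega) (by omega)
      rw [h3]
      omega
    · have h3 := leg_far hG h hij (s := (q : ℤ)) (t := t) (by omega) h1
      omega

theorem leg_dist (hG : G.Connected) {c l : ℕ} {m : Fin c → ℕ} (hm : ∀ i, m i ≤ l)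
    {a : Fin c → ℤ → V} {Hb : Set V} (h : Sys G (l + 1) c a Hb)
    (p q : Σ i : Fin c, Fin (m i)) (hpq : p ≠ q) :
    1 ≤ G.dist (a p.1 ((p.2.val : ℕ) : ℤ)) (a q.1 ((q.2.val : ℕ) : ℤ)) ∧
    (G.dist (a p.1 ((p.2.val : ℕ) : ℤ)) (a q.1 ((q.2.val : ℕ) : ℤ)) = 1 ↔
      (p.1 = q.1 ∧ (p.2.val + 1 = q.2.val ∨ q.2.val + 1 = p.2.val))) := by
  obtain ⟨i, s⟩ := p
  obtain ⟨j, t⟩ := q
  have hi := hm i
  have hj := hm j
  have hs := s.2
  have ht := t.2
  by_cases hij : i = j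
  · subst hij
    have hst : s.val ≠ t.val := fun h1 => hpq (by rw [Fin.ext h1])
    have h3 := h.geo i (s.val : ℤ) (t.val : ℤ) (by omega) (by omega)
    show 1 ≤ G.dist (a i ((s.val : ℕ) : ℤ)) (a i ((t.val : ℕ) : ℤ)) ∧
      (G.dist (a i ((s.val : ℕ) : ℤ)) (a i ((t.val : ℕ) : ℤ)) = 1 ↔
      (i = i ∧ (s.val + 1 = t.val ∨ t.val + 1 = s.val)))
    rw [h3]
    refine ⟨by omega, ⟨fun h4 => ⟨rfl, by omega⟩, fun h4 => ?_⟩⟩
    obtain ⟨-, h4⟩ := h4
    omega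
  · have h3 := leg_far hG h hij (s := (s.val : ℤ)) (t := (t.val : ℤ)) (by omega) (by omega)
    show 1 ≤ G.dist (a i ((s.val : ℕ) : ℤ)) (a j ((t.val : ℕ) : ℤ)) ∧
      (G.dist (a i ((s.val : ℕ) : ℤ)) (a j ((t.val : ℕ) : ℤ)) = 1 ↔
      (i = j ∧ (s.val + 1 = t.val ∨ t.val + 1 = s.val)))
    refine ⟨by omega, ⟨fun h4 => ?_, fun h4 => absurd h4.1 hij⟩⟩
    omega

end BOUM

open BOUM in
/-- the module BOU -/
theorem specBOU : SpecBOU.{u} := by
  intro V G hG c l m hm2 hml a Hb h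
  have hnone : ∀ q : Σ i : Fin c, Fin (m i), ((q.2.val = 0 ∨ q.2.val + 1 = m q.1) ↔
      ∃ x ∈ FF l m a Hb, G.Adj (a q.1 ((q.2.val : ℕ) : ℤ)) x) := by
    intro q
    have hml' := hml q.1
    have hq := q.2.2
    constructor
    · rintro (hq0 | hq1)
      · refine ⟨a q.1 (-1), Or.inr (Set.mem_iUnion.mpr ⟨(q.1, false), -1, by omega, by omega, rfl⟩), ?_⟩
        rw [← dist_eq_one_iff_adj, h.geo q.1 _ _ (by omega) (by omega)]
        omega
      · refine ⟨a q.1 (m q.1), Or.inr (Set.mem_iUnion.mpr ⟨(q.1, true), (m q.1 : ℤ), by omega,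
          by omega, rfl⟩), ?_⟩
        rw [← dist_eq_one_iff_adj, h.geo q.1 _ _ (by omega) (by omega)]
        omega
    · rintro ⟨x, hx, hadj⟩
      rw [← dist_eq_one_iff_adj] at hadj
      exact (ff_dist hG hml h q.1 q.2.val q.2.2 hx).2 hadj
  refine ⟨BB l m a Hb, ?_, ?_, ?_⟩
  · rintro (_ | q)
    · exact cn_iff.mp (ff_cn hml h)
    · exact cn_iff.mp (Cn.singleton _)
  · rintro (_ | p) (_ | q) hpq
    · exact absurd rfl hpq
    · rw [Set.disjoint_left]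
      intro x hx hx'
      have h1 := (ff_dist hG hml h q.1 q.2.val q.2.2 hx).1
      have h2 : x = a q.1 ((q.2.val : ℕ) : ℤ) := hx'
      rw [h2, SimpleGraph.dist_self] at h1
      omega
    · rw [Set.disjoint_left]
      intro x hx' hx
      have h1 := (ff_dist hG hml h p.1 p.2.val p.2.2 hx).1
      have h2 : x = a p.1 ((p.2.val : ℕ) : ℤ) := hx'
      rw [h2, SimpleGraph.dist_self] at h1
      omega
    · rw [Set.disjoint_left]
      intro x hx hx'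
      have h1 := (leg_dist hG hml h p q (fun h0 => hpq (by rw [h0]))).1
      have h2 : x = a p.1 ((p.2.val : ℕ) : ℤ) := hx
      have h3 : x = a q.1 ((q.2.val : ℕ) : ℤ) := hx'
      rw [← h2, ← h3, SimpleGraph.dist_self] at h1
      omega
  · rintro (_ | p) (_ | q) hpq
    · exact absurd rfl hpq
    · show (q.2.val = 0 ∨ q.2.val + 1 = m q.1) ↔ ∃ x ∈ FF l m a Hb,
        ∃ y ∈ ({a q.1 ((q.2.val : ℕ) : ℤ)} : Set V), G.Adj x y
      rw [hnone q]
      constructor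
      · rintro ⟨x, hx, hadj⟩
        exact ⟨x, hx, _, rfl, hadj.symm⟩
      · rintro ⟨x, hx, y, hy, hadj⟩
        have hy' : y = a q.1 ((q.2.val : ℕ) : ℤ) := hy
        rw [hy'] at hadj
        exact ⟨x, hx, hadj.symm⟩
    · show (p.2.val = 0 ∨ p.2.val + 1 = m p.1) ↔ ∃ x ∈ ({a p.1 ((p.2.val : ℕ) : ℤ)} : Set V),
        ∃ y ∈ FF l m a Hb, G.Adj x y
      rw [hnone p]
      constructor
      · rintro ⟨x, hx, hadj⟩
        exact ⟨_, rfl, x, hx, hadj⟩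
      · rintro ⟨x, hx, y, hy, hadj⟩
        have hx' : x = a p.1 ((p.2.val : ℕ) : ℤ) := hx
        rw [hx'] at hadj
        exact ⟨y, hy, hadj⟩
    · have h1 := (leg_dist hG hml h p q (fun h0 => hpq (by rw [h0]))).2
      show (p.1 = q.1 ∧ (p.2.val + 1 = q.2.val ∨ q.2.val + 1 = p.2.val)) ↔
        ∃ x ∈ ({a p.1 ((p.2.val : ℕ) : ℤ)} : Set V), ∃ y ∈ ({a q.1 ((q.2.val : ℕ) : ℤ)} : Set V),
        G.Adj x y
      rw [← h1, dist_eq_one_iff_adj]
      constructor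
      · intro hadj
        exact ⟨_, rfl, _, rfl, hadj⟩
      · rintro ⟨x, hx, y, hy, hadj⟩
        have hx' : x = a p.1 ((p.2.val : ℕ) : ℤ) := hx
        have hy' : y = a q.1 ((q.2.val : ℕ) : ℤ) := hy
        rw [hx', hy'] at hadj
        exact hadj

end Pool.Agent.Lib.MPbafc89.BQ
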