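import Pool.Agent.Lib.MP_bafc89_co.BQ.Spec

/-!
# Module BUP: upper bound for the number of edges
-/

set_option autoImplicit false

namespace Pool.Agent.Lib.MPbafc89.BQ

open SimpleGraph

universe u

namespace BUPM

/-- the end of larger level -/
theorem exists_up {W : Type u} {Γ : SimpleGraph W} {lev : W → ℕ} (hT : LevTree Γ lev)
    (e : Sym2 W) (he : e ∈ Γ.edgeSet) :
    ∃ x y, e = s(x, y) ∧ Γ.Adj x y ∧ lev y < lev x := by
  induction e using Sym2.ind with
  | _ a b =>
    rw [SimpleGraph.mem_edgeSet] at he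
    rcases lt_or_gt_of_ne (hT.ne a b he) with h | h
    · exact ⟨b, a, Sym2.eq_swap, he.symm, h⟩
    · exact ⟨a, b, rfl, he, h⟩

end BUPM

/-- **BUP**.  Upper bound for the number of edges. -/
theorem specBUP : SpecBUP.{u} := by
  classical
  intro W G' Γ lev k p q hT hG X hX E hE
  obtain ⟨x0, hx0, hmin⟩ := X.exists_min_image lev hX
  have : Nonempty W := ⟨x0⟩
  have h0 : ∀ e : Sym2 W, e ∈ Γ.edgeSet → ∃ x y, e = s(x, y) ∧ Γ.Adj x y ∧ lev y < lev x :=
    fun e he => BUPM.exists_up hT e he
  choose! up lo hup using h0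
  have h1 : (E.filter (fun e => e ∈ Γ.edgeSet)).card ≤ (X.erase x0).card := by
    refine Finset.card_le_card_of_injOn up ?_ ?_
    · intro e he
      rw [Finset.mem_coe, Finset.mem_filter] at he
      obtain ⟨h2, h3, h4⟩ := hup e he.2
      have h5 : ∀ x ∈ s(up e, lo e), x ∈ X := by
        rw [← h2]
        exact (hE e he.1).2
      have h6 : up e ∈ X := h5 _ (Sym2.mem_mk_left _ _)
      have h7 : lo e ∈ X := h5 _ (Sym2.mem_mk_right _ _)
      rw [Finset.mem_coe, Finset.mem_erase]
      refine ⟨?_, h6⟩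
      intro h8
      have h9 := hmin _ h7
      rw [h8] at h4
      omega
    · intro e he e' he' hee
      rw [Finset.mem_coe, Finset.mem_filter] at he he'
      obtain ⟨h2, h3, h4⟩ := hup e he.2
      obtain ⟨h2', h3', h4'⟩ := hup e' he'.2
      have hee' : up e = up e' := hee
      rw [← hee'] at h3' h4' h2'
      have h5 := hT.uniq (up e) (lo e) (lo e') h3 h3' h4 h4'
      rw [h2, h2', h5]
  have h2 : (E.filter (fun e => ¬ e ∈ Γ.edgeSet)).card ≤ k := by
    have h3 : (E.filter (fun e => ¬ e ∈ Γ.edgeSet)) ⊆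
        Finset.univ.image (fun j : Fin k => s(p j, q j)) := by
      intro e he
      rw [Finset.mem_filter] at he
      obtain ⟨h4, h5⟩ := he
      have h6 := (hE e h4).1
      rw [Finset.mem_image]
      induction e using Sym2.ind with
      | _ a b =>
        rw [SimpleGraph.mem_edgeSet] at h6
        rcases hG a b h6 with h7 | ⟨j, h7⟩
        · exact absurd ((SimpleGraph.mem_edgeSet Γ).2 h7) h5
        · refine ⟨j, Finset.mem_univ _, ?_⟩
          rcases h7 with ⟨h8, h9⟩ | ⟨h8, h9⟩
          · rw [h8, h9]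
          · rw [h8, h9]
            exact Sym2.eq_swap
    refine (Finset.card_le_card h3).trans (Finset.card_image_le.trans ?_)
    rw [Finset.card_univ, Fintype.card_fin]
  have h3 := Finset.card_filter_add_card_filter_not (s := E) (fun e => e ∈ Γ.edgeSet)
  rw [Finset.card_erase_of_mem hx0] at h1
  have h4 := Finset.card_pos.mpr hX
  omega

end Pool.Agent.Lib.MPbafc89.BQ
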