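import Mathlib

/-!
# Connected sets and geodesic segments in graphs (toolkit)

Helper file for `MP_bafc89_co` (bouquets of cycles).
-/

set_option autoImplicit false

namespace Pool.Agent.Lib.MPbafc89.BQ

open SimpleGraph

universe u v

variable {V : Type u} {G : SimpleGraph V}

/-- `x` and `y` are joined by a walk of `G` all of whose vertices are in `S`. -/
def Jn (G : SimpleGraph V) (S : Set V) (x y : V) : Prop :=
  ∃ w : G.Walk x y, ∀ z ∈ w.support, z ∈ S

/-- `S` is nonempty and connected in `G`. -/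
def Cn (G : SimpleGraph V) (S : Set V) : Prop :=
  S.Nonempty ∧ ∀ x ∈ S, ∀ y ∈ S, Jn G S x y

theorem Jn.refl {S : Set V} {x : V} (hx : x ∈ S) : Jn G S x x :=
  ⟨Walk.nil, fun z hz => by
    rw [Walk.support_nil, List.mem_singleton] at hz
    rw [hz]; exact hx⟩

theorem Jn.symm {S : Set V} {x y : V} (h : Jn G S x y) : Jn G S y x := by
  obtain ⟨w, hw⟩ := h
  refine ⟨w.reverse, fun z hz => hw z ?_⟩
  rw [Walk.support_reverse, List.mem_reverse] at hz
  exact hz

theorem Jn.trans {S : Set V} {x y z : V} (h : Jn G S x y) (h' : Jn G S y z) : Jn G S x z := by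
  obtain ⟨w, hw⟩ := h
  obtain ⟨w', hw'⟩ := h'
  refine ⟨w.append w', fun t ht => ?_⟩
  rw [Walk.mem_support_append_iff] at ht
  rcases ht with ht | ht
  · exact hw t ht
  · exact hw' t ht

theorem Jn.mono {S T : Set V} {x y : V} (h : Jn G S x y) (hST : S ⊆ T) : Jn G T x y := by
  obtain ⟨w, hw⟩ := h
  exact ⟨w, fun z hz => hST (hw z hz)⟩

theorem Jn.adj {S : Set V} {x y : V} (hx : x ∈ S) (hy : y ∈ S) (h : G.Adj x y) :
    Jn G S x y := by
  refine ⟨Walk.cons h Walk.nil, fun z hz => ?_⟩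
  rw [Walk.support_cons, Walk.support_nil] at hz
  rcases List.mem_cons.mp hz with rfl | hz
  · exact hx
  · rw [List.mem_singleton] at hz
    rw [hz]; exact hy

theorem Jn.left {S : Set V} {x y : V} (h : Jn G S x y) : x ∈ S := by
  obtain ⟨w, hw⟩ := h
  exact hw x w.start_mem_support

theorem Jn.right {S : Set V} {x y : V} (h : Jn G S x y) : y ∈ S := by
  obtain ⟨w, hw⟩ := h
  exact hw y w.end_mem_support

/-- induction along a joining walk -/
theorem Jn.induct {S : Set V} {x y : V} (h : Jn G S x y) (P : V → Prop) (h0 : P x)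
    (hs : ∀ a b, a ∈ S → b ∈ S → G.Adj a b → P a → P b) : P y := by
  obtain ⟨w, hw⟩ := h
  induction w with
  | nil => exact h0
  | @cons a b c hab p ih =>
    have ha : a ∈ S := hw a (by simp)
    have hb : b ∈ S := hw b (by simp)
    exact ih (hs a b ha hb hab h0) (fun z hz => hw z (by simp [hz]))

theorem Cn.of_center {S : Set V} {c : V} (hc : c ∈ S) (h : ∀ x ∈ S, Jn G S c x) : Cn G S :=
  ⟨⟨c, hc⟩, fun x hx y hy => (h x hx).symm.trans (h y hy)⟩

theorem Cn.singleton (x : V) : Cn G ({x} : Set V) := by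
  refine Cn.of_center (Set.mem_singleton x) fun y hy => ?_
  rw [Set.mem_singleton_iff] at hy
  subst hy
  exact Jn.refl (Set.mem_singleton y)

theorem Jn.of_reach {S : Set V} {x y : S} (h : (G.induce S).Reachable x y) :
    Jn G S (x : V) (y : V) := by
  obtain ⟨w⟩ := h
  induction w with
  | @nil a => exact Jn.refl a.2
  | @cons a b c hab p ih =>
    have h1 : G.Adj (a : V) (b : V) := by simpa using hab
    exact (Jn.adj a.2 b.2 h1).trans ih

theorem Jn.reach {S : Set V} {x y : V} (h : Jn G S x y) :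
    (G.induce S).Reachable ⟨x, h.left⟩ ⟨y, h.right⟩ := by
  have key : ∀ (x y : V) (w : G.Walk x y) (hw : ∀ z ∈ w.support, z ∈ S),
      (G.induce S).Reachable ⟨x, hw x w.start_mem_support⟩ ⟨y, hw y w.end_mem_support⟩ := by
    intro x y w
    induction w with
    | nil => intro hw; exact Reachable.refl _
    | @cons a b c hab p ih =>
      intro hw
      have h2 := ih (fun z hz => hw z (by simp [hz]))
      refine Reachable.trans (SimpleGraph.Adj.reachable ?_) h2
      simpa using hab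
  obtain ⟨w, hw⟩ := h
  exact key x y w hw

theorem cn_iff {S : Set V} : Cn G S ↔ (G.induce S).Connected := by
  rw [SimpleGraph.connected_iff_exists_forall_reachable]
  constructor
  · rintro ⟨⟨c, hc⟩, h⟩
    exact ⟨⟨c, hc⟩, fun x => (h c hc x x.2).reach⟩
  · rintro ⟨c, h⟩
    exact Cn.of_center c.2 fun x hx => Jn.of_reach (h ⟨x, hx⟩)

theorem Cn.union {S T : Set V} (hS : Cn G S) (hT : Cn G T) {c : V} (h1 : c ∈ S) (h2 : c ∈ T) :
    Cn G (S ∪ T) := by
  refine Cn.of_center (Or.inl h1) ?_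
  rintro x (hx | hx)
  · exact (hS.2 c h1 x hx).mono Set.subset_union_left
  · exact (hT.2 c h2 x hx).mono Set.subset_union_right

theorem Cn.union_adj {S T : Set V} (hS : Cn G S) (hT : Cn G T) {c d : V} (h1 : c ∈ S)
    (h2 : d ∈ T) (hcd : G.Adj c d) : Cn G (S ∪ T) := by
  refine Cn.of_center (c := c) (Or.inl h1) ?_
  rintro x (hx | hx)
  · exact (hS.2 c h1 x hx).mono Set.subset_union_left
  · have h3 : Jn G (S ∪ T) c d := Jn.adj (Or.inl h1) (Or.inr h2) hcd
    exact h3.trans ((hT.2 d h2 x hx).mono Set.subset_union_right)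

/-- a connected set with many connected sets attached to it -/
theorem Cn.union_iUnion {ι : Sort v} {S : Set V} {T : ι → Set V} (hS : Cn G S)
    (hT : ∀ i, Cn G (T i)) (h : ∀ i, ∃ x, x ∈ S ∧ x ∈ T i) : Cn G (S ∪ ⋃ i, T i) := by
  obtain ⟨c, hc⟩ := hS.1
  refine Cn.of_center (c := c) (Or.inl hc) ?_
  rintro x (hx | hx)
  · exact (hS.2 c hc x hx).mono Set.subset_union_left
  · obtain ⟨i, hi⟩ := Set.mem_iUnion.mp hx
    obtain ⟨y, hy1, hy2⟩ := h i
    refine ((hS.2 c hc y hy1).mono Set.subset_union_left).trans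
      (((hT i).2 y hy2 x hi).mono ?_)
    exact (Set.subset_iUnion T i).trans Set.subset_union_right

/-- a union of connected sets indexed by a connected set of another graph -/
theorem Cn.map {W : Type v} {Z : SimpleGraph W} {F : Set W} {Φ : W → Set V} (hF : Cn Z F)
    (h1 : ∀ y ∈ F, Cn G (Φ y))
    (h2 : ∀ y ∈ F, ∀ y' ∈ F, Z.Adj y y' → ∃ x ∈ Φ y, ∃ x' ∈ Φ y', x = x' ∨ G.Adj x x') :
    Cn G {x | ∃ y ∈ F, x ∈ Φ y} := by
  obtain ⟨⟨c, hc⟩, hF2⟩ := hF
  obtain ⟨⟨c0, hc0⟩, -⟩ := h1 c hc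
  have hsub : ∀ y ∈ F, Φ y ⊆ {x | ∃ y ∈ F, x ∈ Φ y} := fun y hy x hx => ⟨y, hy, hx⟩
  refine Cn.of_center (c := c0) ⟨c, hc, hc0⟩ ?_
  rintro x ⟨y, hy, hx⟩
  have key : ∀ y, Jn Z F c y → ∀ x ∈ Φ y, Jn G {x | ∃ y ∈ F, x ∈ Φ y} c0 x := by
    intro y hy
    refine hy.induct (P := fun y => ∀ x ∈ Φ y, Jn G {x | ∃ y ∈ F, x ∈ Φ y} c0 x) ?_ ?_
    · intro x hx
      exact ((h1 c hc).2 c0 hc0 x hx).mono (hsub c hc)
    · intro a b ha hb hab hPa x hx
      obtain ⟨u, hu, u', hu', huu⟩ := h2 a ha b hb hab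
      have h3 : Jn G {x | ∃ y ∈ F, x ∈ Φ y} u u' := by
        rcases huu with rfl | huu
        · exact Jn.refl ⟨a, ha, hu⟩
        · exact Jn.adj ⟨a, ha, hu⟩ ⟨b, hb, hu'⟩ huu
      exact ((hPa u hu).trans h3).trans (((h1 b hb).2 u' hu' x hx).mono (hsub b hb))
  exact key y (hF2 c hc y hy) x hx

/-- `a : ℤ → V` is a geodesic segment with centre `a 0` on `[-L, L]`. -/
def Geod (G : SimpleGraph V) (L : ℕ) (a : ℤ → V) : Prop :=
  ∀ s t : ℤ, s.natAbs ≤ L → t.natAbs ≤ L → G.dist (a s) (a t) = (s - t).natAbs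

theorem Geod.mono {L L' : ℕ} {a : ℤ → V} (h : Geod G L a) (hL : L' ≤ L) : Geod G L' a :=
  fun s t hs ht => h s t (hs.trans hL) (ht.trans hL)

theorem Geod.shift {L L' : ℕ} {a : ℤ → V} (h : Geod G L a) {c : ℤ} (hc : c.natAbs + L' ≤ L) :
    Geod G L' (fun t => a (c + t)) := by
  intro s t hs ht
  have := h (c + s) (c + t) (by omega) (by omega)
  rw [this]
  congr 1
  ring

theorem Geod.neg {L : ℕ} {a : ℤ → V} (h : Geod G L a) : Geod G L (fun t => a (-t)) := by
  intro s t hs ht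
  have := h (-s) (-t) (by omega) (by omega)
  show G.dist (a (-s)) (a (-t)) = _
  rw [this]
  omega

theorem Geod.adj {L : ℕ} {a : ℤ → V} (h : Geod G L a) {s : ℤ} (hs : s.natAbs ≤ L)
    (hs' : (s + 1).natAbs ≤ L) : G.Adj (a s) (a (s + 1)) := by
  rw [← dist_eq_one_iff_adj, h s (s + 1) hs hs']
  omega

theorem cn_of_path {a : ℤ → V} {p q : ℤ} (hpq : p ≤ q)
    (h : ∀ s : ℤ, p ≤ s → s < q → G.Adj (a s) (a (s + 1))) : Cn G {x | ∃ s, p ≤ s ∧ s ≤ q ∧ a s = x} := by
  refine Cn.of_center (c := a p) ⟨p, le_rfl, hpq, rfl⟩ ?_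
  rintro x ⟨s, hs1, hs2, rfl⟩
  have key : ∀ n : ℕ, p + n ≤ q → Jn G {x | ∃ s, p ≤ s ∧ s ≤ q ∧ a s = x} (a p) (a (p + n)) := by
    intro n
    induction n with
    | zero =>
      intro _
      rw [Nat.cast_zero, add_zero]
      exact Jn.refl ⟨p, le_rfl, hpq, rfl⟩
    | succ n ih =>
      intro hn
      have h1 : p + (n : ℤ) ≤ q := by push_cast at hn; omega
      have h2 := h (p + n) (by omega) (by push_cast at hn; omega)
      have h3 : p + ((n + 1 : ℕ) : ℤ) = p + n + 1 := by push_cast; ring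
      rw [h3]
      exact (ih h1).trans (Jn.adj ⟨_, by omega, h1, rfl⟩
        ⟨_, by omega, by push_cast at hn; omega, rfl⟩ h2)
  have := key (s - p).toNat (by omega)
  have h4 : p + ((s - p).toNat : ℤ) = s := by omega
  rw [h4] at this
  exact this

/-- a part of a geodesic segment is connected -/
theorem Geod.cn {L : ℕ} {a : ℤ → V} (h : Geod G L a) {p q : ℤ} (hpq : p ≤ q)
    (hp : p.natAbs ≤ L) (hq : q.natAbs ≤ L) : Cn G {x | ∃ s, p ≤ s ∧ s ≤ q ∧ a s = x} :=
  cn_of_path hpq fun s h1 h2 => h.adj (by omega) (by omega)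

/-- `g : ℕ → V` is a geodesic on `[0, D]` -/
def Geo (G : SimpleGraph V) (D : ℕ) (g : ℕ → V) : Prop :=
  ∀ s t : ℕ, s ≤ t → t ≤ D → G.dist (g s) (g t) = t - s

theorem exists_geo (hG : G.Connected) (x y : V) :
    ∃ g : ℕ → V, g 0 = x ∧ g (G.dist x y) = y ∧ Geo G (G.dist x y) g := by
  obtain ⟨w, hw⟩ := hG.exists_walk_length_eq_dist x y
  refine ⟨fun n => w.getVert n, ?_, ?_, ?_⟩
  · show w.getVert 0 = x
    exact w.getVert_zero
  · show w.getVert (G.dist x y) = y
    rw [← hw]; exact w.getVert_length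
  · have h1 : ∀ s t : ℕ, s ≤ t → t ≤ w.length → G.dist (w.getVert s) (w.getVert t) ≤ t - s := by
      intro s t hst ht
      obtain ⟨n, rfl⟩ := Nat.exists_eq_add_of_le hst
      clear hst
      induction n with
      | zero => simp
      | succ n ih =>
        have h2 := ih (by omega)
        have h3 := w.adj_getVert_succ (i := s + n) (by omega)
        have h4 : G.dist (w.getVert (s + n)) (w.getVert (s + n + 1)) = 1 :=
          dist_eq_one_iff_adj.mpr h3
        have h5 := hG.dist_triangle (u := w.getVert s) (v := w.getVert (s + n))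
          (w := w.getVert (s + n + 1))
        have h6 : s + (n + 1) = s + n + 1 := rfl
        rw [h6]
        omega
    intro s t hst ht
    have ht' : t ≤ w.length := by omega
    have a1 := h1 s t hst ht'
    have a2 := h1 0 s (Nat.zero_le _) (by omega)
    have a3 := h1 t w.length ht' le_rfl
    rw [w.getVert_zero] at a2
    rw [w.getVert_length] at a3
    have a4 := hG.dist_triangle (u := x) (v := w.getVert s) (w := y)
    have a5 := hG.dist_triangle (u := w.getVert s) (v := w.getVert t) (w := y)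
    show G.dist (w.getVert s) (w.getVert t) = t - s
    omega

theorem Geo.adj {D : ℕ} {g : ℕ → V} (h : Geo G D g) {s : ℕ} (hs : s + 1 ≤ D) :
    G.Adj (g s) (g (s + 1)) := by
  rw [← dist_eq_one_iff_adj, h s (s + 1) (by omega) hs]
  omega

/-- a part of a geodesic is connected -/
theorem Geo.cn {D : ℕ} {g : ℕ → V} (h : Geo G D g) {p q : ℕ} (hpq : p ≤ q) (hq : q ≤ D) :
    Cn G {x | ∃ s, p ≤ s ∧ s ≤ q ∧ g s = x} := by
  have h1 := cn_of_path (G := G) (a := fun s : ℤ => g s.toNat) (p := p) (q := q) (by omega)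
    (fun s h1 h2 => by
      have h3 : (s + 1).toNat = s.toNat + 1 := by omega
      show G.Adj (g s.toNat) (g (s + 1).toNat)
      rw [h3]
      exact h.adj (by omega))
  have h2 : {x | ∃ s : ℤ, (p : ℤ) ≤ s ∧ s ≤ q ∧ g s.toNat = x} = {x | ∃ s, p ≤ s ∧ s ≤ q ∧ g s = x} := by
    ext x
    constructor
    · rintro ⟨s, h1, h2, h3⟩
      exact ⟨s.toNat, by omega, by omega, h3⟩
    · rintro ⟨s, h1, h2, h3⟩
      exact ⟨(s : ℤ), by omega, by omega, by simpa using h3⟩
  rw [← h2]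
  exact h1

/-- a geodesic of `G` from `x` to `y` is a centred segment around each of its inner points -/
theorem Geo.geod {D : ℕ} {g : ℕ → V} (h : Geo G D g) {c L : ℕ} (h1 : L ≤ c) (h2 : c + L ≤ D) :
    Geod G L (fun t : ℤ => g (c + t).toNat) := by
  intro s t hs ht
  show G.dist (g ((c : ℤ) + s).toNat) (g ((c : ℤ) + t).toNat) = (s - t).natAbs
  rcases le_total s t with hst | hst
  · rw [h _ _ (by omega) (by omega)]
    omega
  · rw [SimpleGraph.dist_comm, h _ _ (by omega) (by omega)]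
    omega

theorem ball_cn (hG : G.Connected) (x : V) (n : ℕ) : Cn G {y | G.dist x y ≤ n} := by
  have hx : x ∈ {y | G.dist x y ≤ n} := by simp
  refine Cn.of_center hx ?_
  intro y hy
  obtain ⟨g, h0, h1, hg⟩ := exists_geo hG x y
  have h2 := (hg.cn (p := 0) (q := G.dist x y) (Nat.zero_le _) le_rfl).2 x ⟨0, le_rfl,
    Nat.zero_le _, h0⟩ y ⟨_, Nat.zero_le _, le_rfl, h1⟩
  refine h2.mono ?_
  rintro z ⟨s, -, hs, rfl⟩
  have h3 := hg 0 s (Nat.zero_le _) hs
  rw [h0] at h3
  have h4 : G.dist x y ≤ n := hy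
  show G.dist x (g s) ≤ n
  omega

/-- a shortest walk inside a set: vertices and lengths -/
theorem Jn.exists_length {S : Set V} {x y : V} (h : Jn G S x y) :
    ∃ (n : ℕ) (g : ℕ → V), g 0 = x ∧ g n = y ∧ (∀ s ≤ n, g s ∈ S) ∧
      ∀ s < n, G.Adj (g s) (g (s + 1)) := by
  obtain ⟨w, hw⟩ := h
  exact ⟨w.length, fun n => w.getVert n, w.getVert_zero, w.getVert_length,
    fun s _ => hw _ (w.getVert_mem_support s), fun s hs => w.adj_getVert_succ hs⟩

/-- a path given by a function is connected -/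
theorem cn_of_fun {g : ℕ → V} {p q : ℕ} (hpq : p ≤ q) (h : ∀ s, p ≤ s → s < q → G.Adj (g s) (g (s + 1))) :
    Cn G {x | ∃ s, p ≤ s ∧ s ≤ q ∧ g s = x} := by
  have h1 := cn_of_path (G := G) (a := fun s : ℤ => g s.toNat) (p := p) (q := q) (by omega)
    (fun s h1 h2 => by
      have h3 : (s + 1).toNat = s.toNat + 1 := by omega
      show G.Adj (g s.toNat) (g (s + 1).toNat)
      rw [h3]
      exact h _ (by omega) (by omega))
  have h2 : {x | ∃ s : ℤ, (p : ℤ) ≤ s ∧ s ≤ q ∧ g s.toNat = x} = {x | ∃ s, p ≤ s ∧ s ≤ q ∧ g s = x} := by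
    ext x
    constructor
    · rintro ⟨s, h1, h2, h3⟩
      exact ⟨s.toNat, by omega, by omega, h3⟩
    · rintro ⟨s, h1, h2, h3⟩
      exact ⟨(s : ℤ), by omega, by omega, by simpa using h3⟩
  rw [← h2]
  exact h1

end Pool.Agent.Lib.MPbafc89.BQ
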