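import Pool.Agent.Lib.MP_bafc89_co.BQ.Spec

/-!
# CLD: clusters of the layering partition are small (MP_bafc89_co)
-/

set_option autoImplicit false

namespace Pool.Agent.Lib.MPbafc89.BQ

open SimpleGraph

universe u v

namespace CLDM

variable {W : Type u} {Z : SimpleGraph W}

theorem meets {s D c : ℕ} {g : ℕ → W} {x y : W}
    (hno : ∀ (α : ℤ → W) (F : Set W), ¬ Loop Z s α F) (hg : Geo Z D g) (h0 : g 0 = x)
    (h1 : g D = y) (hc1 : s + 1 ≤ c) (hc2 : c + (s + 1) ≤ D) {P : Set W} (hP : Cn Z P)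
    (hx : x ∈ P) (hy : y ∈ P) : ∃ z ∈ P, Z.dist (g c) z ≤ s := by
  by_contra hcon
  push Not at hcon
  have hA : Cn Z {z | ∃ t, 0 ≤ t ∧ t ≤ c - (s + 1) ∧ g t = z} :=
    hg.cn (Nat.zero_le _) (by omega)
  have hB : Cn Z {z | ∃ t, c + (s + 1) ≤ t ∧ t ≤ D ∧ g t = z} :=
    hg.cn hc2 le_rfl
  have hPA := hP.union hA hx ⟨0, le_rfl, Nat.zero_le _, h0⟩
  have hPAB := hPA.union hB (Or.inl hy) ⟨D, hc2, le_rfl, h1⟩
  refine hno (fun t : ℤ => g (c + t).toNat) _ ⟨hg.geod hc1 hc2, hPAB, ?_, ?_, ?_⟩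
  · right
    refine ⟨c + (s + 1), le_rfl, hc2, ?_⟩
    show g (c + (s + 1)) = g ((c : ℤ) + ((s : ℤ) + 1)).toNat
    congr 1
  · left; right
    refine ⟨c - (s + 1), Nat.zero_le _, le_rfl, ?_⟩
    show g (c - (s + 1)) = g ((c : ℤ) + (-((s : ℤ) + 1))).toNat
    congr 1
    omega
  · intro z hz
    show s < Z.dist (g ((c : ℤ) + 0).toNat) z
    have hc0 : ((c : ℤ) + 0).toNat = c := by omega
    rw [hc0]
    rcases hz with (hz | ⟨t, -, ht, rfl⟩) | ⟨t, ht1, ht2, rfl⟩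
    · exact hcon z hz
    · rw [SimpleGraph.dist_comm, hg t c (by omega) (by omega)]
      omega
    · rw [hg c t (by omega) ht2]
      omega

end CLDM

theorem specCLD : SpecCLD.{u} := by
  intro W Z hZ s hno o x y hxy hJ
  by_contra hD
  push Not at hD
  obtain ⟨g, hg0, hg1, hg⟩ := exists_geo hZ x y
  obtain ⟨D, hDd⟩ : ∃ D, Z.dist x y = D := ⟨_, rfl⟩
  rw [hDd] at hg hg1 hD
  obtain ⟨c, hc⟩ : ∃ c, c = D / 2 := ⟨_, rfl⟩
  have hc1 : 3 * s + 1 ≤ c := by omega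
  have hc2 : c + (3 * s + 1) ≤ D := by omega
  have hmx : Z.dist (g c) x = c := by
    have := hg 0 c (Nat.zero_le _) (by omega)
    rw [hg0, SimpleGraph.dist_comm] at this
    omega
  have hmy : Z.dist (g c) y = D - c := by
    have := hg c D (by omega) le_rfl
    rw [hg1] at this
    exact this
  -- the walk in the upper half
  obtain ⟨n, k, hk0, hkn, hkS, hkadj⟩ := hJ.exists_length
  have hP1 : Cn Z {z | ∃ t, 0 ≤ t ∧ t ≤ n ∧ k t = z} :=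
    cn_of_fun (Nat.zero_le _) fun t _ ht => hkadj t ht
  obtain ⟨z1, ⟨t1, -, ht1, hz1⟩, hz1m⟩ := CLDM.meets hno hg hg0 hg1 (c := c) (by omega) (by omega)
    hP1 ⟨0, le_rfl, Nat.zero_le _, hk0⟩ ⟨n, Nat.zero_le _, le_rfl, hkn⟩
  have hz1L : Z.dist o x ≤ Z.dist o z1 := by
    rw [← hz1]; exact hkS t1 ht1
  have hLm : Z.dist o z1 ≤ Z.dist o (g c) + Z.dist (g c) z1 := hZ.dist_triangle
  -- the geodesics from `o`
  obtain ⟨p, hp0, hp1, hp⟩ := exists_geo hZ o x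
  obtain ⟨q, hq0, hq1, hq⟩ := exists_geo hZ o y
  have hP2 : Cn Z ({z | ∃ t, 0 ≤ t ∧ t ≤ Z.dist o x ∧ p t = z} ∪
      {z | ∃ t, 0 ≤ t ∧ t ≤ Z.dist o y ∧ q t = z}) :=
    (hp.cn (Nat.zero_le _) le_rfl).union (hq.cn (Nat.zero_le _) le_rfl)
      ⟨0, le_rfl, Nat.zero_le _, hp0⟩ ⟨0, le_rfl, Nat.zero_le _, hq0⟩
  obtain ⟨z2, hz2, hz2m⟩ := CLDM.meets hno hg hg0 hg1 (c := c) (by omega) (by omega) hP2
    (Or.inl ⟨_, Nat.zero_le _, le_rfl, hp1⟩) (Or.inr ⟨_, Nat.zero_le _, le_rfl, hq1⟩)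
  have hLm2 : Z.dist o (g c) ≤ Z.dist o z2 + Z.dist z2 (g c) := hZ.dist_triangle
  rw [SimpleGraph.dist_comm (u := z2)] at hLm2
  rcases hz2 with ⟨t, -, ht, rfl⟩ | ⟨t, -, ht, rfl⟩
  · have h1 := hp 0 t (Nat.zero_le _) ht
    rw [hp0] at h1
    have h2 := hp t _ ht le_rfl
    rw [hp1] at h2
    have h3 : Z.dist (g c) x ≤ Z.dist (g c) (p t) + Z.dist (p t) x := hZ.dist_triangle
    omega
  · have h1 := hq 0 t (Nat.zero_le _) ht
    rw [hq0] at h1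
    have h2 := hq t _ ht le_rfl
    rw [hq1] at h2
    have h3 : Z.dist (g c) y ≤ Z.dist (g c) (q t) + Z.dist (q t) y := hZ.dist_triangle
    omega

end Pool.Agent.Lib.MPbafc89.BQ
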