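import Pool.Agent.Lib.MP_bafc89_co.BQ.Spec

/-! MP_bafc89_co, module CMP: far from the new vertices the metrics of `ZZ` and `G` agree
(helper61). -/

set_option autoImplicit false

namespace Pool.Agent.Lib.MPbafc89.BQ

open SimpleGraph

universe u

namespace CMPM

variable {V : Type u} {G : SimpleGraph V} {r k : ℕ} {a : Fin k → ℤ → V} {Hb : Set V}

theorem exists_att (j : Fin k) (x : V) (hx : x ∈ bd G r a j) : ∃ c, Att G r a Hb c x := by
  by_cases hP : x ∈ HH G r a Hb ∧ G.dist (a j (-(20 * (r : ℤ) + 21))) x ≤ 6 * r + 5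
  · exact ⟨(j, false), hx, ⟨fun _ => hP, fun _ => rfl⟩⟩
  · exact ⟨(j, true), hx, ⟨fun h => by simp at h, fun h => absurd h hP⟩⟩

/-- vertices of a walk of `ZZ` without new vertices -/
theorem walkW (hG : G.Connected) (y : ↥(UU G r a)) (D : ℕ)
    (g : ℕ → ↥(UU G r a) ⊕ (Fin k × Bool)) (h0 : g 0 = .inl y)
    (hadj : ∀ t, t < D → (ZZ G r a Hb).Adj (g t) (g (t + 1)))
    (hnew : ∀ t, t ≤ D → ∀ c, g t ≠ .inr c) :
    ∀ t, t ≤ D → ∃ u : ↥(UU G r a), g t = .inl u ∧ G.dist (y : V) (u : V) ≤ t := by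
  intro t
  induction t with
  | zero =>
    intro _
    exact ⟨y, h0, by rw [SimpleGraph.dist_self]⟩
  | succ t ih =>
    intro ht
    obtain ⟨u, hu, hd⟩ := ih (by omega)
    rcases hgt : g (t + 1) with u' | c
    · refine ⟨u', rfl, ?_⟩
      have h1 := hadj t (by omega)
      rw [hu, hgt] at h1
      have h2 : G.Adj (u : V) (u' : V) := h1
      have h3 : G.dist (u : V) (u' : V) = 1 := dist_eq_one_iff_adj.mpr h2
      have h4 := hG.dist_triangle (u := (y : V)) (v := (u : V)) (w := (u' : V))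
      omega
    · exact absurd hgt (hnew (t + 1) ht c)

/-- the distance of `G` is at most the distance of `ZZ` -/
theorem distW (hG : G.Connected) (hZ : (ZZ G r a Hb).Connected) (x1 : ↥(UU G r a)) (s : ℕ)
    (hs : ∀ c, s < (ZZ G r a Hb).dist (.inl x1) (.inr c)) (y y' : ↥(UU G r a))
    (h : (ZZ G r a Hb).dist (.inl x1) (.inl y) + (ZZ G r a Hb).dist (.inl y) (.inl y') ≤ s) :
    G.dist (y : V) (y' : V) ≤ (ZZ G r a Hb).dist (.inl y) (.inl y') := by
  obtain ⟨g, h0, h1, hg⟩ := exists_geo hZ (.inl y) (.inl y')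
  obtain ⟨u, hu, hd⟩ := walkW (Hb := Hb) hG y ((ZZ G r a Hb).dist (.inl y) (.inl y')) g h0
    (fun t ht => hg.adj (by omega))
    (fun t ht c hc => by
      have h2 := hg 0 t (Nat.zero_le _) ht
      rw [h0, hc] at h2
      have h3 := hZ.dist_triangle (u := .inl x1) (v := .inl y) (w := .inr c)
      have h4 := hs c
      omega) _ le_rfl
  rw [h1] at hu
  have h5 : y' = u := Sum.inl.inj hu
  rw [h5] at hd ⊢
  exact hd

end CMPM

open CMPM

/-- **CMP**. -/
theorem specCMP (hHFA : SpecHFA.{u}) (hZCO : SpecZCO.{u}) : SpecCMP.{u} := by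
  intro V G r k a Hb hS x1 s hs
  have hG : G.Connected := hS.conn
  have hZ : (ZZ G r a Hb).Connected := hZCO V G r k a Hb hS
  obtain ⟨-, -, -, -, -, -, h7, -⟩ := hHFA V G r k a Hb hS
  -- a boundary point is next to a new vertex
  have hbd : ∀ (j : Fin k) (y : V) (hy : y ∈ UU G r a), y ∈ bd G r a j →
      ∃ c, (ZZ G r a Hb).Adj (.inl ⟨y, hy⟩) (.inr c) := by
    intro j y hy hyb
    obtain ⟨c, hc⟩ := exists_att (Hb := Hb) j y hyb
    exact ⟨c, hc⟩
  have hA : ∀ n, n ≤ s → ∀ y : V, G.dist (x1 : V) y = n → Jn G (UU G r a) (x1 : V) y ∧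
      ∀ hy : y ∈ UU G r a, (ZZ G r a Hb).dist (.inl x1) (.inl ⟨y, hy⟩) ≤ n := by
    intro n
    induction n with
    | zero =>
      intro _ y hy
      have h1 : (x1 : V) = y := (hG.dist_eq_zero_iff).mp hy
      subst h1
      exact ⟨Jn.refl x1.2, fun _ => by rw [SimpleGraph.dist_self]⟩
    | succ n ih =>
      intro hn y hy
      obtain ⟨g, h0, h1, hg⟩ := exists_geo hG (x1 : V) y
      rw [hy] at h1 hg
      have hdn := hg 0 n (Nat.zero_le _) (by omega)
      rw [h0] at hdn
      have hadj : G.Adj (g n) y := by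
        have := hg.adj (s := n) (by omega)
        rwa [h1] at this
      obtain ⟨hJ, hZd⟩ := ih (by omega) (g n) (by omega)
      have hgU : g n ∈ UU G r a := hJ.right
      have hZn := hZd hgU
      have hyU : y ∈ UU G r a := by
        by_contra hyn
        obtain ⟨j, hj⟩ := h7 y (g n) hyn hgU hadj.symm
        obtain ⟨c, hc⟩ := hbd j (g n) hgU hj
        have e1 := dist_eq_one_iff_adj.mpr hc
        have e2 := hZ.dist_triangle (u := .inl x1) (v := .inl ⟨g n, hgU⟩) (w := .inr c)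
        have e3 := hs c
        omega
      refine ⟨hJ.trans (Jn.adj hgU hyU hadj), fun hy' => ?_⟩
      have e0 : (ZZ G r a Hb).Adj (.inl ⟨g n, hgU⟩) (.inl ⟨y, hy'⟩) := hadj
      have e1 := dist_eq_one_iff_adj.mpr e0
      have e2 := hZ.dist_triangle (u := .inl x1) (v := .inl ⟨g n, hgU⟩) (w := .inl ⟨y, hy'⟩)
      omega
  refine ⟨fun y hy => ?_, fun j y hy => ?_, fun y y' h => ?_⟩
  · obtain ⟨h1, h2⟩ := hA _ hy y rfl
    refine ⟨h1, fun hyU => le_antisymm (h2 hyU) ?_⟩
    refine distW hG hZ x1 s hs x1 ⟨y, hyU⟩ ?_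
    have := h2 hyU
    rw [SimpleGraph.dist_self]
    omega
  · by_contra hc
    push Not at hc
    obtain ⟨h1, h2⟩ := hA _ hc.le y rfl
    have hyU : y ∈ UU G r a := h1.right
    obtain ⟨c, hcc⟩ := hbd j y hyU hy
    have e1 := dist_eq_one_iff_adj.mpr hcc
    have e2 := hZ.dist_triangle (u := .inl x1) (v := .inl ⟨y, hyU⟩) (w := .inr c)
    have e3 := hs c
    have e4 := h2 hyU
    omega
  · have hle := distW hG hZ x1 s hs y y' h
    refine le_antisymm hle ?_
    have hx1y : G.dist (x1 : V) (y : V) ≤ (ZZ G r a Hb).dist (.inl x1) (.inl y) := by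
      refine distW hG hZ x1 s hs x1 y ?_
      rw [SimpleGraph.dist_self]
      omega
    obtain ⟨g, h0, h1, hg⟩ := exists_geo hG (y : V) (y' : V)
    have hU : ∀ t, t ≤ G.dist (y : V) (y' : V) → g t ∈ UU G r a := by
      intro t ht
      have e1 := hg 0 t (Nat.zero_le _) ht
      rw [h0] at e1
      have e2 := hG.dist_triangle (u := (x1 : V)) (v := (y : V)) (w := g t)
      exact (hA _ (by omega) (g t) rfl).1.right
    have key : ∀ t (ht : t ≤ G.dist (y : V) (y' : V)),
        (ZZ G r a Hb).dist (.inl y) (.inl ⟨g t, hU t ht⟩) ≤ t := by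
      intro t
      induction t with
      | zero =>
        intro ht
        have e1 : (⟨g 0, hU 0 ht⟩ : ↥(UU G r a)) = y := Subtype.ext h0
        rw [e1, SimpleGraph.dist_self]
      | succ t ih =>
        intro ht
        have e0 : (ZZ G r a Hb).Adj (.inl ⟨g t, hU t (by omega)⟩) (.inl ⟨g (t + 1), hU (t + 1) ht⟩) :=
          hg.adj ht
        have e1 := dist_eq_one_iff_adj.mpr e0
        have e2 := hZ.dist_triangle (u := .inl y) (v := .inl ⟨g t, hU t (by omega)⟩)
          (w := .inl ⟨g (t + 1), hU (t + 1) ht⟩)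
        have e3 := ih (by omega)
        omega
    have h2 := key _ le_rfl
    have e1 : (⟨g (G.dist (y : V) (y' : V)), hU _ le_rfl⟩ : ↥(UU G r a)) = y' := Subtype.ext h1
    rwa [e1] at h2

end Pool.Agent.Lib.MPbafc89.BQ
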