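import Pool.Agent.Lib.MP_bafc89_co.BQ.Spec3

set_option autoImplicit false

namespace Pool.Agent.Lib.MPbafc89.BQ

open SimpleGraph

universe u v

namespace CN1M

theorem sum_fib {W : Type u} [DecidableEq W] (X B : Finset W) {ι : Type u} [Fintype ι]
    [DecidableEq ι] (s : ι → W) (hs : ∀ e, s e ∈ X) :
    ∑ v ∈ X \ B, (Finset.univ.filter fun e => s e = v).card =
      (Finset.univ.filter fun e => s e ∉ B).card := by
  classical
  rw [Finset.card_eq_sum_card_fiberwise (f := s) (s := Finset.univ.filter fun e => s e ∉ B)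
    (t := X \ B)]
  · refine Finset.sum_congr rfl fun v hv => ?_
    congr 1
    ext e
    simp only [Finset.mem_filter, Finset.mem_univ, true_and]
    constructor
    · intro h
      rw [h]
      exact ⟨(Finset.mem_sdiff.mp hv).2, rfl⟩
    · intro h
      exact h.2
  · intro e he
    have he' : s e ∉ B := by simpa using he
    exact Finset.mem_coe.mpr (Finset.mem_sdiff.mpr ⟨hs e, he'⟩)

end CN1M

theorem specCN1 : SpecCN1.{u} := by
  classical
  intro W _ X B ι _ _ s t k d hBX hst hcard hB hd hdeg
  have h1 := CN1M.sum_fib X B s (fun e => (hst e).1)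
  have h2 := CN1M.sum_fib X B t (fun e => (hst e).2)
  -- counting edges
  have h3 : (Finset.univ.filter fun e => s e ∉ B).card + (Finset.univ.filter fun e => t e ∉ B).card
      + 2 * (Finset.univ.filter fun e => s e ∈ B ∧ t e ∈ B).card
      + (Finset.univ.filter fun e => (s e ∈ B ∧ t e ∉ B) ∨ (s e ∉ B ∧ t e ∈ B)).card
      = 2 * Fintype.card ι := by
    simp only [Finset.card_filter]
    rw [Finset.mul_sum, ← Finset.sum_add_distrib, ← Finset.sum_add_distrib,
      ← Finset.sum_add_distrib]
    have : ∀ e ∈ (Finset.univ : Finset ι), ((((if s e ∉ B then 1 else 0) +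
        (if t e ∉ B then 1 else 0)) + 2 * (if s e ∈ B ∧ t e ∈ B then 1 else 0)) +
        (if (s e ∈ B ∧ t e ∉ B) ∨ (s e ∉ B ∧ t e ∈ B) then 1 else 0)) = 2 := by
      intro e _
      by_cases h1 : s e ∈ B <;> by_cases h2 : t e ∈ B <;> simp [h1, h2]
    rw [Finset.sum_congr rfl this]
    simp [mul_comm]
  -- degrees
  have h4 : 2 * (X \ B).card ≤ (∑ v ∈ X \ B, ((Finset.univ.filter fun e => s e = v).card +
      (Finset.univ.filter fun e => t e = v).card)) +
      ((X \ B).filter fun v => (Finset.univ.filter fun e => s e = v).card +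
        (Finset.univ.filter fun e => t e = v).card = 1).card := by
    rw [Finset.card_filter, ← Finset.sum_add_distrib, mul_comm, ← smul_eq_mul]
    refine Finset.card_nsmul_le_sum _ _ _ ?_
    intro v hv
    have := hdeg v hv
    split_ifs with h
    · omega
    · omega
  rw [Finset.sum_add_distrib, h1, h2] at h4
  have h5 := Finset.card_sdiff_add_card_eq_card hBX
  omega

end Pool.Agent.Lib.MPbafc89.BQ
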