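import Pool.Agent.Lib.MP_bafc89_co.BQ.Spec3
import Pool.Agent.Lib.MP_bafc89_co.BQ.BLO

/-!
# Module CN2: a flower minor of a tree plus `k` edges gives incomparable vertices
-/

set_option autoImplicit false

namespace Pool.Agent.Lib.MPbafc89.BQ

open SimpleGraph

universe u v

namespace CN2M

theorem lev_par {W : Type u} {Γ : SimpleGraph W} {lev : W → ℕ} {par : W → W} {root : W}
    (h0 : lev root = 0) (hr : par root = root)
    (hp : ∀ P, P ≠ root → Γ.Adj P (par P) ∧ lev (par P) + 1 = lev P) (P : W) :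
    lev (par P) = lev P - 1 := by
  by_cases h : P = root
  · rw [h, hr, h0]
  · have := (hp P h).2
    omega

theorem lev_iter {W : Type u} {Γ : SimpleGraph W} {lev : W → ℕ} {par : W → W} {root : W}
    (h0 : lev root = 0) (hr : par root = root)
    (hp : ∀ P, P ≠ root → Γ.Adj P (par P) ∧ lev (par P) + 1 = lev P) (i : ℕ) (P : W) :
    lev (par^[i] P) = lev P - i := by
  induction i with
  | zero => simp
  | succ i ih =>
    rw [Function.iterate_succ_apply', lev_par h0 hr hp, ih]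
    omega

theorem eq_root {W : Type u} {Γ : SimpleGraph W} {lev : W → ℕ} {par : W → W} {root : W}
    (hp : ∀ P, P ≠ root → Γ.Adj P (par P) ∧ lev (par P) + 1 = lev P) (P : W) (h : lev P = 0) :
    P = root := by
  by_contra hne
  have := (hp P hne).2
  omega

theorem leaves (hCN1 : SpecCN1.{u}) {W : Type u} [DecidableEq W] {G' Γ : SimpleGraph W}
    {lev : W → ℕ} {par : W → W} {root : W} {k : ℕ} {p q : Fin k → W} (hT : LevTree Γ lev)
    (h0 : lev root = 0) (hr : par root = root)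
    (hp : ∀ P, P ≠ root → Γ.Adj P (par P) ∧ lev (par P) + 1 = lev P)
    (hG : ∀ P Q, G'.Adj P Q → Γ.Adj P Q ∨ ∃ j, (P = p j ∧ Q = q j) ∨ (P = q j ∧ Q = p j))
    {j0 : Fin k} (hj0 : p j0 = root) (X B0 : Finset W) (hX : ∀ v ∈ X, par v ∈ X)
    (hpX : ∀ j, p j ∈ X) (hqX : ∀ j, q j ∈ X) (hBX : B0 ⊆ X) (hBn : B0.Nonempty)
    (E0 : Finset (Sym2 W))
    (hE : ∀ e ∈ E0, ∃ x ∈ B0, ∃ y ∈ B0, G'.Adj x y ∧ e = s(x, y))
    (hEc : B0.card ≤ E0.card + 1)
    {ν : Type} [Fintype ν] (φ ψ : ν → W) (hφ : ∀ u, φ u ∈ B0) (hψ : ∀ u, ψ u ∈ X)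
    (hψ' : ∀ u, ψ u ∉ B0) (hinj : Function.Injective ψ) (hadj : ∀ u, G'.Adj (φ u) (ψ u)) :
    ∃ L : Finset W, L ⊆ X ∧ Fintype.card ν ≤ 2 * k + L.card ∧
      ∀ v ∈ L, v ≠ root ∧ (∀ j, p j ≠ v ∧ q j ≠ v) ∧ ∀ v' ∈ X, v' ≠ root → par v' ≠ v := by
  classical
  have hXr : root ∈ X := hj0 ▸ hpX j0
  obtain ⟨sf, hsf⟩ : ∃ sf : (↥(X.erase root)) ⊕ ULift.{u} (Fin k) → W,
      sf = Sum.elim (fun v => v.1) (fun j => p j.down) := ⟨_, rfl⟩
  obtain ⟨tf, htf⟩ : ∃ tf : (↥(X.erase root)) ⊕ ULift.{u} (Fin k) → W,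
      tf = Sum.elim (fun v => par v.1) (fun j => q j.down) := ⟨_, rfl⟩
  have hsl : ∀ v, sf (Sum.inl v) = v.1 := fun v => by rw [hsf]; rfl
  have hsr : ∀ j, sf (Sum.inr j) = p j.down := fun v => by rw [hsf]; rfl
  have htl : ∀ v, tf (Sum.inl v) = par v.1 := fun v => by rw [htf]; rfl
  have htr : ∀ j, tf (Sum.inr j) = q j.down := fun v => by rw [htf]; rfl
  have hmem : ∀ v : ↥(X.erase root), v.1 ∈ X ∧ v.1 ≠ root := fun v =>
    ⟨Finset.mem_of_mem_erase v.2, Finset.ne_of_mem_erase v.2⟩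
  have hst : ∀ e, sf e ∈ X ∧ tf e ∈ X := by
    rintro (v | j)
    · rw [hsl, htl]
      exact ⟨(hmem v).1, hX _ (hmem v).1⟩
    · rw [hsr, htr]
      exact ⟨hpX _, hqX _⟩
  have hup : ∀ P Q, P ∈ X → Γ.Adj P Q → lev Q < lev P → ∃ e, sf e = P ∧ tf e = Q := by
    intro P Q hP hPQ hl
    have hPr : P ≠ root := by
      rintro rfl
      omega
    refine ⟨Sum.inl ⟨P, Finset.mem_erase.mpr ⟨hPr, hP⟩⟩, hsl _, ?_⟩
    rw [htl]
    have h1 := (hp P hPr).2
    have h2 : lev (par P) < lev P := by omega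
    exact hT.uniq P _ _ (hp P hPr).1 hPQ h2 hl
  have hedge : ∀ P Q, P ∈ X → Q ∈ X → G'.Adj P Q → ∃ e, s(sf e, tf e) = s(P, Q) := by
    intro P Q hP hQ hPQ
    rcases hG P Q hPQ with h1 | ⟨j, ⟨rfl, rfl⟩ | ⟨rfl, rfl⟩⟩
    · rcases lt_or_gt_of_ne (hT.ne P Q h1) with hl | hl
      · obtain ⟨e, he1, he2⟩ := hup Q P hQ h1.symm hl
        exact ⟨e, by rw [he1, he2, Sym2.eq_swap]⟩
      · obtain ⟨e, he1, he2⟩ := hup P Q hP h1 hl
        exact ⟨e, by rw [he1, he2]⟩
    · exact ⟨Sum.inr ⟨j⟩, by rw [hsr, htr]⟩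
    · exact ⟨Sum.inr ⟨j⟩, by rw [hsr, htr, Sym2.eq_swap]⟩
  have hcard : Fintype.card ((↥(X.erase root)) ⊕ ULift.{u} (Fin k)) + 1 ≤ X.card + k := by
    rw [Fintype.card_sum, Fintype.card_coe, Fintype.card_ulift, Fintype.card_fin,
      Finset.card_erase_of_mem hXr]
    have := Finset.card_pos.mpr ⟨root, hXr⟩
    omega
  have hin : B0.card ≤ (Finset.univ.filter fun e => sf e ∈ B0 ∧ tf e ∈ B0).card + 1 := by
    have h1 : E0 ⊆ (Finset.univ.filter fun e => sf e ∈ B0 ∧ tf e ∈ B0).image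
        (fun e => s(sf e, tf e)) := by
      intro e he
      obtain ⟨x, hx, y, hy, hxy, rfl⟩ := hE e he
      obtain ⟨e', he'⟩ := hedge x y (hBX hx) (hBX hy) hxy
      refine Finset.mem_image.mpr ⟨e', ?_, he'⟩
      rw [Finset.mem_filter]
      refine ⟨Finset.mem_univ _, ?_⟩
      rw [Sym2.eq_iff] at he'
      rcases he' with ⟨h2, h3⟩ | ⟨h2, h3⟩
      · rw [h2, h3]; exact ⟨hx, hy⟩
      · rw [h2, h3]; exact ⟨hy, hx⟩
    have h2 := (Finset.card_le_card h1).trans Finset.card_image_le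
    omega
  have hcross : Fintype.card ν ≤ (Finset.univ.filter fun e =>
      (sf e ∈ B0 ∧ tf e ∉ B0) ∨ (sf e ∉ B0 ∧ tf e ∈ B0)).card := by
    choose ε hε using fun u => hedge (φ u) (ψ u) (hBX (hφ u)) (hψ u) (hadj u)
    have hεinj : Function.Injective ε := by
      intro u u' huu
      have h1 : s(φ u, ψ u) = s(φ u', ψ u') := by rw [← hε u, ← hε u', huu]
      rw [Sym2.eq_iff] at h1
      rcases h1 with ⟨-, h2⟩ | ⟨h2, -⟩
      · exact hinj h2
      · exact absurd (h2 ▸ hφ u) (hψ' u')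
    rw [← Finset.card_univ, ← Finset.card_image_of_injective Finset.univ hεinj]
    apply Finset.card_le_card
    intro e he
    obtain ⟨u, -, rfl⟩ := Finset.mem_image.mp he
    rw [Finset.mem_filter]
    refine ⟨Finset.mem_univ _, ?_⟩
    have h1 := hε u
    rw [Sym2.eq_iff] at h1
    rcases h1 with ⟨h2, h3⟩ | ⟨h2, h3⟩
    · rw [h2, h3]
      exact Or.inl ⟨hφ u, hψ' u⟩
    · rw [h2, h3]
      exact Or.inr ⟨hψ' u, hφ u⟩
  have hs1 : ∀ v ∈ X, 1 ≤ (Finset.univ.filter fun e => sf e = v).card := by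
    intro v hv
    apply Finset.card_pos.mpr
    by_cases hvr : v = root
    · exact ⟨Sum.inr ⟨j0⟩, by rw [Finset.mem_filter, hsr]; exact ⟨Finset.mem_univ _, by rw [hvr]; exact hj0⟩⟩
    · exact ⟨Sum.inl ⟨v, Finset.mem_erase.mpr ⟨hvr, hv⟩⟩, by
        rw [Finset.mem_filter, hsl]; exact ⟨Finset.mem_univ _, rfl⟩⟩
  have hdeg : ∀ v ∈ X \ B0, 1 ≤ (Finset.univ.filter fun e => sf e = v).card +
      (Finset.univ.filter fun e => tf e = v).card := by
    intro v hv
    have := hs1 v (Finset.mem_sdiff.mp hv).1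
    omega
  have key := hCN1 W X B0 _ sf tf k (Fintype.card ν) hBX hst hcard hin hcross hdeg
  refine ⟨_, fun v hv => (Finset.mem_sdiff.mp (Finset.mem_filter.mp hv).1).1, key, ?_⟩
  intro v hv
  obtain ⟨hv1, hv2⟩ := Finset.mem_filter.mp hv
  obtain ⟨hvX, hvB⟩ := Finset.mem_sdiff.mp hv1
  have hsv := hs1 v hvX
  have htv : (Finset.univ.filter fun e => tf e = v).card = 0 := by omega
  have hsv1 : (Finset.univ.filter fun e => sf e = v).card = 1 := by omega
  have htv' : ∀ e, tf e ≠ v := by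
    intro e he
    rw [Finset.card_eq_zero] at htv
    have : e ∈ (Finset.univ.filter fun e => tf e = v) := by
      rw [Finset.mem_filter]; exact ⟨Finset.mem_univ _, he⟩
    rw [htv] at this
    simp at this
  have hvr : v ≠ root := by
    rintro rfl
    obtain ⟨x, hx⟩ := hBn
    have hxr : x ≠ v := fun h => hvB (h ▸ hx)
    have hxl : lev x ≠ 0 := fun h => hxr (eq_root hp x h)
    have hl := lev_iter h0 hr hp (lev x - 1) x
    have hne : par^[lev x - 1] x ≠ v := by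
      intro h
      rw [h, h0] at hl
      omega
    have hXi : ∀ i, par^[i] x ∈ X := by
      intro i
      induction i with
      | zero => exact hBX hx
      | succ i ih => rw [Function.iterate_succ_apply']; exact hX _ ih
    apply htv' (Sum.inl ⟨_, Finset.mem_erase.mpr ⟨hne, hXi (lev x - 1)⟩⟩)
    rw [htl]
    apply eq_root hp
    rw [lev_par h0 hr hp]
    show lev (par^[lev x - 1] x) - 1 = 0
    omega
  refine ⟨hvr, ?_, ?_⟩
  · intro j
    constructor
    · intro hj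
      rw [Finset.card_eq_one] at hsv1
      obtain ⟨e, he⟩ := hsv1
      have h1 : (Sum.inr ⟨j⟩ : (↥(X.erase root)) ⊕ ULift.{u} (Fin k)) ∈
          (Finset.univ.filter fun e => sf e = v) := by
        rw [Finset.mem_filter, hsr]; exact ⟨Finset.mem_univ _, hj⟩
      have h2 : (Sum.inl ⟨v, Finset.mem_erase.mpr ⟨hvr, hvX⟩⟩ :
          (↥(X.erase root)) ⊕ ULift.{u} (Fin k)) ∈ (Finset.univ.filter fun e => sf e = v) := by
        rw [Finset.mem_filter, hsl]; exact ⟨Finset.mem_univ _, rfl⟩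
      rw [he, Finset.mem_singleton] at h1 h2
      rw [← h1] at h2
      exact Sum.inl_ne_inr h2
    · intro hj
      exact htv' (Sum.inr ⟨j⟩) (by rw [htr]; exact hj)
  · intro v' hv' hv'r hpar
    exact htv' (Sum.inl ⟨v', Finset.mem_erase.mpr ⟨hv'r, hv'⟩⟩) (by rw [htl]; exact hpar)

end CN2M

theorem specCN2 (hBEF : SpecBEF.{u, 0}) (hCN1 : SpecCN1.{u}) : SpecCN2.{u} := by
  classical
  intro W G' Γ lev par root Gd k p q hT h0 hr hp hG hpq hrG hGd hj0 c h m n hm hn hmin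
  obtain ⟨j0, hj0⟩ := hj0
  obtain ⟨B, hB1, hB2, hB3⟩ := hBEF ↥Gd (G'.induce Gd) _ (flower m n) hmin
  have hlev := CN2M.lev_iter h0 hr hp
  have hiter : ∀ P, par^[lev P] P = root := fun P =>
    CN2M.eq_root hp _ (by rw [hlev]; omega)
  obtain ⟨Bw, hBw⟩ : ∃ Bw : Option ((Σ i : Fin c, Fin (m i)) ⊕ (Σ i : Fin h, Fin (n i))) →
      Finset W, ∀ x, Bw x = (B x).map (Function.Embedding.subtype _) := ⟨_, fun _ => rfl⟩
  have hmemB : ∀ x (v : W), v ∈ Bw x ↔ ∃ hv : v ∈ Gd, (⟨v, hv⟩ : ↥Gd) ∈ B x := by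
    intro x v
    rw [hBw, Finset.mem_map]
    constructor
    · rintro ⟨w, hw, rfl⟩
      exact ⟨w.2, hw⟩
    · rintro ⟨hv, hw⟩
      exact ⟨⟨v, hv⟩, hw, rfl⟩
  obtain ⟨S0, hS0⟩ : ∃ S0 : Finset W, S0 = (Finset.univ.biUnion Bw) ∪
    (Finset.univ.image p) ∪ (Finset.univ.image q) := ⟨_, rfl⟩
  have hS0G : ∀ y ∈ S0, y ∈ Gd := by
    intro y hy
    rw [hS0, Finset.mem_union, Finset.mem_union, Finset.mem_biUnion, Finset.mem_image,
      Finset.mem_image] at hy
    rcases hy with (⟨x, -, hx⟩ | ⟨j, -, rfl⟩) | ⟨j, -, rfl⟩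
    · exact ((hmemB x y).mp hx).1
    · exact (hpq j).1
    · exact (hpq j).2
  obtain ⟨X, hX⟩ : ∃ X : Finset W, X = S0.biUnion fun y =>
    (Finset.range (lev y + 1)).image fun i => par^[i] y := ⟨_, rfl⟩
  have hXm : ∀ v, v ∈ X ↔ ∃ y ∈ S0, ∃ i < lev y + 1, par^[i] y = v := by
    intro v
    rw [hX, Finset.mem_biUnion]
    constructor
    · rintro ⟨y, hy, hv⟩
      obtain ⟨i, hi, hiv⟩ := Finset.mem_image.mp hv
      exact ⟨y, hy, i, Finset.mem_range.mp hi, hiv⟩
    · rintro ⟨y, hy, i, hi, hiv⟩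
      exact ⟨y, hy, Finset.mem_image.mpr ⟨i, Finset.mem_range.mpr hi, hiv⟩⟩
  have hSX : ∀ y ∈ S0, y ∈ X := fun y hy => (hXm y).mpr ⟨y, hy, 0, by omega, rfl⟩
  have hXpar : ∀ v ∈ X, par v ∈ X := by
    intro v hv
    obtain ⟨y, hy, i, hi, rfl⟩ := (hXm v).mp hv
    by_cases hi' : i = lev y
    · rw [hi', hiter, hr]
      exact (hXm root).mpr ⟨y, hy, lev y, by omega, hiter y⟩
    · exact (hXm _).mpr ⟨y, hy, i + 1, by omega, Function.iterate_succ_apply' _ _ _⟩
  have hXi : ∀ i, ∀ v ∈ X, par^[i] v ∈ X := by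
    intro i v hv
    induction i with
    | zero => exact hv
    | succ i ih => rw [Function.iterate_succ_apply']; exact hXpar _ ih
  have hXG : ∀ v ∈ X, v ∈ Gd := by
    intro v hv
    obtain ⟨y, hy, i, -, rfl⟩ := (hXm v).mp hv
    have hyG := hS0G y hy
    clear hv
    induction i with
    | zero => exact hyG
    | succ i ih => rw [Function.iterate_succ_apply']; exact hGd _ ih
  have hpX : ∀ j, p j ∈ X := fun j => hSX _ (by
    rw [hS0]
    exact Finset.mem_union_left _ (Finset.mem_union_right _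
      (Finset.mem_image_of_mem p (Finset.mem_univ j))))
  have hqX : ∀ j, q j ∈ X := fun j => hSX _ (by
    rw [hS0]
    exact Finset.mem_union_right _ (Finset.mem_image_of_mem q (Finset.mem_univ j)))
  have hBX : ∀ x, Bw x ⊆ X := fun x y hy => hSX _ (by
    rw [hS0]
    exact Finset.mem_union_left _ (Finset.mem_union_left _
      (Finset.mem_biUnion.mpr ⟨x, Finset.mem_univ x, hy⟩)))
  have hBn : (Bw none).Nonempty := by
    obtain ⟨w, hw⟩ := (hB1 none).1
    exact ⟨w.1, (hmemB none w.1).mpr ⟨w.2, hw⟩⟩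
  -- the edges inside
  obtain ⟨E0, hE0⟩ : ∃ E0 : Finset (Sym2 W), E0 =
    (BLOM.Ein_finite (G'.induce Gd) (B none)).toFinset.image (Sym2.map Subtype.val) := ⟨_, rfl⟩
  have hE0c : (Bw none).card ≤ E0.card + 1 := by
    rw [hE0, Finset.card_image_of_injective _ (Sym2.map.injective Subtype.val_injective), hBw,
      Finset.card_map]
    exact BLOM.card_Ein (hB1 none)
  have hE0m : ∀ e ∈ E0, ∃ x ∈ Bw none, ∃ y ∈ Bw none, G'.Adj x y ∧ e = s(x, y) := by
    intro e he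
    rw [hE0, Finset.mem_image] at he
    obtain ⟨e', he', rfl⟩ := he
    rw [Set.Finite.mem_toFinset] at he'
    obtain ⟨x, hx, y, hy, hxy, rfl⟩ := BLOM.mem_Ein he'
    refine ⟨x.1, (hmemB none x.1).mpr ⟨x.2, hx⟩, y.1, (hmemB none y.1).mpr ⟨y.2, hy⟩, ?_, ?_⟩
    · simpa using hxy
    · simp
  -- the neighbours of the centre
  have hvx : ∃ vx : (Fin c × Bool) ⊕ Fin h →
      ((Σ i : Fin c, Fin (m i)) ⊕ (Σ i : Fin h, Fin (n i))), Function.Injective vx ∧
      ∀ u, (flower m n).Adj none (some (vx u)) := by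
    refine ⟨fun u => match u with
      | .inl (i, false) => .inl ⟨i, ⟨0, by have := hm i; omega⟩⟩
      | .inl (i, true) => .inl ⟨i, ⟨m i - 1, by have := hm i; omega⟩⟩
      | .inr i => .inr ⟨i, ⟨0, by have := hn i; omega⟩⟩, ?_, ?_⟩
    · rintro (⟨i, _ | _⟩ | i) (⟨i', _ | _⟩ | i') huu
      · simp only [Sum.inl.injEq, Sigma.mk.injEq] at huu
        rw [huu.1]
      · exfalso
        simp only [Sum.inl.injEq, Sigma.mk.injEq] at huu
        obtain ⟨h1, h2⟩ := huu
        subst h1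
        have h3 := congrArg Fin.val (eq_of_heq h2)
        have := hm i
        simp only at h3
        omega
      · exact absurd huu (by simp)
      · exfalso
        simp only [Sum.inl.injEq, Sigma.mk.injEq] at huu
        obtain ⟨h1, h2⟩ := huu
        subst h1
        have h3 := congrArg Fin.val (eq_of_heq h2)
        have := hm i
        simp only at h3
        omega
      · simp only [Sum.inl.injEq, Sigma.mk.injEq] at huu
        rw [huu.1]
      · exact absurd huu (by simp)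
      · exact absurd huu (by simp)
      · exact absurd huu (by simp)
      · simp only [Sum.inr.injEq, Sigma.mk.injEq] at huu
        rw [huu.1]
    · rintro (⟨i, _ | _⟩ | i)
      · exact Or.inl rfl
      · refine Or.inr ?_
        have := hm i
        show m i - 1 + 1 = m i
        omega
      · exact (rfl : (0 : ℕ) = 0)
  obtain ⟨vx, hvx1, hvx2⟩ := hvx
  have hxy : ∀ u, ∃ x y, x ∈ Bw none ∧ y ∈ Bw (some (vx u)) ∧ G'.Adj x y := by
    intro u
    obtain ⟨x, hx, y, hy, hxy⟩ := hB3 none (some (vx u)) (hvx2 u)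
    exact ⟨x.1, y.1, (hmemB _ _).mpr ⟨x.2, hx⟩, (hmemB _ _).mpr ⟨y.2, hy⟩, by simpa using hxy⟩
  choose φ ψ hφ hψ hφψ using hxy
  have hdis : ∀ x x' v, v ∈ Bw x → v ∈ Bw x' → x = x' := by
    intro x x' v hv hv'
    by_contra hne
    obtain ⟨h1, h2⟩ := (hmemB _ _).mp hv
    obtain ⟨h1', h2'⟩ := (hmemB _ _).mp hv'
    exact Finset.disjoint_left.mp (hB2 x x' hne) h2 h2'
  obtain ⟨L, hLX, hLc, hL⟩ := CN2M.leaves hCN1 hT h0 hr hp hG hj0 X (Bw none) hXpar hpX hqX
    (hBX none) hBn E0 hE0m hE0c φ ψ hφ (fun u => hBX _ (hψ u))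
    (fun u hu => Option.some_ne_none _ (hdis _ _ _ (hψ u) hu))
    (fun u u' huu => hvx1 (Option.some_injective _ (hdis _ _ _ (hψ u) (huu ▸ hψ u')))) hφψ
  have hcardν : Fintype.card ((Fin c × Bool) ⊕ Fin h) = 2 * c + h := by
    simp [Fintype.card_sum, Fintype.card_prod]
    ring
  have hle : 2 * c + h - 2 * k ≤ L.card := by omega
  have hno : ∀ v ∈ L, ∀ x ∈ X, ∀ i, par^[i] x = v → x = v := by
    intro v hv x hx i hi
    cases i with
    | zero => exact hi
    | succ i =>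
      exfalso
      rw [Function.iterate_succ_apply'] at hi
      by_cases hxr : par^[i] x = root
      · rw [hxr, hr] at hi
        exact (hL v hv).1 hi.symm
      · exact (hL v hv).2.2 _ (hXi i x hx) hxr hi
  refine ⟨fun b => (L.equivFin.symm (Fin.castLE hle b)).1, ?_, ?_, ?_⟩
  · intro b
    have hb := (L.equivFin.symm (Fin.castLE hle b)).2
    exact ⟨hXG _ (hLX hb), (hL _ hb).1⟩
  · intro b j i
    have hb := (L.equivFin.symm (Fin.castLE hle b)).2
    exact ⟨fun he => ((hL _ hb).2.1 j).1 (hno _ hb _ (hpX j) i he),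
      fun he => ((hL _ hb).2.1 j).2 (hno _ hb _ (hqX j) i he)⟩
  · intro b b' hbb i he
    have hb := (L.equivFin.symm (Fin.castLE hle b)).2
    have hb' := (L.equivFin.symm (Fin.castLE hle b')).2
    have h1 := hno _ hb _ (hLX hb') i he
    have h2 := L.equivFin.symm.injective (Subtype.ext h1)
    exact hbb (Fin.castLE_injective hle h2).symm

end Pool.Agent.Lib.MPbafc89.BQ
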