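import Pool.Agent.Lib.MP_bafc89_co.BQ.Spec

/-!
# CTH (MP_bafc89_co, bouquets of cycles): the connected case
-/

set_option autoImplicit false

namespace Pool.Agent.Lib.MPbafc89.BQ

open SimpleGraph

universe u v

theorem specCTH (hNOL : SpecNOL.{u}) (hQIG : SpecQIG.{u}) (hBUP : SpecBUP.{u})
    (hBEF : SpecBEF.{u, v}) (hBLO : SpecBLO.{u, v}) : SpecCTH.{u, v} := by
  intro V G r k a Hb hS c hkc
  obtain ⟨W, G', Γ, lev, p, q, f, hQI, hLT, hE⟩ :=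
    hQIG V G r k a Hb hS (S0 r k) (fun α F => hNOL V G r k a Hb hS α F)
  refine ⟨W, G', f, hQI, ?_⟩
  intro α _ H hH hcard hmin
  obtain ⟨B, hB1, hB2, hB3⟩ := hBEF W G' α H hmin
  obtain ⟨X, E, hX, hE2, hcard2⟩ := hBLO W G' α H B hB1 hB2 hB3
  obtain ⟨i⟩ := hH.nonempty
  obtain ⟨x, hx⟩ := (hB1 i).1
  have hne : X.Nonempty := ⟨x, hX i (Finset.mem_coe.mp hx)⟩
  have h1 := hBUP W G' Γ lev k p q hLT hE X hne E hE2
  omega

end Pool.Agent.Lib.MPbafc89.BQ
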