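import Pool.Agent.Lib.MP_bafc89_co.BQ.Spec3

/-!
# MP_bafc89_co, module DEP: the height function is `1`-Lipschitz
-/

set_option autoImplicit false

namespace Pool.Agent.Lib.MPbafc89.BQ

open SimpleGraph

universe u v

namespace DEPM

theorem Dn_lev {W : Type u} {Z : SimpleGraph W} {o z y : W} (h : y ∈ Dn Z o z) :
    Z.dist o z ≤ Z.dist o y := by
  have h1 : Jn Z {w | Z.dist o z ≤ Z.dist o w} z y := h
  exact h1.right

theorem Dn_step {W : Type u} {Z : SimpleGraph W} {o z y y' : W} (h : y ∈ Dn Z o z)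
    (hy : Z.Adj y y') (hl : Z.dist o z ≤ Z.dist o y') : y' ∈ Dn Z o z := by
  have h1 : Jn Z {w | Z.dist o z ≤ Z.dist o w} z y := h
  exact h1.trans (Jn.adj h1.right hl hy)

theorem lev_adj {W : Type u} {Z : SimpleGraph W} (hZ : Z.Connected) (o : W) {y y' : W}
    (hy : Z.Adj y y') : Z.dist o y ≤ Z.dist o y' + 1 := by
  have h1 := hZ.dist_triangle (u := o) (v := y') (w := y)
  have h2 : Z.dist y' y = 1 := dist_eq_one_iff_adj.mpr hy.symm
  omega

variable {V : Type u} {G : SimpleGraph V} {r k : ℕ} {a : Fin k → ℤ → V} {Hb : Set V}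

theorem dep_not {o z : ↥(UU G r a) ⊕ (Fin k × Bool)} {y : V}
    (h : ¬ ∃ hy : y ∈ UU G r a, Sum.inl ⟨y, hy⟩ ∈ Dn (ZZ G r a Hb) o z) :
    dep G r a Hb o z y = 0 := by
  unfold dep
  exact dif_neg h

theorem dep_mem {o z : ↥(UU G r a) ⊕ (Fin k × Bool)} {y : V} (hy : y ∈ UU G r a)
    (h : Sum.inl ⟨y, hy⟩ ∈ Dn (ZZ G r a Hb) o z) :
    dep G r a Hb o z y = (ZZ G r a Hb).dist o (.inl ⟨y, hy⟩) - (ZZ G r a Hb).dist o z := by
  unfold dep
  exact dif_pos ⟨hy, h⟩

/-- every point of the boundary is adjacent to a new vertex -/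
theorem exists_new {j : Fin k} {w : V} (hw : w ∈ bd G r a j) :
    ∃ c, (ZZ G r a Hb).Adj (.inl ⟨w, hw.1⟩) (.inr c) := by
  by_cases h : w ∈ HH G r a Hb ∧ G.dist (a j (-(20 * (r : ℤ) + 21))) w ≤ 6 * r + 5
  · exact ⟨(j, false), hw, fun _ => h, fun _ => rfl⟩
  · exact ⟨(j, true), hw, fun h' => absurd h' (by simp), fun h' => absurd h' h⟩

end DEPM

open DEPM in
theorem specDEP (hHFA : SpecHFA.{u}) (hZCO : SpecZCO.{u}) : SpecDEP.{u} := by
  intro V G r k a Hb hS o z hnew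
  obtain ⟨-, -, -, -, -, -, hF7, -⟩ := hHFA V G r k a Hb hS
  have hZ := hZCO V G r k a Hb hS
  have h2 : ∀ j, ∀ w ∈ bd G r a j, dep G r a Hb o z w = 0 := by
    intro j w hw
    by_cases h : Sum.inl ⟨w, hw.1⟩ ∈ Dn (ZZ G r a Hb) o z
    · rw [dep_mem hw.1 h]
      obtain ⟨c, hc⟩ := exists_new (Hb := Hb) hw
      by_contra hlt
      apply hnew c
      apply Dn_step h hc
      have := lev_adj hZ o hc
      omega
    · apply dep_not
      rintro ⟨hy, h'⟩
      exact h h'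
  have h1 : ∀ x y, G.Adj x y → dep G r a Hb o z y ≤ dep G r a Hb o z x + 1 := by
    intro x y hxy
    by_cases hex : ∃ hy : y ∈ UU G r a, Sum.inl ⟨y, hy⟩ ∈ Dn (ZZ G r a Hb) o z
    · obtain ⟨hy, hD⟩ := hex
      by_cases hx : x ∈ UU G r a
      · have hadj : (ZZ G r a Hb).Adj (.inl ⟨y, hy⟩) (.inl ⟨x, hx⟩) := hxy.symm
        rw [dep_mem hy hD]
        have hl := lev_adj hZ o hadj
        by_cases hlz : (ZZ G r a Hb).dist o z ≤ (ZZ G r a Hb).dist o (.inl ⟨x, hx⟩)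
        · rw [dep_mem hx (Dn_step hD hadj hlz)]
          omega
        · omega
      · obtain ⟨j, hj⟩ := hF7 x y hx hy hxy
        rw [h2 j y hj]
        exact Nat.zero_le _
    · rw [dep_not hex]
      exact Nat.zero_le _
  refine ⟨?_, h2, ?_, ?_⟩
  · intro x y
    obtain ⟨w, hw⟩ := hS.conn.exists_walk_length_eq_dist x y
    rw [← hw]
    clear hw
    induction w with
    | nil => exact Nat.le_add_right _ _
    | @cons p q s hpq w ih =>
      have := h1 p q hpq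
      rw [Walk.length_cons]
      omega
  · intro y hy
    apply dep_not
    rintro ⟨hy', -⟩
    exact hy hy'
  · intro y
    refine ⟨fun h => ⟨Dn_lev h, dep_mem y.2 h⟩, fun h => dep_not ?_⟩
    rintro ⟨hy', h'⟩
    exact h h'

end Pool.Agent.Lib.MPbafc89.BQ
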