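import Pool.Agent.Lib.MP_bafc89_co.BQ.Spec

/-!
# Module DIS (MP_bafc89_co, BQ): from the components to the graph (helper26)
-/

set_option autoImplicit false

namespace Pool.Agent.Lib.MPbafc89.BQ

open SimpleGraph

universe u v w

namespace DISM

/-- disjoint union of graphs -/
def sg {ι : Type u} {W : ι → Type v} (Z : ∀ i, SimpleGraph (W i)) : SimpleGraph (Σ i, W i) where
  Adj p q := ∃ x y, p = ⟨p.1, x⟩ ∧ q = ⟨p.1, y⟩ ∧ (Z p.1).Adj x y
  symm := ⟨by
    rintro ⟨i, x⟩ ⟨j, y⟩ ⟨x', y', h1, h2, h3⟩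
    obtain ⟨rfl, h4⟩ := Sigma.mk.inj_iff.1 h2
    have h5 := eq_of_heq (Sigma.mk.inj_iff.1 h1).2
    have h6 := eq_of_heq h4
    subst h5
    subst h6
    exact ⟨y, x, rfl, rfl, h3.symm⟩⟩
  loopless := ⟨by
    rintro ⟨i, x⟩ ⟨x', y', h1, h2, h3⟩
    have h5 := eq_of_heq (Sigma.mk.inj_iff.1 h1).2
    have h6 := eq_of_heq (Sigma.mk.inj_iff.1 h2).2
    rw [← h5, ← h6] at h3
    exact (Z i).loopless.irrefl _ h3⟩

lemma sg_adj {ι : Type u} {W : ι → Type v} {Z : ∀ i, SimpleGraph (W i)} {i : ι} {x : W i}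
    {q : Σ i, W i} : (sg Z).Adj ⟨i, x⟩ q ↔ ∃ y : W i, (⟨i, y⟩ : Σ i, W i) = q ∧ (Z i).Adj x y := by
  constructor
  · rintro ⟨x', y', h1, h2, h3⟩
    have h5 := eq_of_heq (Sigma.mk.inj_iff.1 h1).2
    subst h5
    exact ⟨y', h2.symm, h3⟩
  · rintro ⟨y, rfl, h⟩
    exact ⟨x, y, rfl, rfl, h⟩

/-- lifting of walks -/
lemma lift {A : Type u} {B : Type v} {H : SimpleGraph A} {K : SimpleGraph B} (φ : A → B)
    (hl : ∀ a b', K.Adj (φ a) b' → ∃ b, φ b = b' ∧ H.Adj a b) {a' b' : B} (p : K.Walk a' b') :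
    ∀ a, φ a = a' → ∃ b, φ b = b' ∧ ∃ p' : H.Walk a b, p'.length = p.length := by
  induction p with
  | nil => intro a ha; exact ⟨a, ha, Walk.nil, rfl⟩
  | @cons x y z hxy q ih =>
    rintro a rfl
    obtain ⟨b, hb, hab⟩ := hl a y hxy
    obtain ⟨c, hc, q', hq'⟩ := ih b hb
    exact ⟨c, hc, Walk.cons hab q', by rw [Walk.length_cons, Walk.length_cons, hq']⟩

lemma edist_eq {A : Type u} {B : Type v} {H : SimpleGraph A} {K : SimpleGraph B} (φ : A → B)
    (hinj : Function.Injective φ) (hm : ∀ a b, H.Adj a b → K.Adj (φ a) (φ b))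
    (hl : ∀ a b', K.Adj (φ a) b' → ∃ b, φ b = b' ∧ H.Adj a b) (a b : A) :
    K.edist (φ a) (φ b) = H.edist a b := by
  refine le_antisymm ?_ ?_
  · by_cases hr : H.Reachable a b
    · obtain ⟨p, hp⟩ := hr.exists_walk_length_eq_edist
      have h1 := edist_le (p.map (⟨φ, fun h => hm _ _ h⟩ : H →g K))
      rw [Walk.length_map, hp] at h1
      exact h1
    · rw [edist_eq_top_of_not_reachable hr]
      exact le_top
  · by_cases hr : K.Reachable (φ a) (φ b)
    · obtain ⟨p, hp⟩ := hr.exists_walk_length_eq_edist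
      obtain ⟨c, hc, p', hp'⟩ := lift φ hl p a rfl
      have hcb := hinj hc
      subst hcb
      rw [← hp, ← hp']
      exact edist_le p'
    · rw [edist_eq_top_of_not_reachable hr]
      exact le_top

lemma sg_edist {ι : Type u} {W : ι → Type v} (Z : ∀ i, SimpleGraph (W i)) (i : ι) (x y : W i) :
    (sg Z).edist ⟨i, x⟩ ⟨i, y⟩ = (Z i).edist x y := by
  refine edist_eq (H := Z i) (K := sg Z) (fun x => (⟨i, x⟩ : Σ i, W i)) ?_ ?_ ?_ x y
  · intro x y h
    exact eq_of_heq (Sigma.mk.inj_iff.1 h).2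
  · intro a b h
    exact sg_adj.2 ⟨b, rfl, h⟩
  · intro a b' h
    exact sg_adj.1 h

lemma sg_top {ι : Type u} {W : ι → Type v} (Z : ∀ i, SimpleGraph (W i)) {i j : ι} (hij : i ≠ j)
    (x : W i) (y : W j) : (sg Z).edist ⟨i, x⟩ ⟨j, y⟩ = ⊤ := by
  refine edist_eq_top_of_not_reachable ?_
  rintro ⟨p⟩
  obtain ⟨b, hb, -⟩ := lift (H := Z i) (fun x => (⟨i, x⟩ : Σ i, W i))
    (fun a b' h => sg_adj.1 h) p x rfl
  exact hij (Sigma.mk.inj_iff.1 hb).1

lemma comp_edist {V : Type u} {G : SimpleGraph V} (C : G.ConnectedComponent) (x y : C.supp) :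
    G.edist (x : V) y = (G.induce C.supp).edist x y := by
  refine edist_eq (H := G.induce C.supp) (K := G) (Subtype.val) Subtype.val_injective ?_ ?_ x y
  · intro a b h
    simpa using h
  · intro a b' h
    have hb : b' ∈ C.supp := by
      have h1 : G.connectedComponentMk (a : V) = C := a.2
      have h2 : G.connectedComponentMk (a : V) = G.connectedComponentMk b' :=
        ConnectedComponent.connectedComponentMk_eq_of_adj h
      exact h2.symm.trans h1
    exact ⟨⟨b', hb⟩, rfl, by simpa using h⟩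

lemma mulTop {M A : ℕ} (hM : 1 ≤ M) : (M : ℕ∞) * ⊤ + (A : ℕ∞) = ⊤ := by
  rw [ENat.mul_top (by exact_mod_cast (by omega : M ≠ 0)), top_add]

/-- a connected set of the disjoint union is in one part -/
lemma part {ι : Type u} {W : ι → Type v} {Z : ∀ i, SimpleGraph (W i)} {S : Set (Σ i, W i)}
    (hS : Cn (sg Z) S) {p q : Σ i, W i} (hp : p ∈ S) (hq : q ∈ S) : q.1 = p.1 := by
  refine (hS.2 p hp q hq).induct (fun z => z.1 = p.1) rfl ?_
  rintro ⟨i, x⟩ b _ _ hab h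
  obtain ⟨y, rfl, -⟩ := sg_adj.1 hab
  exact h

lemma part_cn {ι : Type u} {W : ι → Type v} {Z : ∀ i, SimpleGraph (W i)} {S : Set (Σ i, W i)}
    (hS : Cn (sg Z) S) {i : ι} (hi : ∀ z ∈ S, z.1 = i) :
    Cn (Z i) {x | (⟨i, x⟩ : Σ i, W i) ∈ S} := by
  constructor
  · obtain ⟨⟨j, x⟩, hx⟩ := hS.1
    have h1 : j = i := hi _ hx
    subst h1
    exact ⟨x, hx⟩
  · intro x hx y hy
    have key : ∃ y' : W i, (⟨i, y⟩ : Σ i, W i) = ⟨i, y'⟩ ∧
        Jn (Z i) {x | (⟨i, x⟩ : Σ i, W i) ∈ S} x y' := by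
      refine (hS.2 _ hx _ hy).induct (fun z => ∃ y' : W i, z = ⟨i, y'⟩ ∧
        Jn (Z i) {x | (⟨i, x⟩ : Σ i, W i) ∈ S} x y') ⟨x, rfl, Jn.refl hx⟩ ?_
      rintro a b ha hb hab ⟨a', rfl, hJ⟩
      obtain ⟨b', rfl, h2⟩ := sg_adj.1 hab
      exact ⟨b', rfl, hJ.trans (Jn.adj ha hb h2)⟩
    obtain ⟨y', h1, h2⟩ := key
    have h3 : y = y' := eq_of_heq (Sigma.mk.inj_iff.1 h1).2
    rw [h3]
    exact h2

lemma minor {ι : Type u} {W : ι → Type v} {Z : ∀ i, SimpleGraph (W i)} {α : Type w}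
    {H : SimpleGraph α} (hH : H.Connected) (h : IsMinor H (sg Z)) : ∃ i, IsMinor H (Z i) := by
  obtain ⟨B, hB1, hB2, hB3⟩ := h
  have hB1' : ∀ a, Cn (sg Z) (B a) := fun a => cn_iff.2 (hB1 a)
  obtain ⟨a₀⟩ := hH.nonempty
  obtain ⟨⟨i, x₀⟩, hx₀⟩ := (hB1' a₀).1
  have hall : ∀ a, ∀ z ∈ B a, z.1 = i := by
    intro a
    obtain ⟨p⟩ := hH.preconnected a₀ a
    have key : ∀ (a b : α) (p : H.Walk a b), (∀ z ∈ B a, z.1 = i) → ∀ z ∈ B b, z.1 = i := by
      intro a b p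
      induction p with
      | nil => exact fun h => h
      | @cons a b c hab q ih =>
        intro h
        refine ih ?_
        obtain ⟨⟨j, x⟩, hx, y, hy, hxy⟩ := hB3 a b hab
        obtain ⟨y', rfl, -⟩ := sg_adj.1 hxy
        have h1 : j = i := h _ hx
        intro z hz
        have h2 := part (hB1' b) hy hz
        exact h2.trans h1
    exact key a₀ a p (fun z hz => part (hB1' a₀) hx₀ hz)
  refine ⟨i, fun a => {x | (⟨i, x⟩ : Σ i, W i) ∈ B a}, fun a => cn_iff.1 (part_cn (hB1' a) (hall a)),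
    ?_, ?_⟩
  · intro a b hab
    rw [Set.disjoint_left]
    intro x hx hx'
    exact Set.disjoint_left.1 (hB2 a b hab) hx hx'
  · intro a b hab
    obtain ⟨⟨j, x⟩, hx, y, hy, hxy⟩ := hB3 a b hab
    obtain ⟨y', rfl, h3⟩ := sg_adj.1 hxy
    have h1 : j = i := hall a _ hx
    subst h1
    exact ⟨x, hx, y', hy, h3⟩

end DISM

open DISM in
theorem specDIS : SpecDIS.{u, v} := by
  intro V G M A c hM hG
  choose W Z f hf using hG
  let F : V → Σ C, W C := fun x => ⟨G.connectedComponentMk x, f (G.connectedComponentMk x) ⟨x, rfl⟩⟩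
  have hF : ∀ (C : G.ConnectedComponent) (x : C.supp), F (x : V) = ⟨C, f C x⟩ := by
    rintro C ⟨x, hx⟩
    have h1 : G.connectedComponentMk x = C := hx
    subst h1
    rfl
  have hsame : ∀ x y : V, G.connectedComponentMk x = G.connectedComponentMk y →
      ∃ (C : G.ConnectedComponent) (x' y' : C.supp), (x' : V) = x ∧ (y' : V) = y := by
    intro x y h
    exact ⟨G.connectedComponentMk y, ⟨x, h⟩, ⟨y, rfl⟩, rfl, rfl⟩
  have hdiff : ∀ x y : V, G.connectedComponentMk x ≠ G.connectedComponentMk y →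
      G.edist x y = ⊤ ∧ (sg Z).edist (F x) (F y) = ⊤ := by
    intro x y h
    refine ⟨edist_eq_top_of_not_reachable fun hr => h (ConnectedComponent.eq.2 hr), ?_⟩
    exact sg_top Z h _ _
  refine ⟨Σ C, W C, sg Z, F, ⟨?_, ?_, ?_⟩, ?_⟩
  · intro x y
    by_cases h : G.connectedComponentMk x = G.connectedComponentMk y
    · obtain ⟨C, x', y', rfl, rfl⟩ := hsame x y h
      rw [hF, hF, sg_edist, comp_edist]
      exact (hf C).1.low x' y'
    · obtain ⟨h1, h2⟩ := hdiff x y h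
      rw [h2, mulTop hM]
      exact le_top
  · intro x y
    by_cases h : G.connectedComponentMk x = G.connectedComponentMk y
    · obtain ⟨C, x', y', rfl, rfl⟩ := hsame x y h
      rw [hF, hF, sg_edist, comp_edist]
      exact (hf C).1.upp x' y'
    · obtain ⟨h1, h2⟩ := hdiff x y h
      rw [h1, mulTop hM]
      exact le_top
  · rintro ⟨C, y⟩
    obtain ⟨x, hx⟩ := (hf C).1.cov y
    refine ⟨(x : V), ?_⟩
    rw [hF, sg_edist]
    exact hx
  · intro α _ H hH hcard hmin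
    obtain ⟨C, hC⟩ := minor hH hmin
    exact (hf C).2 α H hH hcard hC

end Pool.Agent.Lib.MPbafc89.BQ
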