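import Pool.Agent.Lib.MP_bafc89_co.BQ.Spec3
import Pool.Agent.Lib.MP_bafc89_co.BQ.DIS

/-!
# Module DI2 (MP_bafc89_co, BQ): from the components to the graph, for one connected graph `H` (helper45)
-/

set_option autoImplicit false

namespace Pool.Agent.Lib.MPbafc89.BQ

open SimpleGraph

universe u v w

open DISM in
theorem specDI2 : SpecDI2.{u, v} := by
  intro V G M A α H hM hH hG
  choose W Z f hf using hG
  let F : V → Σ C, W C := fun x => ⟨G.connectedComponentMk x, f (G.connectedComponentMk x) ⟨x, rfl⟩⟩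
  have hF : ∀ (C : G.ConnectedComponent) (x : C.supp), F (x : V) = ⟨C, f C x⟩ := by
    rintro C ⟨x, hx⟩
    have h1 : G.connectedComponentMk x = C := hx
    subst h1
    rfl
  have hsame : ∀ x y : V, G.connectedComponentMk x = G.connectedComponentMk y →
      ∃ (C : G.ConnectedComponent) (x' y' : C.supp), (x' : V) = x ∧ (y' : V) = y := by
    intro x y h
    exact ⟨G.connectedComponentMk y, ⟨x, h⟩, ⟨y, rfl⟩, rfl, rfl⟩
  have hdiff : ∀ x y : V, G.connectedComponentMk x ≠ G.connectedComponentMk y →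
      G.edist x y = ⊤ ∧ (sg Z).edist (F x) (F y) = ⊤ := by
    intro x y h
    refine ⟨edist_eq_top_of_not_reachable fun hr => h (ConnectedComponent.eq.2 hr), ?_⟩
    exact sg_top Z h _ _
  refine ⟨Σ C, W C, sg Z, F, ⟨?_, ?_, ?_⟩, ?_⟩
  · intro x y
    by_cases h : G.connectedComponentMk x = G.connectedComponentMk y
    · obtain ⟨C, x', y', rfl, rfl⟩ := hsame x y h
      rw [hF, hF, sg_edist, comp_edist]
      exact (hf C).1.low x' y'
    · obtain ⟨h1, h2⟩ := hdiff x y h
      rw [h2, mulTop hM]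
      exact le_top
  · intro x y
    by_cases h : G.connectedComponentMk x = G.connectedComponentMk y
    · obtain ⟨C, x', y', rfl, rfl⟩ := hsame x y h
      rw [hF, hF, sg_edist, comp_edist]
      exact (hf C).1.upp x' y'
    · obtain ⟨h1, h2⟩ := hdiff x y h
      rw [h1, mulTop hM]
      exact le_top
  · rintro ⟨C, y⟩
    obtain ⟨x, hx⟩ := (hf C).1.cov y
    refine ⟨(x : V), ?_⟩
    rw [hF, sg_edist]
    exact hx
  · intro hmin
    obtain ⟨C, hC⟩ := minor hH hmin
    exact (hf C).2 hC

end Pool.Agent.Lib.MPbafc89.BQ
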