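import Pool.Agent.Lib.MP_bafc89_co.BQ.Spec3

/-!
# MP_bafc89_co: flowers, the connected case with many legs
-/

set_option autoImplicit false

namespace Pool.Agent.Lib.MPbafc89.BQ

open SimpleGraph

universe u v

namespace EXCM

theorem dn_self {W : Type u} (Z : SimpleGraph W) (o z : W) : z ∈ Dn Z o z :=
  Jn.refl (S := {w | Z.dist o z ≤ Z.dist o w}) (le_refl (Z.dist o z))

theorem dn_dist {W : Type u} {Z : SimpleGraph W} {o z y : W} (h : y ∈ Dn Z o z) :
    Z.dist o z ≤ Z.dist o y := by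
  have h1 : Jn Z {w | Z.dist o z ≤ Z.dist o w} z y := h
  exact h1.right

theorem dn_sub {W : Type u} {Z : SimpleGraph W} {o z z' : W} (h : z ∈ Dn Z o z') :
    Dn Z o z ⊆ Dn Z o z' := by
  intro y hy
  have h1 : Jn Z {w | Z.dist o z' ≤ Z.dist o w} z' z := h
  have h2 : Jn Z {w | Z.dist o z ≤ Z.dist o w} z y := hy
  have h3 := dn_dist h
  have h4 : {w | Z.dist o z ≤ Z.dist o w} ⊆ {w | Z.dist o z' ≤ Z.dist o w} :=
    fun w hw => le_trans h3 hw
  exact h1.trans (h2.mono h4)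

theorem qi_mono {V : Type u} {W : Type v} {G : SimpleGraph V} {G' : SimpleGraph W} {f : V → W}
    {M A M' A' : ℕ} (h : QI G G' f M A) (hM : M ≤ M') (hA : A ≤ A') : QI G G' f M' A' := by
  have hM' : (M : ℕ∞) ≤ (M' : ℕ∞) := by exact_mod_cast hM
  have hA' : (A : ℕ∞) ≤ (A' : ℕ∞) := by exact_mod_cast hA
  refine ⟨fun x y => (h.low x y).trans ?_, fun x y => (h.upp x y).trans ?_, fun y => ?_⟩
  · gcongr
  · gcongr
  · obtain ⟨x, hx⟩ := h.cov y
    exact ⟨x, hx.trans hA'⟩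

theorem iter_lev {W : Type u} {lev : W → ℕ} {par : W → W} {root : W} (h0 : par root = root)
    (h : ∀ P, P ≠ root → lev (par P) + 1 = lev P) (P : W) (i : ℕ) :
    par^[i] P = root ∨ lev (par^[i] P) + i = lev P := by
  induction i with
  | zero => exact Or.inr rfl
  | succ i ih =>
    rw [Function.iterate_succ_apply']
    by_cases hr : par^[i] P = root
    · left
      rw [hr, h0]
    · right
      have h1 := h _ hr
      rcases ih with ih | ih
      · exact absurd ih hr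
      · omega

end EXCM

open EXCM in
theorem specEXC (hNOL : SpecNOL.{u}) (hZCO : SpecZCO.{u}) (hTR2 : SpecTR2.{u})
    (hQG2 : SpecQG2.{u}) (hPRU : SpecPRU.{u}) (hCN2 : SpecCN2.{u}) (hTAI : SpecTAI.{u})
    (hHUB : SpecHUB.{u}) (hSPL : SpecSPL.{u}) (hFTH : SpecFTH.{u}) : SpecEXC.{u} := by
  intro V G r k a Hb hS K l c h m n hc hck hm hn hr hfat
  have hk : 0 < k := by omega
  obtain ⟨j0, hj0⟩ : ∃ j0 : Fin k, j0 = ⟨0, hk⟩ := ⟨_, rfl⟩
  have hZ := hZCO V G r k a Hb hS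
  obtain ⟨T0, Γ, f, lev, par, fsurj, fiff, fadj, htree, hlev, hparo, hpar, hDn⟩ :=
    hTR2 _ (ZZ G r a Hb) hZ (.inr (j0, true))
  obtain ⟨G', g, hQI, hle, hG'⟩ := hQG2 V G r k a Hb hS (S0 r k) (hNOL V G r k a Hb hS)
    (.inr (j0, true)) T0 Γ f fsurj fiff fadj
  obtain ⟨Gd, hGd⟩ : ∃ Gd : Set T0, ∀ P, P ∈ Gd ↔ ∃ z, f z = P ∧
      ((∃ c, Sum.inr c ∈ Dn (ZZ G r a Hb) (.inr (j0, true)) z) ∨
        ∃ y ∈ Dn (ZZ G r a Hb) (.inr (j0, true)) z,
          (ZZ G r a Hb).dist (.inr (j0, true)) z + DD K l r ≤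
            (ZZ G r a Hb).dist (.inr (j0, true)) y) := ⟨{P | _}, fun P => Iff.rfl⟩
  have hlev0 : lev (f (.inr (j0, true))) = 0 := by rw [hlev, SimpleGraph.dist_self]
  have hinr : ∀ c, f (.inr c) ∈ Gd := fun c =>
    (hGd _).mpr ⟨.inr c, rfl, Or.inl ⟨c, dn_self _ _ _⟩⟩
  have hp : ∀ j : Fin k, (fun j => f (.inr (j, true))) j ∈ Gd ∧
      (fun j => f (.inr (j, false))) j ∈ Gd := fun j => ⟨hinr _, hinr _⟩
  have hup : ∀ (P : T0) (i : ℕ) (z : _), f z = P →
      ∃ z', f z' = par^[i] P ∧ z ∈ Dn (ZZ G r a Hb) (.inr (j0, true)) z' := by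
    intro P i z hz
    obtain ⟨z', hz'⟩ := fsurj (par^[i] P)
    exact ⟨z', hz', (hDn z' z).mpr ⟨i, by rw [hz, hz']⟩⟩
  have hparGd : ∀ P ∈ Gd, par P ∈ Gd := by
    intro P hP
    obtain ⟨z, hz, hz2⟩ := (hGd P).mp hP
    obtain ⟨z', hz', hmem⟩ := hup P 1 z hz
    have h1 := dn_sub hmem
    have h2 := dn_dist hmem
    refine (hGd _).mpr ⟨z', hz', ?_⟩
    rcases hz2 with ⟨c', hc'⟩ | ⟨y, hy, hy'⟩
    · exact Or.inl ⟨c', h1 hc'⟩
    · exact Or.inr ⟨y, h1 hy, by omega⟩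
  have hparD : ∀ P, par^[DD K l r] P ∈ Gd := by
    intro P
    obtain ⟨z, hz⟩ := fsurj P
    rcases iter_lev hparo (fun P hP => (hpar P hP).2) P (DD K l r) with h1 | h1
    · rw [h1]
      exact hinr _
    · obtain ⟨z', hz', hmem⟩ := hup P (DD K l r) z hz
      refine (hGd _).mpr ⟨z', hz', Or.inr ⟨z, hmem, ?_⟩⟩
      rw [← hz', ← hz, hlev, hlev] at h1
      exact h1.le
  obtain ⟨f', hf'⟩ := hPRU V T0 G G' Γ lev par (f (.inr (j0, true))) Gd (DD K l r) k
    (fun j => f (.inr (j, true))) (fun j => f (.inr (j, false))) g (Kc r (S0 r k)) (Kc r (S0 r k))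
    htree hlev0 hparo hpar hle hG' hp (hinr _) hparGd hparD hQI
  refine ⟨Gd, G'.induce Gd, f', qi_mono hf' ?_ ?_, ?_⟩
  · unfold Kf
    nlinarith [Nat.zero_le (Kc r (S0 r k) * DD K l r)]
  · unfold Kf
    have : Kc r (S0 r k) * (2 * DD K l r + 1) = Kc r (S0 r k) * (2 * DD K l r) + Kc r (S0 r k) := by
      ring
    omega
  · intro hminor
    obtain ⟨P, hP1, hP2, hP3⟩ := hCN2 T0 G' Γ lev par (f (.inr (j0, true))) Gd k
      (fun j => f (.inr (j, true))) (fun j => f (.inr (j, false))) htree hlev0 hparo hpar hG' hp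
      (hinr _) hparGd ⟨j0, rfl⟩ c h m n (fun i => (hm i).1) (fun i => (hn i).1) hminor
    choose z hz using fun b => fsurj (P b)
    have hA : ∀ b c', Sum.inr c' ∉ Dn (ZZ G r a Hb) (.inr (j0, true)) (z b) := by
      rintro b ⟨j, s⟩ hmem
      obtain ⟨i, hi⟩ := (hDn _ _).mp hmem
      rw [hz] at hi
      cases s
      · exact (hP2 b j i).2 hi
      · exact (hP2 b j i).1 hi
    have hB : ∀ b, ∃ y ∈ Dn (ZZ G r a Hb) (.inr (j0, true)) (z b),
        (ZZ G r a Hb).dist (.inr (j0, true)) (z b) + DD K l r ≤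
          (ZZ G r a Hb).dist (.inr (j0, true)) y := by
      intro b
      obtain ⟨z', hz', h2⟩ := (hGd _).mp (hP1 b).1
      have h3 : z' ∈ Dn (ZZ G r a Hb) (.inr (j0, true)) (z b) :=
        (hDn _ _).mpr ⟨0, by rw [hz, hz']; rfl⟩
      have h4 : (ZZ G r a Hb).dist (.inr (j0, true)) z' =
          (ZZ G r a Hb).dist (.inr (j0, true)) (z b) := by
        rw [← hlev, ← hlev, hz, hz']
      rcases h2 with ⟨c', hc'⟩ | ⟨y, hy, hy'⟩
      · exact absurd (dn_sub h3 hc') (hA b c')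
      · exact ⟨y, dn_sub h3 hy, by omega⟩
    have hC : ∀ b b', b ≠ b' → z b' ∉ Dn (ZZ G r a Hb) (.inr (j0, true)) (z b) := by
      intro b b' hbb hmem
      obtain ⟨i, hi⟩ := (hDn _ _).mp hmem
      rw [hz, hz] at hi
      exact hP3 b b' hbb i hi
    choose η hη1 hη2 using fun b => hTAI V G r k a Hb hS (.inr (j0, true)) (z b) (DD K l r) (hA b)
      (hB b)
    have hRR : 1 ≤ RR K l := by unfold RR; omega
    have hnum : (2 * c + h - 2 * k + 1) * (4 * RR K l + 1) ≤ 4 * r := by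
      refine le_trans (Nat.mul_le_mul_right _ ?_) hr
      omega
    obtain ⟨F, a', e, hstar⟩ := hHUB V G r k a Hb hS hk (.inr (j0, true)) (2 * c + h - 2 * k)
      (RR K l) (TT K l) z η hRR hnum hA hC hη1 hη2
    have hTR : 2 * TT K l ≤ RR K l := by unfold RR; omega
    obtain ⟨a'', e', hstar'⟩ := hSPL V G hS.conn (RR K l) (TT K l) (TT K l) k
      (2 * c + h - 2 * k) c h hck le_rfl hTR (by omega) F a' e hstar
    have hTT : ∀ x, x ≤ l → 2 * (K + 1) * (x + 2) ≤ TT K l := by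
      intro x hx
      unfold TT
      exact Nat.mul_le_mul_left _ (by omega)
    apply hfat
    refine hFTH V G hS.conn K (RR K l) (TT K l) c h m n (fun i => (hm i).1) (fun i => ?_)
      (fun i => hTT _ (hn i).2) F a'' e' hstar'
    have := hTT _ (hm i).2
    omega

end Pool.Agent.Lib.MPbafc89.BQ
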