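import Pool.Agent.Lib.MP_bafc89_co.BQ.Spec3

set_option autoImplicit false

namespace Pool.Agent.Lib.MPbafc89.BQ

open SimpleGraph

universe u v

namespace F2IM

variable {V : Type u} {G : SimpleGraph V}

theorem far {p q : V} (h : ((2 : ℕ) : ℕ∞) ≤ G.edist p q) : p ≠ q ∧ ¬ G.Adj p q := by
  constructor
  · rintro rfl
    rw [edist_self] at h
    exact absurd h (by simp)
  · intro hadj
    rw [edist_eq_one_iff_adj.2 hadj] at h
    exact absurd h (by simp)

/-- the part of `P` reached from `p` without meeting `B` -/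
def Wt (G : SimpleGraph V) (P B : Set V) (p : V) : Set V := {z | Jn G (P \ B) p z}

theorem wt_sub {P B : Set V} {p z : V} (h : z ∈ Wt G P B p) : z ∈ P ∧ z ∉ B := by
  have h' : Jn G (P \ B) p z := h
  exact h'.right

theorem wt_cn {P B : Set V} {p : V} (h1 : p ∈ P) (h2 : p ∉ B) : Cn G (Wt G P B p) := by
  have hp : p ∈ Wt G P B p := Jn.refl ⟨h1, h2⟩
  refine Cn.of_center hp fun z hz => ?_
  refine Jn.induct (S := P \ B) hz (fun z => Jn G (Wt G P B p) p z) (Jn.refl hp) ?_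
  intro a b ha hb hab h
  have h3 : a ∈ Wt G P B p := h.right
  have h4 : b ∈ Wt G P B p := Jn.trans h3 (Jn.adj ha hb hab)
  exact h.trans (Jn.adj h3 h4 hab)

theorem wt_adj {P B : Set V} {p q : V} (h1 : p ∈ P) (h2 : p ∉ B) (hP : Cn G P) (hq : q ∈ P)
    (hq' : q ∈ B) : ∃ w ∈ Wt G P B p, ∃ w' ∈ B, G.Adj w w' := by
  have hp : p ∈ Wt G P B p := Jn.refl ⟨h1, h2⟩
  have h := Jn.induct (hP.2 p h1 q hq)
    (fun z => z ∈ Wt G P B p ∨ ∃ w ∈ Wt G P B p, ∃ w' ∈ B, G.Adj w w') (Or.inl hp) (by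
      intro a b ha hb hab h
      rcases h with h | h
      · by_cases hbB : b ∈ B
        · exact Or.inr ⟨a, h, b, hbB, hab⟩
        · exact Or.inl (Jn.trans h (Jn.adj (wt_sub h) ⟨hb, hbB⟩ hab))
      · exact Or.inr h)
  rcases h with h | h
  · exact absurd hq' (wt_sub h).2
  · exact h

end F2IM

open F2IM in
theorem specF2I : SpecF2I.{u, v} := by
  classical
  intro V G α H hfat
  obtain ⟨B, P, hB, hP, hBP, hBB, hPP, hBPfar⟩ := hfat
  -- orientation of the edges
  have hs : ∀ e : Sym2 α, ∃ x y : α, e = s(x, y) := by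
    intro e
    induction e using Sym2.ind with
    | _ x y => exact ⟨x, y, rfl⟩
  choose a b hab using hs
  have hae : ∀ e, a e ∈ e := by
    intro e
    have h := Sym2.mem_mk_left (a e) (b e)
    rwa [← hab e] at h
  have hbe : ∀ e, b e ∈ e := by
    intro e
    have h := Sym2.mem_mk_right (a e) (b e)
    rwa [← hab e] at h
  have hadj : ∀ e ∈ H.edgeSet, H.Adj (a e) (b e) := by
    intro e he
    rw [hab e, mem_edgeSet] at he
    exact he
  have hdis : ∀ x y, x ≠ y → ∀ p, p ∈ B x → p ∉ B y := by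
    intro x y hxy p hp hp'
    exact (far (hBB x y hxy p hp p hp')).1 rfl
  have hpt : ∀ e : H.edgeSet, ∃ p, p ∈ B (a e) ∧ p ∈ P e := by
    intro e
    obtain ⟨p, hp⟩ := hBP e e.2 (a e) (hae e)
    exact ⟨p, hp.1, hp.2⟩
  choose p hpB hpP using hpt
  have hpb : ∀ e : H.edgeSet, p e ∉ B (b e) := fun e =>
    hdis _ _ (hadj e e.2).ne _ (hpB e)
  let W : H.edgeSet → Set V := fun e => Wt G (P e) (B (b e)) (p e)
  have hWP : ∀ e : H.edgeSet, ∀ z ∈ W e, z ∈ P e ∧ z ∉ B (b e) := fun e z hz => wt_sub hz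
  have hWc : ∀ e : H.edgeSet, Cn G (W e) := fun e => wt_cn (hpP e) (hpb e)
  have hWp : ∀ e : H.edgeSet, p e ∈ W e := fun e => Jn.refl ⟨hpP e, hpb e⟩
  have hWa : ∀ e : H.edgeSet, ∃ w ∈ W e, ∃ w' ∈ B (b e), G.Adj w w' := by
    intro e
    obtain ⟨q, hq⟩ := hBP e e.2 (b e) (hbe e)
    exact wt_adj (hpP e) (hpb e) (cn_iff.2 (hP e e.2)) hq.2 hq.1
  let B' : α → Set V := fun x => B x ∪ ⋃ e : {e : H.edgeSet // a e = x}, W e.1
  have hB' : ∀ x v, v ∈ B' x ↔ v ∈ B x ∨ ∃ e : H.edgeSet, a e = x ∧ v ∈ W e := by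
    intro x v
    constructor
    · rintro (h | h)
      · exact Or.inl h
      · obtain ⟨e, he⟩ := Set.mem_iUnion.1 h
        exact Or.inr ⟨e.1, e.2, he⟩
    · rintro (h | ⟨e, he, h⟩)
      · exact Or.inl h
      · exact Or.inr (Set.mem_iUnion.2 ⟨⟨e, he⟩, h⟩)
  -- the pairs which are far apart
  have f1 : ∀ x z, x ≠ z → ∀ v ∈ B x, ∀ w ∈ B z, v ≠ w ∧ ¬ G.Adj v w := by
    intro x z hxz v hv w hw
    exact far (hBB x z hxz v hv w hw)
  have f2 : ∀ x (e : H.edgeSet), a e ≠ x → b e ≠ x → ∀ v ∈ B x, ∀ w ∈ W e,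
      v ≠ w ∧ ¬ G.Adj v w := by
    intro x e h1 h2 v hv w hw
    refine far (hBPfar x e e.2 ?_ v hv w (hWP e w hw).1)
    rw [hab e, Sym2.mem_iff]
    rintro (h | h)
    · exact h1 h.symm
    · exact h2 h.symm
  have f3 : ∀ e e' : H.edgeSet, e ≠ e' → ∀ v ∈ W e, ∀ w ∈ W e', v ≠ w ∧ ¬ G.Adj v w := by
    intro e e' hne v hv w hw
    exact far (hPP e e.2 e' e'.2 (fun h => hne (Subtype.ext h)) v (hWP e v hv).1 w
      (hWP e' w hw).1)
  refine ⟨B', ?_, ?_, ?_⟩
  · intro x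
    rw [← cn_iff]
    refine Cn.union_iUnion (cn_iff.2 (hB x)) (fun e => hWc e.1) fun e => ?_
    have h := hpB e.1
    rw [e.2] at h
    exact ⟨p e.1, h, hWp e.1⟩
  · intro x z hxz
    rw [Set.disjoint_left]
    intro v hv hv'
    rw [hB'] at hv hv'
    rcases hv with hv | ⟨e, he, hv⟩ <;> rcases hv' with hv' | ⟨e', he', hv'⟩
    · exact (f1 x z hxz v hv v hv').1 rfl
    · by_cases h : b e' = x
      · exact (hWP e' v hv').2 (by rw [h]; exact hv)
      · exact (f2 x e' (fun h' => hxz (h'.symm.trans he')) h v hv v hv').1 rfl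
    · by_cases h : b e = z
      · exact (hWP e v hv).2 (by rw [h]; exact hv')
      · exact (f2 z e (fun h' => hxz (he.symm.trans h')) h v hv' v hv).1 rfl
    · exact (f3 e e' (fun h => hxz (by rw [← he, ← he', h])) v hv v hv').1 rfl
  · intro x z hxz
    constructor
    · intro hxz'
      have he : s(x, z) ∈ H.edgeSet := hxz'
      obtain ⟨w, hw, w', hw', hww⟩ := hWa ⟨s(x, z), he⟩
      have h1 := hab s(x, z)
      rw [Sym2.eq_iff] at h1
      rcases h1 with ⟨h1, h2⟩ | ⟨h1, h2⟩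
      · exact ⟨w, (hB' x w).2 (Or.inr ⟨⟨s(x, z), he⟩, h1.symm, hw⟩), w',
          (hB' z w').2 (Or.inl (by rw [h2]; exact hw')), hww⟩
      · exact ⟨w', (hB' x w').2 (Or.inl (by rw [h1]; exact hw')), w,
          (hB' z w).2 (Or.inr ⟨⟨s(x, z), he⟩, h2.symm, hw⟩), hww.symm⟩
    · rintro ⟨v, hv, w, hw, hvw⟩
      rw [hB'] at hv hw
      rcases hv with hv | ⟨e, he, hv⟩ <;> rcases hw with hw | ⟨e', he', hw⟩
      · exact absurd hvw (f1 x z hxz v hv w hw).2
      · by_cases h : b e' = x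
        · have h1 := hadj e' e'.2
          rw [he', h] at h1
          exact h1.symm
        · exact absurd hvw (f2 x e' (fun h' => hxz (h'.symm.trans he')) h v hv w hw).2
      · by_cases h : b e = z
        · have h1 := hadj e e.2
          rw [he, h] at h1
          exact h1
        · exact absurd hvw.symm (f2 z e (fun h' => hxz (he.symm.trans h')) h w hw v hv).2
      · exact absurd hvw (f3 e e' (fun h => hxz (by rw [← he, ← he', h])) v hv w hw).2

end Pool.Agent.Lib.MPbafc89.BQ
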