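import Pool.Agent.Lib.MP_bafc89_co.BQ.Spec

/-!
# FAR: a boundary point far from both ends of its leg does not exist (MP_bafc89_co)
-/

set_option autoImplicit false

namespace Pool.Agent.Lib.MPbafc89.BQ

open SimpleGraph

universe u v

namespace FARM

variable {V : Type u} {G : SimpleGraph V}

/-- the set of points joined to `x` in `S` is connected -/
theorem cn_comp {S : Set V} {x : V} (hx : x ∈ S) : Cn G {y | Jn G S x y} := by
  have hxC : x ∈ {y | Jn G S x y} := Jn.refl hx
  refine Cn.of_center hxC ?_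
  intro y hy
  have key : y ∈ {y | Jn G S x y} ∧ Jn G {y | Jn G S x y} x y := by
    refine Jn.induct hy (P := fun z => z ∈ {y | Jn G S x y} ∧ Jn G {y | Jn G S x y} x z)
      ⟨hxC, Jn.refl hxC⟩ ?_
    rintro p q hp hq hpq ⟨h1, h2⟩
    have h3 : q ∈ {y | Jn G S x y} := Jn.trans h1 (Jn.adj hp hq hpq)
    exact ⟨h3, h2.trans (Jn.adj h1 h3 hpq)⟩
  exact key.2

end FARM

theorem specFAR (hHFA : SpecHFA.{u}) (hPRI : SpecPRI.{u}) (hKHB : SpecKHB.{u}) :
    SpecFAR.{u} := by
  intro V G r k a Hb h i j x x' hx hx' hJ hor hpp hpm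
  obtain ⟨hHU, -, -, -, -, -, -, hbdp⟩ := hHFA V G r k a Hb h
  have hG := h.conn
  have tri : ∀ p q s : V, G.dist p s ≤ G.dist p q + G.dist q s := fun p q s => hG.dist_triangle
  have comm : ∀ p q : V, G.dist p q = G.dist q p := fun p q => SimpleGraph.dist_comm
  have hgeo : ∀ (l : Fin k) (s t : ℤ), s.natAbs ≤ 30 * r + 31 → t.natAbs ≤ 30 * r + 31 →
      G.dist (a l s) (a l t) = (s - t).natAbs := fun l s t hs ht => h.sys.geo l s t hs ht
  have hsep : ∀ l l' : Fin k, l ≠ l' → 60 * r + 64 ≤ G.dist (a l 0) (a l' 0) := by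
    intro l l' hll
    have := h.sys.sep l l' hll
    omega
  have hUU : ∀ y ∈ UU G r a, ∀ l, 20 * r + 20 < G.dist (a l 0) y := fun y hy l => hy l
  obtain ⟨hxU, hxd⟩ := hx
  obtain ⟨hxU', hxd'⟩ := hx'
  -- the sign
  obtain ⟨N, hN, hNd⟩ : ∃ N : ℤ, (N = 1 ∨ N = -1) ∧
      6 * r + 5 < G.dist x' (a j (N * (20 * (r : ℤ) + 21))) := by
    by_contra hcon
    push Not at hcon
    have h1 := hcon 1 (Or.inl rfl)
    have h2 := hcon (-1) (Or.inr rfl)
    have h3 := hgeo j (1 * (20 * (r : ℤ) + 21)) (-1 * (20 * (r : ℤ) + 21)) (by omega) (by omega)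
    have h4 := tri (a j (1 * (20 * (r : ℤ) + 21))) x' (a j (-1 * (20 * (r : ℤ) + 21)))
    rw [comm (a j (1 * (20 * (r : ℤ) + 21))) x'] at h4
    omega
  -- the new centres
  obtain ⟨lam, hlamj, hlamo⟩ : ∃ lam : Fin k → ℤ, lam j = N * (19 * (r : ℤ) + 20) ∧
      ∀ l, l ≠ j → lam l = 19 * (r : ℤ) + 20 := by
    refine ⟨fun l => if l = j then N * (19 * (r : ℤ) + 20) else 19 * (r : ℤ) + 20, by simp, ?_⟩
    intro l hl
    simp [hl]
  have hlam : ∀ l, lam l = 19 * (r : ℤ) + 20 ∨ lam l = -(19 * (r : ℤ) + 20) := by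
    intro l
    by_cases hl : l = j
    · subst hl
      rw [hlamj]
      rcases hN with rfl | rfl
      · left; ring
      · right; ring
    · left; exact hlamo l hl
  have hlamN : ∀ l, (lam l).natAbs = 19 * r + 20 := by
    intro l
    rcases hlam l with h1 | h1 <;> rw [h1] <;> omega
  obtain ⟨hKc, hKp, hKf⟩ := hKHB V G r k a Hb h lam (fun l => by rw [hlamN l])
  -- the geodesics
  obtain ⟨g, hg0, hg1, hg⟩ := exists_geo hG (a i 0) x
  rw [hxd] at hg1 hg
  obtain ⟨g', hg0', hg1', hg'⟩ := exists_geo hG (a j 0) x'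
  rw [hxd'] at hg1' hg'
  have d1 : ∀ s, s ≤ 20 * r + 21 → G.dist (a i 0) (g s) = s := by
    intro s hs
    have := hg 0 s (Nat.zero_le _) hs
    rw [hg0] at this
    omega
  have d2 : ∀ s, s ≤ 20 * r + 21 → G.dist (g s) x = 20 * r + 21 - s := by
    intro s hs
    have := hg s _ hs le_rfl
    rwa [hg1] at this
  have d1' : ∀ s, s ≤ 20 * r + 21 → G.dist (a j 0) (g' s) = s := by
    intro s hs
    have := hg' 0 s (Nat.zero_le _) hs
    rw [hg0'] at this
    omega
  have d2' : ∀ s, s ≤ 20 * r + 21 → G.dist (g' s) x' = 20 * r + 21 - s := by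
    intro s hs
    have := hg' s _ hs le_rfl
    rwa [hg1'] at this
  obtain ⟨w, hw⟩ : ∃ w, w = g (19 * r + 20) := ⟨_, rfl⟩
  have hwi : G.dist (a i 0) w = 19 * r + 20 := by rw [hw]; exact d1 _ (by omega)
  have hwx : G.dist w x = r + 1 := by
    rw [hw, d2 _ (by omega)]; omega
  have hb0 : g (((19 * r + 20 : ℕ) : ℤ) + 0).toNat = w := by
    rw [hw]
    congr 1
  -- far points
  have hleg : ∀ (l : Fin k) (t : ℤ), t.natAbs ≤ 30 * r + 31 → G.dist (a l 0) (a l t) = t.natAbs := by
    intro l t ht
    rw [hgeo l 0 t (by omega) ht]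
    omega
  have hc0 : ∀ l, G.dist (a l 0) (a l (lam l)) = 19 * r + 20 := by
    intro l
    rw [hleg l _ (by rw [hlamN l]; omega), hlamN l]
  -- the parts of the hub
  have hviK : ∀ l, a l 0 ∈ Kl G r a Hb lam := by
    intro l
    right
    refine ⟨l, 0, by omega, ?_, rfl⟩
    have := hlamN l
    omega
  have hA : Cn G {z | ∃ t, 0 ≤ t ∧ t ≤ 18 * r + 19 ∧ g t = z} :=
    hg.cn (Nat.zero_le _) (by omega)
  have hA' : Cn G {z | ∃ t, 0 ≤ t ∧ t ≤ 20 * r + 21 ∧ g' t = z} :=
    hg'.cn (Nat.zero_le _) le_rfl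
  have hF1 := hKc.union hA (hviK i) ⟨0, le_rfl, Nat.zero_le _, hg0⟩
  have hF2 := hF1.union hA' (Or.inl (hviK j)) ⟨0, le_rfl, Nat.zero_le _, hg0'⟩
  have hF3 := hF2.union (FARM.cn_comp hxU) (c := x')
    (Or.inr ⟨20 * r + 21, Nat.zero_le _, le_rfl, hg1'⟩) hJ
  -- avoid `w`
  have hUw : ∀ y ∈ UU G r a, r < G.dist w y := by
    intro y hy
    have h1 := hUU y hy i
    have h2 := tri (a i 0) w y
    omega
  have hUc : ∀ y ∈ UU G r a, ∀ l, r < G.dist (a l (lam l)) y := by
    intro y hy l
    have h1 := hUU y hy l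
    have h2 := tri (a l 0) (a l (lam l)) y
    have h3 := hc0 l
    omega
  refine hPRI V G r k a Hb h lam (fun t : ℤ => g (((19 * r + 20 : ℕ) : ℤ) + t).toNat) _
    (fun l => by rw [hlamN l]; omega) (hg.geod (by omega) (by omega)) hF3 ?_ ?_ ?_ ?_ ?_ ?_ ?_
  · right
    have h1 : g (((19 * r + 20 : ℕ) : ℤ) + ((r : ℤ) + 1)).toNat = x := by
      rw [← hg1]
      congr 1
      omega
    show g (((19 * r + 20 : ℕ) : ℤ) + ((r : ℤ) + 1)).toNat ∈ {y | Jn G (UU G r a) x y}
    rw [h1]
    exact Jn.refl hxU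
  · left; left; right
    refine ⟨18 * r + 19, Nat.zero_le _, le_rfl, ?_⟩
    show g (18 * r + 19) = g (((19 * r + 20 : ℕ) : ℤ) + (-((r : ℤ) + 1))).toNat
    congr 1
    omega
  · intro l
    exact Or.inl (Or.inl (Or.inl (hKp l).1))
  · intro l
    exact Or.inl (Or.inl (Or.inl (hKp l).2))
  · intro l
    show 2 * r + 4 ≤ G.dist (g (((19 * r + 20 : ℕ) : ℤ) + 0).toNat) _
    rw [hb0]
    by_contra hcon
    push Not at hcon
    by_cases hl : l = i
    · subst hl
      rcases hlam l with h1 | h1
      · have h2 := hgeo l (lam l) (20 * (r : ℤ) + 21) (by rw [hlamN l]; omega) (by omega)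
        have h3 := tri (a l (20 * (r : ℤ) + 21)) (a l (lam l)) w
        have h4 := tri (a l (20 * (r : ℤ) + 21)) w x
        rw [comm (a l (20 * (r : ℤ) + 21)) (a l (lam l)), h2, comm (a l (lam l)) w, h1] at h3
        rw [h1] at hcon
        omega
      · have h2 := hgeo l (lam l) (-(20 * (r : ℤ) + 21)) (by rw [hlamN l]; omega) (by omega)
        have h3 := tri (a l (-(20 * (r : ℤ) + 21))) (a l (lam l)) w
        have h4 := tri (a l (-(20 * (r : ℤ) + 21))) w x
        rw [comm (a l (-(20 * (r : ℤ) + 21))) (a l (lam l)), h2, comm (a l (lam l)) w, h1] at h3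
        rw [h1] at hcon
        omega
    · have h1 := hsep i l (Ne.symm hl)
      have h2 := tri (a i 0) w (a l 0)
      have h3 := tri w (a l (lam l)) (a l 0)
      rw [comm (a l (lam l)) (a l 0), hc0 l] at h3
      omega
  · intro y hy
    show r < G.dist (g (((19 * r + 20 : ℕ) : ℤ) + 0).toNat) _
    rw [hb0]
    rcases hy with ((hy | ⟨s, -, hs, rfl⟩) | ⟨s, -, hs, rfl⟩) | hy
    · rcases hy with hy | ⟨l, t, ht, -, rfl⟩
      · exact hUw y (hHU hy)
      · by_cases hl : l = i
        · subst hl
          by_contra hcon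
          push Not at hcon
          have h1 := hleg l t (by omega)
          have h2 := tri (a l 0) (a l t) w
          rw [comm (a l t) w] at h2
          rcases le_total 0 t with ht0 | ht0
          · have h3 := hgeo l t (20 * (r : ℤ) + 21) (by omega) (by omega)
            have h4 := tri (a l (20 * (r : ℤ) + 21)) (a l t) w
            have h5 := tri (a l (20 * (r : ℤ) + 21)) w x
            rw [comm (a l (20 * (r : ℤ) + 21)) (a l t), h3, comm (a l t) w] at h4
            omega
          · have h3 := hgeo l t (-(20 * (r : ℤ) + 21)) (by omega) (by omega)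
            have h4 := tri (a l (-(20 * (r : ℤ) + 21))) (a l t) w
            have h5 := tri (a l (-(20 * (r : ℤ) + 21))) w x
            rw [comm (a l (-(20 * (r : ℤ) + 21))) (a l t), h3, comm (a l t) w] at h4
            omega
        · have h1 := hsep i l (Ne.symm hl)
          have h2 := tri (a i 0) w (a l 0)
          have h3 := tri w (a l t) (a l 0)
          rw [comm (a l t) (a l 0), hleg l t (by omega)] at h3
          omega
    · have h1 := hg s (19 * r + 20) (by omega) (by omega)
      rw [hw, comm, h1]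
      omega
    · by_cases hij : j = i
      · subst hij
        have hxx : 6 * r + 5 < G.dist x x' := by
          rcases hor with h1 | h1
          · exact absurd rfl h1
          · exact h1
        by_contra hcon
        push Not at hcon
        have h1 := d1' s hs
        have h2 := d2' s hs
        have h3 := tri (a j 0) (g' s) w
        rw [comm (g' s) w] at h3
        have h4 := tri x w (g' s)
        have h5 := tri x (g' s) x'
        rw [comm x w] at h4
        omega
      · have h1 := hsep i j (fun h => hij h.symm)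
        have h2 := tri (a i 0) w (a j 0)
        have h3 := tri w (g' s) (a j 0)
        rw [comm (g' s) (a j 0), d1' s hs] at h3
        omega
    · exact hUw y hy.right
  · intro l y hy
    rcases hy with ((hy | ⟨s, -, hs, rfl⟩) | ⟨s, -, hs, rfl⟩) | hy
    · exact hKf l y hy
    · have h0 := hc0 l
      have h1 := d1 s (by omega)
      by_cases hl : l = i
      · subst hl
        have h2 := tri (a l 0) (g s) (a l (lam l))
        rw [comm (g s) (a l (lam l))] at h2
        omega
      · have h2 := hsep l i hl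
        have h3 := tri (a l 0) (a l (lam l)) (a i 0)
        have h4 := tri (a l (lam l)) (g s) (a i 0)
        rw [comm (g s) (a i 0)] at h4
        omega
    · have h0 := hc0 l
      have h1 := d1' s hs
      by_cases hl : l = j
      · subst hl
        by_contra hcon
        push Not at hcon
        have h2 := tri (a l 0) (g' s) (a l (lam l))
        rw [comm (g' s) (a l (lam l))] at h2
        have h3 := d2' s hs
        have h4 : G.dist (a l (lam l)) (a l (N * (20 * (r : ℤ) + 21))) = r + 1 := by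
          rw [hlamj]
          rcases hN with rfl | rfl
          · rw [hgeo l _ _ (by omega) (by omega)]; omega
          · rw [hgeo l _ _ (by omega) (by omega)]; omega
        have h5 := tri x' (g' s) (a l (N * (20 * (r : ℤ) + 21)))
        have h6 := tri (g' s) (a l (lam l)) (a l (N * (20 * (r : ℤ) + 21)))
        rw [comm (g' s) (a l (lam l))] at h6
        rw [comm x' (g' s)] at h5
        omega
      · have h2 := hsep l j hl
        have h3 := tri (a l 0) (a l (lam l)) (a j 0)
        have h4 := tri (a l (lam l)) (g' s) (a j 0)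
        rw [comm (g' s) (a j 0)] at h4
        omega
    · exact hUc y hy.right l

end Pool.Agent.Lib.MPbafc89.BQ
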