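import Pool.Agent.Lib.MP_bafc89_co.BQ.Spec2

/-!
# MP_bafc89_co: a system of large radius gives a fat bouquet
-/

set_option autoImplicit false

namespace Pool.Agent.Lib.MPbafc89.BQ

open SimpleGraph

universe u v

namespace FATM

section edges

variable {c : ℕ} (m : Fin c → ℕ)

/-- the vertex number `q` of the cycle `i` -/
def vx (i : Fin c) (q : ℤ) : Option (Σ i : Fin c, Fin (m i)) :=
  if h : 0 ≤ q ∧ q < m i then some ⟨i, ⟨q.toNat, by omega⟩⟩ else none

theorem vx_out {i : Fin c} {q : ℤ} (h : ¬ (0 ≤ q ∧ q < m i)) : vx m i q = none := by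
  unfold vx
  rw [dif_neg h]

theorem vx_in (i : Fin c) (q : Fin (m i)) : vx m i (q.val : ℤ) = some ⟨i, q⟩ := by
  unfold vx
  have h : 0 ≤ (q.val : ℤ) ∧ (q.val : ℤ) < m i := ⟨by omega, by have := q.2; omega⟩
  rw [dif_pos h]
  rfl

theorem vx_in' {i : Fin c} {q : ℤ} (h : 0 ≤ q ∧ q < m i) :
    ∃ p : Fin (m i), vx m i q = some ⟨i, p⟩ ∧ (p.val : ℤ) = q := by
  refine ⟨⟨q.toNat, by omega⟩, ?_, ?_⟩
  · unfold vx
    rw [dif_pos h]
  · show ((q.toNat : ℕ) : ℤ) = q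
    omega

theorem vx_eq {i j : Fin c} {q p : ℤ} (h : vx m i q = vx m j p) :
    ((0 ≤ q ∧ q < m i) ∧ (0 ≤ p ∧ p < m j) ∧ i = j ∧ q = p) ∨
      (¬ (0 ≤ q ∧ q < m i) ∧ ¬ (0 ≤ p ∧ p < m j)) := by
  by_cases h1 : 0 ≤ q ∧ q < m i
  · by_cases h2 : 0 ≤ p ∧ p < m j
    · obtain ⟨x, hx, hx'⟩ := vx_in' m h1
      obtain ⟨y, hy, hy'⟩ := vx_in' m h2
      rw [hx, hy] at h
      have h3 := Option.some.inj h
      have h4 : i = j := congrArg Sigma.fst h3
      subst h4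
      have h5 : x = y := by simpa using h3
      subst h5
      exact Or.inl ⟨h1, h2, rfl, by rw [← hx', ← hy']⟩
    · obtain ⟨x, hx, hx'⟩ := vx_in' m h1
      rw [hx, vx_out m h2] at h
      exact absurd h (by simp)
  · by_cases h2 : 0 ≤ p ∧ p < m j
    · obtain ⟨y, hy, hy'⟩ := vx_in' m h2
      rw [hy, vx_out m h1] at h
      exact absurd h (by simp)
    · exact Or.inr ⟨h1, h2⟩

theorem edge_form (hm : ∀ i, 2 ≤ m i) {e : Sym2 (Option (Σ i : Fin c, Fin (m i)))}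
    (he : e ∈ (bouquet m).edgeSet) :
    ∃ (i : Fin c) (q : ℤ), -1 ≤ q ∧ q + 1 ≤ m i ∧ e = s(vx m i q, vx m i (q + 1)) := by
  induction e with
  | _ x y =>
  rw [SimpleGraph.mem_edgeSet] at he
  have key : ∀ (i : Fin c) (q : Fin (m i)), (q.val = 0 ∨ q.val + 1 = m i) →
      ∃ (i' : Fin c) (q' : ℤ), -1 ≤ q' ∧ q' + 1 ≤ m i' ∧
        s((none : Option (Σ i : Fin c, Fin (m i))), some ⟨i, q⟩) =
          s(vx m i' q', vx m i' (q' + 1)) := by
    intro i q hq
    have hi := hm i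
    rcases hq with hq | hq
    · refine ⟨i, -1, by omega, by omega, ?_⟩
      rw [vx_out m (q := -1) (by omega)]
      have h1 : (-1 : ℤ) + 1 = (q.val : ℤ) := by omega
      rw [h1, vx_in]
    · refine ⟨i, q.val, by omega, by omega, ?_⟩
      rw [vx_in, vx_out m (by omega), Sym2.eq_swap]
  have key2 : ∀ (i : Fin c) (q p : Fin (m i)), q.val + 1 = p.val →
      ∃ (i' : Fin c) (q' : ℤ), -1 ≤ q' ∧ q' + 1 ≤ m i' ∧
        s((some ⟨i, q⟩ : Option (Σ i : Fin c, Fin (m i))), some ⟨i, p⟩) =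
          s(vx m i' q', vx m i' (q' + 1)) := by
    intro i q p hq
    have hp := p.2
    refine ⟨i, q.val, by omega, by omega, ?_⟩
    have h1 : (q.val : ℤ) + 1 = (p.val : ℤ) := by omega
    rw [h1, vx_in, vx_in]
  rcases x with _ | ⟨i, q⟩ <;> rcases y with _ | ⟨j, p⟩
  · exact he.elim
  · exact key j p he
  · rw [Sym2.eq_swap]
    exact key i q he
  · obtain ⟨h1, h2⟩ := he
    have h1' : i = j := h1
    subst h1'
    rcases h2 with h2 | h2
    · exact key2 i q p h2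
    · rw [Sym2.eq_swap]
      exact key2 i p q h2

theorem edge_uniq (hm : ∀ i, 2 ≤ m i) {i j : Fin c} {q p : ℤ} (h1 : -1 ≤ q) (h2 : q + 1 ≤ m i)
    (h3 : -1 ≤ p) (h4 : p + 1 ≤ m j)
    (h : s(vx m i q, vx m i (q + 1)) = s(vx m j p, vx m j (p + 1))) : i = j ∧ q = p := by
  have hi := hm i
  have hj := hm j
  rw [Sym2.eq_iff] at h
  by_cases hij : i = j
  · subst hij
    refine ⟨rfl, ?_⟩
    rcases h with ⟨ha, hb⟩ | ⟨ha, hb⟩
    · rcases vx_eq m ha with ⟨-, -, -, h5⟩ | h5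
      · exact h5
      · omega
    · rcases vx_eq m ha with ⟨-, -, -, h5⟩ | h5 <;>
        rcases vx_eq m hb with ⟨-, -, -, h6⟩ | h6 <;> omega
  · exfalso
    rcases h with ⟨ha, hb⟩ | ⟨ha, hb⟩
    · rcases vx_eq m ha with ⟨-, -, h5, -⟩ | h5
      · exact hij h5
      · rcases vx_eq m hb with ⟨-, -, h6, -⟩ | h6
        · exact hij h6
        · omega
    · rcases vx_eq m ha with ⟨-, -, h5, -⟩ | h5
      · exact hij h5
      · rcases vx_eq m hb with ⟨-, -, h6, -⟩ | h6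
        · exact hij h6
        · omega

end edges

section sets

variable {V : Type u} {G : SimpleGraph V} {c l : ℕ} {m : Fin c → ℕ} {a : Fin c → ℤ → V}
  {Hb : Set V} {κ : ℤ}

/-- a slot of a leg -/
def slot (κ : ℤ) (a : Fin c → ℤ → V) (i : Fin c) (k : ℤ) : Set V :=
  {y | ∃ t, κ * k ≤ t ∧ t ≤ κ * k + κ ∧ a i t = y}

/-- the outer parts of the legs -/
def outer (κ : ℤ) (l : ℕ) (m : Fin c → ℕ) (a : Fin c → ℤ → V) (p : Fin c × Bool) : Set V :=
  {y | ∃ t, (if p.2 then κ * (2 * (m p.1 : ℤ)) else -((l : ℤ) + 2)) ≤ t ∧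
    t ≤ (if p.2 then (l : ℤ) + 2 else -κ) ∧ a p.1 t = y}

/-- the branch set of the centre -/
def hub (κ : ℤ) (l : ℕ) (m : Fin c → ℕ) (a : Fin c → ℤ → V) (Hb : Set V) : Set V :=
  Hb ∪ ⋃ p, outer κ l m a p

/-- the branch sets -/
def BB (κ : ℤ) (l : ℕ) (m : Fin c → ℕ) (a : Fin c → ℤ → V) (Hb : Set V) :
    Option (Σ i : Fin c, Fin (m i)) → Set V
  | none => hub κ l m a Hb
  | some q => slot κ a q.1 (2 * (q.2.val : ℤ))

/-- the edge sets -/
def PP (κ : ℤ) (m : Fin c → ℕ) (a : Fin c → ℤ → V)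
    (e : Sym2 (Option (Σ i : Fin c, Fin (m i)))) : Set V :=
  {x | ∃ (i : Fin c) (q : ℤ), -1 ≤ q ∧ q + 1 ≤ m i ∧ e = s(vx m i q, vx m i (q + 1)) ∧
    x ∈ slot κ a i (2 * q + 1)}

theorem slot_bound (hκ : 1 ≤ κ) {i : Fin c} (h2 : 2 * κ * ((m i : ℤ) + 1) ≤ l) (hm : 2 ≤ m i)
    {k t : ℤ} (hk : -1 ≤ k) (hk' : k ≤ 2 * (m i : ℤ) - 1) (h3 : κ * k ≤ t)
    (h4 : t ≤ κ * k + κ) : -κ ≤ t ∧ t ≤ κ * (2 * (m i : ℤ)) ∧ (t.natAbs : ℤ) + 2 * κ ≤ l := by
  have h5 : -κ ≤ t := by nlinarith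
  have h6 : t ≤ κ * (2 * (m i : ℤ)) := by nlinarith
  have h7 : (2 : ℤ) ≤ m i := by exact_mod_cast hm
  have h8 : κ * (2 * (m i : ℤ)) + 2 * κ ≤ l := by nlinarith
  have h9 : κ + 2 * κ ≤ l := by nlinarith
  refine ⟨h5, h6, ?_⟩
  omega

theorem far_leg (hG : G.Connected) (hS : Sys G (l + 1) c a Hb) {i j : Fin c} (hij : i ≠ j)
    {s t : ℤ} (hs : (s.natAbs : ℤ) + 2 * κ ≤ l) (ht : t.natAbs ≤ l + 2) (hκ : 1 ≤ κ) :
    κ ≤ G.dist (a i s) (a j t) := by
  have h1 := hS.sep i j hij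
  have h2 := hS.geo i 0 s (by simp) (by omega)
  have h3 := hS.geo j t 0 (by omega) (by simp)
  have h4 := hG.dist_triangle (u := a i 0) (v := a i s) (w := a j 0)
  have h5 := hG.dist_triangle (u := a i s) (v := a j t) (w := a j 0)
  omega

theorem far_hub (hG : G.Connected) (hS : Sys G (l + 1) c a Hb) {i : Fin c} {s : ℤ} {x : V}
    (hx : x ∈ Hb) (hs : (s.natAbs : ℤ) + 2 * κ ≤ l) (hκ : 1 ≤ κ) :
    κ ≤ G.dist (a i s) x := by
  have h1 := hS.far i x hx
  have h2 := hS.geo i 0 s (by simp) (by omega)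
  have h4 := hG.dist_triangle (u := a i 0) (v := a i s) (w := x)
  omega

theorem slot_slot (hG : G.Connected) (hS : Sys G (l + 1) c a Hb) (hκ : 1 ≤ κ)
    (h2 : ∀ i, 2 * κ * ((m i : ℤ) + 1) ≤ l) (hm : ∀ i, 2 ≤ m i) {i j : Fin c} {k k' : ℤ}
    (hk : -1 ≤ k) (hk' : k ≤ 2 * (m i : ℤ) - 1) (hj : -1 ≤ k') (hj' : k' ≤ 2 * (m j : ℤ) - 1)
    (h : i = j → k + 2 ≤ k' ∨ k' + 2 ≤ k) {x y : V} (hx : x ∈ slot κ a i k)
    (hy : y ∈ slot κ a j k') : κ ≤ G.dist x y := by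
  obtain ⟨s, hs1, hs2, rfl⟩ := hx
  obtain ⟨t, ht1, ht2, rfl⟩ := hy
  have hs := slot_bound hκ (h2 i) (hm i) hk hk' hs1 hs2
  have ht := slot_bound hκ (h2 j) (hm j) hj hj' ht1 ht2
  by_cases hij : i = j
  · subst hij
    rw [hS.geo i s t (by omega) (by omega)]
    rcases h rfl with h | h
    · have h5 : κ * k + 2 * κ ≤ κ * k' := by nlinarith
      omega
    · have h5 : κ * k' + 2 * κ ≤ κ * k := by nlinarith
      omega
  · exact far_leg hG hS hij hs.2.2 (by omega) hκ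

theorem slot_hub (hG : G.Connected) (hS : Sys G (l + 1) c a Hb) (hκ : 1 ≤ κ)
    (h2 : ∀ i, 2 * κ * ((m i : ℤ) + 1) ≤ l) (hm : ∀ i, 2 ≤ m i) {i : Fin c} {k : ℤ}
    (hk : 0 ≤ k) (hk' : k ≤ 2 * (m i : ℤ) - 2)
    {x y : V} (hx : x ∈ slot κ a i k) (hy : y ∈ hub κ l m a Hb) : κ ≤ G.dist x y := by
  obtain ⟨s, hs1, hs2, rfl⟩ := hx
  have hs := slot_bound hκ (h2 i) (hm i) (by omega) (by omega) hs1 hs2
  rcases hy with hy | hy
  · exact far_hub hG hS hy hs.2.2 hκ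
  · obtain ⟨⟨j, b⟩, t, ht1, ht2, rfl⟩ := Set.mem_iUnion.mp hy
    have h3 := h2 j
    have h4 : (2 : ℤ) ≤ m j := by exact_mod_cast hm j
    have h5 : 0 ≤ κ * (2 * (m j : ℤ)) := by nlinarith
    have h6 : κ + 2 * κ ≤ l := by nlinarith
    have ht : t.natAbs ≤ l + 2 := by
      cases b
      · simp only [Bool.false_eq_true, if_false] at ht1 ht2
        omega
      · simp only [if_true] at ht1 ht2
        omega
    by_cases hij : i = j
    · subst hij
      rw [hS.geo i s t (by omega) (by omega)]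
      cases b
      · simp only [Bool.false_eq_true, if_false] at ht1 ht2
        have h7 : 0 ≤ κ * k := by nlinarith
        omega
      · simp only [if_true] at ht1 ht2
        have h7 : κ * k + 2 * κ ≤ κ * (2 * (m i : ℤ)) := by nlinarith
        omega
    · exact far_leg hG hS hij hs.2.2 ht hκ

theorem slot_cn (hS : Sys G (l + 1) c a Hb) (hκ : 1 ≤ κ)
    (h2 : ∀ i, 2 * κ * ((m i : ℤ) + 1) ≤ l) (hm : ∀ i, 2 ≤ m i) {i : Fin c} {k : ℤ}
    (hk : -1 ≤ k) (hk' : k ≤ 2 * (m i : ℤ) - 1) : Cn G (slot κ a i k) := by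
  have h3 := slot_bound hκ (h2 i) (hm i) hk hk' (le_refl (κ * k)) (by omega)
  have h4 := slot_bound hκ (h2 i) (hm i) (t := κ * k + κ) hk hk' (by omega) le_rfl
  exact (hS.geo i).cn (by omega) (by omega) (by omega)

theorem hub_cn (hS : Sys G (l + 1) c a Hb) (hκ : 1 ≤ κ)
    (h2 : ∀ i, 2 * κ * ((m i : ℤ) + 1) ≤ l) (hm : ∀ i, 2 ≤ m i) :
    Cn G (hub κ l m a Hb) := by
  refine hS.cn.union_iUnion ?_ ?_
  · rintro ⟨j, b⟩
    have h3 := h2 j
    have h4 : (2 : ℤ) ≤ m j := by exact_mod_cast hm j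
    have h5 : 0 ≤ κ * (2 * (m j : ℤ)) := by nlinarith
    have h6 : κ + 2 * κ ≤ l := by nlinarith
    have h7 : κ * (2 * (m j : ℤ)) ≤ l := by nlinarith
    cases b
    · show Cn G {y | ∃ t, -((l : ℤ) + 2) ≤ t ∧ t ≤ -κ ∧ a j t = y}
      exact (hS.geo j).cn (by omega) (by omega) (by omega)
    · show Cn G {y | ∃ t, κ * (2 * (m j : ℤ)) ≤ t ∧ t ≤ (l : ℤ) + 2 ∧ a j t = y}
      exact (hS.geo j).cn (by omega) (by omega) (by omega)
  · rintro ⟨j, b⟩
    have h3 := h2 j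
    have h4 : (2 : ℤ) ≤ m j := by exact_mod_cast hm j
    have h6 : κ + 2 * κ ≤ l := by nlinarith
    have h7 : κ * (2 * (m j : ℤ)) ≤ l := by nlinarith
    cases b
    · refine ⟨a j (-((l : ℤ) + 2)), ?_, -((l : ℤ) + 2), ?_, ?_, rfl⟩
      · have h8 := hS.neg j
        have h9 : -(((l + 1 : ℕ) : ℤ) + 1) = -((l : ℤ) + 2) := by push_cast; ring
        rw [h9] at h8
        exact h8
      · simp
      · simp only [Bool.false_eq_true, if_false]
        omega
    · refine ⟨a j ((l : ℤ) + 2), ?_, (l : ℤ) + 2, ?_, ?_, rfl⟩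
      · have h8 := hS.pos j
        have h9 : ((l + 1 : ℕ) : ℤ) + 1 = (l : ℤ) + 2 := by push_cast; ring
        rw [h9] at h8
        exact h8
      · simp only [if_true]
        omega
      · simp

end sets

end FATM

open FATM in
theorem specFAT : SpecFAT.{u} := by
  intro V G hG K c l m hm hl a Hb hS
  have hκ : (1 : ℤ) ≤ (K : ℤ) + 1 := by omega
  have h2 : ∀ i, 2 * ((K : ℤ) + 1) * ((m i : ℤ) + 1) ≤ l := by
    intro i
    have := hl i
    exact_mod_cast this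
  have hdist : ∀ p q : V, (K : ℤ) + 1 ≤ G.dist p q → (K : ℕ∞) ≤ G.edist p q := by
    intro p q h
    rw [← (hG.preconnected p q).coe_dist_eq_edist]
    have h1 : K ≤ G.dist p q := by omega
    exact_mod_cast h1
  have hPP : ∀ (i : Fin c) (q : ℤ), -1 ≤ q → q + 1 ≤ m i →
      PP ((K : ℤ) + 1) m a s(vx m i q, vx m i (q + 1)) = slot ((K : ℤ) + 1) a i (2 * q + 1) := by
    intro i q h3 h4
    ext x
    constructor
    · rintro ⟨j, p, h5, h6, h7, h8⟩
      obtain ⟨rfl, rfl⟩ := edge_uniq m hm h3 h4 h5 h6 h7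
      exact h8
    · intro h5
      exact ⟨i, q, h3, h4, rfl, h5⟩
  refine ⟨BB ((K : ℤ) + 1) l m a Hb, PP ((K : ℤ) + 1) m a, ?_, ?_, ?_, ?_, ?_, ?_⟩
  · rintro (_ | ⟨i, q⟩)
    · exact cn_iff.mp (hub_cn hS hκ h2 hm)
    · exact cn_iff.mp (slot_cn hS hκ h2 hm (by omega) (by have := q.2; omega))
  · intro e he
    obtain ⟨i, q, h3, h4, rfl⟩ := edge_form m hm he
    rw [hPP i q h3 h4]
    exact cn_iff.mp (slot_cn hS hκ h2 hm (by omega) (by omega))
  · intro e he x hx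
    obtain ⟨i, q, h3, h4, rfl⟩ := edge_form m hm he
    rw [hPP i q h3 h4]
    rw [Sym2.mem_iff] at hx
    rcases hx with rfl | rfl
    · refine ⟨a i (((K : ℤ) + 1) * (2 * q + 1)), ?_, _, le_rfl, by omega, rfl⟩
      by_cases h5 : 0 ≤ q ∧ q < m i
      · obtain ⟨p, hp, hp'⟩ := vx_in' m h5
        rw [hp]
        refine ⟨_, ?_, ?_, rfl⟩
        · show ((K : ℤ) + 1) * (2 * (p.val : ℤ)) ≤ _
          rw [hp']
          nlinarith
        · show _ ≤ ((K : ℤ) + 1) * (2 * (p.val : ℤ)) + ((K : ℤ) + 1)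
          rw [hp']
          nlinarith
      · rw [vx_out m h5]
        have h6 : q = -1 := by omega
        subst h6
        refine Or.inr (Set.mem_iUnion.mpr ⟨(i, false), _, ?_, ?_, rfl⟩)
        · simp only [Bool.false_eq_true, if_false]
          have h7 := h2 i
          have h8 : (2 : ℤ) ≤ m i := by exact_mod_cast hm i
          nlinarith
        · simp only [Bool.false_eq_true, if_false]
          nlinarith
    · refine ⟨a i (((K : ℤ) + 1) * (2 * q + 1) + ((K : ℤ) + 1)), ?_, _, by omega, le_rfl, rfl⟩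
      by_cases h5 : 0 ≤ q + 1 ∧ q + 1 < m i
      · obtain ⟨p, hp, hp'⟩ := vx_in' m h5
        rw [hp]
        refine ⟨_, ?_, ?_, rfl⟩
        · show ((K : ℤ) + 1) * (2 * (p.val : ℤ)) ≤ _
          rw [hp']
          nlinarith
        · show _ ≤ ((K : ℤ) + 1) * (2 * (p.val : ℤ)) + ((K : ℤ) + 1)
          rw [hp']
          nlinarith
      · rw [vx_out m h5]
        have h6 : q + 1 = m i := by omega
        refine Or.inr (Set.mem_iUnion.mpr ⟨(i, true), _, ?_, ?_, rfl⟩)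
        · simp only [if_true]
          rw [← h6]
          nlinarith
        · simp only [if_true]
          have h7 := h2 i
          rw [← h6] at h7
          nlinarith
  · intro x y hxy p hp q hq
    apply hdist
    rcases x with _ | ⟨i, r⟩ <;> rcases y with _ | ⟨j, t⟩
    · exact absurd rfl hxy
    · rw [SimpleGraph.dist_comm]
      exact slot_hub hG hS hκ h2 hm (by omega) (by have := t.2; omega) hq hp
    · exact slot_hub hG hS hκ h2 hm (by omega) (by have := r.2; omega) hp hq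
    · refine slot_slot hG hS hκ h2 hm (by omega) (by have := r.2; omega) (by omega)
        (by have := t.2; omega) ?_ hp hq
      intro hij
      have hij' : i = j := hij
      subst hij'
      have h5 : r ≠ t := by
        rintro rfl
        exact hxy rfl
      have h6 : r.val ≠ t.val := fun h => h5 (Fin.ext h)
      show 2 * (r.val : ℤ) + 2 ≤ 2 * (t.val : ℤ) ∨ 2 * (t.val : ℤ) + 2 ≤ 2 * (r.val : ℤ)
      omega
  · intro e he e' he' hee p hp q hq
    apply hdist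
    obtain ⟨i, r, h3, h4, rfl⟩ := edge_form m hm he
    obtain ⟨j, t, h5, h6, rfl⟩ := edge_form m hm he'
    rw [hPP i r h3 h4] at hp
    rw [hPP j t h5 h6] at hq
    refine slot_slot hG hS hκ h2 hm (by omega) (by omega) (by omega) (by omega) ?_ hp hq
    intro hij
    subst hij
    have h7 : r ≠ t := by
      rintro rfl
      exact hee rfl
    omega
  · intro x e he hxe p hp q hq
    apply hdist
    obtain ⟨j, t, h5, h6, rfl⟩ := edge_form m hm he
    rw [hPP j t h5 h6] at hq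
    rw [Sym2.mem_iff, not_or] at hxe
    rcases x with _ | ⟨i, r⟩
    · rw [SimpleGraph.dist_comm]
      have h7 : 0 ≤ t ∧ t < m j := by
        by_contra h
        exact hxe.1 (vx_out m h).symm
      have h8 : 0 ≤ t + 1 ∧ t + 1 < m j := by
        by_contra h
        exact hxe.2 (vx_out m h).symm
      exact slot_hub hG hS hκ h2 hm (by omega) (by omega) hq hp
    · refine slot_slot hG hS hκ h2 hm (by omega) (by have := r.2; omega) (by omega)
        (by omega) ?_ hp hq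
      intro hij
      have hij' : i = j := hij
      subst hij'
      have h7 : (r.val : ℤ) ≠ t := by
        rintro rfl
        exact hxe.1 (vx_in m i r).symm
      have h8 : (r.val : ℤ) ≠ t + 1 := by
        intro h
        apply hxe.2
        rw [← h, vx_in]
      show 2 * (r.val : ℤ) + 2 ≤ 2 * t + 1 ∨ 2 * t + 1 + 2 ≤ 2 * (r.val : ℤ)
      omega

end Pool.Agent.Lib.MPbafc89.BQ
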