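import Pool.Agent.Lib.MP_bafc89_co.BQ.Spec2

/-!
# FCO (MP_bafc89_co, bouquets of cycles): fat minors of a component are fat minors
-/

set_option autoImplicit false

namespace Pool.Agent.Lib.MPbafc89.BQ

open SimpleGraph

universe u v

namespace FCOM

/-- joining walks of an induced subgraph are joining walks -/
lemma jn_image {V : Type u} {G : SimpleGraph V} {S : Set V} {B : Set S} {x y : S}
    (h : Jn (G.induce S) B x y) : Jn G (Subtype.val '' B) (x : V) (y : V) := by
  refine h.induct (fun z => Jn G (Subtype.val '' B) (x : V) (z : V)) (Jn.refl ⟨x, h.left, rfl⟩) ?_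
  intro a b ha hb hab hPa
  have hab' : G.Adj (a : V) (b : V) := by simpa using hab
  exact hPa.trans (Jn.adj ⟨a, ha, rfl⟩ ⟨b, hb, rfl⟩ hab')

lemma conn_image {V : Type u} {G : SimpleGraph V} {S : Set V} {B : Set S}
    (h : ((G.induce S).induce B).Connected) : (G.induce (Subtype.val '' B)).Connected := by
  rw [← cn_iff] at h ⊢
  obtain ⟨⟨c, hc⟩, h2⟩ := h
  refine Cn.of_center (c := (c : V)) ⟨c, hc, rfl⟩ ?_
  rintro x ⟨y, hy, rfl⟩
  exact jn_image (h2 c hc y hy)

/-- the distance in a component is at most the distance in the graph -/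
lemma edist_le_comp {V : Type u} {G : SimpleGraph V} (C : G.ConnectedComponent) (p q : C.supp) :
    (G.induce C.supp).edist p q ≤ G.edist (p : V) (q : V) := by
  by_cases h : G.edist (p : V) (q : V) = ⊤
  · rw [h]
    exact le_top
  · have hr := SimpleGraph.edist_ne_top_iff_reachable.mp h
    obtain ⟨w, hw⟩ := hr.exists_walk_length_eq_edist
    have key : ∀ (x y : V) (w : G.Walk x y) (hx : x ∈ C.supp) (hy : y ∈ C.supp),
        (G.induce C.supp).edist ⟨x, hx⟩ ⟨y, hy⟩ ≤ (w.length : ℕ∞) := by
      intro x y w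
      induction w with
      | nil =>
        intro hx hy
        simp
      | @cons a b c hab w ih =>
        intro hx hy
        have hb : b ∈ C.supp := by
          rw [SimpleGraph.ConnectedComponent.mem_supp_iff] at hx ⊢
          rw [← hx]
          exact SimpleGraph.ConnectedComponent.sound hab.symm.reachable
        have h1 := ih hb hy
        have h2 : (G.induce C.supp).Adj ⟨a, hx⟩ ⟨b, hb⟩ := by simpa using hab
        have h3 : (G.induce C.supp).edist ⟨a, hx⟩ ⟨b, hb⟩ = 1 :=
          SimpleGraph.edist_eq_one_iff_adj.mpr h2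
        calc (G.induce C.supp).edist ⟨a, hx⟩ ⟨c, hy⟩
            ≤ (G.induce C.supp).edist ⟨a, hx⟩ ⟨b, hb⟩ + (G.induce C.supp).edist ⟨b, hb⟩ ⟨c, hy⟩ :=
              SimpleGraph.edist_triangle
          _ ≤ 1 + (w.length : ℕ∞) := by
              rw [h3]
              gcongr
          _ = ((Walk.cons hab w).length : ℕ∞) := by
              rw [Walk.length_cons, Nat.cast_add, Nat.cast_one, add_comm]
    have := key _ _ w p.2 q.2
    rw [hw] at this
    exact this

end FCOM

open FCOM in
theorem specFCO : SpecFCO.{u, v} := by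
  intro V G C K α H hfat
  obtain ⟨B, P, h1, h2, h3, h4, h5, h6⟩ := hfat
  refine ⟨fun x => Subtype.val '' B x, fun e => Subtype.val '' P e, ?_, ?_, ?_, ?_, ?_, ?_⟩
  · intro x
    exact conn_image (h1 x)
  · intro e he
    exact conn_image (h2 e he)
  · intro e he x hx
    obtain ⟨z, hz1, hz2⟩ := h3 e he x hx
    exact ⟨z, ⟨z, hz1, rfl⟩, ⟨z, hz2, rfl⟩⟩
  · rintro x y hxy _ ⟨p, hp, rfl⟩ _ ⟨q, hq, rfl⟩
    exact (h4 x y hxy p hp q hq).trans (edist_le_comp C p q)
  · rintro e he e' he' hee _ ⟨p, hp, rfl⟩ _ ⟨q, hq, rfl⟩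
    exact (h5 e he e' he' hee p hp q hq).trans (edist_le_comp C p q)
  · rintro x e he hx _ ⟨p, hp, rfl⟩ _ ⟨q, hq, rfl⟩
    exact (h6 x e he hx p hp q hq).trans (edist_le_comp C p q)

end Pool.Agent.Lib.MPbafc89.BQ
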