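import Pool.Agent.Lib.MP_bafc89_co.BQ.Spec3

set_option autoImplicit false

namespace Pool.Agent.Lib.MPbafc89.BQ

open SimpleGraph

universe u v

namespace FCTM

variable {c h : ℕ} (m : Fin c → ℕ) (n : Fin h → ℕ)

/-- the vertices of the `i`-th cycle -/
def P (i : Fin c) (q : ℕ) : Option ((Σ i : Fin c, Fin (m i)) ⊕ (Σ i : Fin h, Fin (n i))) :=
  if h : 1 ≤ q ∧ q ≤ m i then some (.inl ⟨i, ⟨q - 1, by omega⟩⟩) else none

/-- the vertices of the `i`-th path -/
def R (i : Fin h) (q : ℕ) : Option ((Σ i : Fin c, Fin (m i)) ⊕ (Σ i : Fin h, Fin (n i))) :=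
  if h : 1 ≤ q ∧ q ≤ n i then some (.inr ⟨i, ⟨q - 1, by omega⟩⟩) else none

theorem P_some {i : Fin c} {q : ℕ} (h1 : 1 ≤ q) (h2 : q ≤ m i) :
    P m n i q = some (.inl ⟨i, ⟨q - 1, by omega⟩⟩) := by
  unfold P
  rw [dif_pos ⟨h1, h2⟩]

theorem P_none {i : Fin c} {q : ℕ} (h : q = 0 ∨ m i < q) : P m n i q = none := by
  unfold P
  rw [dif_neg]
  omega

theorem R_some {i : Fin h} {q : ℕ} (h1 : 1 ≤ q) (h2 : q ≤ n i) :
    R m n i q = some (.inr ⟨i, ⟨q - 1, by omega⟩⟩) := by
  unfold R
  rw [dif_pos ⟨h1, h2⟩]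

theorem R_none {i : Fin h} {q : ℕ} (h : q = 0 ∨ n i < q) : R m n i q = none := by
  unfold R
  rw [dif_neg]
  omega

theorem P_eq {i j : Fin c} {q r : ℕ} (hq : q ≤ m i + 1) (hr : r ≤ m j + 1)
    (h : P m n i q = P m n j r) :
    ((q = 0 ∨ q = m i + 1) ∧ (r = 0 ∨ r = m j + 1)) ∨ (i = j ∧ q = r) := by
  by_cases h1 : 1 ≤ q ∧ q ≤ m i
  · by_cases h2 : 1 ≤ r ∧ r ≤ m j
    · right
      rw [P_some m n h1.1 h1.2, P_some m n h2.1 h2.2] at h
      have h3 := Sum.inl.inj (Option.some.inj h)
      obtain ⟨h4, h5⟩ := Sigma.mk.inj h3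
      subst h4
      have h6 := eq_of_heq h5
      have h7 := congrArg Fin.val h6
      simp only at h7
      exact ⟨rfl, by omega⟩
    · rw [P_some m n h1.1 h1.2, P_none m n (by omega)] at h
      exact absurd h (by simp)
  · by_cases h2 : 1 ≤ r ∧ r ≤ m j
    · rw [P_some m n h2.1 h2.2, P_none m n (by omega)] at h
      exact absurd h (by simp)
    · left
      omega

theorem R_eq {i j : Fin h} {q r : ℕ} (hq : 1 ≤ q) (hq' : q ≤ n i)
    (h : R m n i q = R m n j r) : i = j ∧ q = r := by
  by_cases h2 : 1 ≤ r ∧ r ≤ n j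
  · rw [R_some m n hq hq', R_some m n h2.1 h2.2] at h
    have h3 := Sum.inr.inj (Option.some.inj h)
    obtain ⟨h4, h5⟩ := Sigma.mk.inj h3
    subst h4
    have h6 := eq_of_heq h5
    have h7 := congrArg Fin.val h6
    simp only at h7
    exact ⟨rfl, by omega⟩
  · rw [R_some m n hq hq', R_none m n (by omega)] at h
    exact absurd h (by simp)

theorem P_ne_R {i : Fin c} {j : Fin h} {q r : ℕ} (hr : 1 ≤ r) (hr' : r ≤ n j) :
    P m n i q ≠ R m n j r := by
  intro h
  rw [R_some m n hr hr'] at h
  by_cases h1 : 1 ≤ q ∧ q ≤ m i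
  · rw [P_some m n h1.1 h1.2] at h
    exact absurd (Option.some.inj h) (by simp)
  · rw [P_none m n (by omega)] at h
    exact absurd h (by simp)

theorem P_adj {i : Fin c} (hm : 2 ≤ m i) {q : ℕ} (hq : q ≤ m i) :
    (flower m n).Adj (P m n i q) (P m n i (q + 1)) := by
  rcases Nat.eq_zero_or_pos q with rfl | h0
  · rw [P_none m n (Or.inl rfl), P_some m n (by omega) (by omega)]
    show (_ = 0 ∨ _ = _)
    left
    rfl
  · rcases Nat.lt_or_ge q (m i) with h1 | h1
    · rw [P_some m n h0 hq, P_some m n (by omega) (by omega)]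
      refine ⟨rfl, Or.inl ?_⟩
      show q - 1 + 1 = q + 1 - 1
      omega
    · rw [P_some m n h0 hq, P_none m n (by omega)]
      show (_ = 0 ∨ _ = _)
      right
      show q - 1 + 1 = m i
      omega

theorem R_adj {i : Fin h} {q : ℕ} (hq : q < n i) :
    (flower m n).Adj (R m n i q) (R m n i (q + 1)) := by
  rcases Nat.eq_zero_or_pos q with rfl | h0
  · rw [R_none m n (Or.inl rfl), R_some m n (by omega) (by omega)]
    show _ = 0
    rfl
  · rw [R_some m n h0 (by omega), R_some m n (by omega) (by omega)]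
    refine ⟨rfl, Or.inl ?_⟩
    show q - 1 + 1 = q + 1 - 1
    omega

end FCTM

theorem specFCT : SpecFCT := by
  intro c h m n hm
  constructor
  · rw [SimpleGraph.connected_iff_exists_forall_reachable]
    refine ⟨none, ?_⟩
    have key : ∀ (i : Fin c) (q : ℕ), q ≤ m i →
        (flower m n).Reachable none (FCTM.P m n i q) := by
      intro i q
      induction q with
      | zero =>
        intro _
        rw [FCTM.P_none m n (Or.inl rfl)]
      | succ q ih =>
        intro hq
        exact (ih (by omega)).trans (FCTM.P_adj m n (hm i) (by omega)).reachable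
    have key2 : ∀ (i : Fin h) (q : ℕ), q ≤ n i →
        (flower m n).Reachable none (FCTM.R m n i q) := by
      intro i q
      induction q with
      | zero =>
        intro _
        rw [FCTM.R_none m n (Or.inl rfl)]
      | succ q ih =>
        intro hq
        exact (ih (by omega)).trans (FCTM.R_adj m n (by omega)).reachable
    rintro (_ | (⟨i, q⟩ | ⟨i, q⟩))
    · exact Reachable.refl _
    · have h := key i (q.val + 1) q.2
      rw [FCTM.P_some m n (by omega) q.2] at h
      exact h
    · have h := key2 i (q.val + 1) q.2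
      rw [FCTM.R_some m n (by omega) q.2] at h
      exact h
  · have hcard : Nat.card (Option ((Σ i : Fin c, Fin (m i)) ⊕ (Σ i : Fin h, Fin (n i)))) =
        (∑ i, m i) + (∑ i, n i) + 1 := by
      rw [Nat.card_eq_fintype_card, Fintype.card_option, Fintype.card_sum, Fintype.card_sigma,
        Fintype.card_sigma]
      simp
    let F : (Σ i : Fin c, Fin (m i + 1)) ⊕ (Σ i : Fin h, Fin (n i)) → (flower m n).edgeSet :=
      fun x => match x with
      | .inl x => ⟨s(FCTM.P m n x.1 x.2.val, FCTM.P m n x.1 (x.2.val + 1)), by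
          rw [mem_edgeSet]
          exact FCTM.P_adj m n (hm x.1) (by have := x.2.2; omega)⟩
      | .inr x => ⟨s(FCTM.R m n x.1 x.2.val, FCTM.R m n x.1 (x.2.val + 1)), by
          rw [mem_edgeSet]
          exact FCTM.R_adj m n x.2.2⟩
    have hF : Function.Injective F := by
      rintro (⟨i, q, hq⟩ | ⟨i, q, hq⟩) (⟨j, r, hr⟩ | ⟨j, r, hr⟩) h
      · have h1 : s(FCTM.P m n i q, FCTM.P m n i (q + 1)) =
            s(FCTM.P m n j r, FCTM.P m n j (r + 1)) := congrArg Subtype.val h
        have hi := hm i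
        have hj := hm j
        have fin : i = j ∧ q = r := by
          rw [Sym2.eq_iff] at h1
          rcases h1 with ⟨h1, h2⟩ | ⟨h1, h2⟩
          · rcases FCTM.P_eq m n (by omega) (by omega) h1 with h3 | h3
            · rcases FCTM.P_eq m n (by omega) (by omega) h2 with h4 | h4
              · omega
              · exact ⟨h4.1, by omega⟩
            · exact h3
          · rcases FCTM.P_eq m n (by omega) (by omega) h1 with h3 | h3
            · rcases FCTM.P_eq m n (by omega) (by omega) h2 with h4 | h4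
              · omega
              · obtain ⟨rfl, h4⟩ := h4
                omega
            · obtain ⟨rfl, h3⟩ := h3
              rcases FCTM.P_eq m n (by omega) (by omega) h2 with h4 | h4
              · omega
              · omega
        obtain ⟨rfl, rfl⟩ := fin
        rfl
      · exfalso
        have h1 : s(FCTM.P m n i q, FCTM.P m n i (q + 1)) =
            s(FCTM.R m n j r, FCTM.R m n j (r + 1)) := congrArg Subtype.val h
        rw [Sym2.eq_iff] at h1
        rcases h1 with ⟨_, h2⟩ | ⟨h2, _⟩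
        · exact FCTM.P_ne_R m n (by omega) (by omega) h2
        · exact FCTM.P_ne_R m n (by omega) (by omega) h2
      · exfalso
        have h1 : s(FCTM.R m n i q, FCTM.R m n i (q + 1)) =
            s(FCTM.P m n j r, FCTM.P m n j (r + 1)) := congrArg Subtype.val h
        rw [Sym2.eq_iff] at h1
        rcases h1 with ⟨_, h2⟩ | ⟨_, h2⟩
        · exact FCTM.P_ne_R m n (by omega) (by omega) h2.symm
        · exact FCTM.P_ne_R m n (by omega) (by omega) h2.symm
      · have h1 : s(FCTM.R m n i q, FCTM.R m n i (q + 1)) =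
            s(FCTM.R m n j r, FCTM.R m n j (r + 1)) := congrArg Subtype.val h
        have fin : i = j ∧ q = r := by
          rw [Sym2.eq_iff] at h1
          rcases h1 with ⟨_, h2⟩ | ⟨h1, h2⟩
          · obtain ⟨h3, h4⟩ := FCTM.R_eq m n (by omega) (by omega) h2
            exact ⟨h3, by omega⟩
          · obtain ⟨h3, h4⟩ := FCTM.R_eq m n (by omega) (by omega) h2
            obtain ⟨h5, h6⟩ := FCTM.R_eq m n (by omega) (by omega) h1.symm
            omega
        obtain ⟨rfl, rfl⟩ := fin
        rfl
    have hfin : Finite (flower m n).edgeSet := inferInstance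
    have h2 := Nat.card_le_card_of_injective F hF
    have h3 : Nat.card ((Σ i : Fin c, Fin (m i + 1)) ⊕ (Σ i : Fin h, Fin (n i))) =
        (∑ i, m i) + c + ∑ i, n i := by
      rw [Nat.card_eq_fintype_card, Fintype.card_sum, Fintype.card_sigma, Fintype.card_sigma]
      simp [Finset.sum_add_distrib]
    rw [h3] at h2
    rw [hcard]
    omega

end Pool.Agent.Lib.MPbafc89.BQ
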