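import Pool.Agent.Lib.MP_bafc89_co.BQ.Spec2

/-!
# FI2: the theorem on bouquets of cycles with the hypothesis that there is no system
-/

set_option autoImplicit false

namespace Pool.Agent.Lib.MPbafc89.BQ

open SimpleGraph

universe u v

theorem specFI2 (hSCA : SpecSCA.{u}) (hCTH : SpecCTH.{u, v}) (hMON : SpecMON.{u, v})
    (hDIS : SpecDIS.{u, v}) : SpecFI2.{u, v} := by
  intro c l
  set K : ℕ := (∑ k ∈ Finset.range c,
    Kc (rs l (c - (k + 1))) (S0 (rs l (c - (k + 1))) k)) + 1 with hK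
  refine ⟨K, K, ?_⟩
  intro V G hno
  refine hDIS V G K K c (by omega) ?_
  intro C
  have hconn : (G.induce C.supp).Connected := ConnectedComponent.connected_toSimpleGraph C
  obtain ⟨k, hk, a, Hb, hset⟩ := hSCA _ (G.induce C.supp) hconn c l (hno C)
  have hg := hCTH _ (G.induce C.supp) _ k a Hb hset c hk
  have hle : Kc (rs l (c - (k + 1))) (S0 (rs l (c - (k + 1))) k) ≤ K := by
    have h1 : Kc (rs l (c - (k + 1))) (S0 (rs l (c - (k + 1))) k) ≤
        ∑ k ∈ Finset.range c, Kc (rs l (c - (k + 1))) (S0 (rs l (c - (k + 1))) k) :=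
      Finset.single_le_sum (f := fun k => Kc (rs l (c - (k + 1))) (S0 (rs l (c - (k + 1))) k))
        (fun _ _ => Nat.zero_le _) (Finset.mem_range.2 hk)
    omega
  exact hMON.2 _ (G.induce C.supp) _ _ _ _ c hle hle hg

end Pool.Agent.Lib.MPbafc89.BQ
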