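import Pool.Agent.Lib.MP_bafc89_co.BQ.Spec

/-!
# FIN: the theorem on bouquets of cycles
-/

set_option autoImplicit false

namespace Pool.Agent.Lib.MPbafc89.BQ

open SimpleGraph

universe u v

namespace FINM

/-- Connectedness of the image of a connected set of an induced subgraph. -/
theorem cn_image {V : Type u} (G : SimpleGraph V) (S : Set V) (B : Set S)
    (h : Cn (G.induce S) B) : Cn G (Subtype.val '' B) := by
  refine ⟨h.1.image _, ?_⟩
  rintro _ ⟨x, hx, rfl⟩ _ ⟨y, hy, rfl⟩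
  refine (h.2 x hx y hy).induct (fun z => Jn G (Subtype.val '' B) (x : V) (z : V))
    (Jn.refl ⟨x, hx, rfl⟩) ?_
  intro a b ha hb hab hP
  refine hP.trans (Jn.adj ⟨a, ha, rfl⟩ ⟨b, hb, rfl⟩ ?_)
  simpa using hab

/-- Induced minors of induced subgraphs are induced minors. -/
theorem minor_induce {V : Type u} (G : SimpleGraph V) (S : Set V) {α : Type v}
    (H : SimpleGraph α) (h : IsInducedMinor H (G.induce S)) : IsInducedMinor H G := by
  obtain ⟨B, h1, h2, h3⟩ := h
  refine ⟨fun i => Subtype.val '' B i, fun i => cn_iff.1 (cn_image G S (B i) (cn_iff.2 (h1 i))),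
    fun i j hij => ?_, fun i j hij => ?_⟩
  · exact (Set.disjoint_image_iff Subtype.val_injective).2 (h2 i j hij)
  · rw [h3 i j hij]
    constructor
    · rintro ⟨x, hx, y, hy, hxy⟩
      exact ⟨x, ⟨x, hx, rfl⟩, y, ⟨y, hy, rfl⟩, by simpa using hxy⟩
    · rintro ⟨_, ⟨x, hx, rfl⟩, _, ⟨y, hy, rfl⟩, hxy⟩
      exact ⟨x, hx, y, hy, by simpa using hxy⟩

end FINM

open FINM in
theorem specFIN (hBOU : SpecBOU.{u}) (hSCA : SpecSCA.{u}) (hCTH : SpecCTH.{u, v})
    (hMON : SpecMON.{u, v}) (hDIS : SpecDIS.{u, v}) : SpecFIN.{u, v} := by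
  intro c l
  set K : ℕ := (∑ k ∈ Finset.range c,
    Kc (rs l (c - (k + 1))) (S0 (rs l (c - (k + 1))) k)) + 1 with hK
  refine ⟨K, K, ?_⟩
  intro V G m hm1 hm2 hH
  refine hDIS V G K K c (by omega) ?_
  intro C
  have hconn : (G.induce C.supp).Connected := ConnectedComponent.connected_toSimpleGraph C
  have hno : ∀ (a : Fin c → ℤ → C.supp) (Hb : Set C.supp),
      ¬ Sys (G.induce C.supp) (l + 1) c a Hb := by
    intro a Hb hS
    exact hH (minor_induce G C.supp (bouquet m)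
      (hBOU _ (G.induce C.supp) hconn c l m hm1 hm2 a Hb hS))
  obtain ⟨k, hk, a, Hb, hset⟩ := hSCA _ (G.induce C.supp) hconn c l hno
  have hg := hCTH _ (G.induce C.supp) _ k a Hb hset c hk
  have hle : Kc (rs l (c - (k + 1))) (S0 (rs l (c - (k + 1))) k) ≤ K := by
    have h1 : Kc (rs l (c - (k + 1))) (S0 (rs l (c - (k + 1))) k) ≤
        ∑ k ∈ Finset.range c, Kc (rs l (c - (k + 1))) (S0 (rs l (c - (k + 1))) k) :=
      Finset.single_le_sum (f := fun k => Kc (rs l (c - (k + 1))) (S0 (rs l (c - (k + 1))) k))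
        (fun _ _ => Nat.zero_le _) (Finset.mem_range.2 hk)
    omega
  exact hMON.2 _ (G.induce C.supp) _ _ _ _ c hle hle hg

end Pool.Agent.Lib.MPbafc89.BQ
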