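import Pool.Agent.Lib.MP_bafc89_co.BQ.Spec3

/-!
# FLF: the theorem on flowers
-/

set_option autoImplicit false

namespace Pool.Agent.Lib.MPbafc89.BQ

open SimpleGraph

universe u v

namespace FLFM

theorem QI_mono {V : Type u} {W : Type v} {G : SimpleGraph V} {G' : SimpleGraph W} {f : V → W}
    {M A M' A' : ℕ} (h : QI G G' f M A) (hM : M ≤ M') (hA : A ≤ A') : QI G G' f M' A' := by
  have hM' : (M : ℕ∞) ≤ (M' : ℕ∞) := by exact_mod_cast hM
  have hA' : (A : ℕ∞) ≤ (A' : ℕ∞) := by exact_mod_cast hA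
  refine ⟨fun x y => (h.low x y).trans ?_, fun x y => (h.upp x y).trans ?_, fun y => ?_⟩
  · exact add_le_add (mul_le_mul' hM' le_rfl) hA'
  · exact add_le_add (mul_le_mul' hM' le_rfl) hA'
  · obtain ⟨x, hx⟩ := h.cov y
    exact ⟨x, hx.trans hA'⟩

theorem rs_ge (l n : ℕ) : l + 1 ≤ rs l n := by
  induction n with
  | zero => exact le_rfl
  | succ n ih =>
    show l + 1 ≤ 30 * rs l n + 30
    omega

end FLFM

open FLFM in
theorem specFLF (hSCA : SpecSCA.{u}) (hCTH : SpecCTH.{u, 0}) (hFCT : SpecFCT)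
    (hEXC : SpecEXC.{u}) (hSYF : SpecSYF.{u}) (hDI2 : SpecDI2.{u, 0}) : SpecFLF.{u} := by
  intro K l c h hc
  obtain ⟨l', hl'⟩ : ∃ l' : ℕ, l' = (2 * c + h + 1) * (4 * RR K l + 1) := ⟨_, rfl⟩
  obtain ⟨g, hg⟩ : ∃ g : ℕ → ℕ, g = fun k => Kf K l (rs l' (c + h - (k + 1))) k +
    Kc (rs l' (c + h - (k + 1))) (S0 (rs l' (c + h - (k + 1))) k) := ⟨_, rfl⟩
  obtain ⟨N, hN⟩ : ∃ N : ℕ, N = (∑ k ∈ Finset.range (c + h), g k) + 1 := ⟨_, rfl⟩
  have hle : ∀ k < c + h, g k ≤ N := by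
    intro k hk
    have h1 : g k ≤ ∑ k ∈ Finset.range (c + h), g k :=
      Finset.single_le_sum (f := g) (fun _ _ => Nat.zero_le _) (Finset.mem_range.2 hk)
    omega
  have hRR : RR K l ≤ l' + 1 := by
    have h1 : 1 * (4 * RR K l + 1) ≤ (2 * c + h + 1) * (4 * RR K l + 1) :=
      Nat.mul_le_mul_right _ (by omega)
    omega
  refine ⟨N, N, ?_⟩
  intro V G m n hm hn hno
  have hfc := hFCT c h m n (fun i => (hm i).1)
  refine hDI2 V G N N _ (flower m n) (by omega) hfc.1 ?_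
  intro C
  have hconn : (G.induce C.supp).Connected := ConnectedComponent.connected_toSimpleGraph C
  have hsys : ∀ (a : Fin (c + h) → ℤ → C.supp) (Hb : Set C.supp),
      ¬ Sys (G.induce C.supp) (l' + 1) (c + h) a Hb := by
    intro a Hb hS
    exact hno C (hSYF _ (G.induce C.supp) hconn K l c h (l' + 1) m n hm hn hRR a Hb hS)
  obtain ⟨k, hk, a, Hb, hset⟩ := hSCA _ (G.induce C.supp) hconn (c + h) l' hsys
  have hgk := hle k hk
  rw [hg] at hgk
  have hgk1 : Kf K l (rs l' (c + h - (k + 1))) k ≤ N := le_trans (Nat.le_add_right _ _) hgk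
  have hgk2 : Kc (rs l' (c + h - (k + 1))) (S0 (rs l' (c + h - (k + 1))) k) ≤ N :=
    le_trans (Nat.le_add_left _ _) hgk
  rcases lt_or_ge k c with hkc | hkc
  · obtain ⟨W, G', f, hq, hmin⟩ := hCTH _ (G.induce C.supp) _ k a Hb hset c hkc
    exact ⟨W, G', f, QI_mono hq hgk2 hgk2, hmin _ (flower m n) hfc.1 hfc.2⟩
  · have hr := rs_ge l' (c + h - (k + 1))
    obtain ⟨W, G', f, hq, hmin⟩ := hEXC _ (G.induce C.supp) _ k a Hb hset K l c h m n hc hkc hm hn
      (by rw [← hl']; omega) (hno C)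
    exact ⟨W, G', f, QI_mono hq hgk1 hgk1, hmin⟩

end Pool.Agent.Lib.MPbafc89.BQ
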