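import Pool.Agent.Lib.MP_bafc89_co.BQ.Spec3

/-!
# MP_bafc89_co: a star with legs and tails gives a fat flower
-/

set_option autoImplicit false

namespace Pool.Agent.Lib.MPbafc89.BQ

open SimpleGraph

universe u v

namespace FTHM

section edges

variable {c h : ℕ} (m : Fin c → ℕ) (n : Fin h → ℕ)

/-- the vertices of the flower -/
abbrev Vx : Type := Option ((Σ i : Fin c, Fin (m i)) ⊕ (Σ i : Fin h, Fin (n i)))

/-- the vertex number `q` of the cycle `i` -/
def vx (i : Fin c) (q : ℤ) : Vx m n :=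
  if hq : 0 ≤ q ∧ q < m i then some (.inl ⟨i, ⟨q.toNat, by omega⟩⟩) else none

/-- the vertex number `r - 1` of the path `i` -/
def uy (i : Fin h) (r : ℕ) : Vx m n :=
  if hr : 1 ≤ r ∧ r ≤ n i then some (.inr ⟨i, ⟨r - 1, by omega⟩⟩) else none

theorem vx_out {i : Fin c} {q : ℤ} (hq : ¬ (0 ≤ q ∧ q < m i)) : vx m n i q = none := by
  unfold vx
  rw [dif_neg hq]

theorem vx_in (i : Fin c) (q : Fin (m i)) : vx m n i (q.val : ℤ) = some (.inl ⟨i, q⟩) := by
  unfold vx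
  have hq : 0 ≤ (q.val : ℤ) ∧ (q.val : ℤ) < m i := ⟨by omega, by have := q.2; omega⟩
  rw [dif_pos hq]
  rfl

theorem vx_in' {i : Fin c} {q : ℤ} (hq : 0 ≤ q ∧ q < m i) :
    ∃ p : Fin (m i), vx m n i q = some (.inl ⟨i, p⟩) ∧ (p.val : ℤ) = q := by
  refine ⟨⟨q.toNat, by omega⟩, ?_, ?_⟩
  · unfold vx
    rw [dif_pos hq]
  · show ((q.toNat : ℕ) : ℤ) = q
    omega

theorem uy_out {i : Fin h} {r : ℕ} (hr : ¬ (1 ≤ r ∧ r ≤ n i)) : uy m n i r = none := by
  unfold uy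
  rw [dif_neg hr]

theorem uy_zero (i : Fin h) : uy m n i 0 = none := uy_out m n (by omega)

theorem uy_in (i : Fin h) (q : Fin (n i)) : uy m n i (q.val + 1) = some (.inr ⟨i, q⟩) := by
  unfold uy
  have hq : 1 ≤ q.val + 1 ∧ q.val + 1 ≤ n i := ⟨by omega, by have := q.2; omega⟩
  rw [dif_pos hq]
  rfl

theorem uy_in' {i : Fin h} {r : ℕ} (hr : 1 ≤ r ∧ r ≤ n i) :
    ∃ p : Fin (n i), uy m n i r = some (.inr ⟨i, p⟩) ∧ p.val + 1 = r := by
  refine ⟨⟨r - 1, by omega⟩, ?_, ?_⟩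
  · unfold uy
    rw [dif_pos hr]
  · show r - 1 + 1 = r
    omega

theorem vx_eq {i j : Fin c} {q p : ℤ} (he : vx m n i q = vx m n j p) :
    ((0 ≤ q ∧ q < m i) ∧ (0 ≤ p ∧ p < m j) ∧ i = j ∧ q = p) ∨
      (¬ (0 ≤ q ∧ q < m i) ∧ ¬ (0 ≤ p ∧ p < m j)) := by
  by_cases h1 : 0 ≤ q ∧ q < m i
  · by_cases h2 : 0 ≤ p ∧ p < m j
    · obtain ⟨x, hx, hx'⟩ := vx_in' m n h1
      obtain ⟨y, hy, hy'⟩ := vx_in' m n h2
      rw [hx, hy] at he
      have h3 := Sum.inl.inj (Option.some.inj he)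
      have h4 : i = j := congrArg Sigma.fst h3
      subst h4
      have h5 : x = y := by simpa using h3
      subst h5
      exact Or.inl ⟨h1, h2, rfl, by rw [← hx', ← hy']⟩
    · obtain ⟨x, hx, hx'⟩ := vx_in' m n h1
      rw [hx, vx_out m n h2] at he
      exact absurd he (by simp)
  · by_cases h2 : 0 ≤ p ∧ p < m j
    · obtain ⟨y, hy, hy'⟩ := vx_in' m n h2
      rw [hy, vx_out m n h1] at he
      exact absurd he (by simp)
    · exact Or.inr ⟨h1, h2⟩

theorem uy_eq {i j : Fin h} {q p : ℕ} (he : uy m n i q = uy m n j p) :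
    ((1 ≤ q ∧ q ≤ n i) ∧ (1 ≤ p ∧ p ≤ n j) ∧ i = j ∧ q = p) ∨
      (¬ (1 ≤ q ∧ q ≤ n i) ∧ ¬ (1 ≤ p ∧ p ≤ n j)) := by
  by_cases h1 : 1 ≤ q ∧ q ≤ n i
  · by_cases h2 : 1 ≤ p ∧ p ≤ n j
    · obtain ⟨x, hx, hx'⟩ := uy_in' m n h1
      obtain ⟨y, hy, hy'⟩ := uy_in' m n h2
      rw [hx, hy] at he
      have h3 := Sum.inr.inj (Option.some.inj he)
      have h4 : i = j := congrArg Sigma.fst h3
      subst h4
      have h5 : x = y := by simpa using h3
      subst h5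
      exact Or.inl ⟨h1, h2, rfl, by rw [← hx', ← hy']⟩
    · obtain ⟨x, hx, hx'⟩ := uy_in' m n h1
      rw [hx, uy_out m n h2] at he
      exact absurd he (by simp)
  · by_cases h2 : 1 ≤ p ∧ p ≤ n j
    · obtain ⟨y, hy, hy'⟩ := uy_in' m n h2
      rw [hy, uy_out m n h1] at he
      exact absurd he (by simp)
    · exact Or.inr ⟨h1, h2⟩

theorem vx_ne_uy {i : Fin c} {q : ℤ} (hq : 0 ≤ q ∧ q < m i) (j : Fin h) (r : ℕ) :
    vx m n i q ≠ uy m n j r := by
  obtain ⟨x, hx, -⟩ := vx_in' m n hq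
  rw [hx]
  by_cases hr : 1 ≤ r ∧ r ≤ n j
  · obtain ⟨y, hy, -⟩ := uy_in' m n hr
    rw [hy]
    simp
  · rw [uy_out m n hr]
    simp

/-- edge indices -/
def valid : (Fin c × ℤ) ⊕ (Fin h × ℕ) → Prop
  | .inl p => -1 ≤ p.2 ∧ p.2 + 1 ≤ m p.1
  | .inr p => p.2 < n p.1

/-- the edge of an index -/
def ed : (Fin c × ℤ) ⊕ (Fin h × ℕ) → Sym2 (Vx m n)
  | .inl p => s(vx m n p.1 p.2, vx m n p.1 (p.2 + 1))
  | .inr p => s(uy m n p.1 p.2, uy m n p.1 (p.2 + 1))

theorem edge_form (hm : ∀ i, 2 ≤ m i) {e : Sym2 (Vx m n)} (he : e ∈ (flower m n).edgeSet) :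
    ∃ I, valid m n I ∧ e = ed m n I := by
  induction e with
  | _ x y =>
  rw [SimpleGraph.mem_edgeSet] at he
  have key : ∀ (i : Fin c) (q : Fin (m i)), (q.val = 0 ∨ q.val + 1 = m i) →
      ∃ I, valid m n I ∧ s((none : Vx m n), some (.inl ⟨i, q⟩)) = ed m n I := by
    intro i q hq
    have hi := hm i
    rcases hq with hq | hq
    · refine ⟨.inl (i, -1), ⟨by simp, by show (-1 : ℤ) + 1 ≤ m i; omega⟩, ?_⟩
      show _ = s(vx m n i (-1), vx m n i (-1 + 1))
      rw [vx_out m n (q := -1) (by omega)]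
      have h1 : (-1 : ℤ) + 1 = (q.val : ℤ) := by omega
      rw [h1, vx_in]
    · refine ⟨.inl (i, q.val), ⟨by show (-1 : ℤ) ≤ q.val; omega,
        by show (q.val : ℤ) + 1 ≤ m i; omega⟩, ?_⟩
      show _ = s(vx m n i q.val, vx m n i (q.val + 1))
      rw [vx_in, vx_out m n (by omega), Sym2.eq_swap]
  have key2 : ∀ (i : Fin c) (q p : Fin (m i)), q.val + 1 = p.val →
      ∃ I, valid m n I ∧ s((some (.inl ⟨i, q⟩) : Vx m n), some (.inl ⟨i, p⟩)) = ed m n I := by
    intro i q p hq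
    have hp := p.2
    refine ⟨.inl (i, q.val), ⟨by show (-1 : ℤ) ≤ q.val; omega,
        by show (q.val : ℤ) + 1 ≤ m i; omega⟩, ?_⟩
    show _ = s(vx m n i q.val, vx m n i (q.val + 1))
    have h1 : (q.val : ℤ) + 1 = (p.val : ℤ) := by omega
    rw [h1, vx_in, vx_in]
  have key3 : ∀ (i : Fin h) (q : Fin (n i)), q.val = 0 →
      ∃ I, valid m n I ∧ s((none : Vx m n), some (.inr ⟨i, q⟩)) = ed m n I := by
    intro i q hq
    have hp := q.2
    refine ⟨.inr (i, 0), by show 0 < n i; omega, ?_⟩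
    show _ = s(uy m n i 0, uy m n i (0 + 1))
    have h1 : 0 + 1 = q.val + 1 := by omega
    rw [uy_zero, h1, uy_in]
  have key4 : ∀ (i : Fin h) (q p : Fin (n i)), q.val + 1 = p.val →
      ∃ I, valid m n I ∧ s((some (.inr ⟨i, q⟩) : Vx m n), some (.inr ⟨i, p⟩)) = ed m n I := by
    intro i q p hq
    have hp := p.2
    refine ⟨.inr (i, q.val + 1), by show q.val + 1 < n i; omega, ?_⟩
    show _ = s(uy m n i (q.val + 1), uy m n i (q.val + 1 + 1))
    have h1 : q.val + 1 + 1 = p.val + 1 := by omega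
    rw [h1, uy_in, uy_in]
  rcases x with _ | (⟨i, q⟩ | ⟨i, q⟩) <;> rcases y with _ | (⟨j, p⟩ | ⟨j, p⟩)
  · exact he.elim
  · exact key j p he
  · exact key3 j p he
  · rw [Sym2.eq_swap]
    exact key i q he
  · obtain ⟨h1, h2⟩ := he
    have h1' : i = j := h1
    subst h1'
    rcases h2 with h2 | h2
    · exact key2 i q p h2
    · rw [Sym2.eq_swap]
      exact key2 i p q h2
  · exact he.elim
  · rw [Sym2.eq_swap]
    exact key3 i q he
  · exact he.elim
  · obtain ⟨h1, h2⟩ := he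
    have h1' : i = j := h1
    subst h1'
    rcases h2 with h2 | h2
    · exact key4 i q p h2
    · rw [Sym2.eq_swap]
      exact key4 i p q h2

theorem mixed (hm : ∀ i, 2 ≤ m i) {i : Fin c} {q : ℤ} {j : Fin h} {r : ℕ} (h1 : -1 ≤ q)
    (h2 : q + 1 ≤ m i) : s(vx m n i q, vx m n i (q + 1)) ≠ s(uy m n j r, uy m n j (r + 1)) := by
  intro he
  have hi := hm i
  rw [Sym2.eq_iff] at he
  by_cases h3 : 0 ≤ q
  · have h4 : 0 ≤ q ∧ q < m i := by omega
    rcases he with ⟨ha, -⟩ | ⟨ha, -⟩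
    · exact vx_ne_uy m n h4 _ _ ha
    · exact vx_ne_uy m n h4 _ _ ha
  · have h4 : 0 ≤ q + 1 ∧ q + 1 < m i := by omega
    rcases he with ⟨-, ha⟩ | ⟨-, ha⟩
    · exact vx_ne_uy m n h4 _ _ ha
    · exact vx_ne_uy m n h4 _ _ ha

theorem edge_uniq (hm : ∀ i, 2 ≤ m i) {I J : (Fin c × ℤ) ⊕ (Fin h × ℕ)} (hI : valid m n I)
    (hJ : valid m n J) (he : ed m n I = ed m n J) : I = J := by
  rcases I with ⟨i, q⟩ | ⟨i, q⟩ <;> rcases J with ⟨j, p⟩ | ⟨j, p⟩
  · have hi := hm i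
    have hj := hm j
    obtain ⟨h1, h2⟩ := hI
    obtain ⟨h3, h4⟩ := hJ
    simp only at h1 h2 h3 h4
    have he' : s(vx m n i q, vx m n i (q + 1)) = s(vx m n j p, vx m n j (p + 1)) := he
    rw [Sym2.eq_iff] at he'
    have key : i = j ∧ q = p := by
      by_cases hij : i = j
      · subst hij
        refine ⟨rfl, ?_⟩
        rcases he' with ⟨ha, hb⟩ | ⟨ha, hb⟩
        · rcases vx_eq m n ha with ⟨-, -, -, h5⟩ | h5
          · exact h5
          · omega
        · rcases vx_eq m n ha with ⟨-, -, -, h5⟩ | h5 <;>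
            rcases vx_eq m n hb with ⟨-, -, -, h6⟩ | h6 <;> omega
      · exfalso
        rcases he' with ⟨ha, hb⟩ | ⟨ha, hb⟩
        · rcases vx_eq m n ha with ⟨-, -, h5, -⟩ | h5
          · exact hij h5
          · rcases vx_eq m n hb with ⟨-, -, h6, -⟩ | h6
            · exact hij h6
            · omega
        · rcases vx_eq m n ha with ⟨-, -, h5, -⟩ | h5
          · exact hij h5
          · rcases vx_eq m n hb with ⟨-, -, h6, -⟩ | h6
            · exact hij h6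
            · omega
    obtain ⟨rfl, rfl⟩ := key
    rfl
  · exact absurd he (mixed m n hm hI.1 hI.2)
  · exact absurd he.symm (mixed m n hm hJ.1 hJ.2)
  · have h1 : q < n i := hI
    have h2 : p < n j := hJ
    have he' : s(uy m n i q, uy m n i (q + 1)) = s(uy m n j p, uy m n j (p + 1)) := he
    rw [Sym2.eq_iff] at he'
    have key : i = j ∧ q = p := by
      rcases he' with ⟨ha, hb⟩ | ⟨ha, hb⟩
      · rcases uy_eq m n hb with ⟨-, -, h5, h6⟩ | h5
        · exact ⟨h5, by omega⟩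
        · omega
      · rcases uy_eq m n ha with ⟨-, -, h5, h6⟩ | h5
        · rcases uy_eq m n hb with ⟨-, -, h7, h8⟩ | h7
          · omega
          · omega
        · omega
    obtain ⟨rfl, rfl⟩ := key
    rfl

end edges

section sets

variable {V : Type u} {G : SimpleGraph V} {c h ρ T : ℕ} {m : Fin c → ℕ} {n : Fin h → ℕ}
  {a : Fin c → ℤ → V} {e : Fin h → ℕ → V} {F : Set V} {κ : ℕ}

/-- a slot of a leg -/
def slot (κ : ℕ) (a : Fin c → ℤ → V) (i : Fin c) (k : ℤ) : Set V :=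
  {y | ∃ t, (κ : ℤ) * k ≤ t ∧ t ≤ (κ : ℤ) * k + κ ∧ a i t = y}

/-- a slot of a tail -/
def eslot (κ : ℕ) (e : Fin h → ℕ → V) (i : Fin h) (k : ℕ) : Set V :=
  {y | ∃ t, κ * k ≤ t ∧ t ≤ κ * k + κ ∧ e i t = y}

/-- the outer parts of the legs -/
def outer (κ ρ : ℕ) (m : Fin c → ℕ) (a : Fin c → ℤ → V) (p : Fin c × Bool) : Set V :=
  {y | ∃ t, (if p.2 then (κ : ℤ) * (2 * (m p.1 : ℤ)) else -((ρ : ℤ) + 1)) ≤ t ∧
    t ≤ (if p.2 then (ρ : ℤ) + 1 else -κ) ∧ a p.1 t = y}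

/-- the pieces attached to the hub -/
def piece (κ ρ : ℕ) (m : Fin c → ℕ) (a : Fin c → ℤ → V) (e : Fin h → ℕ → V) :
    (Fin c × Bool) ⊕ Fin h → Set V
  | .inl p => outer κ ρ m a p
  | .inr i => eslot κ e i 0

/-- the branch set of the centre -/
def hub (κ ρ : ℕ) (m : Fin c → ℕ) (a : Fin c → ℤ → V) (e : Fin h → ℕ → V) (F : Set V) : Set V :=
  F ∪ ⋃ p, piece κ ρ m a e p

/-- the branch sets -/
def BB (κ ρ : ℕ) (m : Fin c → ℕ) (n : Fin h → ℕ) (a : Fin c → ℤ → V) (e : Fin h → ℕ → V)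
    (F : Set V) : Vx m n → Set V
  | none => hub κ ρ m a e F
  | some (.inl q) => slot κ a q.1 (2 * (q.2.val : ℤ))
  | some (.inr q) => eslot κ e q.1 (2 * (q.2.val + 1))

/-- the set of an edge index -/
def ES (κ : ℕ) (a : Fin c → ℤ → V) (e : Fin h → ℕ → V) : (Fin c × ℤ) ⊕ (Fin h × ℕ) → Set V
  | .inl p => slot κ a p.1 (2 * p.2 + 1)
  | .inr p => eslot κ e p.1 (2 * p.2 + 1)

/-- the edge sets -/
def PP (κ : ℕ) (m : Fin c → ℕ) (n : Fin h → ℕ) (a : Fin c → ℤ → V) (e : Fin h → ℕ → V)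
    (b : Sym2 (Vx m n)) : Set V :=
  {x | ∃ I, valid m n I ∧ b = ed m n I ∧ x ∈ ES κ a e I}

theorem slot_bound (hκ : 1 ≤ κ) {i : Fin c} (h2 : 2 * κ * (m i + 2) ≤ ρ) (hm : 2 ≤ m i)
    {k t : ℤ} (hk : -1 ≤ k) (hk' : k ≤ 2 * (m i : ℤ) - 1) (h3 : (κ : ℤ) * k ≤ t)
    (h4 : t ≤ (κ : ℤ) * k + κ) : -(κ : ℤ) ≤ t ∧ t ≤ (κ : ℤ) * (2 * (m i : ℤ)) ∧
      t.natAbs + 2 * κ ≤ ρ := by
  have hκ' : (1 : ℤ) ≤ κ := by exact_mod_cast hκ
  have h2' : 2 * (κ : ℤ) * ((m i : ℤ) + 2) ≤ ρ := by exact_mod_cast h2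
  have h5 : -(κ : ℤ) ≤ t := by nlinarith
  have h6 : t ≤ (κ : ℤ) * (2 * (m i : ℤ)) := by nlinarith
  have h7 : (2 : ℤ) ≤ m i := by exact_mod_cast hm
  have h8 : (κ : ℤ) * (2 * (m i : ℤ)) + 2 * κ ≤ ρ := by nlinarith
  have h9 : (κ : ℤ) + 2 * κ ≤ ρ := by nlinarith
  refine ⟨h5, h6, ?_⟩
  omega

theorem far_leg (hG : G.Connected) (hS : Star G ρ T c h F a e) {i j : Fin c} (hij : i ≠ j)
    {s t : ℤ} (hs : s.natAbs + 2 * κ ≤ ρ) (ht : t.natAbs ≤ ρ + 1) :
    κ ≤ G.dist (a i s) (a j t) := by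
  have h1 := hS.sep i j hij
  have h2 := hS.geo i 0 s (by simp) (by omega)
  have h3 := hS.geo j t 0 (by omega) (by simp)
  have h4 := hG.dist_triangle (u := a i 0) (v := a i s) (w := a j 0)
  have h5 := hG.dist_triangle (u := a i s) (v := a j t) (w := a j 0)
  omega

theorem far_hub (hG : G.Connected) (hS : Star G ρ T c h F a e) {i : Fin c} {s : ℤ} {x : V}
    (hx : ρ < G.dist (a i 0) x) (hs : s.natAbs + 2 * κ ≤ ρ) :
    κ ≤ G.dist (a i s) x := by
  have h2 := hS.geo i 0 s (by simp) (by omega)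
  have h4 := hG.dist_triangle (u := a i 0) (v := a i s) (w := x)
  omega

theorem slot_slot (hG : G.Connected) (hS : Star G ρ T c h F a e) (hκ : 1 ≤ κ)
    (h2 : ∀ i, 2 * κ * (m i + 2) ≤ ρ) (hm : ∀ i, 2 ≤ m i) {i j : Fin c} {k k' : ℤ}
    (hk : -1 ≤ k) (hk' : k ≤ 2 * (m i : ℤ) - 1) (hj : -1 ≤ k') (hj' : k' ≤ 2 * (m j : ℤ) - 1)
    (hd : i = j → k + 2 ≤ k' ∨ k' + 2 ≤ k) {x y : V} (hx : x ∈ slot κ a i k)
    (hy : y ∈ slot κ a j k') : κ ≤ G.dist x y := by
  obtain ⟨s, hs1, hs2, rfl⟩ := hx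
  obtain ⟨t, ht1, ht2, rfl⟩ := hy
  have hs := slot_bound hκ (h2 i) (hm i) hk hk' hs1 hs2
  have ht := slot_bound hκ (h2 j) (hm j) hj hj' ht1 ht2
  have hκ' : (1 : ℤ) ≤ κ := by exact_mod_cast hκ
  by_cases hij : i = j
  · subst hij
    rw [hS.geo i s t (by omega) (by omega)]
    rcases hd rfl with hd | hd
    · have h5 : (κ : ℤ) * k + 2 * κ ≤ κ * k' := by nlinarith
      omega
    · have h5 : (κ : ℤ) * k' + 2 * κ ≤ κ * k := by nlinarith
      omega
  · exact far_leg hG hS hij hs.2.2 (by omega)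

theorem tail_bound {i : Fin h} (h2 : 2 * κ * (n i + 2) ≤ T) {k t : ℕ} (hk : k ≤ 2 * n i + 2)
    (h4 : t ≤ κ * k + κ) : t ≤ T := by
  nlinarith

theorem eslot_eslot (hS : Star G ρ T c h F a e)
    (h2 : ∀ i, 2 * κ * (n i + 2) ≤ T) {i j : Fin h} {k k' : ℕ}
    (hk : k ≤ 2 * n i + 2) (hj : k' ≤ 2 * n j + 2) (hk1 : 1 ≤ k)
    (hd : i = j → k + 2 ≤ k' ∨ k' + 2 ≤ k) {x y : V} (hx : x ∈ eslot κ e i k)
    (hy : y ∈ eslot κ e j k') : κ ≤ G.dist x y := by
  obtain ⟨s, hs1, hs2, rfl⟩ := hx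
  obtain ⟨t, ht1, ht2, rfl⟩ := hy
  have hs : s ≤ T := tail_bound (h2 i) hk hs2
  have ht : t ≤ T := tail_bound (h2 j) hj ht2
  by_cases hij : i = j
  · subst hij
    rcases hd rfl with hd | hd
    · have h5 : κ * k + 2 * κ ≤ κ * k' := by nlinarith
      rw [hS.tail i s t (by omega) ht]
      omega
    · have h5 : κ * k' + 2 * κ ≤ κ * k := by nlinarith
      rw [SimpleGraph.dist_comm, hS.tail i t s (by omega) hs]
      omega
  · have h6 := hS.ttail i j hij s hs t ht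
    have h7 : κ ≤ κ * k := by nlinarith
    omega

theorem eslot_leg (hS : Star G ρ T c h F a e)
    (h2 : ∀ i, 2 * κ * (n i + 2) ≤ T) {i : Fin h} {j : Fin c} {k : ℕ}
    (hk : k ≤ 2 * n i + 2) (hk1 : 1 ≤ k) {t : ℤ} (ht : t.natAbs ≤ ρ + 1)
    {x : V} (hx : x ∈ eslot κ e i k) : κ ≤ G.dist x (a j t) := by
  obtain ⟨s, hs1, hs2, rfl⟩ := hx
  have hs : s ≤ T := tail_bound (h2 i) hk hs2
  have h6 := hS.tleg i j s hs t ht
  have h7 : κ ≤ κ * k := by nlinarith
  omega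

theorem eslot_slot (hS : Star G ρ T c h F a e) (hκ : 1 ≤ κ)
    (h1 : ∀ i, 2 * κ * (m i + 2) ≤ ρ) (hm : ∀ i, 2 ≤ m i)
    (h2 : ∀ i, 2 * κ * (n i + 2) ≤ T) {i : Fin h} {j : Fin c} {k : ℕ} {k' : ℤ}
    (hk : k ≤ 2 * n i + 2) (hk1 : 1 ≤ k) (hj : -1 ≤ k') (hj' : k' ≤ 2 * (m j : ℤ) - 1)
    {x y : V} (hx : x ∈ eslot κ e i k) (hy : y ∈ slot κ a j k') : κ ≤ G.dist x y := by
  obtain ⟨t, ht1, ht2, rfl⟩ := hy
  have ht := slot_bound hκ (h1 j) (hm j) hj hj' ht1 ht2
  exact eslot_leg hS h2 hk hk1 (by omega) hx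

theorem outer_bound (hκ : 1 ≤ κ) (h1 : ∀ i, 2 * κ * (m i + 2) ≤ ρ) (hm : ∀ i, 2 ≤ m i)
    {j : Fin c} {b : Bool} {t : ℤ}
    (ht1 : (if b then (κ : ℤ) * (2 * (m j : ℤ)) else -((ρ : ℤ) + 1)) ≤ t)
    (ht2 : t ≤ (if b then (ρ : ℤ) + 1 else -κ)) : t.natAbs ≤ ρ + 1 := by
  have h3 : 2 * (κ : ℤ) * ((m j : ℤ) + 2) ≤ ρ := by exact_mod_cast h1 j
  have h4 : (2 : ℤ) ≤ m j := by exact_mod_cast hm j
  have hκ' : (1 : ℤ) ≤ κ := by exact_mod_cast hκ
  have h5 : 0 ≤ (κ : ℤ) * (2 * (m j : ℤ)) := by nlinarith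
  cases b
  · simp only [Bool.false_eq_true, if_false] at ht1 ht2
    omega
  · simp only [if_true] at ht1 ht2
    omega

theorem slot_hub (hG : G.Connected) (hS : Star G ρ T c h F a e) (hκ : 1 ≤ κ)
    (h1 : ∀ i, 2 * κ * (m i + 2) ≤ ρ) (hm : ∀ i, 2 ≤ m i)
    (h2 : ∀ i, 2 * κ * (n i + 2) ≤ T) {i : Fin c} {k : ℤ}
    (hk : 0 ≤ k) (hk' : k ≤ 2 * (m i : ℤ) - 2)
    {x y : V} (hx : x ∈ slot κ a i k) (hy : y ∈ hub κ ρ m a e F) : κ ≤ G.dist x y := by
  obtain ⟨s, hs1, hs2, rfl⟩ := hx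
  have hs := slot_bound hκ (h1 i) (hm i) (by omega) (by omega) hs1 hs2
  have hκ' : (1 : ℤ) ≤ κ := by exact_mod_cast hκ
  rcases hy with hy | hy
  · exact far_hub hG hS (hS.far i y hy) hs.2.2
  · obtain ⟨p, hp⟩ := Set.mem_iUnion.mp hy
    rcases p with ⟨j, b⟩ | j
    · obtain ⟨t, ht1, ht2, rfl⟩ := hp
      have ht := outer_bound hκ h1 hm ht1 ht2
      by_cases hij : i = j
      · subst hij
        rw [hS.geo i s t (by omega) (by omega)]
        cases b
        · simp only [Bool.false_eq_true, if_false] at ht1 ht2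
          have h7 : 0 ≤ (κ : ℤ) * k := by nlinarith
          omega
        · simp only [if_true] at ht1 ht2
          have h7 : (κ : ℤ) * k + 2 * κ ≤ κ * (2 * (m i : ℤ)) := by nlinarith
          omega
      · exact far_leg hG hS hij hs.2.2 ht
    · obtain ⟨t, ht1, ht2, rfl⟩ := hp
      have ht : t ≤ T := tail_bound (h2 j) (by omega) ht2
      exact far_hub hG hS (hS.tbal j i t ht) hs.2.2

theorem eslot_hub (hS : Star G ρ T c h F a e) (hκ : 1 ≤ κ)
    (h1 : ∀ i, 2 * κ * (m i + 2) ≤ ρ) (hm : ∀ i, 2 ≤ m i)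
    (h2 : ∀ i, 2 * κ * (n i + 2) ≤ T) {i : Fin h} {k : ℕ}
    (hk : 2 ≤ k) (hk' : k ≤ 2 * n i + 2)
    {x y : V} (hx : x ∈ eslot κ e i k) (hy : y ∈ hub κ ρ m a e F) : κ ≤ G.dist x y := by
  rcases hy with hy | hy
  · obtain ⟨s, hs1, hs2, rfl⟩ := hx
    have hs : s ≤ T := tail_bound (h2 i) hk' hs2
    have h6 := hS.tfar i y hy s hs
    have h7 : κ ≤ κ * k := by nlinarith
    omega
  · obtain ⟨p, hp⟩ := Set.mem_iUnion.mp hy
    rcases p with ⟨j, b⟩ | j
    · obtain ⟨t, ht1, ht2, rfl⟩ := hp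
      exact eslot_leg hS h2 hk' (by omega) (outer_bound hκ h1 hm ht1 ht2) hx
    · exact eslot_eslot hS h2 hk' (by omega) (by omega) (fun _ => Or.inr (by omega)) hx hp

theorem slot_cn (hS : Star G ρ T c h F a e) (hκ : 1 ≤ κ)
    (h1 : ∀ i, 2 * κ * (m i + 2) ≤ ρ) (hm : ∀ i, 2 ≤ m i) {i : Fin c} {k : ℤ}
    (hk : -1 ≤ k) (hk' : k ≤ 2 * (m i : ℤ) - 1) : Cn G (slot κ a i k) := by
  have h3 := slot_bound hκ (h1 i) (hm i) hk hk' (le_refl ((κ : ℤ) * k)) (by omega)
  have h4 := slot_bound hκ (h1 i) (hm i) (t := (κ : ℤ) * k + κ) hk hk' (by omega) le_rfl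
  exact (hS.geo i).cn (by omega) (by omega) (by omega)

theorem eslot_cn (hS : Star G ρ T c h F a e)
    (h2 : ∀ i, 2 * κ * (n i + 2) ≤ T) {i : Fin h} {k : ℕ}
    (hk : k ≤ 2 * n i + 2) : Cn G (eslot κ e i k) :=
  (hS.tail i).cn (by omega) (tail_bound (h2 i) hk le_rfl)

theorem hub_cn (hS : Star G ρ T c h F a e) (hκ : 1 ≤ κ)
    (h1 : ∀ i, 2 * κ * (m i + 2) ≤ ρ) (hm : ∀ i, 2 ≤ m i)
    (h2 : ∀ i, 2 * κ * (n i + 2) ≤ T) : Cn G (hub κ ρ m a e F) := by
  have hκ' : (1 : ℤ) ≤ κ := by exact_mod_cast hκ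
  refine hS.cn.union_iUnion ?_ ?_
  · rintro (⟨j, b⟩ | j)
    · have h3 : 2 * (κ : ℤ) * ((m j : ℤ) + 2) ≤ ρ := by exact_mod_cast h1 j
      have h4 : (2 : ℤ) ≤ m j := by exact_mod_cast hm j
      have h5 : 0 ≤ (κ : ℤ) * (2 * (m j : ℤ)) := by nlinarith
      have h6 : (κ : ℤ) + 2 * κ ≤ ρ := by nlinarith
      have h7 : (κ : ℤ) * (2 * (m j : ℤ)) ≤ ρ := by nlinarith
      cases b
      · show Cn G {y | ∃ t, -((ρ : ℤ) + 1) ≤ t ∧ t ≤ -(κ : ℤ) ∧ a j t = y}
        exact (hS.geo j).cn (by omega) (by omega) (by omega)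
      · show Cn G {y | ∃ t, (κ : ℤ) * (2 * (m j : ℤ)) ≤ t ∧ t ≤ (ρ : ℤ) + 1 ∧ a j t = y}
        exact (hS.geo j).cn (by omega) (by omega) (by omega)
    · exact eslot_cn hS h2 (by omega)
  · rintro (⟨j, b⟩ | j)
    · have h3 : 2 * (κ : ℤ) * ((m j : ℤ) + 2) ≤ ρ := by exact_mod_cast h1 j
      have h4 : (2 : ℤ) ≤ m j := by exact_mod_cast hm j
      have h6 : (κ : ℤ) + 2 * κ ≤ ρ := by nlinarith
      have h7 : (κ : ℤ) * (2 * (m j : ℤ)) ≤ ρ := by nlinarith
      cases b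
      · refine ⟨a j (-((ρ : ℤ) + 1)), hS.neg j, -((ρ : ℤ) + 1), ?_, ?_, rfl⟩
        · simp
        · simp only [Bool.false_eq_true, if_false]
          omega
      · refine ⟨a j ((ρ : ℤ) + 1), hS.pos j, (ρ : ℤ) + 1, ?_, ?_, rfl⟩
        · simp only [if_true]
          omega
        · simp
    · exact ⟨e j 0, hS.tmem j, 0, by omega, by omega, rfl⟩

end sets

end FTHM

open FTHM in
theorem specFTH : SpecFTH.{u} := by
  intro V G hG K ρ T c h m n hm h1 h2 F a e hS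
  set κ : ℕ := K + 1 with hκd
  have hκ : 1 ≤ κ := by omega
  have hκ' : (1 : ℤ) ≤ κ := by exact_mod_cast hκ
  have hdist : ∀ p q : V, κ ≤ G.dist p q → (K : ℕ∞) ≤ G.edist p q := by
    intro p q hpq
    rw [← (hG.preconnected p q).coe_dist_eq_edist]
    have h1 : K ≤ G.dist p q := by omega
    exact_mod_cast h1
  have hPP : ∀ I, valid m n I → PP κ m n a e (ed m n I) = ES κ a e I := by
    intro I hI
    ext x
    constructor
    · rintro ⟨J, h5, h6, h7⟩
      rw [edge_uniq m n hm hI h5 h6]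
      exact h7
    · intro h5
      exact ⟨I, hI, rfl, h5⟩
  refine ⟨BB κ ρ m n a e F, PP κ m n a e, ?_, ?_, ?_, ?_, ?_, ?_⟩
  · rintro (_ | (⟨i, q⟩ | ⟨i, q⟩))
    · exact cn_iff.mp (hub_cn hS hκ h1 hm h2)
    · exact cn_iff.mp (slot_cn hS hκ h1 hm (by omega) (by have := q.2; omega))
    · exact cn_iff.mp (eslot_cn hS h2 (by have := q.2; omega))
  · intro b hb
    obtain ⟨I, hI, rfl⟩ := edge_form m n hm hb
    rw [hPP I hI]
    rcases I with ⟨i, q⟩ | ⟨i, q⟩
    · obtain ⟨h3, h4⟩ := hI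
      simp only at h3 h4
      exact cn_iff.mp (slot_cn (i := i) (k := 2 * q + 1) hS hκ h1 hm (by omega) (by omega))
    · have h3 : q < n i := hI
      exact cn_iff.mp (eslot_cn (i := i) (k := 2 * q + 1) hS h2 (by omega))
  · intro b hb x hx
    obtain ⟨I, hI, rfl⟩ := edge_form m n hm hb
    rw [hPP I hI]
    rcases I with ⟨i, q⟩ | ⟨i, q⟩
    · obtain ⟨h3, h4⟩ := hI
      simp only at h3 h4
      have hx' : x ∈ s(vx m n i q, vx m n i (q + 1)) := hx
      rw [Sym2.mem_iff] at hx'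
      rcases hx' with rfl | rfl
      · refine ⟨a i ((κ : ℤ) * (2 * q + 1)), ?_, _, le_rfl, by omega, rfl⟩
        by_cases h5 : 0 ≤ q ∧ q < m i
        · obtain ⟨p, hp, hp'⟩ := vx_in' m n h5
          rw [hp]
          refine ⟨_, ?_, ?_, rfl⟩
          · show (κ : ℤ) * (2 * (p.val : ℤ)) ≤ _
            rw [hp']
            nlinarith
          · show _ ≤ (κ : ℤ) * (2 * (p.val : ℤ)) + κ
            rw [hp']
            nlinarith
        · rw [vx_out m n h5]
          have h6 : q = -1 := by omega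
          subst h6
          refine Or.inr (Set.mem_iUnion.mpr ⟨.inl (i, false), _, ?_, ?_, rfl⟩)
          · simp only [Bool.false_eq_true, if_false]
            have h7 : 2 * (κ : ℤ) * ((m i : ℤ) + 2) ≤ ρ := by exact_mod_cast h1 i
            have h8 : (2 : ℤ) ≤ m i := by exact_mod_cast hm i
            nlinarith
          · simp only [Bool.false_eq_true, if_false]
            nlinarith
      · refine ⟨a i ((κ : ℤ) * (2 * q + 1) + κ), ?_, _, by omega, le_rfl, rfl⟩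
        by_cases h5 : 0 ≤ q + 1 ∧ q + 1 < m i
        · obtain ⟨p, hp, hp'⟩ := vx_in' m n h5
          rw [hp]
          refine ⟨_, ?_, ?_, rfl⟩
          · show (κ : ℤ) * (2 * (p.val : ℤ)) ≤ _
            rw [hp']
            nlinarith
          · show _ ≤ (κ : ℤ) * (2 * (p.val : ℤ)) + κ
            rw [hp']
            nlinarith
        · rw [vx_out m n h5]
          have h6 : q + 1 = m i := by omega
          refine Or.inr (Set.mem_iUnion.mpr ⟨.inl (i, true), _, ?_, ?_, rfl⟩)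
          · simp only [if_true]
            rw [← h6]
            nlinarith
          · simp only [if_true]
            have h7 : 2 * (κ : ℤ) * ((m i : ℤ) + 2) ≤ ρ := by exact_mod_cast h1 i
            rw [← h6] at h7
            nlinarith
    · have h3 : q < n i := hI
      have hx' : x ∈ s(uy m n i q, uy m n i (q + 1)) := hx
      rw [Sym2.mem_iff] at hx'
      rcases hx' with rfl | rfl
      · refine ⟨e i (κ * (2 * q + 1)), ?_, _, le_rfl, by omega, rfl⟩
        by_cases h5 : 1 ≤ q ∧ q ≤ n i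
        · obtain ⟨p, hp, hp'⟩ := uy_in' m n h5
          rw [hp]
          refine ⟨_, ?_, ?_, rfl⟩
          · show κ * (2 * (p.val + 1)) ≤ _
            rw [hp']
            nlinarith
          · show _ ≤ κ * (2 * (p.val + 1)) + κ
            rw [hp']
            nlinarith
        · rw [uy_out m n h5]
          have h6 : q = 0 := by omega
          subst h6
          refine Or.inr (Set.mem_iUnion.mpr ⟨.inr i, _, ?_, ?_, rfl⟩)
          · omega
          · omega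
      · refine ⟨e i (κ * (2 * q + 1) + κ), ?_, _, by omega, le_rfl, rfl⟩
        have h5 : 1 ≤ q + 1 ∧ q + 1 ≤ n i := by omega
        obtain ⟨p, hp, hp'⟩ := uy_in' m n h5
        rw [hp]
        refine ⟨_, ?_, ?_, rfl⟩
        · show κ * (2 * (p.val + 1)) ≤ _
          rw [hp']
          nlinarith
        · show _ ≤ κ * (2 * (p.val + 1)) + κ
          rw [hp']
          nlinarith
  · intro x y hxy p hp q hq
    apply hdist
    rcases x with _ | (⟨i, r⟩ | ⟨i, r⟩) <;> rcases y with _ | (⟨j, t⟩ | ⟨j, t⟩)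
    · exact absurd rfl hxy
    · rw [SimpleGraph.dist_comm]
      exact slot_hub hG hS hκ h1 hm h2 (by omega) (by have := t.2; omega) hq hp
    · rw [SimpleGraph.dist_comm]
      exact eslot_hub hS hκ h1 hm h2 (by omega) (by have := t.2; omega) hq hp
    · exact slot_hub hG hS hκ h1 hm h2 (by omega) (by have := r.2; omega) hp hq
    · refine slot_slot hG hS hκ h1 hm (by omega) (by have := r.2; omega) (by omega)
        (by have := t.2; omega) ?_ hp hq
      intro hij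
      have hij' : i = j := hij
      subst hij'
      have h5 : r ≠ t := by
        rintro rfl
        exact hxy rfl
      have h6 : r.val ≠ t.val := fun h => h5 (Fin.ext h)
      show 2 * (r.val : ℤ) + 2 ≤ 2 * (t.val : ℤ) ∨ 2 * (t.val : ℤ) + 2 ≤ 2 * (r.val : ℤ)
      omega
    · rw [SimpleGraph.dist_comm]
      exact eslot_slot hS hκ h1 hm h2 (by have := t.2; omega) (by omega) (by omega)
        (by have := r.2; omega) hq hp
    · exact eslot_hub hS hκ h1 hm h2 (by omega) (by have := r.2; omega) hp hq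
    · exact eslot_slot hS hκ h1 hm h2 (by have := r.2; omega) (by omega) (by omega)
        (by have := t.2; omega) hp hq
    · refine eslot_eslot hS h2 (by have := r.2; omega) (by have := t.2; omega) (by omega) ?_ hp hq
      intro hij
      have hij' : i = j := hij
      subst hij'
      have h5 : r ≠ t := by
        rintro rfl
        exact hxy rfl
      have h6 : r.val ≠ t.val := fun h => h5 (Fin.ext h)
      show 2 * (r.val + 1) + 2 ≤ 2 * (t.val + 1) ∨ 2 * (t.val + 1) + 2 ≤ 2 * (r.val + 1)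
      omega
  · intro b hb b' hb' hbb p hp q hq
    apply hdist
    obtain ⟨I, hI, rfl⟩ := edge_form m n hm hb
    obtain ⟨J, hJ, rfl⟩ := edge_form m n hm hb'
    rw [hPP I hI] at hp
    rw [hPP J hJ] at hq
    rcases I with ⟨i, r⟩ | ⟨i, r⟩ <;> rcases J with ⟨j, t⟩ | ⟨j, t⟩
    · obtain ⟨h3, h4⟩ := hI
      obtain ⟨h5, h6⟩ := hJ
      simp only at h3 h4 h5 h6
      refine slot_slot (i := i) (j := j) (k := 2 * r + 1) (k' := 2 * t + 1) hG hS hκ h1 hm
        (by omega) (by omega) (by omega) (by omega) ?_ hp hq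
      intro hij
      subst hij
      have h7 : r ≠ t := by
        rintro rfl
        exact hbb rfl
      omega
    · obtain ⟨h3, h4⟩ := hI
      have h5 : t < n j := hJ
      simp only at h3 h4
      rw [SimpleGraph.dist_comm]
      exact eslot_slot (i := j) (j := i) (k := 2 * t + 1) (k' := 2 * r + 1) hS hκ h1 hm h2
        (by omega) (by omega) (by omega) (by omega) hq hp
    · obtain ⟨h3, h4⟩ := hJ
      have h5 : r < n i := hI
      simp only at h3 h4
      exact eslot_slot (i := i) (j := j) (k := 2 * r + 1) (k' := 2 * t + 1) hS hκ h1 hm h2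
        (by omega) (by omega) (by omega) (by omega) hp hq
    · have h5 : r < n i := hI
      have h6 : t < n j := hJ
      refine eslot_eslot (i := i) (j := j) (k := 2 * r + 1) (k' := 2 * t + 1) hS h2
        (by omega) (by omega) (by omega) ?_ hp hq
      intro hij
      subst hij
      have h7 : r ≠ t := by
        rintro rfl
        exact hbb rfl
      omega
  · intro x b hb hxb p hp q hq
    apply hdist
    obtain ⟨J, hJ, rfl⟩ := edge_form m n hm hb
    rw [hPP J hJ] at hq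
    rcases J with ⟨j, t⟩ | ⟨j, t⟩
    · obtain ⟨h5, h6⟩ := hJ
      simp only at h5 h6
      have hxe : x ∉ s(vx m n j t, vx m n j (t + 1)) := hxb
      rw [Sym2.mem_iff, not_or] at hxe
      rcases x with _ | (⟨i, r⟩ | ⟨i, r⟩)
      · rw [SimpleGraph.dist_comm]
        have h7 : 0 ≤ t ∧ t < m j := by
          by_contra hc
          exact hxe.1 (vx_out m n hc).symm
        have h8 : 0 ≤ t + 1 ∧ t + 1 < m j := by
          by_contra hc
          exact hxe.2 (vx_out m n hc).symm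
        exact slot_hub (i := j) (k := 2 * t + 1) hG hS hκ h1 hm h2 (by omega) (by omega) hq hp
      · refine slot_slot (i := i) (j := j) (k := 2 * (r.val : ℤ)) (k' := 2 * t + 1) hG hS hκ h1 hm
          (by omega) (by have := r.2; omega) (by omega) (by omega) ?_ hp hq
        intro hij
        subst hij
        have h7 : (r.val : ℤ) ≠ t := by
          rintro rfl
          exact hxe.1 (vx_in m n i r).symm
        have h8 : (r.val : ℤ) ≠ t + 1 := by
          intro hc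
          apply hxe.2
          rw [← hc, vx_in]
        show 2 * (r.val : ℤ) + 2 ≤ 2 * t + 1 ∨ 2 * t + 1 + 2 ≤ 2 * (r.val : ℤ)
        omega
      · exact eslot_slot (i := i) (j := j) (k := 2 * (r.val + 1)) (k' := 2 * t + 1) hS hκ h1 hm h2
          (by have := r.2; omega) (by omega) (by omega) (by omega) hp hq
    · have h5 : t < n j := hJ
      have hxe : x ∉ s(uy m n j t, uy m n j (t + 1)) := hxb
      rw [Sym2.mem_iff, not_or] at hxe
      rcases x with _ | (⟨i, r⟩ | ⟨i, r⟩)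
      · rw [SimpleGraph.dist_comm]
        have h7 : 1 ≤ t := by
          by_contra hc
          exact hxe.1 (uy_out m n (by omega)).symm
        exact eslot_hub (i := j) (k := 2 * t + 1) hS hκ h1 hm h2 (by omega) (by omega) hq hp
      · rw [SimpleGraph.dist_comm]
        exact eslot_slot (i := j) (j := i) (k := 2 * t + 1) (k' := 2 * (r.val : ℤ)) hS hκ h1 hm h2
          (by omega) (by omega) (by omega) (by have := r.2; omega) hq hp
      · refine eslot_eslot (i := i) (j := j) (k := 2 * (r.val + 1)) (k' := 2 * t + 1) hS h2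
          (by have := r.2; omega) (by omega) (by omega) ?_ hp hq
        intro hij
        subst hij
        have h7 : r.val + 1 ≠ t := by
          rintro rfl
          exact hxe.1 (uy_in m n i r).symm
        have h8 : r.val + 1 ≠ t + 1 := by
          intro hc
          apply hxe.2
          rw [← hc, uy_in]
        show 2 * (r.val + 1) + 2 ≤ 2 * t + 1 ∨ 2 * t + 1 + 2 ≤ 2 * (r.val + 1)
        omega

end Pool.Agent.Lib.MPbafc89.BQ
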