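import Pool.Agent.Lib.MP_bafc89_co.BQ.Spec3

/-!
MP_bafc89_co, module FZC: the complement of the deep parts is connected.
-/

set_option autoImplicit false

namespace Pool.Agent.Lib.MPbafc89.BQ

open SimpleGraph

universe u

namespace FZCM

/-- The vertex before the last one on a geodesic. -/
lemma pred {W : Type u} {Z : SimpleGraph W} (hZ : Z.Connected) (o y : W) (d : ℕ)
    (h : Z.dist o y = d + 1) : ∃ y', Z.Adj y' y ∧ Z.dist o y' = d := by
  obtain ⟨p, hp⟩ := hZ.exists_walk_length_eq_dist y o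
  rw [SimpleGraph.dist_comm, h] at hp
  cases p with
  | nil => simp at hp
  | @cons _ v _ hv q =>
    rw [Walk.length_cons] at hp
    have h1 : Z.dist v o ≤ q.length := SimpleGraph.dist_le q
    have h2 : Z.dist o y ≤ Z.dist o v + Z.dist v y := hZ.dist_triangle
    have h3 : Z.dist v y ≤ 1 := by
      have := SimpleGraph.dist_le (Walk.cons hv.symm Walk.nil)
      simpa using this
    rw [SimpleGraph.dist_comm] at h1
    exact ⟨v, hv.symm, by omega⟩

lemma main {W : Type u} {Z : SimpleGraph W} (hZ : Z.Connected) (o : W) {n : ℕ} (z : Fin n → W) :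
    ∀ (d : ℕ) (y : W), Z.dist o y = d →
      y ∈ {y | ∀ b, y ∈ Dn Z o (z b) → Z.dist o y ≤ Z.dist o (z b)} →
      Jn Z {y | ∀ b, y ∈ Dn Z o (z b) → Z.dist o y ≤ Z.dist o (z b)} o y := by
  intro d
  induction d with
  | zero =>
    intro y hy hyS
    have h1 : o = y := (hZ.dist_eq_zero_iff).mp hy
    subst h1
    exact Jn.refl hyS
  | succ d ih =>
    intro y hy hyS
    obtain ⟨y', hadj, hd⟩ := pred hZ o y d hy
    have hy' : y' ∈ {y | ∀ b, y ∈ Dn Z o (z b) → Z.dist o y ≤ Z.dist o (z b)} := by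
      intro b hb
      by_contra hcon
      push Not at hcon
      have h1 : y ∈ Dn Z o (z b) := by
        have h2 : Jn Z {w | Z.dist o (z b) ≤ Z.dist o w} (z b) y' := hb
        refine h2.trans (Jn.adj ?_ ?_ hadj)
        · exact hcon.le
        · show Z.dist o (z b) ≤ Z.dist o y
          omega
      have h3 := hyS b h1
      omega
    exact (ih y' hd hy').trans (Jn.adj hy' hyS hadj)

end FZCM

theorem specFZC : SpecFZC.{u} := by
  intro W Z hZ o n z
  have ho : o ∈ {y | ∀ b, y ∈ Dn Z o (z b) → Z.dist o y ≤ Z.dist o (z b)} := by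
    intro b _
    rw [SimpleGraph.dist_self]
    exact Nat.zero_le _
  exact Cn.of_center ho fun y hy => FZCM.main hZ o z _ y rfl hy

end Pool.Agent.Lib.MPbafc89.BQ
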