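import Pool.Agent.Lib.MP_bafc89_co.BQ.Spec

/-!
# HFA: facts on the component `HH` of the hub (author: helper47)
-/

set_option autoImplicit false

namespace Pool.Agent.Lib.MPbafc89.BQ

open SimpleGraph

universe u

namespace HFAM

variable {V : Type u} {G : SimpleGraph V} {r k : ℕ} {a : Fin k → ℤ → V} {Hb : Set V}

lemma hub_sub (h : Setup G r k a Hb) : Hb ⊆ UU G r a := by
  intro x hx j
  have := h.sys.far j x hx
  omega

lemma leg_dist (h : Setup G r k a Hb) (l : Fin k) (t : ℤ)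
    (h2 : t.natAbs ≤ 30 * r + 31) : G.dist (a l 0) (a l t) = t.natAbs := by
  have := h.sys.geo l 0 t (by simp) (by omega)
  rw [this]; omega

lemma leg_mem (h : Setup G r k a Hb) (l : Fin k) (t : ℤ) (h1 : 20 * r + 21 ≤ t.natAbs)
    (h2 : t.natAbs ≤ 30 * r + 31) : a l t ∈ UU G r a := by
  intro j
  have hg := leg_dist h l t h2
  by_cases hj : j = l
  · subst hj
    rw [hg]; omega
  · have h3 := h.sys.sep j l hj
    have h4 : G.dist (a j 0) (a l 0) ≤ G.dist (a j 0) (a l t) + G.dist (a l t) (a l 0) :=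
      h.conn.dist_triangle
    have h5 : G.dist (a l t) (a l 0) = t.natAbs := by rw [G.dist_comm, hg]
    omega

lemma leg_HH (h : Setup G r k a Hb) (l : Fin k) (t : ℤ) (h1 : 20 * r + 21 ≤ t.natAbs)
    (h2 : t.natAbs ≤ 30 * r + 31) : a l t ∈ HH G r a Hb := by
  rcases le_total 0 t with ht | ht
  · refine ⟨a l (((30 * r + 30 : ℕ) : ℤ) + 1), h.sys.pos l, ?_⟩
    have hc := (h.sys.geo l).cn (p := t) (q := ((30 * r + 30 : ℕ) : ℤ) + 1) (by omega) (by omega)
      (by omega)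
    refine (hc.2 _ ⟨t, le_rfl, by omega, rfl⟩ _ ⟨_, by omega, le_rfl, rfl⟩).mono ?_
    rintro x ⟨s, hs1, hs2, rfl⟩
    exact leg_mem h l s (by omega) (by omega)
  · refine ⟨a l (-(((30 * r + 30 : ℕ) : ℤ) + 1)), h.sys.neg l, ?_⟩
    have hc := (h.sys.geo l).cn (p := -(((30 * r + 30 : ℕ) : ℤ) + 1)) (q := t) (by omega) (by omega)
      (by omega)
    refine (hc.2 _ ⟨t, by omega, le_rfl, rfl⟩ _ ⟨_, le_rfl, by omega, rfl⟩).mono ?_
    rintro x ⟨s, hs1, hs2, rfl⟩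
    exact leg_mem h l s (by omega) (by omega)

lemma HH_jn {x y : V} (hx : x ∈ HH G r a Hb) (hxy : Jn G (UU G r a) x y) : y ∈ HH G r a Hb := by
  obtain ⟨z, hz, hxz⟩ := hx
  exact ⟨z, hz, hxy.symm.trans hxz⟩

lemma HH_conn {x y : V} (hx : x ∈ HH G r a Hb) (hxy : Jn G (UU G r a) x y) :
    Jn G (HH G r a Hb) x y := by
  refine hxy.induct (P := fun z => Jn G (HH G r a Hb) x z) (Jn.refl hx) ?_
  intro b c hb hc hbc hxb
  have hbH : b ∈ HH G r a Hb := hxb.right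
  exact hxb.trans (Jn.adj hbH (HH_jn hbH (Jn.adj hb hc hbc)) hbc)

lemma bd_adj (h : Setup G r k a Hb) {x y : V} (hx : x ∉ UU G r a) (hy : y ∈ UU G r a)
    (hxy : G.Adj x y) : ∃ j, y ∈ bd G r a j := by
  have hx' : ¬ ∀ j, 20 * r + 20 < G.dist (a j 0) x := hx
  rw [not_forall] at hx'
  obtain ⟨j, hj⟩ := hx'
  refine ⟨j, hy, ?_⟩
  have h1 := hy j
  have h2 : G.dist (a j 0) y ≤ G.dist (a j 0) x + G.dist x y := h.conn.dist_triangle
  have h3 : G.dist x y = 1 := dist_eq_one_iff_adj.mpr hxy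
  omega

end HFAM

open HFAM in
theorem specHFA : SpecHFA.{u} := by
  intro V G r k a Hb h
  refine ⟨?_, ?_, ?_, ?_, ?_, ?_, ?_, ?_⟩
  · rintro x ⟨y, -, hxy⟩
    exact hxy.left
  · intro x hx
    exact ⟨x, hx, Jn.refl (hub_sub h hx)⟩
  · exact fun l t => leg_HH h l t
  · exact fun x y hx hxy => HH_jn hx hxy
  · obtain ⟨c, hc⟩ := h.sys.cn.1
    refine ⟨⟨c, c, hc, Jn.refl (hub_sub h hc)⟩, ?_⟩
    rintro x ⟨x', hx', hxx⟩ y ⟨y', hy', hyy⟩
    refine HH_conn ⟨x', hx', hxx⟩ ?_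
    exact (hxx.trans ((h.sys.cn.2 x' hx' y' hy').mono (hub_sub h))).trans hyy.symm
  · intro x hx hxH
    obtain ⟨c, hc⟩ := h.sys.cn.1
    obtain ⟨w⟩ := h.conn.preconnected x c
    have hw : Jn G Set.univ x c := ⟨w, fun z _ => Set.mem_univ z⟩
    have key : Jn G (UU G r a) x c ∨ ∃ j, ∃ y ∈ bd G r a j, Jn G (UU G r a) x y := by
      refine hw.induct (P := fun z => Jn G (UU G r a) x z ∨
        ∃ j, ∃ y ∈ bd G r a j, Jn G (UU G r a) x y) (Or.inl (Jn.refl hx)) ?_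
      intro b d _ _ hbd hP
      rcases hP with hP | hP
      · by_cases hd : d ∈ UU G r a
        · exact Or.inl (hP.trans (Jn.adj hP.right hd hbd))
        · obtain ⟨j, hj⟩ := bd_adj h hd hP.right hbd.symm
          exact Or.inr ⟨j, b, hj, hP⟩
      · exact Or.inr hP
    rcases key with hk | hk
    · exact absurd ⟨c, hc, hk⟩ hxH
    · exact hk
  · exact fun x y hx hy hxy => bd_adj h hx hy hxy
  · intro j
    have h1 : (20 * (r : ℤ) + 21).natAbs = 20 * r + 21 := by omega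
    have h2 : (-(20 * (r : ℤ) + 21)).natAbs = 20 * r + 21 := by omega
    refine ⟨⟨leg_mem h j _ (by omega) (by omega), ?_⟩, ⟨leg_mem h j _ (by omega) (by omega), ?_⟩⟩
    · rw [leg_dist h j _ (by omega), h1]
    · rw [leg_dist h j _ (by omega), h2]

end Pool.Agent.Lib.MPbafc89.BQ
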