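import Pool.Agent.Lib.MP_bafc89_co.BQ.Spec3

/-!
# BQ, module HUB: the hub of the legs and the tails
-/

set_option autoImplicit false

namespace Pool.Agent.Lib.MPbafc89.BQ

open SimpleGraph

universe u v

namespace HUBM

/-- a position on a leg which is far from finitely many points -/
theorem choose_lam {V : Type u} {G : SimpleGraph V} (hG : G.Connected) {a : ℤ → V} {L n ρ : ℕ}
    (ha : Geod G L a) (hL : n * (4 * ρ + 1) ≤ L) (q : Fin n → V) :
    ∃ c : ℤ, 0 ≤ c ∧ c ≤ (n : ℤ) * (4 * ρ + 1) ∧ ∀ b, 2 * ρ < G.dist (q b) (a c) := by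
  classical
  by_contra hcon
  push Not at hcon
  have h1 : ∀ i : Fin (n + 1), ∃ b, G.dist (q b) (a ((i.val : ℤ) * (4 * ρ + 1))) ≤ 2 * ρ := by
    intro i
    refine hcon _ (by positivity) ?_
    have h0 : (i.val : ℤ) ≤ n := by
      have := i.2
      omega
    exact mul_le_mul_of_nonneg_right h0 (by positivity)
  choose f hf using h1
  obtain ⟨i, i', hne, hfi⟩ := Fintype.exists_ne_map_eq_of_card_lt f (by simp)
  have hab : ∀ i : Fin (n + 1), ((i.val : ℤ) * (4 * ρ + 1)).natAbs ≤ L := by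
    intro i
    have h0 : (i.val : ℤ) * (4 * ρ + 1) = ((i.val * (4 * ρ + 1) : ℕ) : ℤ) := by
      push_cast
      ring
    rw [h0, Int.natAbs_natCast]
    exact le_trans (Nat.mul_le_mul_right _ (by have := i.2; omega)) hL
  have h2 := ha _ _ (hab i) (hab i')
  have h3 : 4 * ρ + 1 ≤ ((i.val : ℤ) * (4 * ρ + 1) - (i'.val : ℤ) * (4 * ρ + 1)).natAbs := by
    rw [← sub_mul, Int.natAbs_mul]
    have h4 : 1 ≤ ((i.val : ℤ) - i'.val).natAbs := by
      have h : i.val ≠ i'.val := fun h => hne (Fin.ext h)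
      omega
    have h5 : (4 * (ρ : ℤ) + 1).natAbs = 4 * ρ + 1 := by omega
    rw [h5]
    exact Nat.le_mul_of_pos_left _ h4
  have h6 := hf i
  have h7 := hf i'
  rw [← hfi] at h7
  have h8 := hG.dist_triangle (u := a ((i.val : ℤ) * (4 * ρ + 1))) (v := q (f i))
    (w := a ((i'.val : ℤ) * (4 * ρ + 1)))
  have h9 : G.dist (a ((i.val : ℤ) * (4 * ρ + 1))) (q (f i)) =
    G.dist (q (f i)) (a ((i.val : ℤ) * (4 * ρ + 1))) := SimpleGraph.dist_comm
  omega

/-- the parts of the legs -/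
def part {V : Type u} {k : ℕ} (r ρ : ℕ) (a : Fin k → ℤ → V) (lam : Fin k → ℤ)
    (i : Fin k × Bool) : Set V :=
  if i.2 then {x | ∃ s, lam i.1 + ρ + 1 ≤ s ∧ s ≤ 20 * (r : ℤ) + 21 ∧ a i.1 s = x}
  else {x | ∃ s, -(20 * (r : ℤ) + 21) ≤ s ∧ s ≤ lam i.1 - ρ - 1 ∧ a i.1 s = x}

theorem mem_part {V : Type u} {k : ℕ} {r ρ : ℕ} {a : Fin k → ℤ → V} {lam : Fin k → ℤ}
    {l : Fin k} {t : ℤ} (ht : t.natAbs ≤ 20 * r + 21) (h : ρ + 1 ≤ (t - lam l).natAbs) :
    a l t ∈ ⋃ i, part r ρ a lam i := by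
  refine Set.mem_iUnion.2 ?_
  rcases le_total (lam l) t with h' | h'
  · refine ⟨(l, true), ?_⟩
    rw [part, if_pos rfl]
    exact ⟨t, by dsimp only; omega, by omega, rfl⟩
  · refine ⟨(l, false), ?_⟩
    rw [part, if_neg (by simp)]
    exact ⟨t, by omega, by dsimp only; omega, rfl⟩

theorem of_mem_part {V : Type u} {k : ℕ} {r ρ : ℕ} {a : Fin k → ℤ → V} {lam : Fin k → ℤ}
    (hlam : ∀ l, 0 ≤ lam l ∧ lam l ≤ 4 * r) {x : V} (hx : x ∈ ⋃ i, part r ρ a lam i) :
    ∃ (l : Fin k) (t : ℤ), t.natAbs ≤ 20 * r + 21 ∧ ρ + 1 ≤ (t - lam l).natAbs ∧ a l t = x := by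
  obtain ⟨⟨l, b⟩, hx⟩ := Set.mem_iUnion.1 hx
  have hl := hlam l
  cases b with
  | true =>
    rw [part, if_pos rfl] at hx
    obtain ⟨s, h1, h2, h3⟩ := hx
    dsimp only at h1 h2 h3
    exact ⟨l, s, by omega, by omega, h3⟩
  | false =>
    rw [part, if_neg (by simp)] at hx
    obtain ⟨s, h1, h2, h3⟩ := hx
    dsimp only at h1 h2 h3
    exact ⟨l, s, by omega, by omega, h3⟩

end HUBM

open HUBM in
theorem specHUB (hHFA : SpecHFA.{u}) (_hZCO : SpecZCO.{u}) (hDEP : SpecDEP.{u})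
    (hAAA : SpecAAA.{u}) : SpecHUB.{u} := by
  classical
  intro V G r k a Hb hS hk o n ρ T z η hρ hnr hnew hinc hgeo hη
  obtain ⟨-, -, hleg, -, -, -, -, hbd⟩ := hHFA V G r k a Hb hS
  have hconn := hS.conn
  have tri : ∀ x y z : V, G.dist x z ≤ G.dist x y + G.dist y z := fun x y z => hconn.dist_triangle
  have sym : ∀ x y : V, G.dist x y = G.dist y x := fun x y => SimpleGraph.dist_comm
  have hga : ∀ l, Geod G (30 * r + 30 + 1) (a l) := hS.sys.geo
  have ha0t : ∀ (l : Fin k) (t : ℤ), t.natAbs ≤ 30 * r + 31 → G.dist (a l 0) (a l t) = t.natAbs := by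
    intro l t ht
    rw [hga l 0 t (by simp) (by omega)]
    omega
  have hρr : 4 * ρ + 1 ≤ 4 * r := le_trans (Nat.le_mul_of_pos_left _ (Nat.succ_pos n)) hnr
  have hn4 : n * (4 * ρ + 1) ≤ 4 * r := le_trans (Nat.mul_le_mul_right _ (Nat.le_succ n)) hnr
  -- the facts on the height functions
  have D1 := fun b => (hDEP V G r k a Hb hS o (z b) (hnew b)).1
  have D2 := fun b => (hDEP V G r k a Hb hS o (z b) (hnew b)).2.1
  have D3 := fun b => (hDEP V G r k a Hb hS o (z b) (hnew b)).2.2.1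
  have D4 := fun b => (hDEP V G r k a Hb hS o (z b) (hnew b)).2.2.2
  have hηU : ∀ b, ∀ t ≤ 44 * r + 41 + T, η b t ∈ UU G r a := fun b t ht => (hη b t ht).choose
  have hnot : ∀ b b', b ≠ b' → ∀ (t : ℕ) (ht : t ≤ 44 * r + 41 + T),
      Sum.inl ⟨η b t, hηU b t ht⟩ ∉ Dn (ZZ G r a Hb) o (z b') := by
    intro b b' hbb t ht hmem
    obtain ⟨hU, h1, h2⟩ := hη b t ht
    have h3 : Jn (ZZ G r a Hb) {w | (ZZ G r a Hb).dist o (z b) ≤ (ZZ G r a Hb).dist o w} (z b)
      (Sum.inl ⟨η b t, hU⟩) := h1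
    have h4 : Jn (ZZ G r a Hb) {w | (ZZ G r a Hb).dist o (z b') ≤ (ZZ G r a Hb).dist o w} (z b')
      (Sum.inl ⟨η b t, hU⟩) := hmem
    rcases le_total ((ZZ G r a Hb).dist o (z b')) ((ZZ G r a Hb).dist o (z b)) with h | h
    · exact hinc b' b (Ne.symm hbb) (h4.trans (h3.symm.mono (fun w hw => le_trans h hw)))
    · exact hinc b b' hbb (h3.trans (h4.symm.mono (fun w hw => le_trans h hw)))
  have depη : ∀ b, ∀ (t : ℕ) (ht : t ≤ 44 * r + 41 + T), dep G r a Hb o (z b) (η b t) = t := by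
    intro b t ht
    obtain ⟨hU, h1, h2⟩ := hη b t ht
    have h3 := ((D4 b ⟨η b t, hU⟩).1 h1).2
    rw [h2] at h3
    refine h3.trans ?_
    omega
  have depη' : ∀ b b', b ≠ b' → ∀ t ≤ 44 * r + 41 + T, dep G r a Hb o (z b') (η b t) = 0 :=
    fun b b' hbb t ht => (D4 b' ⟨η b t, hηU b t ht⟩).2 (hnot b b' hbb t ht)
  have depleg : ∀ b l (t : ℤ), t.natAbs ≤ 20 * r + 21 → dep G r a Hb o (z b) (a l t) = 0 := by
    intro b l t ht
    by_cases h : t.natAbs ≤ 20 * r + 20
    · refine D3 b _ fun hU => ?_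
      have h1 : 20 * r + 20 < G.dist (a l 0) (a l t) := hU l
      rw [ha0t l t (by omega)] at h1
      omega
    · refine D2 b l _ ?_
      rcases le_total 0 t with h0 | h0
      · have h1 : t = 20 * (r : ℤ) + 21 := by omega
        rw [h1]
        exact (hbd l).1
      · have h1 : t = -(20 * (r : ℤ) + 21) := by omega
        rw [h1]
        exact (hbd l).2
  -- the set for the legs
  have hx1 : a ⟨0, hk⟩ (20 * (r : ℤ) + 21) ∈ UU G r a := (hbd ⟨0, hk⟩).1.1
  obtain ⟨A0, cA0, -, hA0p, hA0d, hA0dep, -⟩ := hAAA V G r k a Hb hS hk o n z hnew ⟨_, hx1⟩ (by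
    intro b hb
    have h1 := (D4 b ⟨_, hx1⟩).1 hb
    have h2 : dep G r a Hb o (z b) (a ⟨0, hk⟩ (20 * (r : ℤ) + 21)) = 0 := D2 b _ _ (hbd _).1
    have h3 := h2.symm.trans h1.2
    omega)
  have hA0p' := hA0p (hleg ⟨0, hk⟩ (20 * (r : ℤ) + 21) (by omega) (by omega))
  -- the sets for the tails
  have hAex : ∀ b, ∃ A : Set V, Cn G A ∧ η b 0 ∈ A ∧
      (∀ x ∈ A, ∀ j, 8 * r + 10 < G.dist (a j 0) x) ∧
      (∀ b', ∀ x ∈ A, dep G r a Hb o (z b') x ≤ 12 * r + 10) ∧
      (∃ x ∈ A, ∃ i, G.dist (a i 0) x ≤ 32 * r + 31) := by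
    intro b
    obtain ⟨A, h1, h2, -, h4, h5, h6⟩ := hAAA V G r k a Hb hS hk o n z hnew
      ⟨η b 0, hηU b 0 (Nat.zero_le _)⟩ (by
        intro b' hb'
        by_cases hbb : b = b'
        · subst hbb
          obtain ⟨hU, h1, h2⟩ := hη b 0 (Nat.zero_le _)
          exact h2.le
        · exact absurd hb' (hnot b b' hbb 0 (Nat.zero_le _)))
    exact ⟨A, h1, h2, h4, h5, h6⟩
  choose A cA hηA hAd hAdep hAnear using hAex
  -- nearest points
  set K : Set V := A0 ∪ {q | ∃ (l : Fin k) (t : ℤ), t.natAbs ≤ 20 * r + 21 ∧ a l t = q} with hK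
  have hKl : ∀ l (t : ℤ), t.natAbs ≤ 20 * r + 21 → a l t ∈ K := fun l t ht => Or.inr ⟨l, t, ht, rfl⟩
  have hmin : ∀ b, ∃ (s q : V), s ∈ A b ∧ q ∈ K ∧ G.dist s q ≤ 32 * r + 31 ∧
      ∀ s' ∈ A b, ∀ q' ∈ K, G.dist s q ≤ G.dist s' q' := by
    intro b
    obtain ⟨x, hx, i, hi⟩ := hAnear b
    have hai : a i 0 ∈ K := hKl i 0 (by simp)
    have hex : ∃ N : ℕ, ∃ s ∈ A b, ∃ q ∈ K, G.dist s q = N := ⟨_, x, hx, a i 0, hai, rfl⟩
    obtain ⟨s, hs, q, hq, hN⟩ := Nat.find_spec hex
    have hmin' : ∀ s' ∈ A b, ∀ q' ∈ K, G.dist s q ≤ G.dist s' q' := by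
      intro s' hs' q' hq'
      rw [hN]
      exact Nat.find_min' hex ⟨s', hs', q', hq', rfl⟩
    refine ⟨s, q, hs, hq, ?_, hmin'⟩
    have h1 := hmin' x hx (a i 0) hai
    have h2 := sym x (a i 0)
    omega
  choose s q hs hq hN hsq using hmin
  have hg := fun b => exists_geo hconn (s b) (q b)
  choose g hg0 hg1 hgg using hg
  -- positions of the new centres
  have hlamex := fun l => choose_lam hconn (hga l) (n := n) (ρ := ρ) (by omega) q
  choose lam hlam0 hlam1 hlam2 using hlamex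
  have hlam : ∀ l, 0 ≤ lam l ∧ lam l ≤ 4 * r := by
    intro l
    refine ⟨hlam0 l, (hlam1 l).trans ?_⟩
    have h1 : ((n * (4 * ρ + 1) : ℕ) : ℤ) ≤ ((4 * r : ℕ) : ℤ) := by exact_mod_cast hn4
    push_cast at h1
    exact h1
  have hlamd : ∀ l, G.dist (a l 0) (a l (lam l)) ≤ 4 * r := by
    intro l
    have := hlam l
    rw [ha0t l (lam l) (by omega)]
    omega
  have hgB : ∀ b l (i : ℕ), i ≤ G.dist (s b) (q b) → ρ < G.dist (a l (lam l)) (g b i) := by
    intro b l i hi
    by_contra hcon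
    have e1 := hsq b (s b) (hs b) (a l (lam l)) (hKl l _ (by have := hlam l; omega))
    have e2 := tri (s b) (g b i) (a l (lam l))
    have e3 : G.dist (g b 0) (g b i) = i - 0 := hgg b 0 i (Nat.zero_le _) hi
    rw [hg0] at e3
    have e4 := sym (g b i) (a l (lam l))
    have e5 : G.dist (g b i) (g b (G.dist (s b) (q b))) = G.dist (s b) (q b) - i :=
      hgg b i _ hi le_rfl
    rw [hg1] at e5
    have e6 := tri (q b) (g b i) (a l (lam l))
    have e7 := sym (q b) (g b i)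
    have e8 := hlam2 l b
    omega
  -- the hub
  set Gb : Fin n → Set V := fun b => {x | ∃ i : ℕ, 0 ≤ i ∧ i ≤ G.dist (s b) (q b) ∧ g b i = x}
    with hGb
  set Eb : Fin n → Set V := fun b => {x | ∃ i : ℕ, 0 ≤ i ∧ i ≤ 44 * r + 41 ∧ η b i = x} with hEb
  set Q : Fin n → Set V := fun b => (A b ∪ Gb b) ∪ Eb b with hQ
  have cQ : ∀ b, Cn G (Q b) := by
    intro b
    have c1 : Cn G (Gb b) := (hgg b).cn (Nat.zero_le _) le_rfl
    have c2 : Cn G (Eb b) := (hgeo b).cn (Nat.zero_le _) (by omega)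
    exact ((cA b).union c1 (hs b) ⟨0, le_rfl, Nat.zero_le _, hg0 b⟩).union c2
      (Or.inl (hηA b)) ⟨0, le_rfl, Nat.zero_le _, rfl⟩
  have c0 : Cn G (A0 ∪ ⋃ i, part r ρ a lam i) := by
    refine Cn.union_iUnion cA0 ?_ ?_
    · rintro ⟨l, b⟩
      have hl := hlam l
      cases b with
      | true =>
        rw [part, if_pos rfl]
        exact (hga l).cn (by dsimp only; omega) (by dsimp only; omega) (by omega)
      | false =>
        rw [part, if_neg (by simp)]
        exact (hga l).cn (by dsimp only; omega) (by omega) (by dsimp only; omega)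
    · rintro ⟨l, b⟩
      have hl := hlam l
      cases b with
      | true =>
        refine ⟨a l (20 * (r : ℤ) + 21), (hA0p' l).1, ?_⟩
        rw [part, if_pos rfl]
        exact ⟨_, by dsimp only; omega, le_rfl, rfl⟩
      | false =>
        refine ⟨a l (-(20 * (r : ℤ) + 21)), (hA0p' l).2, ?_⟩
        rw [part, if_neg (by simp)]
        exact ⟨_, le_rfl, by dsimp only; omega, rfl⟩
  have cF : Cn G ((A0 ∪ ⋃ i, part r ρ a lam i) ∪ ⋃ b, Q b) := by
    refine Cn.union_iUnion c0 cQ ?_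
    intro b
    refine ⟨q b, ?_, Or.inl (Or.inr ⟨_, Nat.zero_le _, le_rfl, hg1 b⟩)⟩
    rcases hq b with hq' | ⟨l, t, ht, hq'⟩
    · exact Or.inl hq'
    · right
      rw [← hq']
      refine mem_part ht ?_
      have e1 := hlam2 l b
      have e2 := hlam l
      rw [← hq', hga l t (lam l) (by omega) (by omega)] at e1
      omega
  set F : Set V := (A0 ∪ ⋃ i, part r ρ a lam i) ∪ ⋃ b, Q b with hF
  have hcases : ∀ X : V → Prop, (∀ x ∈ A0, X x) →
      (∀ l (t : ℤ), t.natAbs ≤ 20 * r + 21 → ρ + 1 ≤ (t - lam l).natAbs → X (a l t)) →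
      (∀ b, ∀ x ∈ A b, X x) → (∀ b i, i ≤ G.dist (s b) (q b) → X (g b i)) →
      (∀ b, ∀ t ≤ 44 * r + 41, X (η b t)) → ∀ x ∈ F, X x := by
    intro X x1 x2 x3 x4 x5 x hx
    rcases hx with (hx | hx) | hx
    · exact x1 x hx
    · obtain ⟨l, t, h1, h2, rfl⟩ := of_mem_part hlam hx
      exact x2 l t h1 h2
    · obtain ⟨b, hb⟩ := Set.mem_iUnion.1 hx
      rcases hb with (hb | ⟨i, -, hi, rfl⟩) | ⟨i, -, hi, rfl⟩
      · exact x3 b x hb
      · exact x4 b i hi
      · exact x5 b i hi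
  have hdepF : ∀ b, ∀ x ∈ F, dep G r a Hb o (z b) x ≤ 44 * r + 41 := by
    intro b
    refine hcases _ ?_ ?_ ?_ ?_ ?_
    · intro x hx
      have := hA0dep b x hx
      omega
    · intro l t ht _
      rw [depleg b l t ht]
      exact Nat.zero_le _
    · intro b' x hx
      have := hAdep b' b x hx
      omega
    · intro b' i hi
      have e1 := hAdep b' b (s b') (hs b')
      have e2 := D1 b (s b') (g b' i)
      have e3 : G.dist (g b' 0) (g b' i) = i - 0 := hgg b' 0 i (Nat.zero_le _) hi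
      rw [hg0] at e3
      have e4 := hN b'
      omega
    · intro b' t ht
      by_cases hbb : b' = b
      · subst hbb
        rw [depη b' t (by omega)]
        exact ht
      · rw [depη' b' b hbb t (by omega)]
        exact Nat.zero_le _
  have hdepE : ∀ b (t : ℕ), t ≤ T → dep G r a Hb o (z b) (η b (44 * r + 41 + t)) =
      44 * r + 41 + t := fun b t ht => depη b _ (by omega)
  have hηd : ∀ b (t : ℕ), t ≤ 44 * r + 41 + T → ∀ l, ρ < G.dist (a l (lam l)) (η b t) := by
    intro b t ht l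
    have e1 : 20 * r + 20 < G.dist (a l 0) (η b t) := hηU b t ht l
    have e2 := tri (a l 0) (a l (lam l)) (η b t)
    have e3 := hlamd l
    omega
  refine ⟨F, fun l t => a l (lam l + t), fun b t => η b (44 * r + 41 + t), ?_⟩
  refine
    { cn := cF
      geo := fun j => (hga j).shift (by have := hlam j; omega)
      sep := ?_
      pos := ?_
      neg := ?_
      far := ?_
      tail := ?_
      tmem := ?_
      tfar := ?_
      ttail := ?_
      tleg := ?_
      tbal := ?_ }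
  · intro i j hij
    show 2 * ρ + 4 ≤ G.dist (a i (lam i + 0)) (a j (lam j + 0))
    rw [add_zero, add_zero]
    have e1 := hS.sys.sep i j hij
    have e2 := tri (a i 0) (a i (lam i)) (a j 0)
    have e3 := tri (a i (lam i)) (a j (lam j)) (a j 0)
    have e4 := sym (a j (lam j)) (a j 0)
    have e5 := hlamd i
    have e6 := hlamd j
    omega
  · intro j
    have := hlam j
    exact Or.inl (Or.inr (mem_part (by omega) (by omega)))
  · intro j
    have := hlam j
    exact Or.inl (Or.inr (mem_part (by omega) (by omega)))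
  · intro l
    show ∀ x ∈ F, ρ < G.dist (a l (lam l + 0)) x
    rw [add_zero]
    have e0 := hlamd l
    have e0' := hlam l
    refine hcases _ ?_ ?_ ?_ (fun b i hi => hgB b l i hi) (fun b t ht => hηd b t (by omega) l)
    · intro x hx
      have e1 := hA0d x hx l
      have e2 := tri (a l 0) (a l (lam l)) x
      omega
    · intro i t ht ht'
      by_cases hil : i = l
      · subst hil
        rw [hga i (lam i) t (by omega) (by omega)]
        omega
      · have e1 := hS.sys.sep l i (fun h => hil h.symm)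
        have e2 := tri (a l 0) (a l (lam l)) (a i t)
        have e3 := tri (a l 0) (a i t) (a i 0)
        have e4 := ha0t i t (by omega)
        have e5 := sym (a i 0) (a i t)
        omega
    · intro b x hx
      have e1 := hAd b x hx l
      have e2 := tri (a l 0) (a l (lam l)) x
      omega
  · intro b s' t hst ht
    show G.dist (η b (44 * r + 41 + s')) (η b (44 * r + 41 + t)) = t - s'
    rw [hgeo b _ _ (by omega) (by omega)]
    omega
  · intro b
    exact Or.inr (Set.mem_iUnion.2 ⟨b, Or.inr ⟨44 * r + 41, Nat.zero_le _, le_rfl, rfl⟩⟩)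
  · intro b x hx t ht
    show t ≤ G.dist (η b (44 * r + 41 + t)) x
    have e1 := hdepF b x hx
    have e2 := hdepE b t ht
    have e3 := D1 b x (η b (44 * r + 41 + t))
    have e4 := sym x (η b (44 * r + 41 + t))
    omega
  · intro b b' hbb s' hs' t ht
    show s' ≤ G.dist (η b (44 * r + 41 + s')) (η b' (44 * r + 41 + t))
    have e1 := hdepE b s' hs'
    have e2 := depη' b' b (Ne.symm hbb) (44 * r + 41 + t) (by omega)
    have e3 := D1 b (η b' (44 * r + 41 + t)) (η b (44 * r + 41 + s'))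
    have e4 := sym (η b' (44 * r + 41 + t)) (η b (44 * r + 41 + s'))
    omega
  · intro b j t ht s' hs'
    show t ≤ G.dist (η b (44 * r + 41 + t)) (a j (lam j + s'))
    have e0 := hlam j
    have e1 := hdepE b t ht
    have e2 := depleg b j (lam j + s') (by omega)
    have e3 := D1 b (a j (lam j + s')) (η b (44 * r + 41 + t))
    have e4 := sym (a j (lam j + s')) (η b (44 * r + 41 + t))
    omega
  · intro b j t ht
    show ρ < G.dist (a j (lam j + 0)) (η b (44 * r + 41 + t))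
    rw [add_zero]
    exact hηd b _ (by omega) j

end Pool.Agent.Lib.MPbafc89.BQ
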