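import Pool.Agent.Lib.MP_bafc89_co.BQ.Spec

/-!
# BQ, module KHB: the sets `Kl`
-/

set_option autoImplicit false

namespace Pool.Agent.Lib.MPbafc89.BQ

open SimpleGraph

universe u v

namespace KHBM

/-- the parts of the legs -/
def part {V : Type u} {k : ℕ} (r : ℕ) (a : Fin k → ℤ → V) (lam : Fin k → ℤ) (i : Fin k × Bool) :
    Set V :=
  if i.2 then {x | ∃ s, lam i.1 + r + 1 ≤ s ∧ s ≤ 20 * (r : ℤ) + 21 ∧ a i.1 s = x}
  else {x | ∃ s, -(20 * (r : ℤ) + 21) ≤ s ∧ s ≤ lam i.1 - r - 1 ∧ a i.1 s = x}

end KHBM

open KHBM in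
theorem specKHB (hHFA : SpecHFA.{u}) : SpecKHB.{u} := by
  intro V G r k a Hb hS lam hlam
  obtain ⟨hHU, -, hleg, -, hHc, -, -, -⟩ := hHFA V G r k a Hb hS
  have hgeo : ∀ l, Geod G (30 * r + 30 + 1) (a l) := hS.sys.geo
  have hKl : Kl G r a Hb lam = HH G r a Hb ∪ ⋃ i, part r a lam i := by
    ext x
    constructor
    · rintro (h | ⟨l, t, h1, h2, h3⟩)
      · exact Or.inl h
      · have hl := hlam l
        refine Or.inr (Set.mem_iUnion.2 ?_)
        rcases le_total (lam l) t with h | h
        · refine ⟨(l, true), ?_⟩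
          rw [part, if_pos rfl]
          exact ⟨t, by dsimp only; omega, by omega, h3⟩
        · refine ⟨(l, false), ?_⟩
          rw [part, if_neg (by simp)]
          exact ⟨t, by omega, by dsimp only; omega, h3⟩
    · rintro (h | h)
      · exact Or.inl h
      · obtain ⟨⟨l, b⟩, hx⟩ := Set.mem_iUnion.1 h
        have hl := hlam l
        cases b with
        | true =>
          rw [part, if_pos rfl] at hx
          obtain ⟨s, h1, h2, h3⟩ := hx
          dsimp only at h1 h2 h3
          exact Or.inr ⟨l, s, by omega, by omega, h3⟩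
        | false =>
          rw [part, if_neg (by simp)] at hx
          obtain ⟨s, h1, h2, h3⟩ := hx
          dsimp only at h1 h2 h3
          exact Or.inr ⟨l, s, by omega, by omega, h3⟩
  refine ⟨?_, ?_, ?_⟩
  · rw [hKl]
    refine Cn.union_iUnion hHc ?_ ?_
    · rintro ⟨l, b⟩
      have hl := hlam l
      cases b with
      | true =>
        rw [part, if_pos rfl]
        exact (hgeo l).cn (by dsimp only; omega) (by dsimp only; omega) (by omega)
      | false =>
        rw [part, if_neg (by simp)]
        exact (hgeo l).cn (by dsimp only; omega) (by omega) (by dsimp only; omega)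
    · rintro ⟨l, b⟩
      have hl := hlam l
      cases b with
      | true =>
        refine ⟨a l (20 * (r : ℤ) + 21), hleg l _ (by omega) (by omega), ?_⟩
        rw [part, if_pos rfl]
        exact ⟨_, by dsimp only; omega, le_rfl, rfl⟩
      | false =>
        refine ⟨a l (-(20 * (r : ℤ) + 21)), hleg l _ (by omega) (by omega), ?_⟩
        rw [part, if_neg (by simp)]
        exact ⟨_, le_rfl, by dsimp only; omega, rfl⟩
  · intro l
    have hl := hlam l
    exact ⟨Or.inr ⟨l, _, by omega, by omega, rfl⟩, Or.inr ⟨l, _, by omega, by omega, rfl⟩⟩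
  · intro l x hx
    have hl := hlam l
    have h0 : G.dist (a l 0) (a l (lam l)) = (lam l).natAbs := by
      rw [hgeo l 0 (lam l) (by omega) (by omega)]
      omega
    rcases hx with hx | ⟨i, t, h1, h2, rfl⟩
    · have h3 : 20 * r + 20 < G.dist (a l 0) x := hHU hx l
      have h4 := hS.conn.dist_triangle (u := a l 0) (v := a l (lam l)) (w := x)
      omega
    · by_cases hil : i = l
      · subst hil
        rw [hgeo i (lam i) t (by omega) (by omega)]
        omega
      · have h3 := hS.sys.sep l i (fun h => hil h.symm)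
        have h4 := hS.conn.dist_triangle (u := a l 0) (v := a l (lam l)) (w := a i t)
        have h5 := hS.conn.dist_triangle (u := a l 0) (v := a i t) (w := a i 0)
        have h6 : G.dist (a i t) (a i 0) = t.natAbs := by
          rw [hgeo i t 0 (by omega) (by omega)]
          omega
        omega

end Pool.Agent.Lib.MPbafc89.BQ
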