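import Pool.Agent.Lib.MP_bafc89_co.BQ.Spec

/-!
# MP_bafc89_co, bouquets of cycles: monotonicity (module MON)
-/

set_option autoImplicit false

namespace Pool.Agent.Lib.MPbafc89.BQ

open SimpleGraph

universe u v

namespace MONM

/-- a connected set of an induced subgraph is connected in the graph -/
theorem cn_image {V : Type u} {G : SimpleGraph V} {S : Set V} {B : Set S}
    (h : Cn (G.induce S) B) : Cn G (Subtype.val '' B) := by
  obtain ⟨⟨c, hc⟩, h2⟩ := h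
  refine Cn.of_center (c := (c : V)) ⟨c, hc, rfl⟩ ?_
  rintro x' ⟨x, hx, rfl⟩
  refine (h2 c hc x hx).induct (fun z => Jn G (Subtype.val '' B) (c : V) (z : V))
    (Jn.refl ⟨c, hc, rfl⟩) ?_
  intro p q hp hq hpq h
  have hpq' : G.Adj (p : V) (q : V) := by simpa using hpq
  exact h.trans (Jn.adj ⟨p, hp, rfl⟩ ⟨q, hq, rfl⟩ hpq')

theorem qi_mono {V : Type u} {W : Type u} {G : SimpleGraph V} {G' : SimpleGraph W} {f : V → W}
    {M A M' A' : ℕ} (hM : M ≤ M') (hA : A ≤ A') (h : QI G G' f M A) : QI G G' f M' A' := by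
  have hM1 : (M : ℕ∞) ≤ (M' : ℕ∞) := by exact_mod_cast hM
  have hA1 : (A : ℕ∞) ≤ (A' : ℕ∞) := by exact_mod_cast hA
  refine ⟨fun x y => (h.low x y).trans ?_, fun x y => (h.upp x y).trans ?_, fun y => ?_⟩
  · exact add_le_add (mul_le_mul' hM1 le_rfl) hA1
  · exact add_le_add (mul_le_mul' hM1 le_rfl) hA1
  · obtain ⟨x, hx⟩ := h.cov y
    exact ⟨x, hx.trans hA1⟩

end MONM

theorem specMON : SpecMON.{u, v} := by
  refine ⟨?_, ?_⟩
  · rintro V G S α H ⟨B, hB1, hB2, hB3⟩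
    refine ⟨fun i => Subtype.val '' (B i), ?_, ?_, ?_⟩
    · intro i
      rw [← cn_iff]
      exact MONM.cn_image (cn_iff.mpr (hB1 i))
    · intro i j hij
      exact (Set.disjoint_image_iff Subtype.val_injective).mpr (hB2 i j hij)
    · intro i j hij
      rw [hB3 i j hij]
      constructor
      · rintro ⟨x, hx, y, hy, hxy⟩
        exact ⟨x, ⟨x, hx, rfl⟩, y, ⟨y, hy, rfl⟩, by simpa using hxy⟩
      · rintro ⟨x', ⟨x, hx, rfl⟩, y', ⟨y, hy, rfl⟩, hxy⟩
        exact ⟨x, hx, y, hy, by simpa using hxy⟩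
  · rintro V G M A M' A' c hM hA ⟨W, G', f, hQ, hm⟩
    exact ⟨W, G', f, MONM.qi_mono hM hA hQ, hm⟩

end Pool.Agent.Lib.MPbafc89.BQ
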