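import Pool.Agent.Lib.MP_bafc89_co.BQ.Spec

/-!
# MP_bafc89_co, bouquets of cycles: module NEA

A component of the complement of the balls different from the hub component does not touch two
different `p`-points.
-/

set_option autoImplicit false

namespace Pool.Agent.Lib.MPbafc89.BQ

open SimpleGraph

universe u

namespace NEAM

variable {V : Type u} {G : SimpleGraph V}

/-- a leg with a sign is a geodesic segment -/
theorem geodN {L : ℕ} {a : ℤ → V} (h : Geod G L a) {N : ℤ} (hN : N = 1 ∨ N = -1) :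
    Geod G L (fun t => a (N * t)) := by
  intro s t hs ht
  show G.dist (a (N * s)) (a (N * t)) = _
  rcases hN with rfl | rfl
  · rw [h (1 * s) (1 * t) (by omega) (by omega)]
    omega
  · rw [h (-1 * s) (-1 * t) (by omega) (by omega)]
    omega

/-- the lens between two points -/
theorem lens_cn (hG : G.Connected) (p x : V) {D : ℕ} (h : G.dist p x ≤ D) :
    Cn G {y | G.dist p y + G.dist y x ≤ D} := by
  have hp : p ∈ {y | G.dist p y + G.dist y x ≤ D} := by
    show G.dist p p + G.dist p x ≤ D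
    rw [SimpleGraph.dist_self]
    omega
  refine Cn.of_center hp ?_
  intro y hy
  have hy' : G.dist p y + G.dist y x ≤ D := hy
  obtain ⟨g, h0, h1, hg⟩ := exists_geo hG p y
  have h2 := (hg.cn (p := 0) (q := G.dist p y) (Nat.zero_le _) le_rfl).2 p ⟨0, le_rfl,
    Nat.zero_le _, h0⟩ y ⟨_, Nat.zero_le _, le_rfl, h1⟩
  refine h2.mono ?_
  rintro z ⟨s, -, hs, rfl⟩
  have h3 := hg 0 s (Nat.zero_le _) hs
  have h4 := hg s (G.dist p y) hs le_rfl
  rw [h0] at h3
  rw [h1] at h4
  have h5 := hG.dist_triangle (u := g s) (v := y) (w := x)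
  show G.dist p (g s) + G.dist (g s) x ≤ D
  omega

theorem near (hG : G.Connected) {r : ℕ} {v p x y : V} (hp : G.dist v p = 20 * r + 21)
    (hx : G.dist v x = 20 * r + 21) (h : G.dist p y + G.dist y x ≤ 6 * r + 5) :
    17 * r + 19 ≤ G.dist v y ∧ G.dist v y ≤ 23 * r + 23 := by
  have h1 := hG.dist_triangle (u := v) (v := p) (w := y)
  have h2 := hG.dist_triangle (u := v) (v := x) (w := y)
  have h3 := hG.dist_triangle (u := v) (v := y) (w := p)
  have h4 := hG.dist_triangle (u := v) (v := y) (w := x)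
  rw [G.dist_comm (u := y) (v := p)] at h3
  rw [G.dist_comm (u := x) (v := y)] at h2
  omega

/-- a joining walk stays in the component -/
theorem comp_jn {S : Set V} {x y : V} (h : Jn G S x y) : Jn G {z | Jn G S x z} x y := by
  have hx : Jn G S x x := Jn.refl h.left
  refine h.induct (P := fun z => Jn G {z | Jn G S x z} x z) (Jn.refl hx) ?_
  intro a b ha hb hab hPa
  have h1 : Jn G S x a := hPa.right
  have h2 : Jn G S x b := h1.trans (Jn.adj ha hb hab)
  exact hPa.trans (Jn.adj h1 h2 hab)

end NEAM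

open NEAM in
theorem specNEA (hHFA : SpecHFA.{u}) (hPRI : SpecPRI.{u}) : SpecNEA.{u} := by
  intro V G r k a Hb hS i j N N' x x' hN hN' hij hx hx' hxx hxH hpx hpx'
  obtain ⟨hsub, hHb, hleg, hjn, -, -, -, hbd⟩ := hHFA V G r k a Hb hS
  have hG := hS.conn
  have hr := hS.one
  have hgeo : ∀ l, Geod G (30 * r + 31) (a l) := hS.sys.geo
  have hd : ∀ (l : Fin k) (s t : ℤ), s.natAbs ≤ 30 * r + 31 → t.natAbs ≤ 30 * r + 31 →
      G.dist (a l s) (a l t) = (s - t).natAbs := fun l s t hs ht => hgeo l s t hs ht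
  have hsep : ∀ l l' : Fin k, l ≠ l' → 60 * r + 64 ≤ G.dist (a l 0) (a l' 0) := by
    intro l l' h
    have := hS.sys.sep l l' h
    omega
  have hHbfar : ∀ (l : Fin k) (y : V), y ∈ Hb → 30 * r + 30 < G.dist (a l 0) y :=
    fun l y hy => hS.sys.far l y hy
  have hend : ∀ (l : Fin k) (e : ℤ), (e = 1 ∨ e = -1) → a l (e * (30 * (r : ℤ) + 31)) ∈ Hb := by
    intro l e he
    rcases he with rfl | rfl
    · have h1 := hS.sys.pos l
      have h2 : ((30 * r + 30 : ℕ) : ℤ) + 1 = 1 * (30 * (r : ℤ) + 31) := by push_cast; ring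
      rw [h2] at h1
      exact h1
    · have h1 := hS.sys.neg l
      have h2 : -(((30 * r + 30 : ℕ) : ℤ) + 1) = -1 * (30 * (r : ℤ) + 31) := by push_cast; ring
      rw [h2] at h1
      exact h1
  -- the two `p`-points and the new centre
  obtain ⟨p, hp⟩ : ∃ p, p = a i (N * (20 * (r : ℤ) + 21)) := ⟨_, rfl⟩
  obtain ⟨p', hp'⟩ : ∃ p', p' = a j (N' * (20 * (r : ℤ) + 21)) := ⟨_, rfl⟩
  obtain ⟨w, hw⟩ : ∃ w, w = a i (N * (25 * (r : ℤ) + 26)) := ⟨_, rfl⟩
  rw [← hp] at hpx
  rw [← hp'] at hpx'
  have hip : G.dist (a i 0) p = 20 * r + 21 := by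
    rw [hp]
    rcases hN with rfl | rfl
    · rw [hd i _ _ (by omega) (by omega)]
      omega
    · rw [hd i _ _ (by omega) (by omega)]
      omega
  have hjp : G.dist (a j 0) p' = 20 * r + 21 := by
    rw [hp']
    rcases hN' with rfl | rfl
    · rw [hd j _ _ (by omega) (by omega)]
      omega
    · rw [hd j _ _ (by omega) (by omega)]
      omega
  have hwi : G.dist (a i 0) w = 25 * r + 26 := by
    rw [hw]
    rcases hN with rfl | rfl
    · rw [hd i _ _ (by omega) (by omega)]
      omega
    · rw [hd i _ _ (by omega) (by omega)]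
      omega
  -- distances
  have hfar : ∀ (l l' : Fin k) (y : V), l ≠ l' →
      60 * r + 64 ≤ G.dist (a l 0) y + G.dist (a l' 0) y := by
    intro l l' y h
    have h1 := hsep l l' h
    have h2 := hG.dist_triangle (u := a l 0) (v := y) (w := a l' 0)
    rw [G.dist_comm (u := y) (v := a l' 0)] at h2
    omega
  have hwfar : ∀ (l : Fin k) (y : V), l ≠ i → 35 * r + 38 ≤ G.dist w y + G.dist (a l 0) y := by
    intro l y h
    have h1 := hfar i l y (Ne.symm h)
    have h2 := hG.dist_triangle (u := a i 0) (v := w) (w := y)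
    omega
  have hwnear : ∀ y, G.dist (a i 0) y ≤ 23 * r + 23 → r < G.dist w y := by
    intro y hy
    have h2 := hG.dist_triangle (u := a i 0) (v := y) (w := w)
    rw [G.dist_comm (u := y) (v := w)] at h2
    omega
  have hl1 : ∀ y, G.dist p y + G.dist y x ≤ 6 * r + 5 →
      17 * r + 19 ≤ G.dist (a i 0) y ∧ G.dist (a i 0) y ≤ 23 * r + 23 :=
    fun y hy => near hG hip hx.2 hy
  have hl2 : ∀ y, G.dist p' y + G.dist y x' ≤ 6 * r + 5 →
      17 * r + 19 ≤ G.dist (a j 0) y ∧ G.dist (a j 0) y ≤ 23 * r + 23 :=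
    fun y hy => near hG hjp hx'.2 hy
  -- the ball around the new centre is in `HH`
  have hwHH : w ∈ HH G r a Hb := by
    rw [hw]
    rcases hN with rfl | rfl
    · exact hleg i _ (by omega) (by omega)
    · exact hleg i _ (by omega) (by omega)
  have hball : ∀ y, G.dist w y ≤ r → y ∈ HH G r a Hb := by
    intro y hy
    have h1 : Jn G {z | G.dist w z ≤ r} w y := (ball_cn hG w r).2 w (by simp) y hy
    refine hjn w y hwHH (h1.mono ?_)
    intro z hz l
    have hz' : G.dist w z ≤ r := hz
    by_cases hl : l = i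
    · subst hl
      have h2 := hG.dist_triangle (u := a l 0) (v := z) (w := w)
      rw [G.dist_comm (u := z) (v := w)] at h2
      omega
    · have := hwfar l z hl
      omega
  -- the hub
  obtain ⟨P, hP⟩ : ∃ P : Set V, P = {y | ∃ (l : Fin k) (t : ℤ), r + 1 ≤ t.natAbs ∧
      t.natAbs ≤ 30 * r + 31 ∧ (l = i → r + 1 ≤ (t - N * (25 * (r : ℤ) + 26)).natAbs) ∧
      a l t = y} := ⟨_, rfl⟩
  obtain ⟨F, hF⟩ : ∃ F : Set V, F = {y | y ∈ Hb ∨ y ∈ P ∨ G.dist p y + G.dist y x ≤ 6 * r + 5 ∨
      Jn G (UU G r a) x y ∨ G.dist p' y + G.dist y x' ≤ 6 * r + 5} := ⟨_, rfl⟩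
  have hHbF : Hb ⊆ F := by
    intro y hy
    rw [hF]
    exact Or.inl hy
  have hPF : P ⊆ F := by
    intro y hy
    rw [hF]
    exact Or.inr (Or.inl hy)
  have hL1F : {y | G.dist p y + G.dist y x ≤ 6 * r + 5} ⊆ F := by
    intro y hy
    rw [hF]
    exact Or.inr (Or.inr (Or.inl hy))
  have hCF : {y | Jn G (UU G r a) x y} ⊆ F := by
    intro y hy
    rw [hF]
    exact Or.inr (Or.inr (Or.inr (Or.inl hy)))
  have hL2F : {y | G.dist p' y + G.dist y x' ≤ 6 * r + 5} ⊆ F := by
    intro y hy
    rw [hF]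
    exact Or.inr (Or.inr (Or.inr (Or.inr hy)))
  -- segments of the legs
  have hseg : ∀ (l : Fin k) (e m n : ℤ), (e = 1 ∨ e = -1) → (r : ℤ) + 1 ≤ m → m ≤ n →
      n ≤ 30 * (r : ℤ) + 31 → (l = i → e = N → (n ≤ 24 * (r : ℤ) + 25 ∨ 26 * (r : ℤ) + 27 ≤ m)) →
      Jn G F (a l (e * m)) (a l (e * n)) := by
    intro l e m n he hm hmn hn hl
    have h1 := (geodN (hgeo l) he).cn (p := m) (q := n) hmn (by omega) (by omega)
    have h2 := h1.2 (a l (e * m)) ⟨m, le_rfl, hmn, rfl⟩ (a l (e * n)) ⟨n, hmn, le_rfl, rfl⟩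
    refine h2.mono ?_
    rintro y ⟨s, hs1, hs2, rfl⟩
    refine hPF ?_
    rw [hP]
    refine ⟨l, e * s, ?_, ?_, ?_, rfl⟩
    · rcases he with rfl | rfl <;> omega
    · rcases he with rfl | rfl <;> omega
    · intro hli
      have hl' := hl hli
      rcases he with rfl | rfl
      · rcases hN with rfl | rfl
        · have := hl' rfl
          omega
        · omega
      · rcases hN with rfl | rfl
        · omega
        · have := hl' rfl
          omega
  obtain ⟨h0, hh0⟩ := hS.sys.cn.1
  have hJHb : ∀ y ∈ Hb, Jn G F h0 y := fun y hy => (hS.sys.cn.2 h0 hh0 y hy).mono hHbF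
  have hJp' : Jn G F h0 p' := by
    refine (hJHb _ (hend j N' hN')).trans ?_
    rw [hp']
    refine (hseg j N' _ _ hN' ?_ ?_ le_rfl ?_).symm
    · omega
    · omega
    · intro h1 h2
      exact absurd h2.symm (hij.resolve_left (fun h => h h1.symm))
  have hJx' : Jn G F h0 x' := by
    refine hJp'.trans (((lens_cn hG p' x' hpx').2 p' ?_ x' ?_).mono hL2F)
    · show G.dist p' p' + G.dist p' x' ≤ 6 * r + 5
      rw [SimpleGraph.dist_self]
      omega
    · show G.dist p' x' + G.dist x' x' ≤ 6 * r + 5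
      rw [SimpleGraph.dist_self]
      omega
  have hJx : Jn G F h0 x := hJx'.trans ((comp_jn hxx).mono hCF).symm
  have hJp : Jn G F h0 p := by
    refine hJx.trans (((lens_cn hG p x hpx).2 x ?_ p ?_).mono hL1F)
    · show G.dist p x + G.dist x x ≤ 6 * r + 5
      rw [SimpleGraph.dist_self]
      omega
    · show G.dist p p + G.dist p x ≤ 6 * r + 5
      rw [SimpleGraph.dist_self]
      omega
  -- all points of the legs
  have hJP : ∀ (l : Fin k) (e m : ℤ), (e = 1 ∨ e = -1) → (r : ℤ) + 1 ≤ m →
      m ≤ 30 * (r : ℤ) + 31 → (l = i → e = N → (m ≤ 24 * (r : ℤ) + 25 ∨ 26 * (r : ℤ) + 27 ≤ m)) →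
      Jn G F h0 (a l (e * m)) := by
    intro l e m he hm hm2 hl
    by_cases hc : l = i ∧ e = N ∧ m ≤ 24 * (r : ℤ) + 25
    · obtain ⟨rfl, rfl, hm3⟩ := hc
      refine hJp.trans ?_
      rw [hp]
      rcases le_total m (20 * (r : ℤ) + 21) with h1 | h1
      · refine (hseg l e _ _ he hm h1 (by omega) ?_).symm
        intro _ _
        left
        omega
      · refine hseg l e _ _ he (by omega) h1 hm2 ?_
        intro _ _
        left
        exact hm3
    · refine (hJHb _ (hend l e he)).trans ?_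
      refine (hseg l e _ _ he hm hm2 le_rfl ?_).symm
      intro h1 h2
      right
      rcases hl h1 h2 with h3 | h3
      · exact absurd ⟨h1, h2, h3⟩ hc
      · exact h3
  have hJPP : ∀ y ∈ P, Jn G F h0 y := by
    intro y hy
    rw [hP] at hy
    obtain ⟨l, t, ht1, ht2, ht3, rfl⟩ := hy
    rcases le_total 0 t with h1 | h1
    · have h2 := hJP l 1 t (Or.inl rfl) (by omega) (by omega) ?_
      · rw [one_mul] at h2
        exact h2
      · intro h3 h4
        have h5 := ht3 h3
        rw [← h4] at h5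
        omega
    · have h2 := hJP l (-1) (-t) (Or.inr rfl) (by omega) (by omega) ?_
      · have h6 : (-1 : ℤ) * -t = t := by ring
        rw [h6] at h2
        exact h2
      · intro h3 h4
        have h5 := ht3 h3
        rw [← h4] at h5
        omega
  have hFcn : Cn G F := by
    refine Cn.of_center (hHbF hh0) ?_
    intro y hy
    have hy' := hy
    rw [hF] at hy'
    rcases hy' with hy' | hy' | hy' | hy' | hy'
    · exact hJHb y hy'
    · exact hJPP y hy'
    · refine hJp.trans (((lens_cn hG p x hpx).2 p ?_ y hy').mono hL1F)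
      show G.dist p p + G.dist p x ≤ 6 * r + 5
      rw [SimpleGraph.dist_self]
      omega
    · exact hJx.trans ((comp_jn hy').mono hCF)
    · refine hJp'.trans (((lens_cn hG p' x' hpx').2 p' ?_ y hy').mono hL2F)
      show G.dist p' p' + G.dist p' x' ≤ 6 * r + 5
      rw [SimpleGraph.dist_self]
      omega
  -- the principle
  refine hPRI V G r k a Hb hS (fun _ => 0) (fun t => a i (N * (25 * (r : ℤ) + 26 + t))) F
    ?_ ?_ hFcn ?_ ?_ ?_ ?_ ?_ ?_ ?_
  · intro l
    show (0 : ℤ).natAbs ≤ _
    simp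
  · intro s t hs ht
    show G.dist (a i (N * (25 * (r : ℤ) + 26 + s))) (a i (N * (25 * (r : ℤ) + 26 + t))) = _
    rcases hN with rfl | rfl
    · rw [hd i _ _ (by omega) (by omega)]
      omega
    · rw [hd i _ _ (by omega) (by omega)]
      omega
  · refine hPF ?_
    rw [hP]
    refine ⟨i, N * (25 * (r : ℤ) + 26 + ((r : ℤ) + 1)), ?_, ?_, fun _ => ?_, rfl⟩
    · rcases hN with rfl | rfl <;> omega
    · rcases hN with rfl | rfl <;> omega
    · rcases hN with rfl | rfl <;> omega
  · refine hPF ?_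
    rw [hP]
    refine ⟨i, N * (25 * (r : ℤ) + 26 + (-((r : ℤ) + 1))), ?_, ?_, fun _ => ?_, rfl⟩
    · rcases hN with rfl | rfl <;> omega
    · rcases hN with rfl | rfl <;> omega
    · rcases hN with rfl | rfl <;> omega
  · intro l
    refine hPF ?_
    rw [hP]
    refine ⟨l, 0 + ((r : ℤ) + 1), by omega, by omega, fun _ => ?_, rfl⟩
    rcases hN with rfl | rfl <;> omega
  · intro l
    refine hPF ?_
    rw [hP]
    refine ⟨l, 0 - ((r : ℤ) + 1), by omega, by omega, fun _ => ?_, rfl⟩
    rcases hN with rfl | rfl <;> omega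
  · intro l
    show 2 * r + 4 ≤ G.dist (a i (N * (25 * (r : ℤ) + 26 + 0))) (a l 0)
    rw [add_zero, ← hw]
    by_cases hl : l = i
    · subst hl
      rw [G.dist_comm]
      omega
    · have h1 := hwfar l (a l 0) hl
      rw [SimpleGraph.dist_self] at h1
      omega
  · intro y hy
    show r < G.dist (a i (N * (25 * (r : ℤ) + 26 + 0))) y
    rw [add_zero, ← hw]
    rw [hF] at hy
    rcases hy with hy | hy | hy | hy | hy
    · have h1 := hHbfar i y hy
      have h2 := hG.dist_triangle (u := a i 0) (v := w) (w := y)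
      omega
    · rw [hP] at hy
      obtain ⟨l, t, ht1, ht2, ht3, rfl⟩ := hy
      by_cases hl : l = i
      · subst hl
        have h3 := ht3 rfl
        rw [hw]
        rcases hN with rfl | rfl
        · rw [hd l _ _ (by omega) (by omega)]
          omega
        · rw [hd l _ _ (by omega) (by omega)]
          omega
      · have h1 := hwfar l (a l t) hl
        rw [hd l 0 t (by omega) ht2] at h1
        omega
    · exact hwnear y (hl1 y hy).2
    · by_contra hc
      have h1 := hball y (by omega)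
      exact hxH (hjn y x h1 (Jn.symm hy))
    · have h1 := (hl2 y hy).2
      by_cases hl : j = i
      · subst hl
        exact hwnear y h1
      · have h2 := hwfar j y hl
        omega
  · intro l y hy
    show r < G.dist (a l 0) y
    rw [hF] at hy
    rcases hy with hy | hy | hy | hy | hy
    · have h1 := hHbfar l y hy
      omega
    · rw [hP] at hy
      obtain ⟨l', t, ht1, ht2, ht3, rfl⟩ := hy
      by_cases hl : l = l'
      · subst hl
        rw [hd l 0 t (by omega) ht2]
        omega
      · have h1 := hfar l l' (a l' t) hl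
        rw [hd l' 0 t (by omega) ht2] at h1
        omega
    · have h1 := hl1 y hy
      by_cases hl : l = i
      · subst hl
        omega
      · have h2 := hfar l i y hl
        omega
    · have h1 := (Jn.right hy) l
      omega
    · have h1 := hl2 y hy
      by_cases hl : l = j
      · subst hl
        omega
      · have h2 := hfar l j y hl
        omega

end Pool.Agent.Lib.MPbafc89.BQ
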