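import Pool.Agent.Lib.MP_bafc89_co.BQ.Spec

/-! MP_bafc89_co, module NOL: the cut open graph has no fat loop (helper61). -/

set_option autoImplicit false

namespace Pool.Agent.Lib.MPbafc89.BQ

open SimpleGraph

universe u

/-- **NOL**. -/
theorem specNOL (hZCO : SpecZCO.{u}) (hPIG : SpecPIG.{u}) (hTRF : SpecTRF.{u})
    (hRHH : SpecRHH.{u}) (hRCC : SpecRCC.{u}) : SpecNOL.{u} := by
  intro V G r k a Hb hS α F hL
  have hcard : Nat.card (Fin k × Bool) = 2 * k := by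
    rw [Nat.card_eq_fintype_card, Fintype.card_prod, Fintype.card_fin, Fintype.card_bool,
      Nat.mul_comm]
  have h0 : Nat.card (Fin k × Bool) * (2 * S1 r k + 1) + S1 r k ≤ S0 r k := by
    rw [hcard, S0]
    nlinarith [Nat.zero_le (S1 r k)]
  obtain ⟨a', F', hL', hfar⟩ := hPIG _ (ZZ G r a Hb) (hZCO V G r k a Hb hS) (Fin k × Bool)
    Sum.inr (S0 r k) (S1 r k) h0 α F hL
  obtain ⟨b, F2, hb, hbU, hF2, hball⟩ := hTRF V G r k a Hb hS (S1 r k) (S2 r k) le_rfl a' F' hL'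
    hfar
  have h1 : S2 r k + 2 * r + 4 ≤ S1 r k := by
    rw [S1]
    omega
  by_cases hH : b 0 ∈ HH G r a Hb
  · exact hRHH V G r k a Hb hS (S1 r k) (S2 r k) le_rfl h1 b F2 hb hH hF2 hball
  · have h2 : 5 * r + 2 ≤ S2 r k := by
      rw [S2]
      nlinarith [Nat.zero_le (k * r), Nat.zero_le k]
    exact hRCC V G r k a Hb hS (S1 r k) (S2 r k) h2 h1 b F2 hb hH hF2 hball

end Pool.Agent.Lib.MPbafc89.BQ
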