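import Pool.Agent.Lib.MP_bafc89_co.BQ.Spec

/-!
# Module PHI: the map used to transfer connected sets from `ZZ` to `G`
-/

set_option autoImplicit false

namespace Pool.Agent.Lib.MPbafc89.BQ

open SimpleGraph

universe u

namespace PHIM

variable {V : Type u} {G : SimpleGraph V}

/-- the ball -/
def Bl (G : SimpleGraph V) (w : V) (n : ℕ) : Set V := {z | G.dist w z ≤ n}

theorem mem_Bl {w z : V} {n : ℕ} : z ∈ Bl G w n ↔ G.dist w z ≤ n := Iff.rfl

theorem self_mem {w : V} {n : ℕ} : w ∈ Bl G w n := by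
  rw [mem_Bl]; simp

theorem Bl_mono {w : V} {n m : ℕ} (h : n ≤ m) : Bl G w n ⊆ Bl G w m := fun _ hz =>
  le_trans hz h

end PHIM

open PHIM

theorem specPHI (hHFA : SpecHFA.{u}) (hSTR : SpecSTR.{u}) : SpecPHI.{u} := by
  classical
  intro V G r k a Hb hS x1 hx1
  have hconn := hS.conn
  obtain ⟨f1, f2, f3, f4, f5, f6, f7, f8⟩ := hHFA V G r k a Hb hS
  obtain ⟨s1, s2⟩ := hSTR V G r k a Hb hS
  by_cases hx : x1 ∈ HH G r a Hb
  · choose J hJ using fun (x : ↥(UU G r a)) (hx : (x : V) ∉ HH G r a Hb) => f6 x x.2 hx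
    have hJu : ∀ (x : ↥(UU G r a)) (hx : (x : V) ∉ HH G r a Hb) (j : Fin k) (y : V),
        y ∈ bd G r a j → Jn G (UU G r a) (x : V) y → J x hx = j := by
      intro x hx j y hy hxy
      obtain ⟨y', hy', hxy'⟩ := hJ x hx
      have hy'H : y' ∉ HH G r a Hb := fun h => hx (f4 y' x h hxy'.symm)
      exact (s2 (J x hx) j y' hy' y hy (hxy'.symm.trans hxy) hy'H).1
    let pp : Fin k → Bool → V := fun j b =>
      if b = true then a j (20 * (r : ℤ) + 21) else a j (-(20 * (r : ℤ) + 21))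
    have hpp : ∀ j b, pp j b ∈ bd G r a j := by
      intro j b
      cases b
      · exact (f8 j).2
      · exact (f8 j).1
    let Φ : ↥(UU G r a) ⊕ (Fin k × Bool) → Set V := fun y =>
      match y with
      | .inl x => if hx : (x : V) ∈ HH G r a Hb then {(x : V)} else Bl G (pp (J x hx) true) (6 * r + 5)
      | .inr c => Bl G (pp c.1 c.2) (6 * r + 5)
    have e1 : ∀ x : ↥(UU G r a), (x : V) ∈ HH G r a Hb → Φ (.inl x) = {(x : V)} := by
      intro x hx
      show (if hx : (x : V) ∈ HH G r a Hb then {(x : V)} else _) = _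
      rw [dif_pos hx]
    have e2 : ∀ (x : ↥(UU G r a)) (hx : (x : V) ∉ HH G r a Hb),
        Φ (.inl x) = Bl G (pp (J x hx) true) (6 * r + 5) := by
      intro x hx
      show (if hx : (x : V) ∈ HH G r a Hb then {(x : V)} else Bl G (pp (J x hx) true) (6 * r + 5)) = _
      rw [dif_neg hx]
    have e3 : ∀ c : Fin k × Bool, Φ (.inr c) = Bl G (pp c.1 c.2) (6 * r + 5) := fun c => rfl
    -- the mixed pairs
    have mixed : ∀ (x : ↥(UU G r a)) (c : Fin k × Bool), Att G r a Hb c (x : V) →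
        ∃ z, z ∈ Φ (.inl x) ∧ z ∈ Φ (.inr c) := by
      rintro x ⟨j, b⟩ ⟨hb, hatt⟩
      simp only at hb hatt
      by_cases hxH : (x : V) ∈ HH G r a Hb
      · refine ⟨x, ?_, ?_⟩
        · rw [e1 x hxH]; rfl
        · rw [e3, mem_Bl]
          cases b
          · exact (hatt.1 rfl).2
          · show G.dist (a j (20 * (r : ℤ) + 21)) x ≤ _
            rcases s1 j x hb hxH with h | h
            · exact h
            · exact absurd (hatt.2 ⟨hxH, h⟩) (by simp)
      · have hb1 : b = true := by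
          cases b
          · exact absurd (hatt.1 rfl).1 hxH
          · rfl
        subst hb1
        have hJx : J x hxH = j := hJu x hxH j x hb (Jn.refl x.2)
        refine ⟨pp j true, ?_, ?_⟩
        · rw [e2 x hxH, hJx]; exact self_mem
        · rw [e3]; exact self_mem
    refine ⟨Φ, ?_, ?_, ?_, ?_⟩
    · rintro (x | c)
      · by_cases hxH : (x : V) ∈ HH G r a Hb
        · rw [e1 x hxH]; exact Cn.singleton _
        · rw [e2 x hxH]; exact ball_cn hconn _ _
      · rw [e3]; exact ball_cn hconn _ _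
    · rintro (x | c) (x' | c') h
      · have h' : G.Adj (x : V) (x' : V) := h
        by_cases hxH : (x : V) ∈ HH G r a Hb
        · have hx'H : (x' : V) ∈ HH G r a Hb := f4 x x' hxH (Jn.adj x.2 x'.2 h')
          rw [e1 x hxH, e1 x' hx'H]
          exact ⟨x, rfl, x', rfl, Or.inr h'⟩
        · have hx'H : (x' : V) ∉ HH G r a Hb := fun hh =>
            hxH (f4 x' x hh (Jn.adj x'.2 x.2 h'.symm))
          obtain ⟨y, hy, hx'y⟩ := hJ x' hx'H
          have hJe : J x hxH = J x' hx'H :=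
            hJu x hxH _ y hy ((Jn.adj x.2 x'.2 h').trans hx'y)
          rw [e2 x hxH, e2 x' hx'H, hJe]
          exact ⟨_, self_mem, _, self_mem, Or.inl rfl⟩
      · obtain ⟨z, hz1, hz2⟩ := mixed x c' h
        exact ⟨z, hz1, z, hz2, Or.inl rfl⟩
      · obtain ⟨z, hz1, hz2⟩ := mixed x' c h
        exact ⟨z, hz2, z, hz1, Or.inl rfl⟩
      · exact absurd h (fun hh => hh)
    · rintro (x | c)
      · by_cases hxH : (x : V) ∈ HH G r a Hb
        · exact Or.inl ⟨x, rfl, e1 x hxH⟩
        · refine Or.inr ⟨J x hxH, _, hpp (J x hxH) true, ?_⟩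
          rw [e2 x hxH]
          exact Bl_mono (by omega)
      · refine Or.inr ⟨c.1, _, hpp c.1 c.2, ?_⟩
        rw [e3]
        exact Bl_mono (by omega)
    · intro x hx1x
      exact e1 x (f4 x1 x hx hx1x)
  · obtain ⟨j0, x0, hx0, hx10⟩ := f6 x1 hx1 hx
    have hx0H : x0 ∉ HH G r a Hb := fun h => hx (f4 x0 x1 h hx10.symm)
    let Φ : ↥(UU G r a) ⊕ (Fin k × Bool) → Set V := fun y =>
      match y with
      | .inl x => if Jn G (UU G r a) x1 (x : V) then {(x : V)} else Bl G x0 (12 * r + 10)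
      | .inr _ => Bl G x0 (12 * r + 10)
    have e1 : ∀ x : ↥(UU G r a), Jn G (UU G r a) x1 (x : V) → Φ (.inl x) = {(x : V)} := by
      intro x hx
      show (if Jn G (UU G r a) x1 (x : V) then {(x : V)} else _) = _
      rw [if_pos hx]
    have e2 : ∀ x : ↥(UU G r a), ¬ Jn G (UU G r a) x1 (x : V) → Φ (.inl x) = Bl G x0 (12 * r + 10) := by
      intro x hx
      show (if Jn G (UU G r a) x1 (x : V) then {(x : V)} else Bl G x0 (12 * r + 10)) = _
      rw [if_neg hx]
    have e3 : ∀ c : Fin k × Bool, Φ (.inr c) = Bl G x0 (12 * r + 10) := fun c => rfl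
    have mixed : ∀ (x : ↥(UU G r a)) (c : Fin k × Bool), Att G r a Hb c (x : V) →
        ∃ z, z ∈ Φ (.inl x) ∧ z ∈ Φ (.inr c) := by
      rintro x ⟨j, b⟩ ⟨hb, -⟩
      simp only at hb
      by_cases hj : Jn G (UU G r a) x1 (x : V)
      · refine ⟨x, ?_, ?_⟩
        · rw [e1 x hj]; rfl
        · rw [e3 (j, b), mem_Bl]
          exact (s2 j0 j x0 hx0 x hb (hx10.symm.trans hj) hx0H).2
      · refine ⟨x0, ?_, ?_⟩
        · rw [e2 x hj]; exact self_mem
        · rw [e3 (j, b)]; exact self_mem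
    refine ⟨Φ, ?_, ?_, ?_, ?_⟩
    · rintro (x | c)
      · by_cases hj : Jn G (UU G r a) x1 (x : V)
        · rw [e1 x hj]; exact Cn.singleton _
        · rw [e2 x hj]; exact ball_cn hconn _ _
      · rw [e3 c]; exact ball_cn hconn _ _
    · rintro (x | c) (x' | c') h
      · have h' : G.Adj (x : V) (x' : V) := h
        by_cases hj : Jn G (UU G r a) x1 (x : V)
        · rw [e1 x hj, e1 x' (hj.trans (Jn.adj x.2 x'.2 h'))]
          exact ⟨x, rfl, x', rfl, Or.inr h'⟩
        · have hj' : ¬ Jn G (UU G r a) x1 (x' : V) := fun hh =>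
            hj (hh.trans (Jn.adj x'.2 x.2 h'.symm))
          rw [e2 x hj, e2 x' hj']
          exact ⟨_, self_mem, _, self_mem, Or.inl rfl⟩
      · obtain ⟨z, hz1, hz2⟩ := mixed x c' h
        exact ⟨z, hz1, z, hz2, Or.inl rfl⟩
      · obtain ⟨z, hz1, hz2⟩ := mixed x' c h
        exact ⟨z, hz2, z, hz1, Or.inl rfl⟩
      · exact absurd h (fun hh => hh)
    · rintro (x | c)
      · by_cases hj : Jn G (UU G r a) x1 (x : V)
        · exact Or.inl ⟨x, rfl, e1 x hj⟩
        · refine Or.inr ⟨j0, x0, hx0, ?_⟩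
          rw [e2 x hj]
          exact Bl_mono le_rfl
      · refine Or.inr ⟨j0, x0, hx0, ?_⟩
        rw [e3 c]
        exact Bl_mono le_rfl
    · intro x hx1x
      exact e1 x hx1x

end Pool.Agent.Lib.MPbafc89.BQ
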