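import Pool.Agent.Lib.MP_bafc89_co.BQ.Spec

/-!
# MP_bafc89_co, BQ, module PIG (helper53): a loop far from finitely many vertices
-/

set_option autoImplicit false

namespace Pool.Agent.Lib.MPbafc89.BQ

open SimpleGraph

universe u

theorem specPIG (hREC : SpecREC.{u}) : SpecPIG.{u} := by
  intro W Z hZ ι _ c s0 s1 hs a F hL
  by_contra hcon
  push Not at hcon
  have hpos : ∀ k : Fin (Nat.card ι + 1), ((k : ℕ) : ℤ).natAbs * (2 * s1 + 1) + s1 ≤ s0 := by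
    intro k
    have h1 : (k : ℕ) ≤ Nat.card ι := by omega
    have h2 : (k : ℕ) * (2 * s1 + 1) ≤ Nat.card ι * (2 * s1 + 1) := Nat.mul_le_mul_right _ h1
    rw [Int.natAbs_natCast]
    omega
  have hex : ∀ k : Fin (Nat.card ι + 1),
      ∃ i : ι, Z.dist (a (((k : ℕ) * (2 * s1 + 1) : ℕ) : ℤ)) (c i) ≤ s1 := by
    intro k
    have h1 : ((((k : ℕ) * (2 * s1 + 1) : ℕ) : ℤ)).natAbs + s1 ≤ s0 := by
      have := hpos k
      rw [Int.natAbs_natCast] at this ⊢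
      exact this
    obtain ⟨F', hF'⟩ := hREC W Z hZ s0 s1 _ h1 a F hL
    obtain ⟨i, hi⟩ := hcon _ F' hF'
    refine ⟨i, ?_⟩
    simpa using hi
  choose φ hφ using hex
  have hni : ¬ Function.Injective φ := by
    intro hinj
    have h1 := Nat.card_le_card_of_injective φ hinj
    rw [Nat.card_eq_fintype_card (α := Fin (Nat.card ι + 1)), Fintype.card_fin] at h1
    omega
  rw [Function.not_injective_iff] at hni
  obtain ⟨k, k', hkk, hne⟩ := hni
  have h1 := hφ k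
  have h2 := hφ k'
  rw [← hkk] at h2
  have h3 : Z.dist (a (((k : ℕ) * (2 * s1 + 1) : ℕ) : ℤ)) (a (((k' : ℕ) * (2 * s1 + 1) : ℕ) : ℤ)) ≤
      s1 + s1 := by
    refine (hZ.dist_triangle (v := c (φ k))).trans ?_
    rw [SimpleGraph.dist_comm (u := c (φ k))]
    exact Nat.add_le_add h1 h2
  have hb : ∀ j : Fin (Nat.card ι + 1), ((((j : ℕ) * (2 * s1 + 1) : ℕ) : ℤ)).natAbs ≤ s0 + 1 := by
    intro j
    have := hpos j
    rw [Int.natAbs_natCast] at this ⊢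
    omega
  have h4 := hL.geo _ _ (hb k) (hb k')
  rw [h4] at h3
  have hne' : (k : ℕ) ≠ (k' : ℕ) := fun h => hne (Fin.ext h)
  have h5 : 2 * s1 + 1 ≤ (((((k : ℕ) * (2 * s1 + 1) : ℕ) : ℤ)) - ((((k' : ℕ) * (2 * s1 + 1) : ℕ) : ℤ))).natAbs := by
    rcases Nat.lt_or_gt_of_ne hne' with h | h
    · have h6 : ((k : ℕ) + 1) * (2 * s1 + 1) ≤ (k' : ℕ) * (2 * s1 + 1) := Nat.mul_le_mul_right _ h
      rw [Nat.add_mul, Nat.one_mul] at h6
      omega
    · have h6 : ((k' : ℕ) + 1) * (2 * s1 + 1) ≤ (k : ℕ) * (2 * s1 + 1) := Nat.mul_le_mul_right _ h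
      rw [Nat.add_mul, Nat.one_mul] at h6
      omega
  omega

end Pool.Agent.Lib.MPbafc89.BQ
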