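import Pool.Agent.Lib.MP_bafc89_co.BQ.Spec

/-!
# PRI: the principle used for all contradictions
-/

set_option autoImplicit false

namespace Pool.Agent.Lib.MPbafc89.BQ

open SimpleGraph

universe u

theorem specPRI : SpecPRI.{u} := by
  intro V G r k a Hb hS lam b F hlam hb hF hb1 hb2 ha1 ha2 hsep hfb hfa
  have hgeo : ∀ l, Geod G (r + 1) (fun t => a l (lam l + t)) := fun l =>
    (hS.sys.geo l).shift (by have := hlam l; omega)
  refine hS.no (Fin.cons b (fun l t => a l (lam l + t))) F ?_
  refine ⟨?_, ?_, hF, ?_, ?_, ?_⟩
  · intro j
    refine Fin.cases ?_ (fun l => ?_) j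
    · rw [Fin.cons_zero]
      exact hb
    · rw [Fin.cons_succ]
      exact hgeo l
  · intro i j
    refine Fin.cases ?_ (fun i => ?_) i
    · refine Fin.cases ?_ (fun j => ?_) j
      · intro h
        exact absurd rfl h
      · intro _
        rw [Fin.cons_zero, Fin.cons_succ]
        have := hsep j
        simpa using this
    · refine Fin.cases ?_ (fun j => ?_) j
      · intro _
        rw [Fin.cons_zero, Fin.cons_succ, SimpleGraph.dist_comm]
        have := hsep i
        simpa using this
      · intro h
        have hij : i ≠ j := fun e => h (by rw [e])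
        rw [Fin.cons_succ, Fin.cons_succ]
        show 2 * r + 4 ≤ G.dist (a i (lam i + 0)) (a j (lam j + 0))
        rw [add_zero, add_zero]
        have h1 := hS.sys.sep i j hij
        have h2 := hS.conn.dist_triangle (u := a i 0) (v := a i (lam i)) (w := a j 0)
        have h3 := hS.conn.dist_triangle (u := a i (lam i)) (v := a j (lam j)) (w := a j 0)
        have li := hlam i
        have lj := hlam j
        have h4 := hS.sys.geo i 0 (lam i) (by simp) (by omega)
        have h5 := hS.sys.geo j (lam j) 0 (by omega) (by simp)
        omega
  · intro j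
    refine Fin.cases ?_ (fun l => ?_) j
    · rw [Fin.cons_zero]
      exact hb1
    · rw [Fin.cons_succ]
      exact ha1 l
  · intro j
    refine Fin.cases ?_ (fun l => ?_) j
    · rw [Fin.cons_zero]
      exact hb2
    · rw [Fin.cons_succ]
      have := ha2 l
      rwa [sub_eq_add_neg] at this
  · intro j
    refine Fin.cases ?_ (fun l => ?_) j
    · rw [Fin.cons_zero]
      exact hfb
    · rw [Fin.cons_succ]
      intro x hx
      have := hfa l x hx
      simpa using this

end Pool.Agent.Lib.MPbafc89.BQ
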