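import Pool.Agent.Lib.MP_bafc89_co.BQ.Spec3

/-!
# Module PRU (MP_bafc89_co, BQ): pruning (helper26)
-/

set_option autoImplicit false

namespace Pool.Agent.Lib.MPbafc89.BQ

open SimpleGraph

universe u v

namespace PRUM

lemma edist_map_le {A : Type u} {B : Type v} {K : SimpleGraph A} {H : SimpleGraph B} (φ : A → B)
    (h : ∀ a b, K.Adj a b → H.edist (φ a) (φ b) ≤ 1) (a b : A) :
    H.edist (φ a) (φ b) ≤ K.edist a b := by
  have key : ∀ (a b : A) (p : K.Walk a b), H.edist (φ a) (φ b) ≤ (p.length : ℕ∞) := by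
    intro a b p
    induction p with
    | nil => rw [SimpleGraph.edist_self]; exact bot_le
    | @cons a b c hab q ih =>
      refine SimpleGraph.edist_triangle.trans ((add_le_add (h a b hab) ih).trans ?_)
      rw [Walk.length_cons, add_comm]
      push_cast
      exact le_rfl
  by_cases hr : K.Reachable a b
  · obtain ⟨p, hp⟩ := hr.exists_walk_length_eq_edist
    rw [← hp]
    exact key a b p
  · rw [edist_eq_top_of_not_reachable hr]
    exact le_top

variable {W : Type u} {par : W → W} {Gd : Set W}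

open Classical in
/-- the retraction onto the good set -/
noncomputable def rho (par : W → W) (Gd : Set W) (h : ∀ P, ∃ n, par^[n] P ∈ Gd) (P : W) : W :=
  par^[Nat.find (h P)] P

lemma rho_mem (h : ∀ P, ∃ n, par^[n] P ∈ Gd) (P : W) : rho par Gd h P ∈ Gd := by
  classical
  have h1 := Nat.find_spec (h P)
  unfold rho
  convert h1

lemma rho_of_mem (h : ∀ P, ∃ n, par^[n] P ∈ Gd) {P : W} (hP : P ∈ Gd) : rho par Gd h P = P := by
  classical
  unfold rho
  rw [(Nat.find_eq_zero (h P)).2 hP]
  rfl

lemma rho_of_notMem (h : ∀ P, ∃ n, par^[n] P ∈ Gd) {P : W} (hP : P ∉ Gd) :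
    rho par Gd h P = rho par Gd h (par P) := by
  classical
  unfold rho
  obtain ⟨m, hm⟩ : ∃ m, Nat.find (h P) = m + 1 := by
    refine Nat.exists_eq_succ_of_ne_zero ?_
    intro h0
    exact hP ((Nat.find_eq_zero (h P)).1 h0)
  have h1 : Nat.find (h (par P)) = m := by
    refine le_antisymm ?_ ?_
    · refine Nat.find_min' _ ?_
      have h2 := Nat.find_spec (h P)
      rw [hm, Function.iterate_succ_apply] at h2
      exact h2
    · have h2 := Nat.find_spec (h (par P))
      rw [← Function.iterate_succ_apply] at h2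
      have h3 := Nat.find_min' (h P) h2
      omega
  rw [hm, h1, Function.iterate_succ_apply]

lemma rho_le {D : ℕ} (h : ∀ P, ∃ n, par^[n] P ∈ Gd) (hD : ∀ P, par^[D] P ∈ Gd) (P : W) :
    ∃ n ≤ D, rho par Gd h P = par^[n] P := by
  classical
  exact ⟨Nat.find (h P), Nat.find_min' _ (hD P), rfl⟩

end PRUM

open PRUM in
theorem specPRU : SpecPRU.{u} := by
  intro V W G G' Γ lev par root Gd D k p q f M A hT hroot hpr hpar hsub hadj hpq hrG hparG hD hQI
  have hex : ∀ P, ∃ n, par^[n] P ∈ Gd := fun P => ⟨D, hD P⟩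
  have hrho : ∀ P, rho par Gd hex P ∈ Gd := rho_mem hex
  have hstep : ∀ P, G'.edist P (par P) ≤ 1 := by
    intro P
    by_cases h : P = root
    · rw [h, hpr, SimpleGraph.edist_self]
      exact bot_le
    · rw [edist_eq_one_iff_adj.2 (hsub _ _ (hpar P h).1)]
  have hiter : ∀ (n : ℕ) (P : W), G'.edist P (par^[n] P) ≤ (n : ℕ∞) := by
    intro n
    induction n with
    | zero =>
      intro P
      rw [Function.iterate_zero, id, SimpleGraph.edist_self]
      exact bot_le
    | succ n ih =>
      intro P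
      rw [Function.iterate_succ_apply]
      refine SimpleGraph.edist_triangle.trans ((add_le_add (hstep P) (ih (par P))).trans ?_)
      push_cast
      rw [add_comm]
  have hdist : ∀ P, G'.edist P (rho par Gd hex P) ≤ (D : ℕ∞) := by
    intro P
    obtain ⟨n, hn, h⟩ := rho_le hex hD P
    rw [h]
    exact (hiter n P).trans (by exact_mod_cast hn)
  -- edges
  have hlow : ∀ P Q, Γ.Adj P Q → lev Q < lev P →
      rho par Gd hex P = rho par Gd hex Q ∨
        G'.Adj (rho par Gd hex P) (rho par Gd hex Q) := by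
    intro P Q hPQ hlev
    have hPr : P ≠ root := by
      rintro rfl
      omega
    obtain ⟨h1, h2⟩ := hpar P hPr
    have h3 : Q = par P := hT.uniq P Q (par P) hPQ h1 hlev (by omega)
    by_cases hP : P ∈ Gd
    · right
      rw [rho_of_mem hex hP, rho_of_mem hex (h3 ▸ hparG P hP : Q ∈ Gd)]
      exact hsub _ _ hPQ
    · left
      rw [rho_of_notMem hex hP, h3]
  have hedge : ∀ P Q, G'.Adj P Q → rho par Gd hex P = rho par Gd hex Q ∨
        G'.Adj (rho par Gd hex P) (rho par Gd hex Q) := by
    intro P Q hPQ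
    rcases hadj P Q hPQ with h | ⟨j, ⟨rfl, rfl⟩ | ⟨rfl, rfl⟩⟩
    · rcases lt_or_gt_of_ne (hT.ne P Q h) with hl | hl
      · rcases hlow Q P h.symm hl with h1 | h1
        · exact Or.inl h1.symm
        · exact Or.inr h1.symm
      · exact hlow P Q h hl
    · right
      rw [rho_of_mem hex (hpq j).1, rho_of_mem hex (hpq j).2]
      exact hPQ
    · right
      rw [rho_of_mem hex (hpq j).1, rho_of_mem hex (hpq j).2]
      exact hPQ
  let R : W → Gd := fun P => ⟨rho par Gd hex P, hrho P⟩
  have hlip : ∀ P Q, (G'.induce Gd).edist (R P) (R Q) ≤ G'.edist P Q := by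
    refine edist_map_le R ?_
    intro P Q hPQ
    rcases hedge P Q hPQ with h | h
    · have : R P = R Q := Subtype.ext h
      rw [this, SimpleGraph.edist_self]
      exact bot_le
    · have h1 : (G'.induce Gd).Adj (R P) (R Q) := by simpa [R] using h
      rw [edist_eq_one_iff_adj.2 h1]
  have hinc : ∀ P Q : Gd, G'.edist (P : W) Q ≤ (G'.induce Gd).edist P Q := by
    refine edist_map_le (Subtype.val : Gd → W) ?_
    intro P Q hPQ
    have h1 : G'.Adj (P : W) Q := by simpa using hPQ
    rw [edist_eq_one_iff_adj.2 h1]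
  refine ⟨fun x => R (f x), ⟨?_, ?_, ?_⟩⟩
  · intro x y
    refine (hQI.low x y).trans ?_
    have h1 : G'.edist (f x) (f y) ≤
        (D : ℕ∞) + ((G'.induce Gd).edist (R (f x)) (R (f y)) + (D : ℕ∞)) := by
      refine (SimpleGraph.edist_triangle (v := ((R (f x) : Gd) : W))).trans
        (add_le_add (hdist (f x)) ?_)
      refine (SimpleGraph.edist_triangle (v := ((R (f y) : Gd) : W))).trans
        (add_le_add (hinc _ _) ?_)
      rw [SimpleGraph.edist_comm]
      exact hdist (f y)
    refine (add_le_add_left (mul_le_mul_right h1 (M : ℕ∞)) _).trans (le_of_eq ?_)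
    push_cast
    ring
  · intro x y
    refine (hlip _ _).trans ((hQI.upp x y).trans ?_)
    refine add_le_add le_rfl ?_
    push_cast
    exact le_add_self
  · intro y
    obtain ⟨x, hx⟩ := hQI.cov (y : W)
    refine ⟨x, ?_⟩
    have h1 := hlip (f x) (y : W)
    have h2 : R (y : W) = y := Subtype.ext (rho_of_mem hex y.2)
    rw [h2] at h1
    refine (h1.trans hx).trans ?_
    push_cast
    exact le_add_self

end Pool.Agent.Lib.MPbafc89.BQ
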