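import Pool.Agent.Lib.MP_bafc89_co.BQ.Spec3
import Pool.Agent.Lib.MP_bafc89_co.BQ.QIG

/-!
# MP_bafc89_co, module QG2: `G` is quasi-isometric to a given layering tree plus `k` edges
-/

set_option autoImplicit false

namespace Pool.Agent.Lib.MPbafc89.BQ

open SimpleGraph

universe u

open QIGM

theorem specQG2 (hHFA : SpecHFA.{u}) (hZCO : SpecZCO.{u}) (hCLD : SpecCLD.{u})
    (hQIW : SpecQIW.{u}) : SpecQG2.{u} := by
  have _unused := hHFA
  intro V G r k a Hb hS s hloop o T Γ φ hsurj hker hadj
  have hG : G.Connected := hS.conn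
  have hZ : (ZZ G r a Hb).Connected := hZCO V G r k a Hb hS
  have hcl : ∀ z z', φ z = φ z' → (ZZ G r a Hb).dist z z' ≤ 6 * s + 1 := by
    intro z z' h
    obtain ⟨h1, h2⟩ := (hker z z').mp h
    exact hCLD _ (ZZ G r a Hb) hZ s hloop o z z' h1 h2
  choose zh hz1 hz2 using exists_zh G r a
  choose rp hrp using hsurj
  -- uniqueness of the index
  have huniq : ∀ (i j : Fin k) (x y : V), G.dist (a i 0) x ≤ 20 * r + 20 →
      G.dist (a j 0) y ≤ 20 * r + 20 → G.dist x y ≤ 1 → i = j := by
    intro i j x y hi hj hxy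
    by_contra hne
    have h1 := hS.sys.sep i j hne
    have h2 := hG.dist_triangle (u := a i 0) (v := x) (w := a j 0)
    have h3 := hG.dist_triangle (u := x) (v := y) (w := a j 0)
    have h4 : G.dist y (a j 0) = G.dist (a j 0) y := SimpleGraph.dist_comm
    omega
  have hpq : ∀ j : Fin k, (Gp Γ (fun j => φ (Sum.inr (j, true))) (fun j => φ (Sum.inr (j, false)))).edist
      (φ (Sum.inr (j, true))) (φ (Sum.inr (j, false))) ≤ 1 := by
    intro j
    by_cases he : φ (Sum.inr (j, true)) = φ (Sum.inr (j, false))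
    · rw [he, SimpleGraph.edist_self]; exact zero_le
    · have h1 : (Gp Γ (fun j => φ (Sum.inr (j, true))) (fun j => φ (Sum.inr (j, false)))).Adj
          (φ (Sum.inr (j, true))) (φ (Sum.inr (j, false))) :=
        Or.inr ⟨he, j, Or.inl ⟨rfl, rfl⟩⟩
      exact (edist_eq_one_iff_adj.mpr h1).le
  have hAdj1 : ∀ z z', (ZZ G r a Hb).Adj z z' →
      (Gp Γ (fun j => φ (Sum.inr (j, true))) (fun j => φ (Sum.inr (j, false)))).edist
      (φ z) (φ z') ≤ 1 := by
    intro z z' h
    by_cases he : φ z = φ z'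
    · rw [he, SimpleGraph.edist_self]; exact zero_le
    · have h1 : (Gp Γ (fun j => φ (Sum.inr (j, true))) (fun j => φ (Sum.inr (j, false)))).Adj
          (φ z) (φ z') := Or.inl ((hadj _ _).mpr ⟨he, z, z', rfl, rfl, h⟩)
      exact (edist_eq_one_iff_adj.mpr h1).le
  -- the mixed case
  have hmix : ∀ x y, G.Adj x y → x ∉ UU G r a → y ∈ UU G r a →
      (Gp Γ (fun j => φ (Sum.inr (j, true))) (fun j => φ (Sum.inr (j, false)))).edist
      (φ (zh x)) (φ (zh y)) ≤ 2 := by
    intro x y hxy hx hy
    obtain ⟨j, hj1, hj2⟩ := hz2 x hx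
    have hd : G.dist x y = 1 := dist_eq_one_iff_adj.mpr hxy
    have h2 := hG.dist_triangle (u := a j 0) (v := x) (w := y)
    have h3 : 20 * r + 20 < G.dist (a j 0) y := hy j
    have hb : y ∈ bd G r a j := ⟨hy, by omega⟩
    obtain ⟨b, hb1⟩ := att_exists (Hb := Hb) hb
    have h4 : (ZZ G r a Hb).Adj (Sum.inr (j, b)) (Sum.inl ⟨y, hy⟩) := hb1
    have h5 := hAdj1 _ _ h4
    rw [hj1, hz1 y hy]
    cases b
    · refine (SimpleGraph.edist_triangle (v := φ (Sum.inr (j, false)))).trans ?_
      have h6 := add_le_add (hpq j) h5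
      refine h6.trans ?_
      norm_num
    · refine h5.trans ?_
      norm_num
  refine ⟨Gp Γ (fun j => φ (Sum.inr (j, true))) (fun j => φ (Sum.inr (j, false))),
    fun x => φ (zh x), ?_, fun P Q h => Or.inl h, ?_⟩
  · have hq := hQIW V T G (Gp Γ (fun j => φ (Sum.inr (j, true))) (fun j => φ (Sum.inr (j, false))))
      (fun x => φ (zh x)) (fun P => hh G r a (rp P)) ((20 * r + 21) * (12 * s + 3))
      ((20 * r + 21) * (6 * s + 2)) ?_ ?_ ?_ ?_ ?_
    · refine QI_mono hq ?_ ?_
      · unfold Kc
        exact Nat.mul_le_mul_left _ (by omega)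
      · unfold Kc
        apply le_of_eq
        ring
    · -- 1 ≤ M
      have h1 : 1 * 1 ≤ (20 * r + 21) * (12 * s + 3) := Nat.mul_le_mul (by omega) (by omega)
      simpa using h1
    · -- (i)
      have hM2 : (2 : ℕ∞) ≤ (((20 * r + 21) * (12 * s + 3) : ℕ) : ℕ∞) := by
        have h1 : 1 * 2 ≤ (20 * r + 21) * (12 * s + 3) := Nat.mul_le_mul (by omega) (by omega)
        have h2 : 2 ≤ (20 * r + 21) * (12 * s + 3) := by simpa using h1
        exact_mod_cast h2
      intro x y hxy
      refine le_trans ?_ hM2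
      by_cases hx : x ∈ UU G r a <;> by_cases hy : y ∈ UU G r a
      · show (Gp Γ _ _).edist (φ (zh x)) (φ (zh y)) ≤ 2
        rw [hz1 x hx, hz1 y hy]
        have h4 : (ZZ G r a Hb).Adj (Sum.inl ⟨x, hx⟩) (Sum.inl ⟨y, hy⟩) := hxy
        refine (hAdj1 _ _ h4).trans ?_
        norm_num
      · show (Gp Γ _ _).edist (φ (zh x)) (φ (zh y)) ≤ 2
        rw [SimpleGraph.edist_comm]
        exact hmix y x hxy.symm hy hx
      · exact hmix x y hxy hx hy
      · obtain ⟨j, hj1, hj2⟩ := hz2 x hx
        obtain ⟨i, hi1, hi2⟩ := hz2 y hy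
        have hd : G.dist x y = 1 := dist_eq_one_iff_adj.mpr hxy
        have hji : j = i := huniq j i x y hj2 hi2 hd.le
        show (Gp Γ _ _).edist (φ (zh x)) (φ (zh y)) ≤ 2
        rw [hj1, hi1, hji, SimpleGraph.edist_self]
        exact zero_le
    · -- (ii)
      intro P Q hPQ
      rw [← (hG.preconnected _ _).coe_dist_eq_edist]
      have hgoal : G.dist (hh G r a (rp P)) (hh G r a (rp Q)) ≤ (20 * r + 21) * (12 * s + 3) := by
        rcases hPQ with hΓ | ⟨hne, j, hj⟩
        · obtain ⟨_, x, y, hx, hy, hxy⟩ := (hadj P Q).mp hΓ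
          have h1 : (ZZ G r a Hb).dist (rp P) x ≤ 6 * s + 1 := hcl _ _ (by rw [hrp, hx])
          have h2 : (ZZ G r a Hb).dist y (rp Q) ≤ 6 * s + 1 := hcl _ _ (by rw [hrp, hy])
          have h3 : (ZZ G r a Hb).dist x y = 1 := dist_eq_one_iff_adj.mpr hxy
          have h4 := hZ.dist_triangle (u := rp P) (v := x) (w := rp Q)
          have h5 := hZ.dist_triangle (u := x) (v := y) (w := rp Q)
          refine (hh_dist hG hZ _ _).trans (Nat.mul_le_mul_left _ ?_)
          omega
        · have key : ∀ b : Bool, ∀ R : T, R = φ (Sum.inr (j, b)) →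
              G.dist (hh G r a (rp R)) (a j 0) ≤ (20 * r + 21) * (6 * s + 1) := by
            intro b R hR
            have h1 : (ZZ G r a Hb).dist (rp R) (Sum.inr (j, b)) ≤ 6 * s + 1 :=
              hcl _ _ (by rw [hrp, hR])
            exact (hh_dist hG hZ (rp R) (Sum.inr (j, b))).trans (Nat.mul_le_mul_left _ h1)
          have h2 := hG.dist_triangle (u := hh G r a (rp P)) (v := a j 0) (w := hh G r a (rp Q))
          have h3 : G.dist (a j 0) (hh G r a (rp Q)) = G.dist (hh G r a (rp Q)) (a j 0) :=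
            SimpleGraph.dist_comm
          have h4 : (20 * r + 21) * (6 * s + 1) + (20 * r + 21) * (6 * s + 1) ≤
              (20 * r + 21) * (12 * s + 3) := by
            rw [← Nat.mul_add]
            exact Nat.mul_le_mul_left _ (by omega)
          rcases hj with ⟨hP, hQ⟩ | ⟨hP, hQ⟩
          · have h5 := key true P hP
            have h6 := key false Q hQ
            omega
          · have h5 := key false P hP
            have h6 := key true Q hQ
            omega
      exact_mod_cast hgoal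
    · -- (iii)
      intro x
      rw [← (hG.preconnected _ _).coe_dist_eq_edist]
      have hgoal : G.dist x (hh G r a (rp (φ (zh x)))) ≤ (20 * r + 21) * (6 * s + 2) := by
        have h1 : G.dist x (hh G r a (zh x)) ≤ 20 * r + 20 := by
          by_cases hx : x ∈ UU G r a
          · rw [hz1 x hx]
            show G.dist x x ≤ _
            rw [SimpleGraph.dist_self]; omega
          · obtain ⟨j, hj1, hj2⟩ := hz2 x hx
            rw [hj1]
            show G.dist x (a j 0) ≤ _
            rw [SimpleGraph.dist_comm]; exact hj2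
        have h2 : (ZZ G r a Hb).dist (zh x) (rp (φ (zh x))) ≤ 6 * s + 1 := hcl _ _ (by rw [hrp])
        have h3 := (hh_dist hG hZ (zh x) (rp (φ (zh x)))).trans (Nat.mul_le_mul_left _ h2)
        have h4 := hG.dist_triangle (u := x) (v := hh G r a (zh x))
          (w := hh G r a (rp (φ (zh x))))
        have h5 : (20 * r + 21) * (6 * s + 2) = (20 * r + 21) * (6 * s + 1) + (20 * r + 21) := by
          ring
        omega
      exact_mod_cast hgoal
    · -- (iv)
      intro P
      have hA1 : (1 : ℕ∞) ≤ (((20 * r + 21) * (6 * s + 2) : ℕ) : ℕ∞) := by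
        have h1 : 1 * 1 ≤ (20 * r + 21) * (6 * s + 2) := Nat.mul_le_mul (by omega) (by omega)
        have h2 : 1 ≤ (20 * r + 21) * (6 * s + 2) := by simpa using h1
        exact_mod_cast h2
      have hP := hrp P
      rcases hz : rp P with x | ⟨j, b⟩
      · refine ⟨(x : V), ?_⟩
        show (Gp Γ _ _).edist (φ (zh (x : V))) P ≤ _
        have h1 : zh (x : V) = Sum.inl x := hz1 (x : V) x.2
        rw [h1, ← hz, hP, SimpleGraph.edist_self]
        exact zero_le
      · have h0 : a j 0 ∉ UU G r a := by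
          intro h
          have h1 : 20 * r + 20 < G.dist (a j 0) (a j 0) := h j
          rw [SimpleGraph.dist_self] at h1
          omega
        obtain ⟨i, hi1, hi2⟩ := hz2 (a j 0) h0
        have hij : i = j := huniq i j (a j 0) (a j 0) hi2 (by rw [SimpleGraph.dist_self]; omega)
          (by rw [SimpleGraph.dist_self]; omega)
        refine ⟨a j 0, le_trans ?_ hA1⟩
        show (Gp Γ _ _).edist (φ (zh (a j 0))) P ≤ _
        rw [hi1, hij, ← hP, hz]
        cases b
        · exact hpq j
        · rw [SimpleGraph.edist_self]; exact zero_le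
  · rintro P Q (h | ⟨_, j, h⟩)
    · exact Or.inl h
    · exact Or.inr ⟨j, h⟩

end Pool.Agent.Lib.MPbafc89.BQ
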