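import Pool.Agent.Lib.MP_bafc89_co.BQ.Spec

/-!
# QIW: criterion for a quasi-isometry (MP_bafc89_co)
-/

set_option autoImplicit false

namespace Pool.Agent.Lib.MPbafc89.BQ

open SimpleGraph

universe u v

namespace QIWM

theorem walk_le {V : Type u} {W : Type v} {G : SimpleGraph V} {G' : SimpleGraph W} (f : V → W)
    (M : ℕ) (h : ∀ x y, G.Adj x y → G'.edist (f x) (f y) ≤ (M : ℕ∞)) {x y : V}
    (w : G.Walk x y) : G'.edist (f x) (f y) ≤ (M : ℕ∞) * (w.length : ℕ∞) := by
  induction w with
  | nil => simp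
  | @cons a b c hab p ih =>
    calc G'.edist (f a) (f c) ≤ G'.edist (f a) (f b) + G'.edist (f b) (f c) :=
          SimpleGraph.edist_triangle
      _ ≤ (M : ℕ∞) + (M : ℕ∞) * (p.length : ℕ∞) := add_le_add (h a b hab) ih
      _ = (M : ℕ∞) * ((Walk.cons hab p).length : ℕ∞) := by
          rw [Walk.length_cons]
          push_cast
          ring

theorem edist_le {V : Type u} {W : Type v} {G : SimpleGraph V} {G' : SimpleGraph W} (f : V → W)
    (M : ℕ) (hM : 1 ≤ M) (h : ∀ x y, G.Adj x y → G'.edist (f x) (f y) ≤ (M : ℕ∞)) (x y : V) :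
    G'.edist (f x) (f y) ≤ (M : ℕ∞) * G.edist x y := by
  by_cases hr : G.edist x y = ⊤
  · rw [hr, ENat.mul_top (by
      intro h0
      have : M = 0 := by exact_mod_cast h0
      omega)]
    exact le_top
  · obtain ⟨w, hw⟩ := exists_walk_of_edist_ne_top hr
    rw [← hw]
    exact walk_le f M h w

end QIWM

theorem specQIW : SpecQIW.{u} := by
  intro V W G G' f rep M A hM h1 h2 h3 h4
  constructor
  · intro x y
    have h5 := QIWM.edist_le rep M hM h2 (f x) (f y)
    calc G.edist x y ≤ G.edist x (rep (f x)) + G.edist (rep (f x)) y :=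
          SimpleGraph.edist_triangle
      _ ≤ G.edist x (rep (f x)) + (G.edist (rep (f x)) (rep (f y)) + G.edist (rep (f y)) y) := by
          gcongr
          exact SimpleGraph.edist_triangle
      _ ≤ (A : ℕ∞) + ((M : ℕ∞) * G'.edist (f x) (f y) + (A : ℕ∞)) := by
          refine add_le_add (h3 x) (add_le_add h5 ?_)
          rw [SimpleGraph.edist_comm]
          exact h3 y
      _ = _ := by push_cast; ring
  · intro x y
    exact (QIWM.edist_le f M hM h1 x y).trans le_self_add
  · intro P
    obtain ⟨x, hx⟩ := h4 P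
    refine ⟨x, hx.trans ?_⟩
    exact_mod_cast (by omega : A ≤ 2 * A)

end Pool.Agent.Lib.MPbafc89.BQ
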