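import Pool.Agent.Lib.MP_bafc89_co.BQ.Spec

/-!
# Module RCC: relocation when the loop is in another component
-/

set_option autoImplicit false

namespace Pool.Agent.Lib.MPbafc89.BQ

open SimpleGraph

universe u v

theorem specRCC (hHFA : SpecHFA.{u}) (hPRI : SpecPRI.{u}) (hKHB : SpecKHB.{u}) : SpecRCC.{u} := by
  intro V G r k a Hb hS s1 s2 hs2 hs1 b F2 hL hb0 hF2 hU
  obtain ⟨h1, h2, h3, h4, -, -, -, -⟩ := hHFA V G r k a Hb hS
  have hconn := hS.conn
  have hr := hS.one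
  have tri : ∀ x y z : V, G.dist x z ≤ G.dist x y + G.dist y z := fun x y z => hconn.dist_triangle
  have sym : ∀ x y : V, G.dist x y = G.dist y x := fun x y => SimpleGraph.dist_comm
  have hgb : Geod G (s2 + 1) b := hL.geo
  have hb0t : ∀ t : ℤ, t.natAbs ≤ s2 + 1 → G.dist (b 0) (b t) = t.natAbs := by
    intro t ht
    rw [hgb 0 t (by simp) ht]
    omega
  have hbU : ∀ t : ℤ, t.natAbs ≤ s2 + 1 → b t ∈ UU G r a := by
    intro t ht
    exact (hU (b t) (by rw [hb0t t ht]; omega)).right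
  have hga : ∀ l, Geod G (30 * r + 30 + 1) (a l) := hS.sys.geo
  have ha0t : ∀ (l : Fin k) (t : ℤ), t.natAbs ≤ 30 * r + 31 → G.dist (a l 0) (a l t) = t.natAbs := by
    intro l t ht
    rw [hga l 0 t (by simp) (by omega)]
    omega
  -- the set K
  set K : Set V := {q | q ∈ HH G r a Hb ∨ ∃ (l : Fin k) (t : ℤ), t.natAbs ≤ 20 * r + 21 ∧ a l t = q}
    with hK
  obtain ⟨h0, hh0⟩ := hS.sys.cn.1
  have hex : ∃ n : ℕ, ∃ t0 : ℤ, t0.natAbs ≤ s2 + 1 ∧ ∃ q0 ∈ K, G.dist (b t0) q0 = n :=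
    ⟨_, 0, by simp, h0, Or.inl (h2 hh0), rfl⟩
  obtain ⟨n, ⟨t0, ht0, q0, hq0, hn⟩, hmin⟩ : ∃ n : ℕ, (∃ t0 : ℤ, t0.natAbs ≤ s2 + 1 ∧ ∃ q0 ∈ K,
      G.dist (b t0) q0 = n) ∧ ∀ (t : ℤ) (q : V), t.natAbs ≤ s2 + 1 → q ∈ K → n ≤ G.dist (b t) q := by
    classical
    refine ⟨Nat.find hex, Nat.find_spec hex, fun t q ht hq => ?_⟩
    exact Nat.find_min' hex ⟨t, ht, q, hq, rfl⟩
  obtain ⟨g, hg0, hgn, hg⟩ := exists_geo hconn (b t0) q0
  rw [hn] at hgn hg
  -- the position t'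
  obtain ⟨t', ht'0, ht'1, ht'2⟩ : ∃ t' : ℤ, 0 ≤ t' ∧ t' ≤ 4 * r + 1 ∧ 2 * r < (t' - t0).natAbs := by
    by_cases h : 2 * r < t0.natAbs
    · exact ⟨0, le_rfl, by omega, by omega⟩
    · exact ⟨4 * r + 1, by omega, le_rfl, by omega⟩
  -- the positions lam
  have hlamex : ∀ l : Fin k, ∃ c : ℤ, c.natAbs ≤ 4 * r + 1 ∧ 2 * r < G.dist q0 (a l c) := by
    intro l
    by_cases h : 2 * r < G.dist q0 (a l 0)
    · exact ⟨0, by simp, h⟩
    · refine ⟨4 * r + 1, by omega, ?_⟩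
      have e1 := ha0t l (4 * r + 1) (by omega)
      have e2 := tri (a l 0) q0 (a l (4 * r + 1))
      have e3 := sym (a l 0) q0
      have e4 : (4 * (r : ℤ) + 1).natAbs = 4 * r + 1 := by omega
      omega
  choose lam hlam1 hlam2 using hlamex
  obtain ⟨k1, k2, k3⟩ := hKHB V G r k a Hb hS lam (fun l => by have := hlam1 l; omega)
  -- the geodesic avoids the balls
  have hgA : ∀ s : ℕ, s ≤ n → r < G.dist (b t') (g s) := by
    intro s hs
    by_contra hcon
    have e1 := hmin t' q0 (by omega) hq0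
    have e2 := tri (b t') (g s) q0
    have e3 : G.dist (g s) q0 = n - s := by rw [← hgn]; exact hg s n hs le_rfl
    have e4 : G.dist (g 0) (g s) = s - 0 := hg 0 s (Nat.zero_le _) hs
    rw [hg0] at e4
    have e5 := tri (b t') (g s) (b t0)
    have e6 := sym (g s) (b t0)
    have e7 : G.dist (b t') (b t0) = (t' - t0).natAbs := hgb t' t0 (by omega) ht0
    omega
  have hgB : ∀ (l : Fin k) (s : ℕ), s ≤ n → r < G.dist (a l (lam l)) (g s) := by
    intro l s hs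
    by_contra hcon
    have hK1 : a l (lam l) ∈ K := Or.inr ⟨l, lam l, by have := hlam1 l; omega, rfl⟩
    have e1 := hmin t0 (a l (lam l)) ht0 hK1
    have e2 := tri (b t0) (g s) (a l (lam l))
    have e3 : G.dist (g s) q0 = n - s := by rw [← hgn]; exact hg s n hs le_rfl
    have e4 : G.dist (g 0) (g s) = s - 0 := hg 0 s (Nat.zero_le _) hs
    rw [hg0] at e4
    have e5 := tri q0 (g s) (a l (lam l))
    have e6 := sym (g s) q0
    have e7 := sym (g s) (a l (lam l))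
    have e8 := hlam2 l
    omega
  -- the hub
  set A1 : Set V := {x | ∃ s : ℤ, -((s2 : ℤ) + 1) ≤ s ∧ s ≤ t' - (r + 1) ∧ b s = x} with hA1
  set A2 : Set V := {x | ∃ s : ℤ, t' + (r + 1) ≤ s ∧ s ≤ (s2 : ℤ) + 1 ∧ b s = x} with hA2
  set A3 : Set V := {x | ∃ s : ℕ, 0 ≤ s ∧ s ≤ n ∧ g s = x} with hA3
  have cA1 : Cn G A1 := hgb.cn (by omega) (by omega) (by omega)
  have cA2 : Cn G A2 := hgb.cn (by omega) (by omega) (by omega)
  have cA3 : Cn G A3 := hg.cn (Nat.zero_le _) le_rfl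
  have c1 : Cn G (F2 ∪ A1) := hL.cn.union cA1 hL.neg ⟨_, le_rfl, by omega, rfl⟩
  have c2 : Cn G (F2 ∪ A1 ∪ A2) := c1.union cA2 (Or.inl hL.pos) ⟨_, by omega, le_rfl, rfl⟩
  have hbt0 : b t0 ∈ F2 ∪ A1 ∪ A2 := by
    by_cases h : t0 ≤ t'
    · exact Or.inl (Or.inr ⟨t0, by omega, by omega, rfl⟩)
    · exact Or.inr ⟨t0, by omega, by omega, rfl⟩
  have c3 : Cn G (F2 ∪ A1 ∪ A2 ∪ A3) := c2.union cA3 hbt0 ⟨0, le_rfl, Nat.zero_le _, hg0⟩
  have hq0K : q0 ∈ Kl G r a Hb lam := by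
    rcases hq0 with hq | ⟨l, t, ht, hq⟩
    · exact Or.inl hq
    · refine Or.inr ⟨l, t, ht, ?_, hq⟩
      have e1 := hlam2 l
      rw [← hq, hga l t (lam l) (by omega) (by have := hlam1 l; omega)] at e1
      omega
  have c4 : Cn G (F2 ∪ A1 ∪ A2 ∪ A3 ∪ Kl G r a Hb lam) :=
    c3.union k1 (Or.inr ⟨n, Nat.zero_le _, le_rfl, hgn⟩) hq0K
  refine hPRI V G r k a Hb hS lam (fun t => b (t' + t)) (F2 ∪ A1 ∪ A2 ∪ A3 ∪ Kl G r a Hb lam)
    (fun l => by have := hlam1 l; omega) (hgb.shift (by omega)) c4 ?_ ?_ ?_ ?_ ?_ ?_ ?_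
  · exact Or.inl (Or.inl (Or.inr ⟨_, by omega, by omega, rfl⟩))
  · exact Or.inl (Or.inl (Or.inl (Or.inr ⟨_, by omega, by omega, rfl⟩)))
  · exact fun l => Or.inr (k2 l).1
  · exact fun l => Or.inr (k2 l).2
  · intro l
    show 2 * r + 4 ≤ G.dist (b (t' + 0)) (a l (lam l))
    rw [add_zero]
    by_contra hcon
    have e1 := tri (b 0) (b t') (a l (lam l))
    have e2 := hb0t t' (by omega)
    have e3 := hU (a l (lam l)) (by omega)
    have e4 : 20 * r + 20 < G.dist (a l 0) (a l (lam l)) := e3.right l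
    have e5 := hlam1 l
    rw [ha0t l (lam l) (by omega)] at e4
    omega
  · intro x hx
    show r < G.dist (b (t' + 0)) x
    rw [add_zero]
    rcases hx with (((hx | ⟨s, hs1', hs2', rfl⟩) | ⟨s, hs1', hs2', rfl⟩) | ⟨s, -, hs, rfl⟩) | hx
    · have e1 := hL.far x hx
      have e2 := tri (b 0) (b t') x
      have e3 := hb0t t' (by omega)
      omega
    · rw [hgb t' s (by omega) (by omega)]
      omega
    · rw [hgb t' s (by omega) (by omega)]
      omega
    · exact hgA s hs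
    · by_contra hcon
      have e1 := tri (b 0) (b t') x
      have e2 := hb0t t' (by omega)
      have e3 := hU x (by omega)
      have hxH : x ∈ HH G r a Hb := by
        rcases hx with hx | ⟨l, t, ht, -, rfl⟩
        · exact hx
        · have e4 : 20 * r + 20 < G.dist (a l 0) (a l t) := e3.right l
          rw [ha0t l t (by omega)] at e4
          exact h3 l t (by omega) (by omega)
      exact hb0 (h4 x (b 0) hxH e3.symm)
  · intro l x hx
    have e0 := hlam1 l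
    have e1 := ha0t l (lam l) (by omega)
    rcases hx with (((hx | ⟨s, hs1', hs2', rfl⟩) | ⟨s, hs1', hs2', rfl⟩) | ⟨s, -, hs, rfl⟩) | hx
    · have e2 := hF2 x hx l
      have e3 := tri (a l 0) (a l (lam l)) x
      omega
    · have e2 : 20 * r + 20 < G.dist (a l 0) (b s) := hbU s (by omega) l
      have e3 := tri (a l 0) (a l (lam l)) (b s)
      omega
    · have e2 : 20 * r + 20 < G.dist (a l 0) (b s) := hbU s (by omega) l
      have e3 := tri (a l 0) (a l (lam l)) (b s)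
      omega
    · exact hgB l s hs
    · exact k3 l x hx

end Pool.Agent.Lib.MPbafc89.BQ
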