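import Pool.Agent.Lib.MP_bafc89_co.BQ.Spec

/-!
# REC: recentring a loop
-/

set_option autoImplicit false

namespace Pool.Agent.Lib.MPbafc89.BQ

open SimpleGraph

universe u

theorem specREC : SpecREC.{u} := by
  intro W Z hZ s0 s1 s hs a F hL
  have hgeo := hL.geo
  have hP1 : Cn Z {x | ∃ t : ℤ, s + s1 + 1 ≤ t ∧ t ≤ (s0 : ℤ) + 1 ∧ a t = x} :=
    hgeo.cn (by omega) (by omega) (by omega)
  have hP2 : Cn Z {x | ∃ t : ℤ, -((s0 : ℤ) + 1) ≤ t ∧ t ≤ s - s1 - 1 ∧ a t = x} :=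
    hgeo.cn (by omega) (by omega) (by omega)
  refine ⟨(F ∪ {x | ∃ t : ℤ, s + s1 + 1 ≤ t ∧ t ≤ (s0 : ℤ) + 1 ∧ a t = x}) ∪
    {x | ∃ t : ℤ, -((s0 : ℤ) + 1) ≤ t ∧ t ≤ s - s1 - 1 ∧ a t = x}, ?_, ?_, ?_, ?_, ?_⟩
  · exact hgeo.shift (by omega)
  · have h1 := hL.cn.union hP1 hL.pos ⟨(s0 : ℤ) + 1, by omega, le_rfl, rfl⟩
    exact h1.union hP2 (Or.inl hL.neg) ⟨-((s0 : ℤ) + 1), le_rfl, by omega, rfl⟩
  · left
    right
    exact ⟨s + ((s1 : ℤ) + 1), by omega, by omega, rfl⟩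
  · right
    exact ⟨s + (-((s1 : ℤ) + 1)), by omega, by omega, rfl⟩
  · intro x hx
    show s1 < Z.dist (a (s + 0)) x
    rw [add_zero]
    rcases hx with (hx | ⟨t, h1, h2, rfl⟩) | ⟨t, h1, h2, rfl⟩
    · have h1 := hL.far x hx
      have h2 := hgeo 0 s (by omega) (by omega)
      have h3 := hZ.dist_triangle (u := a 0) (v := a s) (w := x)
      omega
    · rw [hgeo s t (by omega) (by omega)]
      omega
    · rw [hgeo s t (by omega) (by omega)]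
      omega

end Pool.Agent.Lib.MPbafc89.BQ
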