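import Pool.Agent.Lib.MP_bafc89_co.BQ.Spec

/-!
# MP_bafc89_co: bouquets of cycles, module RHH: relocation when the loop is in `HH`
-/

set_option autoImplicit false

namespace Pool.Agent.Lib.MPbafc89.BQ

open SimpleGraph

universe u

namespace RHHM

variable {V : Type u} {G : SimpleGraph V}

theorem dist_le_of_fun (hG : G.Connected) {g : ℕ → V} {n : ℕ}
    (h : ∀ s < n, G.Adj (g s) (g (s + 1))) : ∀ s t : ℕ, s ≤ t → t ≤ n →
      G.dist (g s) (g t) ≤ t - s := by
  intro s t hst ht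
  obtain ⟨m, rfl⟩ := Nat.exists_eq_add_of_le hst
  clear hst
  induction m with
  | zero => simp
  | succ m ih =>
    have h2 := ih (by omega)
    have h3 : G.dist (g (s + m)) (g (s + m + 1)) = 1 :=
      dist_eq_one_iff_adj.mpr (h (s + m) (by omega))
    have h4 := hG.dist_triangle (u := g s) (v := g (s + m)) (w := g (s + m + 1))
    have h5 : s + (m + 1) = s + m + 1 := rfl
    rw [h5]
    omega

/-- signed end of a leg -/
def sg (r : ℕ) : Bool → ℤ
  | true => 20 * (r : ℤ) + 21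
  | false => -(20 * (r : ℤ) + 21)

theorem sg_abs (r : ℕ) (c : Bool) : (sg r c).natAbs = 20 * r + 21 := by
  cases c
  · show (-(20 * (r : ℤ) + 21)).natAbs = _
    omega
  · show (20 * (r : ℤ) + 21).natAbs = _
    omega

/-- the outer part of a leg -/
def leg (r : ℕ) (a : ℤ → V) : Bool → Set V
  | true => {x | ∃ s : ℤ, (r : ℤ) + 1 ≤ s ∧ s ≤ 20 * (r : ℤ) + 21 ∧ a s = x}
  | false => {x | ∃ s : ℤ, -(20 * (r : ℤ) + 21) ≤ s ∧ s ≤ -((r : ℤ) + 1) ∧ a s = x}

theorem leg_cn {r L : ℕ} {a : ℤ → V} (h : Geod G L a) (hL : 20 * r + 21 ≤ L) (c : Bool) :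
    Cn G (leg r a c) := by
  cases c
  · exact h.cn (by omega) (by omega) (by omega)
  · exact h.cn (by omega) (by omega) (by omega)

theorem sg_mem_leg (r : ℕ) (a : ℤ → V) (c : Bool) : a (sg r c) ∈ leg r a c := by
  cases c
  · exact ⟨_, le_rfl, by omega, rfl⟩
  · exact ⟨_, by omega, le_rfl, rfl⟩

theorem leg_cases {r : ℕ} {a : ℤ → V} {c : Bool} {x : V} (hx : x ∈ leg r a c) :
    ∃ s : ℤ, r + 1 ≤ s.natAbs ∧ a s = x ∧ (s.natAbs ≤ 20 * r + 20 ∨ s = sg r c) := by
  cases c
  · obtain ⟨s, h1, h2, h3⟩ := hx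
    refine ⟨s, by omega, h3, ?_⟩
    rcases eq_or_lt_of_le h1 with h | h
    · exact Or.inr h.symm
    · exact Or.inl (by omega)
  · obtain ⟨s, h1, h2, h3⟩ := hx
    refine ⟨s, by omega, h3, ?_⟩
    rcases eq_or_lt_of_le h2 with h | h
    · exact Or.inr h
    · exact Or.inl (by omega)

/-- walks of length `n` in `S` from `p` to some `b t`, `|t| ≤ T` -/
def Pn (G : SimpleGraph V) (S : Set V) (T : ℕ) (b : ℤ → V) (p : V) (n : ℕ) : Prop :=
  ∃ (t : ℤ) (g : ℕ → V), t.natAbs ≤ T ∧ g 0 = p ∧ g n = b t ∧ (∀ s ≤ n, g s ∈ S) ∧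
    ∀ s < n, G.Adj (g s) (g (s + 1))

theorem pigeon (r k : ℕ) (tt : Fin k × Bool → ℤ) :
    ∃ i : ℕ, i ≤ 2 * k ∧ ∀ c, 2 * r < ((i : ℤ) * (4 * r + 1) - tt c).natAbs := by
  by_contra hcon
  push Not at hcon
  have h1 : ∀ i : Fin (2 * k + 1), ∃ c, (((i : ℕ) : ℤ) * (4 * r + 1) - tt c).natAbs ≤ 2 * r :=
    fun i => hcon i (by omega)
  choose f hf using h1
  obtain ⟨i, j, hij, hfij⟩ := Fintype.exists_ne_map_eq_of_card_lt f (by
    rw [Fintype.card_prod, Fintype.card_fin, Fintype.card_fin, Fintype.card_bool]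
    omega)
  have h2 := hf i
  have h3 := hf j
  rw [← hfij] at h3
  have h4 : ((((i : ℕ) : ℤ) - ((j : ℕ) : ℤ)) * (4 * r + 1)).natAbs ≤ 4 * r := by
    have h5 : (((i : ℕ) : ℤ) - ((j : ℕ) : ℤ)) * (4 * r + 1) =
        (((i : ℕ) : ℤ) * (4 * r + 1) - tt (f i)) - (((j : ℕ) : ℤ) * (4 * r + 1) - tt (f i)) := by
      ring
    rw [h5]
    omega
  rw [Int.natAbs_mul] at h4
  have h6 : ((i : ℕ) : ℤ) - ((j : ℕ) : ℤ) ≠ 0 := by
    intro h0
    apply hij
    ext
    omega
  have h7 : 1 ≤ (((i : ℕ) : ℤ) - ((j : ℕ) : ℤ)).natAbs := by omega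
  have h8 : (4 * (r : ℤ) + 1).natAbs = 4 * r + 1 := by omega
  rw [h8] at h4
  nlinarith

end RHHM

open RHHM in
theorem specRHH (hHFA : SpecHFA.{u}) (hPRI : SpecPRI.{u}) : SpecRHH.{u} := by
  intro V G r k a Hb hS s1 s2 h2 h1 b F2 hL hb0 hF2 hU
  obtain ⟨f1, -, f3, -, f5, -, -, -⟩ := hHFA V G r k a Hb hS
  have hG := hS.conn
  have hr := hS.one
  have hsys := hS.sys
  have tri : ∀ x y z : V, G.dist x z ≤ G.dist x y + G.dist y z := fun x y z => hG.dist_triangle
  -- the segment `b`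
  have hb : ∀ s t : ℤ, s.natAbs ≤ s2 + 1 → t.natAbs ≤ s2 + 1 →
      G.dist (b s) (b t) = (s - t).natAbs := hL.geo
  have hbU : ∀ t : ℤ, t.natAbs ≤ s2 + 1 → b t ∈ UU G r a := by
    intro t ht
    refine (hU (b t) ?_).right
    rw [hb 0 t (by omega) ht]
    omega
  have hnU : ∀ (i : Fin k) (t : ℤ), t.natAbs ≤ 20 * r + 20 → a i t ∉ UU G r a := by
    intro i t ht hmem
    have h3 := hmem i
    rw [hsys.geo i 0 t (by omega) (by omega)] at h3
    omega
  -- shortest walks
  have hex : ∀ c : Fin k × Bool, ∃ n, Pn G (UU G r a) (s2 + 1) b (a c.1 (sg r c.2)) n := by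
    intro c
    have hc : a c.1 (sg r c.2) ∈ HH G r a Hb := by
      refine f3 c.1 (sg r c.2) ?_ ?_ <;> rw [sg_abs] <;> omega
    obtain ⟨n, g, g0, g1, g2, g3⟩ := ((f5.2 _ hc _ hb0).mono f1).exists_length
    exact ⟨n, 0, g, by simp, g0, g1, g2, g3⟩
  classical
  have hmin : ∀ c : Fin k × Bool, ∃ n, Pn G (UU G r a) (s2 + 1) b (a c.1 (sg r c.2)) n ∧
      ∀ m, Pn G (UU G r a) (s2 + 1) b (a c.1 (sg r c.2)) m → n ≤ m := fun c =>
    ⟨Nat.find (hex c), Nat.find_spec (hex c), fun m hm => Nat.find_min' (hex c) hm⟩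
  choose nn hnn hnmin using hmin
  choose tt gg ht g0 g1 g2 g3 using hnn
  obtain ⟨i₀, hi₀, hi₁⟩ := pigeon r k tt
  obtain ⟨t', ht'⟩ : ∃ t' : ℤ, t' = (i₀ : ℤ) * (4 * r + 1) := ⟨_, rfl⟩
  rw [← ht'] at hi₁
  have ht0 : 0 ≤ t' := by
    rw [ht']
    positivity
  have htle : t' + (4 * r + 1) + r + 1 ≤ s2 := by
    have e1 : (i₀ : ℤ) * (4 * r + 1) ≤ 2 * k * (4 * r + 1) := by
      refine mul_le_mul_of_nonneg_right ?_ (by positivity)
      exact_mod_cast hi₀
    have e2 : ((2 * k + 1) * (4 * r + 1) + r + 1 : ℤ) ≤ s2 := by exact_mod_cast h2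
    rw [ht']
    nlinarith
  have hw0 : G.dist (b 0) (b t') = t'.natAbs := by
    rw [hb 0 t' (by omega) (by omega)]
    omega
  -- the walks avoid the ball around `w`
  have hstar : ∀ c : Fin k × Bool, ∀ s ≤ nn c, r < G.dist (b t') (gg c s) := by
    intro c s hs
    by_contra hcon
    push Not at hcon
    obtain ⟨e, e0, e1, he⟩ := exists_geo hG (gg c s) (b t')
    have hD : G.dist (gg c s) (b t') ≤ r := by rw [SimpleGraph.dist_comm]; exact hcon
    set D := G.dist (gg c s) (b t') with hDd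
    have heU : ∀ m ≤ D, e m ∈ UU G r a := by
      intro m hm
      refine (hU (e m) ?_).right
      have h3 := he m D hm le_rfl
      rw [e1, SimpleGraph.dist_comm] at h3
      have h4 := tri (b 0) (b t') (e m)
      omega
    have hP : Pn G (UU G r a) (s2 + 1) b (a c.1 (sg r c.2)) (s + D) := by
      refine ⟨t', fun m => if m ≤ s then gg c m else e (m - s), by omega, ?_, ?_, ?_, ?_⟩
      · show (if 0 ≤ s then gg c 0 else e (0 - s)) = _
        rw [if_pos (Nat.zero_le _)]
        exact g0 c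
      · show (if s + D ≤ s then gg c (s + D) else e (s + D - s)) = _
        by_cases hD0 : D = 0
        · rw [if_pos (by omega), hD0, add_zero]
          rw [hD0] at e1
          rw [← e0, ← e1]
        · rw [if_neg (by omega), Nat.add_sub_cancel_left]
          exact e1
      · intro m hm
        show (if m ≤ s then gg c m else e (m - s)) ∈ _
        by_cases hms : m ≤ s
        · rw [if_pos hms]
          exact g2 c m (by omega)
        · rw [if_neg hms]
          exact heU _ (by omega)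
      · intro m hm
        show G.Adj (if m ≤ s then gg c m else e (m - s))
          (if m + 1 ≤ s then gg c (m + 1) else e (m + 1 - s))
        by_cases hms : m + 1 ≤ s
        · rw [if_pos hms, if_pos (by omega)]
          exact g3 c m (by omega)
        · rw [if_neg hms]
          by_cases hms2 : m ≤ s
          · rw [if_pos hms2]
            have hms3 : m = s := by omega
            subst hms3
            have h3 : m + 1 - m = 0 + 1 := by omega
            rw [h3, ← e0]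
            exact he.adj (by omega)
          · rw [if_neg hms2]
            have h3 : m + 1 - s = m - s + 1 := by omega
            rw [h3]
            exact he.adj (by omega)
    have h3 := hnmin c _ hP
    have h4 := dist_le_of_fun hG (g3 c) s (nn c) hs le_rfl
    rw [g1 c] at h4
    have h5 := tri (b t') (gg c s) (b (tt c))
    rw [hb t' (tt c) (by omega) (ht c)] at h5
    have h6 := hi₁ c
    omega
  -- the hub
  set A1 : Set V := (F2 ∪ {x | ∃ s : ℤ, t' + (r + 1) ≤ s ∧ s ≤ (s2 : ℤ) + 1 ∧ b s = x}) ∪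
    {x | ∃ s : ℤ, -((s2 : ℤ) + 1) ≤ s ∧ s ≤ t' - (r + 1) ∧ b s = x} with hA1
  set Bc : Fin k × Bool → Set V := fun c =>
    {x | ∃ s, 0 ≤ s ∧ s ≤ nn c ∧ gg c s = x} ∪ leg r (a c.1) c.2 with hBc
  have hA1cn : Cn G A1 := by
    refine Cn.union (Cn.union hL.cn (hL.geo.cn (by omega) (by omega) (by omega))
      (c := b ((s2 : ℤ) + 1)) hL.pos ⟨_, by omega, le_rfl, rfl⟩)
      (hL.geo.cn (by omega) (by omega) (by omega)) (c := b (-((s2 : ℤ) + 1)))
      (Or.inl hL.neg) ⟨_, le_rfl, by omega, rfl⟩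
  have hBcn : ∀ c, Cn G (Bc c) := fun c =>
    Cn.union (cn_of_fun (Nat.zero_le _) fun s _ hs => g3 c s hs)
      (leg_cn (hsys.geo c.1) (by omega) c.2) (c := a c.1 (sg r c.2))
      ⟨0, le_rfl, Nat.zero_le _, g0 c⟩ (sg_mem_leg r (a c.1) c.2)
  have hmeet : ∀ c, ∃ x, x ∈ A1 ∧ x ∈ Bc c := by
    intro c
    refine ⟨b (tt c), ?_, Or.inl ⟨nn c, Nat.zero_le _, le_rfl, g1 c⟩⟩
    have h3 := hi₁ c
    have h4 := ht c
    rcases le_total t' (tt c) with h5 | h5
    · exact Or.inl (Or.inr ⟨tt c, by omega, by omega, rfl⟩)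
    · exact Or.inr ⟨tt c, by omega, by omega, rfl⟩
  have hFcn : Cn G (A1 ∪ ⋃ c, Bc c) := Cn.union_iUnion hA1cn hBcn hmeet
  have hmemB : ∀ (c : Fin k × Bool) (x : V), x ∈ Bc c → x ∈ A1 ∪ ⋃ c, Bc c := fun c x hx =>
    Or.inr (Set.mem_iUnion.2 ⟨c, hx⟩)
  refine hPRI V G r k a Hb hS (fun _ => 0) (fun t => b (t' + t)) (A1 ∪ ⋃ c, Bc c)
    (fun l => by simp) (hL.geo.shift (by omega)) hFcn ?_ ?_ ?_ ?_ ?_ ?_ ?_
  · exact Or.inl (Or.inl (Or.inr ⟨_, by omega, by omega, rfl⟩))
  · exact Or.inl (Or.inr ⟨_, by omega, by omega, rfl⟩)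
  · intro l
    exact hmemB (l, true) _ (Or.inr ⟨_, by omega, by omega, rfl⟩)
  · intro l
    exact hmemB (l, false) _ (Or.inr ⟨_, by omega, by omega, rfl⟩)
  · intro l
    show 2 * r + 4 ≤ G.dist (b (t' + 0)) (a l 0)
    rw [add_zero]
    by_contra hcon
    push Not at hcon
    have h3 := tri (b 0) (b t') (a l 0)
    have h4 := (hU (a l 0) (by omega)).right
    exact hnU l 0 (by simp) h4
  · intro x hx
    show r < G.dist (b (t' + 0)) x
    rw [add_zero]
    rcases hx with ((hx | ⟨s, e1, e2, rfl⟩) | ⟨s, e1, e2, rfl⟩) | hx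
    · have h3 := hL.far x hx
      have h4 := tri (b 0) (b t') x
      omega
    · rw [hb t' s (by omega) (by omega)]
      omega
    · rw [hb t' s (by omega) (by omega)]
      omega
    · obtain ⟨c, hc⟩ := Set.mem_iUnion.1 hx
      rcases hc with ⟨s, -, hs, rfl⟩ | hc
      · exact hstar c s hs
      · obtain ⟨s, e1, e2, e3⟩ := leg_cases hc
        rcases e3 with e3 | e3
        · by_contra hcon
          push Not at hcon
          have h4 := tri (b 0) (b t') x
          have h5 := (hU x (by omega)).right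
          rw [← e2] at h5
          exact hnU c.1 s e3 h5
        · have h3 := hstar c 0 (Nat.zero_le _)
          rw [g0 c] at h3
          rw [← e2, e3]
          exact h3
  · intro l x hx
    have hUl : ∀ y ∈ UU G r a, r < G.dist (a l 0) y := by
      intro y hy
      have := hy l
      omega
    show r < G.dist (a l 0) x
    rcases hx with ((hx | ⟨s, e1, e2, rfl⟩) | ⟨s, e1, e2, rfl⟩) | hx
    · have h3 := hF2 x hx l
      omega
    · exact hUl _ (hbU s (by omega))
    · exact hUl _ (hbU s (by omega))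
    · obtain ⟨c, hc⟩ := Set.mem_iUnion.1 hx
      rcases hc with ⟨s, -, hs, rfl⟩ | hc
      · exact hUl _ (g2 c s hs)
      · obtain ⟨s, e1, e2, e3⟩ := leg_cases hc
        have hs : s.natAbs ≤ 20 * r + 21 := by
          rcases e3 with e3 | e3
          · omega
          · rw [e3, sg_abs]
        have h3 := hsys.geo c.1 0 s (by omega) (by omega)
        rw [e2] at h3
        by_cases hl : c.1 = l
        · rw [hl] at h3
          rw [h3]
          omega
        · have h4 := hsys.sep l c.1 (fun h => hl h.symm)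
          have h5 := tri (a l 0) x (a c.1 0)
          rw [SimpleGraph.dist_comm (u := x)] at h5
          omega

end Pool.Agent.Lib.MPbafc89.BQ
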