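import Pool.Agent.Lib.MP_bafc89_co.BQ.Spec

/-!
# BQ, module SCA: choice of the scale
-/

set_option autoImplicit false

universe u

namespace Pool.Agent.Lib.MPbafc89.BQ

namespace SCAM

theorem rs_pos (l n : ℕ) : 1 ≤ rs l n := by
  cases n with
  | zero => simp [rs]
  | succ n => simp only [rs]; omega

end SCAM

open SCAM in
theorem specSCA : SpecSCA.{u} := by
  classical
  intro V G hG c l hno
  obtain ⟨v⟩ := hG.nonempty
  have h0 : ∃ (a : Fin 0 → ℤ → V) (Hb : Set V), Sys G (rs l (c - 0)) 0 a Hb :=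
    ⟨fun i => i.elim0, {v}, ⟨fun j => j.elim0, fun i => i.elim0, Cn.singleton v, fun j => j.elim0,
      fun j => j.elim0, fun j => j.elim0⟩⟩
  have hex : ∃ n, ¬ ∃ (a : Fin n → ℤ → V) (Hb : Set V), Sys G (rs l (c - n)) n a Hb := by
    refine ⟨c, ?_⟩
    rintro ⟨a, Hb, h⟩
    rw [Nat.sub_self] at h
    exact hno a Hb h
  have hspec := Nat.find_spec hex
  have hle : Nat.find hex ≤ c := by
    refine Nat.find_min' hex ?_
    rintro ⟨a, Hb, h⟩
    rw [Nat.sub_self] at h
    exact hno a Hb h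
  obtain ⟨k, hk⟩ : ∃ k, Nat.find hex = k + 1 := by
    refine Nat.exists_eq_succ_of_ne_zero ?_
    intro h
    rw [h] at hspec
    exact hspec h0
  have hPk := Nat.find_min hex (m := k) (by omega)
  push Not at hPk
  obtain ⟨a, Hb, hs⟩ := hPk
  rw [hk] at hspec hle
  refine ⟨k, by omega, a, Hb, ⟨hG, rs_pos _ _, ?_, fun b F h => hspec ⟨b, F, h⟩⟩⟩
  have e : c - k = (c - (k + 1)) + 1 := by omega
  rw [e] at hs
  exact hs

end Pool.Agent.Lib.MPbafc89.BQ
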