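import Pool.Agent.Lib.MP_bafc89_co.BQ.Spec3

/-!
# SPL: cutting legs into tails
-/

set_option autoImplicit false

namespace Pool.Agent.Lib.MPbafc89.BQ

open SimpleGraph

universe u v

namespace SPLM

/-- the index of a leg which is cut -/
def jj (c k : ℕ) (h : c ≤ k) (j : Fin (k - c)) : Fin k := ⟨c + j.1, by omega⟩

lemma jj_inj (c k : ℕ) (h : c ≤ k) {i j : Fin (k - c)} (hij : jj c k h i = jj c k h j) : i = j := by
  have h1 := congrArg Fin.val hij
  simp only [jj] at h1
  exact Fin.ext (by omega)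

lemma jj_ne (c k : ℕ) (h : c ≤ k) (i : Fin (k - c)) (j : Fin c) :
    jj c k h i ≠ Fin.castLE h j := by
  intro h1
  have h2 := congrArg Fin.val h1
  simp only [jj, Fin.val_castLE] at h2
  omega

/-- the signed position -/
def sg (ρ : ℕ) (β : Bool) (t : ℕ) : ℤ := if β then (ρ : ℤ) + 1 - t else -((ρ : ℤ) + 1 - t)

/-- the tails -/
def gg {V : Type u} (ρ k n c : ℕ) (h : c ≤ k) (a : Fin k → ℤ → V) (e : Fin n → ℕ → V) :
    (Fin (k - c) × Bool) ⊕ Fin n → ℕ → V
  | .inl q => fun t => a (jj c k h q.1) (sg ρ q.2 t)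
  | .inr i => e i

lemma sg_natAbs (ρ : ℕ) (β : Bool) (t : ℕ) (ht : t ≤ ρ + 1) :
    (sg ρ β t).natAbs = ρ + 1 - t := by
  unfold sg
  split_ifs <;> omega

lemma dist0 {V : Type u} {G : SimpleGraph V} {ρ T k n : ℕ} {F : Set V} {a : Fin k → ℤ → V}
    {e : Fin n → ℕ → V} (hS : Star G ρ T k n F a e) (j : Fin k) (β : Bool) (t : ℕ)
    (ht : t ≤ ρ + 1) : G.dist (a j 0) (a j (sg ρ β t)) = ρ + 1 - t := by
  have h1 := sg_natAbs ρ β t ht
  rw [hS.geo j 0 (sg ρ β t) (by simp) (by omega)]
  omega

end SPLM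

open SPLM in
theorem specSPL : SpecSPL.{u} := by
  intro V G hG ρ T T' k n c h hck hTT hTρ hh F a e hS
  have tri : ∀ x y z : V, G.dist x z ≤ G.dist x y + G.dist y z := fun x y z =>
    hG.dist_triangle
  have hcard : Fintype.card (Fin h) ≤ Fintype.card ((Fin (k - c) × Bool) ⊕ Fin n) := by
    simp only [Fintype.card_fin, Fintype.card_sum, Fintype.card_prod, Fintype.card_bool]
    omega
  obtain ⟨φ⟩ := Function.Embedding.nonempty_of_card_le hcard
  -- facts for the tails
  have Ftail : ∀ p, Geo G T' (gg ρ k n c hck a e p) := by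
    rintro (⟨j, β⟩ | i) s t hst ht
    · show G.dist (a (jj c k hck j) (sg ρ β s)) (a (jj c k hck j) (sg ρ β t)) = t - s
      have h1 := sg_natAbs ρ β s (by omega)
      have h2 := sg_natAbs ρ β t (by omega)
      rw [hS.geo _ _ _ (by omega) (by omega)]
      unfold sg
      split_ifs <;> omega
    · exact hS.tail i s t hst (ht.trans hTT)
  have Fmem : ∀ p, gg ρ k n c hck a e p 0 ∈ F := by
    rintro (⟨j, β⟩ | i)
    · show a (jj c k hck j) (sg ρ β 0) ∈ F
      cases β
      · have h1 : sg ρ false 0 = -((ρ : ℤ) + 1) := by simp [sg]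
        rw [h1]
        exact hS.neg _
      · have h1 : sg ρ true 0 = (ρ : ℤ) + 1 := by simp [sg]
        rw [h1]
        exact hS.pos _
    · exact hS.tmem i
  have Ffar : ∀ p, ∀ x ∈ F, ∀ t ≤ T', t ≤ G.dist (gg ρ k n c hck a e p t) x := by
    rintro (⟨j, β⟩ | i) x hx t ht
    · show t ≤ G.dist (a (jj c k hck j) (sg ρ β t)) x
      have h1 := dist0 hS (jj c k hck j) β t (by omega)
      have h2 := hS.far (jj c k hck j) x hx
      have h3 := tri (a (jj c k hck j) 0) (a (jj c k hck j) (sg ρ β t)) x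
      omega
    · exact hS.tfar i x hx t (ht.trans hTT)
  have Ftt : ∀ p q, p ≠ q → ∀ s ≤ T', ∀ t ≤ T',
      s ≤ G.dist (gg ρ k n c hck a e p s) (gg ρ k n c hck a e q t) := by
    rintro (⟨i, β⟩ | i) (⟨j, γ⟩ | j) hpq s hs t ht
    · show s ≤ G.dist (a (jj c k hck i) (sg ρ β s)) (a (jj c k hck j) (sg ρ γ t))
      by_cases hij : i = j
      · subst hij
        have hβ : β ≠ γ := fun h => hpq (by rw [h])
        have h1 := sg_natAbs ρ β s (by omega)
        have h2 := sg_natAbs ρ γ t (by omega)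
        rw [hS.geo _ _ _ (by omega) (by omega)]
        cases β <;> cases γ
        · exact absurd rfl hβ
        · simp only [sg, if_true, Bool.false_eq_true, if_false]
          omega
        · simp only [sg, if_true, Bool.false_eq_true, if_false]
          omega
        · exact absurd rfl hβ
      · have h1 := dist0 hS (jj c k hck i) β s (by omega)
        have h2 := dist0 hS (jj c k hck j) γ t (by omega)
        have h3 := hS.sep (jj c k hck i) (jj c k hck j) (fun h => hij (jj_inj c k hck h))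
        have h4 := tri (a (jj c k hck i) 0) (a (jj c k hck i) (sg ρ β s)) (a (jj c k hck j) 0)
        have h5 := tri (a (jj c k hck i) (sg ρ β s)) (a (jj c k hck j) (sg ρ γ t))
          (a (jj c k hck j) 0)
        have h6 : G.dist (a (jj c k hck j) (sg ρ γ t)) (a (jj c k hck j) 0) =
          G.dist (a (jj c k hck j) 0) (a (jj c k hck j) (sg ρ γ t)) := dist_comm
        omega
    · show s ≤ G.dist (a (jj c k hck i) (sg ρ β s)) (e j t)
      have h1 := dist0 hS (jj c k hck i) β s (by omega)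
      have h2 := hS.tbal j (jj c k hck i) t (ht.trans hTT)
      have h3 := tri (a (jj c k hck i) 0) (a (jj c k hck i) (sg ρ β s)) (e j t)
      omega
    · show s ≤ G.dist (e i s) (a (jj c k hck j) (sg ρ γ t))
      have h2 := sg_natAbs ρ γ t (by omega)
      exact hS.tleg i (jj c k hck j) s (hs.trans hTT) _ (by omega)
    · exact hS.ttail i j (fun h => hpq (by rw [h])) s (hs.trans hTT) t (ht.trans hTT)
  have Ftl : ∀ p (j : Fin c), ∀ t ≤ T', ∀ s : ℤ, s.natAbs ≤ ρ + 1 →
      t ≤ G.dist (gg ρ k n c hck a e p t) (a (Fin.castLE hck j) s) := by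
    rintro (⟨i, β⟩ | i) j t ht s hs
    · show t ≤ G.dist (a (jj c k hck i) (sg ρ β t)) (a (Fin.castLE hck j) s)
      have h1 := dist0 hS (jj c k hck i) β t (by omega)
      have h2 := hS.geo (Fin.castLE hck j) s 0 hs (by simp)
      have h3 := hS.sep (jj c k hck i) (Fin.castLE hck j) (jj_ne c k hck i j)
      have h4 := tri (a (jj c k hck i) 0) (a (jj c k hck i) (sg ρ β t)) (a (Fin.castLE hck j) 0)
      have h5 := tri (a (jj c k hck i) (sg ρ β t)) (a (Fin.castLE hck j) s)
        (a (Fin.castLE hck j) 0)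
      omega
    · exact hS.tleg i _ t (ht.trans hTT) s hs
  have Ftb : ∀ p (j : Fin c), ∀ t ≤ T',
      ρ < G.dist (a (Fin.castLE hck j) 0) (gg ρ k n c hck a e p t) := by
    rintro (⟨i, β⟩ | i) j t ht
    · show ρ < G.dist (a (Fin.castLE hck j) 0) (a (jj c k hck i) (sg ρ β t))
      have h1 := dist0 hS (jj c k hck i) β t (by omega)
      have h3 := hS.sep (Fin.castLE hck j) (jj c k hck i) (jj_ne c k hck i j).symm
      have h4 := tri (a (Fin.castLE hck j) 0) (a (jj c k hck i) (sg ρ β t)) (a (jj c k hck i) 0)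
      have h6 : G.dist (a (jj c k hck i) (sg ρ β t)) (a (jj c k hck i) 0) =
          G.dist (a (jj c k hck i) 0) (a (jj c k hck i) (sg ρ β t)) := dist_comm
      omega
    · exact hS.tbal i _ t (ht.trans hTT)
  refine ⟨fun j => a (Fin.castLE hck j), fun i => gg ρ k n c hck a e (φ i), ?_⟩
  exact {
    cn := hS.cn
    geo := fun j => hS.geo _
    sep := fun i j hij => hS.sep _ _ (fun h => hij ((Fin.castLE_injective hck) h))
    pos := fun j => hS.pos _
    neg := fun j => hS.neg _
    far := fun j => hS.far _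
    tail := fun i => Ftail _
    tmem := fun i => Fmem _
    tfar := fun i => Ffar _
    ttail := fun i j hij => Ftt _ _ (fun h => hij (φ.injective h))
    tleg := fun i j => Ftl _ j
    tbal := fun i j => Ftb _ j }

end Pool.Agent.Lib.MPbafc89.BQ
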