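import Pool.Agent.Lib.MP_bafc89_co.BQ.Spec

/-!
# STR: the boundary points of the balls
-/

set_option autoImplicit false

namespace Pool.Agent.Lib.MPbafc89.BQ

open SimpleGraph

universe u

theorem specSTR (hHFA : SpecHFA.{u}) (hFAR : SpecFAR.{u}) (hNEA : SpecNEA.{u}) :
    SpecSTR.{u} := by
  intro V G r k a Hb hS
  obtain ⟨h1, h2, h3, h4, h5, h6, h7, h8⟩ := hHFA V G r k a Hb hS
  constructor
  · intro j x hx hxH
    by_contra hcon
    push Not at hcon
    have hp : a j (20 * (r : ℤ) + 21) ∈ HH G r a Hb := h3 j _ (by omega) (by omega)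
    refine hFAR V G r k a Hb hS j j x (a j (20 * (r : ℤ) + 21)) hx (h8 j).1
      ((h5.2 x hxH _ hp).mono h1) (Or.inr ?_) hcon.1 hcon.2
    rw [SimpleGraph.dist_comm]
    exact hcon.1
  · intro i j x hx x' hx' hJ hxH
    by_contra hcon
    have h0 : i ≠ j ∨ 6 * r + 5 < G.dist x x' := by
      by_cases hij : i = j
      · right
        by_contra h
        exact hcon ⟨hij, by omega⟩
      · exact Or.inl hij
    have near : ∀ (i j : Fin k) (x x' : V), x ∈ bd G r a i → x' ∈ bd G r a j →
        Jn G (UU G r a) x x' → (i ≠ j ∨ 6 * r + 5 < G.dist x x') →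
        ∃ N : ℤ, (N = 1 ∨ N = -1) ∧ G.dist (a i (N * (20 * (r : ℤ) + 21))) x ≤ 6 * r + 5 := by
      intro i j x x' hx hx' hJ h0
      by_contra hno
      push Not at hno
      have e1 := hno 1 (Or.inl rfl)
      have e2 := hno (-1) (Or.inr rfl)
      rw [one_mul] at e1
      rw [neg_one_mul] at e2
      exact hFAR V G r k a Hb hS i j x x' hx hx' hJ h0 e1 e2
    obtain ⟨N, hN, hNd⟩ := near i j x x' hx hx' hJ h0
    obtain ⟨N', hN', hNd'⟩ := near j i x' x hx' hx hJ.symm (by
      rcases h0 with h | h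
      · exact Or.inl (Ne.symm h)
      · rw [SimpleGraph.dist_comm] at h
        exact Or.inr h)
    by_cases hij : i = j
    · by_cases hNN : N = N'
      · subst hij
        subst hNN
        refine hcon ⟨rfl, ?_⟩
        have t1 := hS.conn.dist_triangle (u := x) (v := a i (N * (20 * (r : ℤ) + 21))) (w := x')
        rw [SimpleGraph.dist_comm (u := x) (v := a i (N * (20 * (r : ℤ) + 21)))] at t1
        omega
      · exact hNEA V G r k a Hb hS i j N N' x x' hN hN' (Or.inr hNN) hx hx' hJ hxH hNd hNd'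
    · exact hNEA V G r k a Hb hS i j N N' x x' hN hN' (Or.inl hij) hx hx' hJ hxH hNd hNd'

end Pool.Agent.Lib.MPbafc89.BQ
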