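import Pool.Agent.Lib.MP_bafc89_co.BQ.Spec3

/-!
# Module SYF: a system of size `c + h` gives a fat flower
-/

set_option autoImplicit false

namespace Pool.Agent.Lib.MPbafc89.BQ

open SimpleGraph

universe u v

theorem specSYF (hSPL : SpecSPL.{u}) (hFTH : SpecFTH.{u}) : SpecSYF.{u} := by
  intro V G hG K l c h R m n hm hn hR a Hb hs
  have hRR : 2 * TT K l ≤ R := by
    unfold RR at hR
    omega
  have hstar : Star G R (TT K l) (c + h) 0 Hb a (fun i : Fin 0 => i.elim0) :=
    { cn := hs.cn
      geo := hs.geo
      sep := hs.sep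
      pos := hs.pos
      neg := hs.neg
      far := hs.far
      tail := fun i => i.elim0
      tmem := fun i => i.elim0
      tfar := fun i => i.elim0
      ttail := fun i => i.elim0
      tleg := fun i => i.elim0
      tbal := fun i => i.elim0 }
  obtain ⟨a', e', hst⟩ := hSPL V G hG R (TT K l) (TT K l) (c + h) 0 c h (Nat.le_add_right c h)
    le_rfl hRR (by omega) Hb a _ hstar
  have hb : ∀ x, x ≤ l → 2 * (K + 1) * (x + 2) ≤ TT K l := fun x hx => by
    unfold TT
    exact Nat.mul_le_mul_left _ (by omega)
  refine hFTH V G hG K R (TT K l) c h m n (fun i => (hm i).1) (fun i => ?_) (fun i => ?_) Hb a' e'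
    hst
  · have := hb (m i) (hm i).2
    omega
  · exact hb (n i) (hn i).2

end Pool.Agent.Lib.MPbafc89.BQ
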