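import Pool.Agent.Lib.MP_bafc89_co.BQ.Base

/-!
# MP_bafc89_co: bouquets of cycles.  Specification (captain: helper76)

THEOREM.  For every `c ≥ 1` and `l` there are `M, A` such that every graph `G` without an induced
minor `H`, `H` a bouquet of `c` cycles of lengths `≤ l` (cycles sharing exactly one vertex), is
`(M, A)`-quasi-isometric to a graph `G'` all of whose finite connected minors have cyclomatic number
`< c`; in particular `G'` has no `H` minor.

IDEA.  `Sys G ρ k a Hb`: `k` geodesic segments (legs) of radius `ρ + 1` with far apart centres and a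
connected hub `Hb` which contains all their ends and avoids the balls of radius `ρ` around the
centres.  A system of size `c` gives the induced minor `H` (BOU).  Take scales `R_0 > R_1 > ... `,
`R_k = 30 R_(k+1) + 30`, and the `k < c` with a system of size `k` at scale `30 r + 30` and none of
size `k + 1` at scale `r` (SCA, `Setup`).  Let `τ = 20 r + 20`, `UU` = complement of the balls of
radius `τ` around the centres `v_j = a j 0`, `HH` = component of `UU` containing `Hb`, `bd j` = points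
of `UU` at distance `τ + 1` from `v_j`; `p_j^± = a j (± (20 r + 21))`.  FAR, NEA, STR: `bd j ∩ HH` is
near `p_j^+` or `p_j^-`; every other component of `UU` touches only one `bd j`, in a set of bounded
diameter.  `ZZ`: collapse the ball around `v_j` to the vertex `(j, true)`, but attach the points of
`HH ∩ bd j` near `p_j^-` to another new vertex `(j, false)`: the graph is cut open at `k` places.
`ZZ` has no fat loop (NOL), as one could relocate a fat loop to a system of size `k + 1` of `G`.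
So the layering partition of `ZZ` is a tree quasi-isometric to `ZZ` (CLD, TRE), and `G` is
quasi-isometric to this tree plus `k` edges (QIG).

All modules are independent: file `BQ/XXX.lean`, `import Pool.Agent.Lib.MP_bafc89_co.BQ.Spec`,
namespace `Pool.Agent.Lib.MPbafc89.BQ`, `theorem specXXX (hYYY : SpecYYY) ... : SpecXXX`, own lemmas in
a namespace `XXXM`.  The toolkit `Base.lean` (`Jn`, `Cn`, `Geod`, `Geo`, `ball_cn`, `exists_geo`,
`Cn.map`, `Cn.union`, `Cn.union_iUnion`, ...) is proved.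
-/

set_option autoImplicit false

namespace Pool.Agent.Lib.MPbafc89.BQ

open SimpleGraph

universe u v

/-! ### Minors and bouquets -/

/-- `H` is a minor of `G`: disjoint connected branch sets, with an edge of `G` between the branch
sets of adjacent vertices. -/
def IsMinor {α : Type u} {V : Type v} (H : SimpleGraph α) (G : SimpleGraph V) : Prop :=
  ∃ B : α → Set V, (∀ i, (G.induce (B i)).Connected) ∧
    (∀ i j, i ≠ j → Disjoint (B i) (B j)) ∧
    (∀ i j, H.Adj i j → ∃ x ∈ B i, ∃ y ∈ B j, G.Adj x y)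

/-- `H` is an induced minor of `G`: disjoint connected branch sets, with an edge of `G` between two
branch sets if and only if the two vertices of `H` are adjacent. -/
def IsInducedMinor {α : Type u} {V : Type v} (H : SimpleGraph α) (G : SimpleGraph V) : Prop :=
  ∃ B : α → Set V, (∀ i, (G.induce (B i)).Connected) ∧
    (∀ i j, i ≠ j → Disjoint (B i) (B j)) ∧
    (∀ i j, i ≠ j → (H.Adj i j ↔ ∃ x ∈ B i, ∃ y ∈ B j, G.Adj x y))

/-- The bouquet: a centre `none` and for every `i` a path with the `m i` vertices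
`(i, 0), ..., (i, m i - 1)` whose two ends are joined to the centre: `c` cycles of lengths `m i + 1`
sharing exactly the centre (if all `m i ≥ 2`). -/
def bouquet {c : ℕ} (m : Fin c → ℕ) : SimpleGraph (Option (Σ i : Fin c, Fin (m i))) where
  Adj
    | none, none => False
    | none, some q => q.2.val = 0 ∨ q.2.val + 1 = m q.1
    | some q, none => q.2.val = 0 ∨ q.2.val + 1 = m q.1
    | some q, some q' => q.1 = q'.1 ∧ (q.2.val + 1 = q'.2.val ∨ q'.2.val + 1 = q.2.val)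
  symm := ⟨by
    rintro (_ | q) (_ | q') h
    · exact h
    · exact h
    · exact h
    · exact ⟨h.1.symm, h.2.symm⟩⟩
  loopless := ⟨by
    rintro (_ | q) h
    · exact h
    · rcases h.2 with h | h <;> omega⟩

/-- `(M, A)`-quasi-isometry in the extended graph metric -/
structure QI {V : Type u} {W : Type v} (G : SimpleGraph V) (G' : SimpleGraph W) (f : V → W)
    (M A : ℕ) : Prop where
  low : ∀ x y : V, G.edist x y ≤ (M : ℕ∞) * G'.edist (f x) (f y) + (A : ℕ∞)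
  upp : ∀ x y : V, G'.edist (f x) (f y) ≤ (M : ℕ∞) * G.edist x y + (A : ℕ∞)
  cov : ∀ y : W, ∃ x : V, G'.edist (f x) y ≤ (A : ℕ∞)

/-- `G` is `(M, A)`-quasi-isometric to a graph all of whose finite connected minors have
cyclomatic number `< c`. -/
def Good {V : Type u} (G : SimpleGraph V) (M A c : ℕ) : Prop :=
  ∃ (W : Type u) (G' : SimpleGraph W) (f : V → W), QI G G' f M A ∧
    ∀ (α : Type v) [Finite α] (H : SimpleGraph α), H.Connected →
      Nat.card α + c ≤ Nat.card H.edgeSet + 1 → ¬ IsMinor H G'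

/-! ### Systems and loops -/

/-- A system of `k` legs of radius `ρ` with hub `Hb`. -/
structure Sys {V : Type u} (G : SimpleGraph V) (ρ k : ℕ) (a : Fin k → ℤ → V) (Hb : Set V) :
    Prop where
  geo : ∀ j, Geod G (ρ + 1) (a j)
  sep : ∀ i j, i ≠ j → 2 * ρ + 4 ≤ G.dist (a i 0) (a j 0)
  cn : Cn G Hb
  pos : ∀ j, a j ((ρ : ℤ) + 1) ∈ Hb
  neg : ∀ j, a j (-((ρ : ℤ) + 1)) ∈ Hb
  far : ∀ j, ∀ x ∈ Hb, ρ < G.dist (a j 0) x

/-- A fat loop of radius `s`: a geodesic segment of radius `s + 1` and a connected set `F` which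
contains its ends and avoids the ball of radius `s` around its centre. -/
structure Loop {V : Type u} (G : SimpleGraph V) (s : ℕ) (a : ℤ → V) (F : Set V) : Prop where
  geo : Geod G (s + 1) a
  cn : Cn G F
  pos : a ((s : ℤ) + 1) ∈ F
  neg : a (-((s : ℤ) + 1)) ∈ F
  far : ∀ x ∈ F, s < G.dist (a 0) x

/-- The setting: a system of size `k` at scale `30 r + 30`, no system of size `k + 1` at
scale `r`. -/
structure Setup {V : Type u} (G : SimpleGraph V) (r k : ℕ) (a : Fin k → ℤ → V) (Hb : Set V) :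
    Prop where
  conn : G.Connected
  one : 1 ≤ r
  sys : Sys G (30 * r + 30) k a Hb
  no : ∀ (b : Fin (k + 1) → ℤ → V) (F : Set V), ¬ Sys G r (k + 1) b F

/-- complement of the balls of radius `20 r + 20` around the centres -/
def UU {V : Type u} {k : ℕ} (G : SimpleGraph V) (r : ℕ) (a : Fin k → ℤ → V) : Set V :=
  {x | ∀ j, 20 * r + 20 < G.dist (a j 0) x}

/-- the component of `UU` which contains the hub -/
def HH {V : Type u} {k : ℕ} (G : SimpleGraph V) (r : ℕ) (a : Fin k → ℤ → V) (Hb : Set V) : Set V :=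
  {x | ∃ y ∈ Hb, Jn G (UU G r a) x y}

/-- the boundary of the ball number `j` -/
def bd {V : Type u} {k : ℕ} (G : SimpleGraph V) (r : ℕ) (a : Fin k → ℤ → V) (j : Fin k) : Set V :=
  {x | x ∈ UU G r a ∧ G.dist (a j 0) x = 20 * r + 21}

/-- `HH` together with the legs, the legs interrupted near the positions `lam l` -/
def Kl {V : Type u} {k : ℕ} (G : SimpleGraph V) (r : ℕ) (a : Fin k → ℤ → V) (Hb : Set V)
    (lam : Fin k → ℤ) : Set V :=
  HH G r a Hb ∪ {x | ∃ (l : Fin k) (t : ℤ), t.natAbs ≤ 20 * r + 21 ∧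
    r + 1 ≤ (t - lam l).natAbs ∧ a l t = x}

/-- the point `x` is attached to the new vertex `c = (j, b)` of `ZZ` -/
def Att {V : Type u} {k : ℕ} (G : SimpleGraph V) (r : ℕ) (a : Fin k → ℤ → V) (Hb : Set V)
    (c : Fin k × Bool) (x : V) : Prop :=
  x ∈ bd G r a c.1 ∧ (c.2 = false ↔ (x ∈ HH G r a Hb ∧
    G.dist (a c.1 (-(20 * (r : ℤ) + 21))) x ≤ 6 * r + 5))

/-- the graph `G` cut open: vertices `UU` and new vertices `(j, true)`, `(j, false)` -/
def ZZ {V : Type u} {k : ℕ} (G : SimpleGraph V) (r : ℕ) (a : Fin k → ℤ → V) (Hb : Set V) :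
    SimpleGraph (↥(UU G r a) ⊕ (Fin k × Bool)) where
  Adj
    | .inl x, .inl y => G.Adj (x : V) (y : V)
    | .inl x, .inr c => Att G r a Hb c (x : V)
    | .inr c, .inl x => Att G r a Hb c (x : V)
    | .inr _, .inr _ => False
  symm := ⟨by
    rintro (x | c) (y | d) h
    · exact (G.adj_comm _ _).mp h
    · exact h
    · exact h
    · exact h⟩
  loopless := ⟨by
    rintro (x | c) h
    · exact (G.ne_of_adj h) rfl
    · exact h⟩

/-- constants -/
def S2 (r k : ℕ) : ℕ := (2 * k + 1) * (4 * r + 1) + r + 1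
/-- constants -/
def S1 (r k : ℕ) : ℕ := 3 * (S2 r k + 1) + 12 * r + 12
/-- constants -/
def S0 (r k : ℕ) : ℕ := (2 * k + 1) * (2 * S1 r k + 1)
/-- the constant of the quasi-isometry -/
def Kc (r s : ℕ) : ℕ := (20 * r + 21) * (12 * s + 4)
/-- the scales: `rs l 0 = l + 1`, `rs l (n + 1) = 30 * rs l n + 30` -/
def rs (l : ℕ) : ℕ → ℕ
  | 0 => l + 1
  | n + 1 => 30 * rs l n + 30

/-- a graph with a level function: adjacent vertices have different levels and every vertex has at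
most one lower neighbour -/
structure LevTree {W : Type u} (Γ : SimpleGraph W) (lev : W → ℕ) : Prop where
  ne : ∀ x y, Γ.Adj x y → lev x ≠ lev y
  uniq : ∀ x y z, Γ.Adj x y → Γ.Adj x z → lev y < lev x → lev z < lev x → y = z

/-! ### The modules -/

/-- **BOU** (100 lines).  A system of size `c` and radius `l + 1` gives the induced minor.
Proof.  `ρ = l + 1`, so `m i ≤ ρ`.  Branch sets: `(i, q) ↦ {a i q}` (`0 ≤ q ≤ m i - 1 < ρ`),
`none ↦ F := Hb ∪ ⋃_i {a i t | -(ρ+1) ≤ t ≤ -1} ∪ ⋃_i {a i t | m i ≤ t ≤ ρ + 1}`.  `F` is connected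
(`Cn.union_iUnion` twice; `a i (±(ρ+1)) ∈ Hb`; `Geod.cn`), see `cn_iff`.  Distances: for the same leg
`dist (a i s) (a i t) = |s - t|`; for `i ≠ j`, `|s|, |t| ≤ ρ + 1`: `dist (a i s) (a j t) ≥
2ρ + 4 - |s| - |t|`, so it is `≥ 2` if `|s| ≤ ρ` and `|t| ≤ ρ + 1`.. (`≥ 3`); for `x ∈ Hb`:
`dist (a i q) x ≥ ρ + 1 - q`, which is `≥ 2` for `q ≤ ρ - 1`, hence for all `q ≤ m i - 1`
(as `m i ≤ l = ρ - 1`, even `≥ 3`).  So the branch sets are disjoint, `a i q ~ a j q'` iff `i = j` and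
`|q - q'| = 1`, and `a i q` has a neighbour in `F` iff it has a neighbour among
`a i t`, `t ≤ -1` or `t ≥ m i`, i.e. iff `q = 0` or `q = m i - 1`. -/
def SpecBOU : Prop :=
  ∀ (V : Type u) (G : SimpleGraph V), G.Connected → ∀ (c l : ℕ) (m : Fin c → ℕ),
    (∀ i, 2 ≤ m i) → (∀ i, m i ≤ l) → ∀ (a : Fin c → ℤ → V) (Hb : Set V),
    Sys G (l + 1) c a Hb → IsInducedMinor (bouquet m) G

/-- **SCA** (40 lines).  Choice of the scale.
Proof.  Let `P k` be the statement: there is a system of size `k` and radius `rs l (c - k)`.  `P 0`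
holds (`Hb = {v}`, no legs), `P c` fails.  Take `k < c` with `P k` and not `P (k + 1)`
(induction).  `r := rs l (c - (k + 1)) ≥ 1` and `rs l (c - k) = 30 r + 30` as
`c - k = (c - (k+1)) + 1`. -/
def SpecSCA : Prop :=
  ∀ (V : Type u) (G : SimpleGraph V), G.Connected → ∀ (c l : ℕ),
    (∀ (a : Fin c → ℤ → V) (Hb : Set V), ¬ Sys G (l + 1) c a Hb) →
    ∃ k < c, ∃ (a : Fin k → ℤ → V) (Hb : Set V), Setup G (rs l (c - (k + 1))) k a Hb

/-- **PRI** (80 lines).  The principle used for all contradictions: one more leg `b` and the old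
legs recentred at `lam l`, with a common hub `F`.
Proof.  `Setup.no` for the legs `Fin.cons b (fun l t => a l (lam l + t))` and the hub `F`:
`geo` by `Geod.shift` (`|lam l| + (r + 1) ≤ 30 r + 31`); `sep`: new against old is the hypothesis,
old against old: `dist (a i (lam i)) (a j (lam j)) ≥ dist (a i 0) (a j 0) - |lam i| - |lam j| ≥
2 (30 r + 30) + 4 - 2 (29 r + 30) = 2 r + 4`; the other fields are hypotheses. -/
def SpecPRI : Prop :=
  ∀ (V : Type u) (G : SimpleGraph V) (r k : ℕ) (a : Fin k → ℤ → V) (Hb : Set V),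
    Setup G r k a Hb → ∀ (lam : Fin k → ℤ) (b : ℤ → V) (F : Set V),
    (∀ l, (lam l).natAbs ≤ 29 * r + 30) → Geod G (r + 1) b → Cn G F →
    b ((r : ℤ) + 1) ∈ F → b (-((r : ℤ) + 1)) ∈ F →
    (∀ l, a l (lam l + ((r : ℤ) + 1)) ∈ F) → (∀ l, a l (lam l - ((r : ℤ) + 1)) ∈ F) →
    (∀ l, 2 * r + 4 ≤ G.dist (b 0) (a l (lam l))) →
    (∀ x ∈ F, r < G.dist (b 0) x) →
    (∀ l, ∀ x ∈ F, r < G.dist (a l (lam l)) x) → False

/-- **HFA** (120 lines).  Facts on `HH`.
Proof.  (1) `Jn.left`.  (2) `Hb ⊆ UU` by `Sys.far` (`30 r + 30 ≥ 20 r + 20`), so `Hb` is connected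
inside `UU`.  (3) For `20 r + 21 ≤ |t| ≤ 30 r + 31`: `dist (a l 0) (a l t) = |t| > 20 r + 20`; for
`i ≠ l`: `dist (a i 0) (a l t) ≥ 60 r + 64 - |t| ≥ 30 r + 33`; so the part of the leg from `t` to
`± (30 r + 31)` is in `UU`, connected, and its end is in `Hb`.  (4) transitivity.  (5) any two points
of `HH` are joined in `UU` through `Hb` (connected, `Hb ⊆ UU`), and all vertices of a walk in `UU`
from a point of `HH` are in `HH` (take initial segments: `Jn.induct` with the predicate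
`fun z => z ∈ HH ∧ Jn G HH x z`).  (6) Take a walk of `G` from `x` to a point `h` of `Hb`
(`Jn.induct` for the walk in `S = univ`, predicate `z ∈ UU ∧ Jn G UU x z ∨ (the conclusion)`):
if a step `z → z'` leaves `UU`, there is `j` with `dist (a j 0) z' ≤ 20 r + 20`, so
`dist (a j 0) z ≤ 20 r + 21`, so `z ∈ bd j`.  At the end `Jn G UU x h`, so `x ∈ HH`: contradiction.
(7) The same computation.  (8) `± (20 r + 21)`: `dist (a j 0) (a j (±(20 r + 21))) = 20 r + 21` and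
(3) gives membership in `UU`. -/
def SpecHFA : Prop :=
  ∀ (V : Type u) (G : SimpleGraph V) (r k : ℕ) (a : Fin k → ℤ → V) (Hb : Set V),
    Setup G r k a Hb →
    (HH G r a Hb ⊆ UU G r a) ∧ (Hb ⊆ HH G r a Hb) ∧
    (∀ (l : Fin k) (t : ℤ), 20 * r + 21 ≤ t.natAbs → t.natAbs ≤ 30 * r + 31 →
      a l t ∈ HH G r a Hb) ∧
    (∀ x y, x ∈ HH G r a Hb → Jn G (UU G r a) x y → y ∈ HH G r a Hb) ∧
    (Cn G (HH G r a Hb)) ∧
    (∀ x ∈ UU G r a, x ∉ HH G r a Hb → ∃ j, ∃ y ∈ bd G r a j, Jn G (UU G r a) x y) ∧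
    (∀ x y, x ∉ UU G r a → y ∈ UU G r a → G.Adj x y → ∃ j, y ∈ bd G r a j) ∧
    (∀ j, a j (20 * (r : ℤ) + 21) ∈ bd G r a j ∧ a j (-(20 * (r : ℤ) + 21)) ∈ bd G r a j)

/-- **KHB** (100 lines, uses HFA).  The sets `Kl`.
Proof.  `Kl = HH ∪ ⋃_l {a l t | lam l + r + 1 ≤ t ≤ 20 r + 21} ∪ ⋃_l {a l t | -(20 r + 21) ≤ t ≤
lam l - r - 1}`; these parts are nonempty as `|lam l| ≤ 19 r + 20`, connected (`Geod.cn`), and contain
`a l (±(20 r + 21)) ∈ HH` (HFA 3); `HH` is connected (HFA 5).  Distances to `a l (lam l)`: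
`x ∈ HH ⊆ UU`: `≥ 20 r + 21 - |lam l| ≥ r + 1`; `x = a l t`: `|t - lam l| ≥ r + 1`; `x = a i t`,
`i ≠ l`: `≥ 60 r + 64 - (20 r + 21) - (19 r + 20) > r`. -/
def SpecKHB : Prop :=
  ∀ (V : Type u) (G : SimpleGraph V) (r k : ℕ) (a : Fin k → ℤ → V) (Hb : Set V),
    Setup G r k a Hb → ∀ lam : Fin k → ℤ, (∀ l, (lam l).natAbs ≤ 19 * r + 20) →
    Cn G (Kl G r a Hb lam) ∧
    (∀ l, a l (lam l + ((r : ℤ) + 1)) ∈ Kl G r a Hb lam ∧
      a l (lam l - ((r : ℤ) + 1)) ∈ Kl G r a Hb lam) ∧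
    (∀ l, ∀ x ∈ Kl G r a Hb lam, r < G.dist (a l (lam l)) x)

/-- **FAR** (220 lines, uses HFA, PRI, KHB).  A boundary point far from `p_i^±` does not exist.
Write `v_l = a l 0`, `p_l^± = a l (±(20 r + 21))`.
Proof.  `dist (p_j^+) (p_j^-) = 40 r + 42 > 2 (6 r + 5)`, so there is a sign `N ∈ {1, -1}` with
`dist x' (a j (N (20 r + 21))) > 6 r + 5`.  Let `lam l := if l = j then N (19 r + 20) else 19 r + 20`
and `c_l := a l (lam l)`.  Let `g` be a geodesic from `v_i` to `x` (`exists_geo`, length `20 r + 21`),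
`g'` one from `v_j` to `x'` (length `20 r + 21`), `w := g (19 r + 20)`, `b t := g (19 r + 20 + t)`
(`Geo.geod`), so `b (r + 1) = x` and `b (-(r+1)) = g (18 r + 19)`.  Let `C := {y | Jn G UU x y}`
(connected, contains `x` and `x'`) and
`F := Kl lam ∪ {g s | s ≤ 18 r + 19} ∪ {g' s | s ≤ 20 r + 21} ∪ C`.  `F` is connected: `v_i, v_j ∈ Kl lam`
(`|0 - lam l| = 19 r + 20 ≥ r + 1`), `g' (20 r + 21) = x' ∈ C`.  Apply PRI:
* `F` avoids `B(w, r)` (`dist v_i w = 19 r + 20`): `y ∈ UU` (this covers `HH` and `C`):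
  `dist w y ≥ 20 r + 21 - (19 r + 20)`.  `g s`, `s ≤ 18 r + 19`: distance `≥ r + 1`.  `a l t`,
  `|t| ≤ 20 r + 21`, `l ≠ i`: `≥ 60 r + 64 - (19 r + 20) - (20 r + 21)`.  `a i t`, `|t| ≤ 20 r + 21`: if
  `dist w (a i t) ≤ r` then `|t| ≥ 18 r + 20`, so `a i t` is at distance `≤ 2 r + 1` from one of
  `p_i^±`, and `dist x p_i^± ≤ (r + 1) + r + (2 r + 1) = 4 r + 2`: contradiction.  `g' s` for `j ≠ i`:
  far.  `g' s` for `j = i`: if `dist w (g' s) ≤ r` then `s ≥ 18 r + 20`, `dist (g' s) x' ≤ 2 r + 1`,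
  `dist x x' ≤ 4 r + 2`: contradiction.
* `F` avoids `B(c_l, r)`: `Kl` by KHB.  `C ⊆ UU`: `≥ 20 r + 21 - (19 r + 20)`.  `g s` (`s ≤ 18 r + 19`):
  for `l = i`: `≥ 19 r + 20 - s ≥ r + 1`, for `l ≠ i`: far.  `g' s`: for `l ≠ j` far; for `l = j`: if
  `dist c_j (g' s) ≤ r` then `s ≥ 18 r + 20`, `dist (g' s) x' ≤ 2 r + 1`,
  `dist x' (a j (N (20 r + 21))) ≤ (2 r + 1) + r + (r + 1) = 4 r + 2`: contradiction to the choice of `N`.
* `dist w c_l ≥ 2 r + 4`: for `l ≠ i` far (`60 r + 64 - 2 (19 r + 20)`); for `l = i`: `c_i` is at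
  distance `r + 1` from one of `p_i^±`, so `dist w c_i ≤ 2 r + 3` would give
  `dist x p_i^± ≤ (r + 1) + (2 r + 3) + (r + 1) = 4 r + 5`: contradiction. -/
def SpecFAR : Prop :=
  ∀ (V : Type u) (G : SimpleGraph V) (r k : ℕ) (a : Fin k → ℤ → V) (Hb : Set V),
    Setup G r k a Hb → ∀ (i j : Fin k) (x x' : V), x ∈ bd G r a i → x' ∈ bd G r a j →
    Jn G (UU G r a) x x' → (i ≠ j ∨ 6 * r + 5 < G.dist x x') →
    6 * r + 5 < G.dist (a i (20 * (r : ℤ) + 21)) x →
    6 * r + 5 < G.dist (a i (-(20 * (r : ℤ) + 21))) x → False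

/-- **NEA** (220 lines, uses HFA, PRI).  A component `≠ HH` of `UU` does not touch two different
`p`-points.  `N, N' ∈ {1, -1}` are signs, `p = a i (N (20 r + 21))`, `p' = a j (N' (20 r + 21))`.
Proof.  New leg on the outer part of the leg `i`: `w := a i (N (25 r + 26))`,
`b t := a i (N (25 r + 26 + t))`, a geodesic segment of radius `r + 1` (`26 r + 27 ≤ 30 r + 31`);
`lam = 0`.  `g1` = geodesic from `p` to `x`, `g2` = geodesic from `p'` to `x'`, both of length
`≤ 6 r + 5`; every point of `g1` is at distance `≤ 3 r + 2` from `p` or from `x`, both at distance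
`20 r + 21` from `v_i`, so it is at distance in `[17 r + 19, 23 r + 23]` from `v_i`; the same for `g2`
and `v_j`.  `C := {y | Jn G UU x y}`, disjoint from `HH` (HFA 4).  Hub:
`F := Hb ∪ (all a l t with r + 1 ≤ |t| ≤ 30 r + 31, except those with l = i and
|t - N (25 r + 26)| ≤ r) ∪ g1 ∪ C ∪ g2`.
Connected: the parts `{a l t | r + 1 ≤ ± t ≤ 30 r + 31}` for `(l, ±) ≠ (i, N)` and the part
`{a i t | 26 r + 27 ≤ N t ≤ 30 r + 31}` are attached to `Hb` at their ends; the remaining part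
`{a i t | r + 1 ≤ N t ≤ 24 r + 25}` contains `p`; `p – g1 – x – C – x' – g2 – p'` and `p'` is in one
of the parts attached to `Hb` as `(j, N') ≠ (i, N)`.
`F` avoids `B(w, r)`: `Hb`: `≥ 30 r + 31 - (25 r + 26)`; `a i t`: `|t - N (25 r + 26)| ≥ r + 1`;
`a l t`, `l ≠ i`: `≥ 60 r + 64 - (25 r + 26) - (30 r + 31)`; `g1`: `≥ 25 r + 26 - (23 r + 23)`; `g2`:
the same if `j = i`, and far if `j ≠ i`; `C`: every `y` with `dist w y ≤ r` is in `HH`, because a
geodesic from `w` to `y` stays at distance `≥ 24 r + 26` from `v_i` and `≥ 60 r + 64 - (26 r + 26)`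
from the other `v_l`, so it is in `UU`, and `w ∈ HH` (HFA 3).
`F` avoids `B(v_l, r)`: `Hb` yes; `a l t`: `|t| ≥ r + 1`; `a l' t`, `l' ≠ l`:
`≥ 60 r + 64 - (30 r + 31)`; `C ⊆ UU`; `g1, g2`: `≥ 17 r + 19`, or far.
`dist w v_i = 25 r + 26 ≥ 2 r + 4`, `dist w v_l ≥ 60 r + 64 - (25 r + 26)`.  Apply PRI. -/
def SpecNEA : Prop :=
  ∀ (V : Type u) (G : SimpleGraph V) (r k : ℕ) (a : Fin k → ℤ → V) (Hb : Set V),
    Setup G r k a Hb → ∀ (i j : Fin k) (N N' : ℤ) (x x' : V), (N = 1 ∨ N = -1) →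
    (N' = 1 ∨ N' = -1) → (i ≠ j ∨ N ≠ N') → x ∈ bd G r a i → x' ∈ bd G r a j →
    Jn G (UU G r a) x x' → x ∉ HH G r a Hb →
    G.dist (a i (N * (20 * (r : ℤ) + 21))) x ≤ 6 * r + 5 →
    G.dist (a j (N' * (20 * (r : ℤ) + 21))) x' ≤ 6 * r + 5 → False

/-- **STR** (60 lines, uses HFA, FAR, NEA).
Proof.  (H) Suppose both distances are `> 6 r + 5`; FAR with `i = j` and `x' := a j (20 r + 21)`
(in `bd j ∩ HH`, joined to `x` in `UU` as both are in `HH`, at distance `> 6 r + 5` from `x`).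
(C) Suppose not (`i = j` and `dist ≤ 12 r + 10`).  Then `i ≠ j` or `dist x x' > 6 r + 5`, so by FAR
(for `x, x'` and for `x', x`) `x` is within `6 r + 5` of `p = a i (N (20 r + 21))` and `x'` within
`6 r + 5` of `p' = a j (N' (20 r + 21))` for signs `N, N'`.  If `i = j` and `N = N'` then
`dist x x' ≤ 12 r + 10`; otherwise NEA. -/
def SpecSTR : Prop :=
  ∀ (V : Type u) (G : SimpleGraph V) (r k : ℕ) (a : Fin k → ℤ → V) (Hb : Set V),
    Setup G r k a Hb →
    (∀ j, ∀ x ∈ bd G r a j, x ∈ HH G r a Hb →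
      G.dist (a j (20 * (r : ℤ) + 21)) x ≤ 6 * r + 5 ∨
      G.dist (a j (-(20 * (r : ℤ) + 21))) x ≤ 6 * r + 5) ∧
    (∀ i j, ∀ x ∈ bd G r a i, ∀ x' ∈ bd G r a j, Jn G (UU G r a) x x' → x ∉ HH G r a Hb →
      i = j ∧ G.dist x x' ≤ 12 * r + 10)

/-- **ZCO** (80 lines, uses HFA).  The cut open graph is connected.
Proof.  A walk of `G` in `UU` is a walk of `ZZ` (between `inl` vertices).  `HH` is nonempty and
connected.  `(j, false)` is adjacent to `p_j^- = a j (-(20 r + 21)) ∈ bd j ∩ HH` (distance `0`);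
`(j, true)` is adjacent to `p_j^+ ∈ bd j ∩ HH` (`dist p_j^- p_j^+ = 40 r + 42 > 6 r + 5`).  A point
`x ∈ UU`, `x ∉ HH`, is joined in `UU` to some `y ∈ bd j` (HFA 6), `y ∉ HH` (HFA 4), so `y` is adjacent
to `(j, true)`. -/
def SpecZCO : Prop :=
  ∀ (V : Type u) (G : SimpleGraph V) (r k : ℕ) (a : Fin k → ℤ → V) (Hb : Set V),
    Setup G r k a Hb → (ZZ G r a Hb).Connected

/-- **CMP** (150 lines, uses HFA, ZCO).  Far from the new vertices the metrics of `ZZ` and `G` agree.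
Proof.  Write `d_Z`.  Every `y ∈ bd j` is adjacent in `ZZ` to a new vertex: `(j, b)` with `b = false`
iff the condition in `Att` holds.  (W) A geodesic of `ZZ` from `inl y` to `inl y'` all of whose
vertices are at `d_Z`-distance `≤ S1` from `inl x1` contains no new vertex, so it is a walk of `G` in
`UU`, and `dist_G y y' ≤ d_Z`.  (A) For `n ≤ S1`: if `dist_G x1 y = n` then `Jn G UU x1 y` and
`d_Z (x1, y) ≤ n`: induction; for `n + 1` let `y0` be the previous vertex of a geodesic;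
`d_Z (x1, y0) ≤ n ≤ S1 - 1`, so `y0` is in no `bd j` (else a new vertex is at distance `≤ S1`); so
`y ∈ UU` (HFA 7) and `y0 ~ y` in `ZZ`.  By (W) (vertices on a geodesic from `x1`) also
`dist_G x1 y ≤ d_Z (x1, y)`; this is the first claim.  Second claim: if `y ∈ bd j` and
`dist_G x1 y ≤ S1 - 1` then `d_Z ≤ S1 - 1` and a new vertex at distance `≤ S1`: contradiction.
Third claim: `≤` by (W) (the vertices of the `ZZ`-geodesic from `y` to `y'` are at distance
`≤ d_Z(x1, y) + d_Z(y, y') ≤ S1` from `x1`).  `≥`: a `G`-geodesic from `y` to `y'` has length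
`n ≤ d_Z(y, y')`; its vertices `z` satisfy `dist_G x1 z ≤ dist_G x1 y + n ≤ S1` (and
`dist_G x1 y ≤ d_Z(x1, y)` by (W)), so they are in `UU` by (A), so it is a walk of `ZZ`. -/
def SpecCMP : Prop :=
  ∀ (V : Type u) (G : SimpleGraph V) (r k : ℕ) (a : Fin k → ℤ → V) (Hb : Set V),
    Setup G r k a Hb → ∀ (x1 : ↥(UU G r a)) (s : ℕ),
    (∀ c, s < (ZZ G r a Hb).dist (.inl x1) (.inr c)) →
    (∀ y : V, G.dist (x1 : V) y ≤ s → Jn G (UU G r a) (x1 : V) y ∧
      ∀ hy : y ∈ UU G r a, (ZZ G r a Hb).dist (.inl x1) (.inl ⟨y, hy⟩) = G.dist (x1 : V) y) ∧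
    (∀ j, ∀ y ∈ bd G r a j, s ≤ G.dist (x1 : V) y) ∧
    (∀ y y' : ↥(UU G r a), (ZZ G r a Hb).dist (.inl x1) (.inl y) +
      (ZZ G r a Hb).dist (.inl y) (.inl y') ≤ s →
      G.dist (y : V) (y' : V) = (ZZ G r a Hb).dist (.inl y) (.inl y'))

/-- **REC** (50 lines).  Recentring a loop.
Proof.  `F' := F ∪ {a t | s + s1 + 1 ≤ t ≤ s0 + 1} ∪ {a t | -(s0 + 1) ≤ t ≤ s - s1 - 1}` (both parts
nonempty since `|s| + s1 ≤ s0`, attached to `F` at `a (±(s0 + 1))`).  For `x ∈ F`: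
`dist (a s) x ≥ dist (a 0) x - |s| ≥ s0 + 1 - |s| > s1`. -/
def SpecREC : Prop :=
  ∀ (W : Type u) (Z : SimpleGraph W), Z.Connected → ∀ (s0 s1 : ℕ) (s : ℤ),
    s.natAbs + s1 ≤ s0 → ∀ (a : ℤ → W) (F : Set W), Loop Z s0 a F →
    ∃ F' : Set W, Loop Z s1 (fun t => a (s + t)) F'

/-- **PIG** (70 lines, uses REC).  A loop far from finitely many vertices.
Proof.  Let `n = Nat.card ι`.  Suppose for every `i ≤ n` the point `a (i (2 s1 + 1))` is within `s1` of
some `c (φ i)`.  Pigeonhole: `φ i = φ i'` for some `i ≠ i'`, so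
`dist (a (i (2 s1 + 1))) (a (i' (2 s1 + 1))) ≤ 2 s1`, but it is `≥ 2 s1 + 1` (all positions are
`≤ n (2 s1 + 1) ≤ s0 + 1`).  So some `s = i (2 s1 + 1)` is good; REC with this `s`. -/
def SpecPIG : Prop :=
  ∀ (W : Type u) (Z : SimpleGraph W), Z.Connected → ∀ (ι : Type) [Finite ι] (c : ι → W)
    (s0 s1 : ℕ), Nat.card ι * (2 * s1 + 1) + s1 ≤ s0 → ∀ (a : ℤ → W) (F : Set W),
    Loop Z s0 a F → ∃ (a' : ℤ → W) (F' : Set W), Loop Z s1 a' F' ∧ ∀ i, s1 < Z.dist (a' 0) (c i)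

/-- **PHI** (150 lines, uses HFA, STR).  The map used to transfer connected sets from `ZZ` to `G`.
Proof.  Balls are connected (`ball_cn`).  Case `x1 ∈ HH`.  For `x ∈ UU`, `x ∉ HH` there are `j` and
`y ∈ bd j` with `Jn G UU x y` (HFA 6), and `j =: J x` is unique (STR C for two such `y, y'`; they are
joined in `UU` and not in `HH` by HFA 4); `J` is constant on components.  `Φ (inl x) = {x}` for
`x ∈ HH`, `Φ (inl x) = B(p_(J x)^+, 6 r + 5)` for `x ∉ HH`, `Φ (inr (j, true)) = B(p_j^+, 6 r + 5)`,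
`Φ (inr (j, false)) = B(p_j^-, 6 r + 5)` with `p_j^± = a j (±(20 r + 21)) ∈ bd j`.  Adjacent pairs:
`inl x, inl x'` both in `HH`: adjacent in `G`; both not in `HH`: the same ball (same component); mixed:
impossible (HFA 4).  `inl x, inr (j, b)`, `x ∈ bd j`: if `x ∉ HH` then `b = true` and `J x = j`, the
same ball; if `x ∈ HH` and `b = false`, then `x ∈ B(p_j^-, 6 r + 5)` by `Att`; if `x ∈ HH` and
`b = true`, then `dist p_j^- x > 6 r + 5`, so `x ∈ B(p_j^+, 6 r + 5)` by STR H.  Last property: if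
`Jn G UU x1 x` then `x ∈ HH`.
Case `x1 ∉ HH`.  HFA 6: `x0 ∈ bd j0` with `Jn G UU x1 x0`, `x0 ∉ HH`.  `Φ (inl x) = {x}` if
`Jn G UU x1 x`, all other values are `B(x0, 12 r + 10)`.  Adjacent pairs: `inl x, inl x'` adjacent:
both or none joined to `x1`.  `inl x, inr (j, b)` with `Jn G UU x1 x`: `x ∈ bd j`, so by STR C
(for `x0, x`) `dist x0 x ≤ 12 r + 10`. -/
def SpecPHI : Prop :=
  ∀ (V : Type u) (G : SimpleGraph V) (r k : ℕ) (a : Fin k → ℤ → V) (Hb : Set V),
    Setup G r k a Hb → ∀ x1 ∈ UU G r a,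
    ∃ Φ : ↥(UU G r a) ⊕ (Fin k × Bool) → Set V,
      (∀ y, Cn G (Φ y)) ∧
      (∀ y y', (ZZ G r a Hb).Adj y y' → ∃ x ∈ Φ y, ∃ x' ∈ Φ y', x = x' ∨ G.Adj x x') ∧
      (∀ y, (∃ x : ↥(UU G r a), y = .inl x ∧ Φ y = {(x : V)}) ∨
        (∃ j, ∃ w ∈ bd G r a j, Φ y ⊆ {z | G.dist w z ≤ 12 * r + 10})) ∧
      (∀ x : ↥(UU G r a), Jn G (UU G r a) x1 (x : V) → Φ (.inl x) = {(x : V)})

/-- **TRF** (150 lines, uses ZCO, CMP, REC, PHI).  Transfer of a loop of `ZZ` to `G`.
Proof.  REC (with `s = 0`) gives `F1` with `Loop ZZ s2 β F1` (`β t = α (0 + t)`; `0 + t = t`).  For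
`|t| ≤ s2 + 1`: `d_Z (α 0, α t) = |t| ≤ s1`, so `α t` is not a new vertex: `α t = inl (b t)`
(define `b : ℤ → V` by cases; `b t = b 0` arbitrary elsewhere).  `x1 := b 0`.  By CMP (third claim,
`|s| + |s - t| ≤ 3 (s2 + 1) ≤ s1`) `dist_G (b s) (b t) = |s - t|`: `Geod G (s2 + 1) b`.  Let `Φ` be
given by PHI for `x1`, `F2 := {x | ∃ y ∈ F1, x ∈ Φ y}`, connected by `Cn.map`.  `b (±(s2 + 1)) ∈ F2`:
`dist_G x1 (b (±(s2+1))) = s2 + 1 ≤ s1`, so `Jn G UU x1 (b (±(s2+1)))` by CMP 1, so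
`Φ (α (±(s2+1))) = {b (±(s2+1))}`.  Let `y ∈ F2`, `y ∈ Φ z`, `z ∈ F1`.  If `z = inl y`, `Φ z = {y}`:
if `dist_G x1 y ≤ s2` then `d_Z (α 0, z) = dist_G x1 y ≤ s2` (CMP 1), contradiction to `Loop.far`;
and `dist_G (a j 0) y > 20 r + 20` as `y ∈ UU`.  Otherwise `y` is within `12 r + 10` of some `w ∈ bd i`:
`dist_G x1 w ≥ s1` (CMP 2), so `dist_G x1 y ≥ s1 - (12 r + 10) > s2`; and
`dist_G (a j 0) y ≥ 20 r + 21 - (12 r + 10) > 8 r + 10`.  The last claim is CMP 1. -/
def SpecTRF : Prop :=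
  ∀ (V : Type u) (G : SimpleGraph V) (r k : ℕ) (a : Fin k → ℤ → V) (Hb : Set V),
    Setup G r k a Hb → ∀ (s1 s2 : ℕ), 3 * (s2 + 1) + 12 * r + 12 ≤ s1 →
    ∀ (α : ℤ → ↥(UU G r a) ⊕ (Fin k × Bool)) (F : Set (↥(UU G r a) ⊕ (Fin k × Bool))),
    Loop (ZZ G r a Hb) s1 α F → (∀ c, s1 < (ZZ G r a Hb).dist (α 0) (.inr c)) →
    ∃ (b : ℤ → V) (F2 : Set V), Loop G s2 b F2 ∧ b 0 ∈ UU G r a ∧
      (∀ y ∈ F2, ∀ j, 8 * r + 10 < G.dist (a j 0) y) ∧
      (∀ y, G.dist (b 0) y ≤ s1 → Jn G (UU G r a) (b 0) y)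

/-- **RHH** (250 lines, uses HFA, PRI).  Relocation when the loop is in `HH`.
Notation `v_i = a i 0`, `T = s2 + 1`; `b t ∈ UU` for `|t| ≤ T` (as `dist (b 0) (b t) = |t| ≤ s1`).
Proof.  For `i` and a sign let `p = a i (±(20 r + 21)) ∈ HH`.  Since `b 0, p ∈ HH`, `Jn G UU p (b 0)`.
Let `n_p` be the least length of a walk in `UU` (function `g : ℕ → V`, `g 0 = p`, `g s ∈ UU` for
`s ≤ n`, consecutive vertices adjacent, `Jn.exists_length`) from `p` to some `b t`, `|t| ≤ T`; fix such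
a walk `π_p` of length `n_p` with end `b (t_p)`.  Pigeonhole (`2 k` points `p`, index type
`Fin k × Bool`): among the `2 k + 1` integers `i (4 r + 1)`, `0 ≤ i ≤ 2 k`, there is `t'` with
`|t' - t_p| > 2 r` for all `p` (two of them within `2 r` of the same `t_p` would be at distance
`≤ 4 r`).  Put `w = b t'`, `t' + r + 1 ≤ s2` (hypothesis on `s2`).
(*) `π_p` avoids `B(w, r)`: let `y = π_p s` with `dist w y ≤ r`.  All vertices of a `G`-geodesic from
`y` to `w` are within `r` of `w`, so within `r + t' ≤ s1` of `b 0`, so in `UU`.  Following `π_p` up to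
`y` and then this geodesic gives a walk in `UU` from `p` to `b t'` of length `≤ s + r`; so
`n_p ≤ s + r`.  The rest of `π_p` gives `dist y (b (t_p)) ≤ n_p - s ≤ r`, so
`|t' - t_p| = dist w (b (t_p)) ≤ 2 r`: contradiction.
Hub `F := F2 ∪ {b t | |t| ≤ T, |t - t'| ≥ r + 1} ∪ ⋃_p π_p ∪ ⋃_i {a i t | r + 1 ≤ |t| ≤ 20 r + 21}`:
connected, since `b (±T) ∈ F2`, `b (t_p)` is in the second part (`2 r ≥ r + 1`), `π_p` contains `p`.
PRI with `lam = 0` and the leg `fun t => b (t' + t)` (`|t'| + r + 1 ≤ T`, `Geod.shift`):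
`B(w, r)` is avoided: `F2`: `dist (b 0) y > s2` gives `dist w y > s2 - t' ≥ r`; second part by
`Geod`; `π_p` by (*); `a i t`: for `|t| ≤ 20 r + 20` it is not in `UU`, so
`dist (b 0) (a i t) > s1 ≥ t' + r`; for `|t| = 20 r + 21` it is a vertex of `π_p`.
`B(v_i, r)` is avoided: `F2` by hypothesis (`8 r + 10 ≥ r`); the second part and `π_p` are in `UU`;
`a i t`: `|t| ≥ r + 1`; `a l t`, `l ≠ i`: `≥ 60 r + 64 - (20 r + 21)`.
`dist w v_i ≥ 2 r + 4`: else `dist (b 0) v_i ≤ t' + 2 r + 3 ≤ s1` and `v_i ∈ UU`: contradiction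
(`dist v_i v_i = 0`). -/
def SpecRHH : Prop :=
  ∀ (V : Type u) (G : SimpleGraph V) (r k : ℕ) (a : Fin k → ℤ → V) (Hb : Set V),
    Setup G r k a Hb → ∀ (s1 s2 : ℕ), (2 * k + 1) * (4 * r + 1) + r + 1 ≤ s2 →
    s2 + 2 * r + 4 ≤ s1 → ∀ (b : ℤ → V) (F2 : Set V), Loop G s2 b F2 → b 0 ∈ HH G r a Hb →
    (∀ y ∈ F2, ∀ j, 8 * r + 10 < G.dist (a j 0) y) →
    (∀ y, G.dist (b 0) y ≤ s1 → Jn G (UU G r a) (b 0) y) → False

/-- **RCC** (220 lines, uses HFA, PRI, KHB).  Relocation when the loop is in another component.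
Notation as in RHH: `T = s2 + 1`, `b t ∈ UU` for `|t| ≤ T`.
Proof.  Let `K := HH ∪ {a l t | |t| ≤ 20 r + 21}` (nonempty).  Choose `t0` with `|t0| ≤ T` and
`q0 ∈ K` with `n = dist (b t0) q0` minimal among all such pairs; `g` = geodesic of `G` from `b t0` to
`q0`.  Choose `t' ∈ {0, 4 r + 1}` with `|t' - t0| > 2 r` and, for every `l`, `lam l ∈ {0, 4 r + 1}` with
`dist q0 (a l (lam l)) > 2 r` (possible since `dist (a l 0) (a l (4 r + 1)) = 4 r + 1`).  `w = b t'`.
`g` avoids `B(w, r)`: if `dist w (g s) ≤ r`, then `n ≤ dist w q0 ≤ r + (n - s)` by minimality, so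
`s ≤ r` and `|t' - t0| = dist w (b t0) ≤ 2 r`: contradiction.  `g` avoids `B(a l (lam l), r)`: if
`dist (a l (lam l)) (g s) ≤ r`, then `n ≤ dist (b t0) (a l (lam l)) ≤ s + r` (`a l (lam l) ∈ K`), so
`n - s ≤ r` and `dist q0 (a l (lam l)) ≤ 2 r`: contradiction.
Hub `F := F2 ∪ {b t | |t| ≤ T, |t - t'| ≥ r + 1} ∪ g ∪ Kl lam`.  Connected: `b (±T) ∈ F2`; `b t0` is
in the second part (`2 r ≥ r + 1`, `r ≥ 1`); `q0 ∈ Kl lam` (either in `HH`, or `q0 = a l t` with
`|t - lam l| = dist > 2 r`); `Kl lam` is connected (KHB, `4 r + 1 ≤ 19 r + 20`).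
PRI with `lam` and the leg `fun t => b (t' + t)`: `B(w, r)` is avoided: `F2` (`s2 - t' ≥ r`), second
part, `g` as shown; `y ∈ Kl lam` with `dist w y ≤ r`: then `dist (b 0) y ≤ t' + r ≤ s1`, so
`Jn G UU (b 0) y`, so `y ∈ UU`; a point `a l t` with `|t| ≤ 20 r + 20` is not in `UU`, and
`a l (±(20 r + 21)) ∈ HH`, so `y ∈ HH` and `b 0 ∈ HH` (HFA 4): contradiction.
`B(a l (lam l), r)` is avoided: `F2`: `≥ 8 r + 11 - (4 r + 1)`; second part in `UU`:
`≥ 20 r + 21 - (4 r + 1)`; `g` as shown; `Kl lam` by KHB.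
`dist w (a l (lam l)) ≥ 2 r + 4`: else `dist (b 0) (a l (lam l)) ≤ t' + 2 r + 3 ≤ s1`, so
`a l (lam l) ∈ UU`, but it is at distance `lam l ≤ 4 r + 1` from `a l 0`. -/
def SpecRCC : Prop :=
  ∀ (V : Type u) (G : SimpleGraph V) (r k : ℕ) (a : Fin k → ℤ → V) (Hb : Set V),
    Setup G r k a Hb → ∀ (s1 s2 : ℕ), 5 * r + 2 ≤ s2 →
    s2 + 2 * r + 4 ≤ s1 → ∀ (b : ℤ → V) (F2 : Set V), Loop G s2 b F2 → b 0 ∉ HH G r a Hb →
    (∀ y ∈ F2, ∀ j, 8 * r + 10 < G.dist (a j 0) y) →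
    (∀ y, G.dist (b 0) y ≤ s1 → Jn G (UU G r a) (b 0) y) → False

/-- **NOL** (40 lines, uses ZCO, PIG, TRF, RHH, RCC).  `ZZ` has no fat loop of radius `S0 r k`.
Proof.  PIG with `ι = Fin k × Bool`, `c = Sum.inr` (`Nat.card ι = 2 k`), `s1 = S1 r k`; TRF with
`s2 = S2 r k`; RHH or RCC. -/
def SpecNOL : Prop :=
  ∀ (V : Type u) (G : SimpleGraph V) (r k : ℕ) (a : Fin k → ℤ → V) (Hb : Set V),
    Setup G r k a Hb → ∀ (α : ℤ → ↥(UU G r a) ⊕ (Fin k × Bool))
      (F : Set (↥(UU G r a) ⊕ (Fin k × Bool))), ¬ Loop (ZZ G r a Hb) (S0 r k) α F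

/-- **CLD** (150 lines).  Clusters of the layering partition are small.
Proof.  Let `L z = dist o z`, `i = L x = L y`, `D = dist x y` and suppose `D ≥ 6 s + 2`.  Let `g` be a
geodesic from `x` to `y`, `c = D / 2 ≥ 3 s + 1`, `m = g c`, `D - c ≥ 3 s + 1`;
`α t = g (c + t)` is a geodesic segment of radius `s + 1` (`Geo.geod`).
(*) Every connected set `P` containing `x` and `y` meets `B(m, s)`: otherwise
`P ∪ {g t | t ≤ c - s - 1} ∪ {g t | c + s + 1 ≤ t ≤ D}` is the set `F` of a loop of radius `s`.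
Apply (*) to the support of the walk in `{L ≥ i}` (the set of its vertices is connected): there is `z`
with `L z ≥ i`, `dist m z ≤ s`, so `L m + s ≥ i`.  Apply (*) to the union of a geodesic from `o` to `x`
and one from `o` to `y`: there is `z` with `dist m z ≤ s` on one of them, say towards `x`:
`L z + dist z x = i`, `dist z x ≥ dist m x - s`, so `L m ≤ L z + s ≤ i - (dist m x - s) + s`.
Hence `dist m x ≤ 3 s`, but `dist m x = c ≥ 3 s + 1`; the same for `y` (`dist m y = D - c`). -/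
def SpecCLD : Prop :=
  ∀ (W : Type u) (Z : SimpleGraph W), Z.Connected → ∀ s : ℕ,
    (∀ (α : ℤ → W) (F : Set W), ¬ Loop Z s α F) → ∀ o x y : W, Z.dist o x = Z.dist o y →
    Jn Z {z | Z.dist o x ≤ Z.dist o z} x y → Z.dist x y ≤ 6 * s + 1

/-- **TRE** (130 lines).  The layering tree.
Proof.  `x ≈ y :⇔ dist o x = dist o y ∧ Jn Z {z | dist o x ≤ dist o z} x y` is an equivalence
relation; `T` = quotient, `lev` = level, `Γ.Adj P Q :⇔ P ≠ Q` and there are adjacent representatives.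
Adjacent `x, y` of the same level are equivalent, so levels of adjacent classes are different (they
differ by one, as `|dist o x - dist o y| ≤ 1` for adjacent `x, y`).  `uniq`: let `x ~ y`, `x' ~ y'` with
`x ≈ x'` and `y, y'` of lower level, i.e. of level `i` where `x` has level `i + 1`:
`y → x → ... → x' → y'` is a walk in `{level ≥ i}`, so `y ≈ y'`. -/
def SpecTRE : Prop :=
  ∀ (W : Type u) (Z : SimpleGraph W), Z.Connected → ∀ o : W,
    ∃ (T : Type u) (Γ : SimpleGraph T) (f : W → T) (lev : T → ℕ), Function.Surjective f ∧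
      (∀ x y, f x = f y ↔ Z.dist o x = Z.dist o y ∧ Jn Z {z | Z.dist o x ≤ Z.dist o z} x y) ∧
      (∀ P Q, Γ.Adj P Q ↔ P ≠ Q ∧ ∃ x y, f x = P ∧ f y = Q ∧ Z.Adj x y) ∧ LevTree Γ lev

/-- **QIW** (80 lines).  Criterion for a quasi-isometry.
Proof.  Induction on walks: `G'.edist (f x) (f y) ≤ M * length` for every walk of `G` from `x` to `y`,
and `G.edist (rep P) (rep Q) ≤ M * length` for every walk of `G'`; if `edist = ⊤` use `1 ≤ M`
(model: `edist_le_proj` in `MP_bafc89_co/Quot.lean`).  Then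
`edist x y ≤ edist x (rep (f x)) + edist (rep (f x)) (rep (f y)) + edist (rep (f y)) y`. -/
def SpecQIW : Prop :=
  ∀ (V : Type u) (W : Type u) (G : SimpleGraph V) (G' : SimpleGraph W) (f : V → W) (rep : W → V)
    (M A : ℕ), 1 ≤ M →
    (∀ x y, G.Adj x y → G'.edist (f x) (f y) ≤ (M : ℕ∞)) →
    (∀ P Q, G'.Adj P Q → G.edist (rep P) (rep Q) ≤ (M : ℕ∞)) →
    (∀ x, G.edist x (rep (f x)) ≤ (A : ℕ∞)) →
    (∀ P, ∃ x, G'.edist (f x) P ≤ (A : ℕ∞)) → QI G G' f M (2 * A)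

/-- **QIG** (220 lines, uses HFA, ZCO, CLD, TRE, QIW).  `G` is quasi-isometric to a tree plus `k`
edges.
Proof.  `Z = ZZ`, connected (ZCO).  Let `T, Γ, φ : Z → T, lev` be given by TRE for some `o` (`V` and so
`Z` is nonempty: `HH ≠ ∅`).  `G'.Adj P Q :⇔ Γ.Adj P Q ∨ (P ≠ Q ∧ ∃ j, {P, Q} = {p j, q j})` with
`p j = φ (inr (j, true))`, `q j = φ (inr (j, false))`.  `ẑ : V → Z`: `ẑ x = inl x` for `x ∈ UU`, and
`ẑ x = inr (j, true)` for `x ∉ UU`, where `j` is the index with `dist (a j 0) x ≤ 20 r + 20` (unique,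
as `dist (a i 0) (a j 0) ≥ 60 r + 64`).  `F x := φ (ẑ x)`.  `h : Z → V`: `h (inl x) = x`,
`h (inr (j, b)) = a j 0`; `z ~ z'` in `Z` gives `dist_G (h z) (h z') ≤ 20 r + 21`, so
`dist_G (h z) (h z') ≤ (20 r + 21) d_Z(z, z')`; `dist_G x (h (ẑ x)) ≤ 20 r + 20`.  `rep P := h (z_P)`
with a chosen `z_P`, `φ z_P = P`.  By CLD `φ z = φ z'` gives `d_Z(z, z') ≤ 6 s + 1`.  QIW with
`M = (20 r + 21)(12 s + 3)`, `A = (20 r + 21)(6 s + 2)`:
(i) `x ~ y` in `G`: both in `UU`: `F x = F y` or `Γ`-adjacent (TRE 3).  `x ∉ UU`, `y ∈ UU`: with `j` as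
above `dist (a j 0) y = 20 r + 21`, so `y ∈ bd j` and `inl y` is adjacent to `(j, true)` or to
`(j, false)`; so `edist (F x) (F y) ≤ 2`.  Both not in `UU`: the same `j` (`60 r + 64 > 40 r + 41`), so
`F x = F y`.  (ii) `P ~ Q` in `Γ`: `z ∈ P`, `z' ∈ Q` adjacent in `Z`, so
`d_Z(z_P, z_Q) ≤ (6 s + 1) + 1 + (6 s + 1)`.  `P = p j, Q = q j`:
`dist_G (rep P) (a j 0) ≤ (20 r + 21)(6 s + 1)` and the same for `Q`.
(iii) `dist_G x (rep (F x)) ≤ (20 r + 20) + (20 r + 21)(6 s + 1)`.  (iv) `P = φ z`: for `z = inl x`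
take `x`; for `z = inr (j, b)` take `a j 0`: `F (a j 0) = p j`, at distance `≤ 1` from `q j`.
Finally `QI` is monotone in the constants (`M ≤ Kc r s`, `2 A = Kc r s`); `edist = dist` as `G` is
connected. -/
def SpecQIG : Prop :=
  ∀ (V : Type u) (G : SimpleGraph V) (r k : ℕ) (a : Fin k → ℤ → V) (Hb : Set V),
    Setup G r k a Hb → ∀ s : ℕ, (∀ (α : ℤ → ↥(UU G r a) ⊕ (Fin k × Bool))
      (F : Set (↥(UU G r a) ⊕ (Fin k × Bool))), ¬ Loop (ZZ G r a Hb) s α F) →
    ∃ (W : Type u) (G' Γ : SimpleGraph W) (lev : W → ℕ) (p q : Fin k → W) (f : V → W),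
      QI G G' f (Kc r s) (Kc r s) ∧ LevTree Γ lev ∧
      (∀ P Q, G'.Adj P Q → Γ.Adj P Q ∨ ∃ j, (P = p j ∧ Q = q j) ∨ (P = q j ∧ Q = p j))

/-- **BUP** (100 lines).  Upper bound for the number of edges.
Proof.  For `e ∈ E` which is an edge of `Γ` let `up e` be its end of larger level (levels differ).
`up` is injective on these edges (`uniq`), and its values are in `X` and different from a vertex
`x0 ∈ X` of smallest level.  So there are at most `X.card - 1` such edges; the other edges are among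
`s(p j, q j)`, `j : Fin k`, so at most `k` of them. -/
def SpecBUP : Prop :=
  ∀ (W : Type u) (G' Γ : SimpleGraph W) (lev : W → ℕ) (k : ℕ) (p q : Fin k → W), LevTree Γ lev →
    (∀ P Q, G'.Adj P Q → Γ.Adj P Q ∨ ∃ j, (P = p j ∧ Q = q j) ∨ (P = q j ∧ Q = p j)) →
    ∀ (X : Finset W), X.Nonempty → ∀ E : Finset (Sym2 W),
    (∀ e ∈ E, e ∈ G'.edgeSet ∧ ∀ x ∈ e, x ∈ X) → E.card + 1 ≤ X.card + k

/-- **BEF** (100 lines).  Finite branch sets.
Proof.  Choose `c i ∈ B i`; for `H.Adj i j` choose `x i j ∈ B i`, `y i j ∈ B j` adjacent.  Let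
`B' i` be the union of the supports of walks inside `B i` from `c i` to the finitely many points `c i`,
`x i j`, `y j i` of `B i`.  It is finite and connected (`Cn.of_center`). -/
def SpecBEF : Prop :=
  ∀ (W : Type u) (G' : SimpleGraph W) (α : Type v) [Finite α] (H : SimpleGraph α), IsMinor H G' →
    ∃ B : α → Finset W, (∀ i, Cn G' (B i : Set W)) ∧ (∀ i j, i ≠ j → Disjoint (B i) (B j)) ∧
      (∀ i j, H.Adj i j → ∃ x ∈ B i, ∃ y ∈ B j, G'.Adj x y)

/-- **BLO** (180 lines).  Lower bound for the number of edges.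
Proof.  `X` = (disjoint) union of the `B i`.  In every `B i` there are at least `|B i| - 1` edges of
`G'` (`SimpleGraph.Connected.card_vert_le_card_edgeSet_add_one` for `G'.induce (B i)`, see `cn_iff`;
the embedding into `Sym2 W` is injective); for every edge `i j` of `H` choose one edge of `G'` between
`B i` and `B j`: these are different for different edges of `H`, and different from the edges inside
the branch sets (the branch set of an end is determined).  `E` = all these edges: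
`|E| ≥ Σ (|B i| - 1) + |E(H)| = |X| - |α| + |E(H)|`. -/
def SpecBLO : Prop :=
  ∀ (W : Type u) (G' : SimpleGraph W) (α : Type v) [Finite α] (H : SimpleGraph α)
    (B : α → Finset W), (∀ i, Cn G' (B i : Set W)) → (∀ i j, i ≠ j → Disjoint (B i) (B j)) →
    (∀ i j, H.Adj i j → ∃ x ∈ B i, ∃ y ∈ B j, G'.Adj x y) →
    ∃ (X : Finset W) (E : Finset (Sym2 W)), (∀ i, B i ⊆ X) ∧
      (∀ e ∈ E, e ∈ G'.edgeSet ∧ ∀ x ∈ e, x ∈ X) ∧
      X.card + Nat.card H.edgeSet ≤ E.card + Nat.card α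

/-- **CTH** (40 lines, uses NOL, QIG, BUP, BEF, BLO).  The connected case.
Proof.  NOL, QIG with `s = S0 r k`; for a connected (so nonempty) `H` which is a minor of `G'`: BEF, BLO,
BUP give `|E(H)| + 1 ≤ |α| + k`, while `k + 1 ≤ c` and `|α| + c ≤ |E(H)| + 1`: contradiction. -/
def SpecCTH : Prop :=
  ∀ (V : Type u) (G : SimpleGraph V) (r k : ℕ) (a : Fin k → ℤ → V) (Hb : Set V),
    Setup G r k a Hb → ∀ c, k < c → Good.{u, v} G (Kc r (S0 r k)) (Kc r (S0 r k)) c

/-- **MON** (60 lines).  (1) Induced minors of induced subgraphs are induced minors.  (2) `Good` is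
monotone in the constants.
Proof.  (1) Branch sets `Subtype.val '' (B i)`; connectedness: an isomorphism of induced graphs, or
`cn_iff` and mapping walks.  (2) Clear. -/
def SpecMON : Prop :=
  (∀ (V : Type u) (G : SimpleGraph V) (S : Set V) (α : Type v) (H : SimpleGraph α),
    IsInducedMinor H (G.induce S) → IsInducedMinor H G) ∧
  (∀ (V : Type u) (G : SimpleGraph V) (M A M' A' c : ℕ), M ≤ M' → A ≤ A' →
    Good.{u, v} G M A c → Good.{u, v} G M' A' c)

/-- **DIS** (180 lines).  From the components to `G`.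
Proof.  For every component `C` choose `W C, G'_C, f_C`.  `W = Σ C, W C`,
`Adj ⟨C, x⟩ ⟨D, y⟩ :⇔ ∃ h : C = D, G'_D.Adj (h ▸ x) y`, `f v = ⟨[v], f_[v] v⟩`.  Distances: for
`x, y` in the same component `C`, `G.edist x y = (G.induce C.supp).edist x y` (walks of `G` stay in
`C`), and the same for `⟨C, x⟩, ⟨C, y⟩` and `G'_C`; in different components both are `⊤`; `1 ≤ M` is
used in `⊤ ≤ M * ⊤ + A`.  Minors: if `H` is connected and a minor of `G'` with branch sets `B i`: each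
`B i` is connected, so in one `C`-part; adjacent `i, j` have the same `C`; as `H` is connected all
`B i` are in one part, and `H` is a minor of `G'_C` with branch sets `{x | ⟨C, x⟩ ∈ B i}`. -/
def SpecDIS : Prop :=
  ∀ (V : Type u) (G : SimpleGraph V) (M A c : ℕ), 1 ≤ M →
    (∀ C : G.ConnectedComponent, Good.{u, v} (G.induce C.supp) M A c) → Good.{u, v} G M A c

/-- **BCT** (120 lines).  The bouquet is connected and has enough edges.
Proof.  `(i, q)` is joined to the centre through `(i, q - 1), ..., (i, 0)`.  Vertices: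
`1 + Σ m i`.  Edges: the map `Σ i, Fin (m i + 1) → edges`, `(i, 0) ↦ {none, (i, 0)}`,
`(i, q) ↦ {(i, q - 1), (i, q)}` for `1 ≤ q ≤ m i - 1`, `(i, m i) ↦ {(i, m i - 1), none}` is injective
(`m i ≥ 2`), so there are at least `Σ m i + c` edges. -/
def SpecBCT : Prop :=
  ∀ (c : ℕ) (m : Fin c → ℕ), (∀ i, 2 ≤ m i) → (bouquet m).Connected ∧
    Nat.card (Option (Σ i : Fin c, Fin (m i))) + c ≤ Nat.card (bouquet m).edgeSet + 1

/-- **FIN** (60 lines, uses BOU, SCA, CTH, MON, DIS).  The theorem.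
Proof.  Constants: `M = A = Σ_(k < c) Kc (rs l (c - (k+1))) (S0 (rs l (c - (k+1))) k) + 1` bounds all
the `Kc` occurring.  Let `G` be given without the induced minor.  For a component `C` let
`G_C = G.induce C.supp` (connected); by MON 1 and BOU it has no system of size `c` and radius
`l + 1`; SCA, CTH, MON 2.  Then DIS. -/
def SpecFIN : Prop :=
  ∀ (c l : ℕ), ∃ M A : ℕ, ∀ (V : Type u) (G : SimpleGraph V) (m : Fin c → ℕ),
    (∀ i, 2 ≤ m i) → (∀ i, m i ≤ l) → ¬ IsInducedMinor (bouquet m) G → Good.{u, v} G M A c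

end Pool.Agent.Lib.MPbafc89.BQ
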