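import Pool.Agent.Lib.MP_bafc89_co.BQ.Spec

/-!
# MP_bafc89_co: bouquets of cycles, the coarse (fat minor) form.  Second part of the specification

The theorem holds with the weaker hypothesis that `G` has no `K`-fat `H` minor.  Three more modules,
same conventions as in `Spec.lean` (file `BQ/XXX.lean`, import `Pool.Agent.Lib.MP_bafc89_co.BQ.Spec2`).
-/

set_option autoImplicit false

namespace Pool.Agent.Lib.MPbafc89.BQ

open SimpleGraph

universe u v

/-- `H` is a `K`-fat minor of `G`: connected sets `B x` for the vertices and `P e` for the edges of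
`H`, where `P e` meets `B x` if `x` is an end of `e`, and any two of these sets are at distance
`≥ K`, except for a set `P e` and the two sets `B x` of the ends `x` of `e`. -/
def IsFatMinor {α : Type u} {V : Type v} (K : ℕ) (H : SimpleGraph α) (G : SimpleGraph V) : Prop :=
  ∃ (B : α → Set V) (P : Sym2 α → Set V),
    (∀ x, (G.induce (B x)).Connected) ∧
    (∀ e ∈ H.edgeSet, (G.induce (P e)).Connected) ∧
    (∀ e ∈ H.edgeSet, ∀ x ∈ e, (B x ∩ P e).Nonempty) ∧
    (∀ x y, x ≠ y → ∀ p ∈ B x, ∀ q ∈ B y, (K : ℕ∞) ≤ G.edist p q) ∧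
    (∀ e ∈ H.edgeSet, ∀ e' ∈ H.edgeSet, e ≠ e' → ∀ p ∈ P e, ∀ q ∈ P e', (K : ℕ∞) ≤ G.edist p q) ∧
    (∀ x, ∀ e ∈ H.edgeSet, x ∉ e → ∀ p ∈ B x, ∀ q ∈ P e, (K : ℕ∞) ≤ G.edist p q)

/-- **FAT** (180 lines).  A system of size `c` and large radius gives a fat bouquet.
Proof.  Let `κ = K + 1 ≥ 1`, `ρ = l + 1`, `m = m i`, so `2 κ (m i + 1) ≤ l`; all distances below are
`≥ κ`.  Branch sets: `(i, q) ↦ {a i t | 2 κ q ≤ t ≤ 2 κ q + κ}`,
`none ↦ F := Hb ∪ ⋃_i {a i t | -(ρ+1) ≤ t ≤ -κ} ∪ ⋃_i {a i t | 2 κ (m i) ≤ t ≤ ρ + 1}`, connected as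
the ends `a i (±(ρ + 1))` are in `Hb`.  Edge sets: `{none, (i, 0)} ↦ {a i t | -κ ≤ t ≤ 0}`,
`{(i, q), (i, q+1)} ↦ {a i t | 2 κ q + κ ≤ t ≤ 2 κ (q + 1)}`,
`{(i, m - 1), none} ↦ {a i t | 2 κ m - κ ≤ t ≤ 2 κ m}` (`P` on `Sym2` may be defined as
`P e = {x | ∃ ...}`, the union over all ways to write `e` in one of the three forms; since `m ≥ 2` the
form is unique).  Distances: on one leg `dist (a i s) (a i t) = |s - t|`, and the intervals of two
different sets of the leg `i` (among the `B (i, q)`, the `P e` of the cycle `i`, and the two parts of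
`F` on the leg `i`) are either at distance `≥ κ` or are a `P e` and an incident set.
Different legs, `|s| ≤ 2 κ m`, `|t| ≤ ρ + 1`: `dist (a i s) (a j t) ≥ 2 ρ + 4 - |s| - |t| ≥
ρ + 3 - 2 κ m ≥ κ`.  `x ∈ Hb`: `dist (a i s) x ≥ ρ + 1 - |s| ≥ κ` for `|s| ≤ 2 κ m`.
`edist = dist` as `G` is connected. -/
def SpecFAT : Prop :=
  ∀ (V : Type u) (G : SimpleGraph V), G.Connected → ∀ (K c l : ℕ) (m : Fin c → ℕ),
    (∀ i, 2 ≤ m i) → (∀ i, 2 * (K + 1) * (m i + 1) ≤ l) → ∀ (a : Fin c → ℤ → V) (Hb : Set V),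
    Sys G (l + 1) c a Hb → IsFatMinor K (bouquet m) G

/-- **FCO** (80 lines).  Fat minors of a component are fat minors.
Proof.  Images under `Subtype.val`; `G.edist x y = (G.induce C.supp).edist x y` for `x, y` in the
component `C` (`≤`: map walks; `≥`: a walk of `G` which starts in `C` stays in `C`). -/
def SpecFCO : Prop :=
  ∀ (V : Type u) (G : SimpleGraph V) (C : G.ConnectedComponent) (K : ℕ) (α : Type v)
    (H : SimpleGraph α), IsFatMinor K H (G.induce C.supp) → IsFatMinor K H G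

/-- **FI2** (50 lines, uses SCA, CTH, MON, DIS).  The theorem with the hypothesis that there is no
system.
Proof.  Constants: `M = A = Σ_(k < c) Kc (rs l (c - (k+1))) (S0 (rs l (c - (k+1))) k) + 1` bounds all
the `Kc` occurring.  For a component `C` the graph `G.induce C.supp` is connected; SCA, CTH, MON 2
give `Good (G.induce C.supp) M A c`.  Then DIS. -/
def SpecFI2 : Prop :=
  ∀ (c l : ℕ), ∃ M A : ℕ, ∀ (V : Type u) (G : SimpleGraph V),
    (∀ (C : G.ConnectedComponent) (a : Fin c → ℤ → C.supp) (Hb : Set C.supp),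
      ¬ Sys (G.induce C.supp) (l + 1) c a Hb) → Good.{u, v} G M A c

end Pool.Agent.Lib.MPbafc89.BQ
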