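import Pool.Agent.Lib.MP_bafc89_co.BQ.Spec2

/-!
# MP_bafc89_co: flowers = bouquets of cycles with pendant paths.  Third part of the specification

THEOREM.  Q1, and also its coarse (fat minor) form, for every connected graph `H` with a cycle and
with at most one vertex of degree `≥ 3`: a centre with `c ≥ 1` cycles and `h` pendant paths.

IDEA.  `Setup` with `k < c + h` legs.  If `k < c` the tree plus `k` edges of the first part has no
`H` minor.  If `k ≥ c`, prune from the layering tree of `ZZ` all branches which are shallow and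
contain none of the new vertices (PRU).  A flower minor of the pruned graph gives, by counting
degrees (CN1, CN2), `2 c + h - 2 k` incomparable deep branches without new vertices; these are
disjoint deep pieces of `G` attached to the rest only at their top (DEP, TAI); the `k` legs and these
tails have a common connected hub (FZC, AAA, HUB): a `Star`.  `k - c` legs can be cut in two tails
each (SPL), and a `Star` with `c` legs and `h` tails gives a fat flower minor of `G` (FTH), hence an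
induced minor (F2I).

Conventions as in `Spec.lean`: file `BQ/XXX.lean`, import `Pool.Agent.Lib.MP_bafc89_co.BQ.Spec3`,
`theorem specXXX (hYYY : SpecYYY) ... : SpecXXX`, own lemmas in a namespace `XXXM`.
-/

set_option autoImplicit false

namespace Pool.Agent.Lib.MPbafc89.BQ

open SimpleGraph

universe u v

/-- The flower: a centre `none`, for every `i : Fin c` a path with `m i` vertices whose two ends are
joined to the centre, and for every `i : Fin h` a path with `n i` vertices whose first vertex is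
joined to the centre. -/
def flower {c h : ℕ} (m : Fin c → ℕ) (n : Fin h → ℕ) :
    SimpleGraph (Option ((Σ i : Fin c, Fin (m i)) ⊕ (Σ i : Fin h, Fin (n i)))) where
  Adj
    | none, none => False
    | none, some (.inl q) => q.2.val = 0 ∨ q.2.val + 1 = m q.1
    | none, some (.inr q) => q.2.val = 0
    | some (.inl q), none => q.2.val = 0 ∨ q.2.val + 1 = m q.1
    | some (.inr q), none => q.2.val = 0
    | some (.inl q), some (.inl q') =>
      q.1 = q'.1 ∧ (q.2.val + 1 = q'.2.val ∨ q'.2.val + 1 = q.2.val)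
    | some (.inr q), some (.inr q') =>
      q.1 = q'.1 ∧ (q.2.val + 1 = q'.2.val ∨ q'.2.val + 1 = q.2.val)
    | some (.inl _), some (.inr _) => False
    | some (.inr _), some (.inl _) => False
  symm := ⟨by
    rintro (_ | (q | q)) (_ | (q' | q')) h
    · exact h
    · exact h
    · exact h
    · exact h
    · exact ⟨h.1.symm, h.2.symm⟩
    · exact h
    · exact h
    · exact h
    · exact ⟨h.1.symm, h.2.symm⟩⟩
  loopless := ⟨by
    rintro (_ | (q | q)) h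
    · exact h
    · rcases h.2 with h | h <;> omega
    · rcases h.2 with h | h <;> omega⟩

/-- A hub `F` with `c` legs of radius `ρ` and `h` tails of length `T`. -/
structure Star {V : Type u} (G : SimpleGraph V) (ρ T c h : ℕ) (F : Set V) (a : Fin c → ℤ → V)
    (e : Fin h → ℕ → V) : Prop where
  cn : Cn G F
  geo : ∀ j, Geod G (ρ + 1) (a j)
  sep : ∀ i j, i ≠ j → 2 * ρ + 4 ≤ G.dist (a i 0) (a j 0)
  pos : ∀ j, a j ((ρ : ℤ) + 1) ∈ F
  neg : ∀ j, a j (-((ρ : ℤ) + 1)) ∈ F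
  far : ∀ j, ∀ x ∈ F, ρ < G.dist (a j 0) x
  tail : ∀ i, Geo G T (e i)
  tmem : ∀ i, e i 0 ∈ F
  tfar : ∀ i, ∀ x ∈ F, ∀ t ≤ T, t ≤ G.dist (e i t) x
  ttail : ∀ i j, i ≠ j → ∀ s ≤ T, ∀ t ≤ T, s ≤ G.dist (e i s) (e j t)
  tleg : ∀ i j, ∀ t ≤ T, ∀ s : ℤ, s.natAbs ≤ ρ + 1 → t ≤ G.dist (e i t) (a j s)
  tbal : ∀ i j, ∀ t ≤ T, ρ < G.dist (a j 0) (e i t)

/-- everything above `z` in the layering from `o`: the component of `{level ≥ level z}`
containing `z` -/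
def Dn {W : Type u} (Z : SimpleGraph W) (o z : W) : Set W :=
  {y | Jn Z {w | Z.dist o z ≤ Z.dist o w} z y}

open Classical in
/-- the height of the point `y` of `G` above `z`, inside `Dn z` (and `0` outside) -/
noncomputable def dep {V : Type u} {k : ℕ} (G : SimpleGraph V) (r : ℕ) (a : Fin k → ℤ → V)
    (Hb : Set V) (o z : ↥(UU G r a) ⊕ (Fin k × Bool)) (y : V) : ℕ :=
  if h : ∃ hy : y ∈ UU G r a, Sum.inl ⟨y, hy⟩ ∈ Dn (ZZ G r a Hb) o z then
    (ZZ G r a Hb).dist o (.inl ⟨y, h.choose⟩) - (ZZ G r a Hb).dist o z else 0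

/-- length of the tails -/
def TT (K l : ℕ) : ℕ := 2 * (K + 1) * (l + 2)
/-- radius of the legs -/
def RR (K l : ℕ) : ℕ := 2 * TT K l + 2
/-- depth of the branches -/
def DD (K l r : ℕ) : ℕ := 44 * r + 41 + TT K l
/-- the constant of the quasi-isometry -/
def Kf (K l r k : ℕ) : ℕ := Kc r (S0 r k) * (2 * DD K l r + 1)

/-- **F2I** (150 lines).  A `2`-fat minor is an induced minor (arbitrary `H`, `G`).
Proof.  Fix a linear order on `α` (e.g. from `WellOrderingRel`).  For an edge `e = {x, y}`, `x < y`,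
take a walk in `P e` from a point `p ∈ B x ∩ P e` to a point of `B y ∩ P e`; let `W e` be its part
before its first vertex in `B y`: `p ∈ W e` (`B x` and `B y` are disjoint), `W e ∩ B y = ∅`, `W e` is
connected, and its last vertex is adjacent to a vertex of `B y`.  `B' x := B x ∪ ⋃ {W e | e = {x, y} ∈
E(H), x < y}`, connected.  Sets at distance `≥ 2` are disjoint and there is no edge between them.
Disjointness of `B' x`, `B' z`, `x ≠ z`: `B x, B z`: distance `≥ 2`; `W e` (`e = {x, y}`, `x < y`)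
and `B z`: `z = y`: disjoint by construction; else `z ∉ e`, distance `≥ 2`; `W e`, `W e'`: `e ≠ e'`.
Edges: if `x < y` are adjacent in `H`, there is an edge from `W e` to `B y`.  Conversely an edge
between `B' x` and `B' z` is between `W e ⊆ B' x` and `B z` with `z ∈ e` (then `e = {x, z}`), or the
same with `x, z` exchanged; all other pairs are at distance `≥ 2`. -/
def SpecF2I : Prop :=
  ∀ (V : Type u) (G : SimpleGraph V) (α : Type v) (H : SimpleGraph α),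
    IsFatMinor 2 H G → IsInducedMinor H G

/-- **FCT** (150 lines).  The flower is connected and has enough edges.
Proof.  As BCT.  Vertices: `1 + Σ m i + Σ n i`; at least `Σ (m i + 1) + Σ n i` edges: the map of BCT on
the cycles, and `(i, 0) ↦ {none, (i, 0)}`, `(i, q) ↦ {(i, q - 1), (i, q)}` on the paths. -/
def SpecFCT : Prop :=
  ∀ (c h : ℕ) (m : Fin c → ℕ) (n : Fin h → ℕ), (∀ i, 2 ≤ m i) → (flower m n).Connected ∧
    Nat.card (Option ((Σ i : Fin c, Fin (m i)) ⊕ (Σ i : Fin h, Fin (n i)))) + c ≤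
      Nat.card (flower m n).edgeSet + 1

/-- **FTH** (250 lines).  A star with `c` legs and `h` tails gives a fat flower.
Proof.  `κ = K + 1`.  Hub `F' := F ∪ ⋃_j {a j t | -(ρ+1) ≤ t ≤ -κ} ∪ ⋃_j {a j t | 2 κ (m j) ≤ t ≤
ρ + 1} ∪ ⋃_i {e i t | t ≤ κ}`, connected.  Cycles as in FAT (landed: `BQ/FAT.lean`):
`B (j, q) = {a j t | 2 κ q ≤ t ≤ 2 κ q + κ}`, edges `{a j t | -κ ≤ t ≤ 0}`,
`{a j t | 2 κ q + κ ≤ t ≤ 2 κ (q + 1)}`, `{a j t | 2 κ m - κ ≤ t ≤ 2 κ m}`.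
Paths: `B (i, q) = {e i t | 2 κ (q + 1) ≤ t ≤ 2 κ (q + 1) + κ}`,
`P {none, (i, 0)} = {e i t | κ ≤ t ≤ 2 κ}`,
`P {(i, q), (i, q + 1)} = {e i t | 2 κ (q + 1) + κ ≤ t ≤ 2 κ (q + 2)}`; all `t ≤ 2 κ n i + κ ≤ T`.
All distances needed are `≥ κ`: on one leg or one tail `|s - t|`; `a i s, a j t`, `i ≠ j`,
`|s| ≤ 2 κ m i`, `|t| ≤ ρ + 1`: `≥ 2 ρ + 4 - |s| - |t|`; `a j s`, `|s| ≤ 2 κ m j`, and `F`:
`≥ ρ + 1 - |s|`; `a j s` and `e i t` with `t ≤ κ`: `≥ ρ + 1 - |s|` (`tbal`); `e i t` with `t ≥ κ` and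
`a j s`: `≥ t` (`tleg`); `e i t`, `t ≥ 2 κ`, and `F`: `≥ t` (`tfar`); `e i s`, `s ≥ κ`, and `e j t`,
`i ≠ j`: `≥ s` (`ttail`). -/
def SpecFTH : Prop :=
  ∀ (V : Type u) (G : SimpleGraph V), G.Connected → ∀ (K ρ T c h : ℕ) (m : Fin c → ℕ)
    (n : Fin h → ℕ), (∀ i, 2 ≤ m i) → (∀ i, 2 * (K + 1) * (m i + 2) ≤ ρ) →
    (∀ i, 2 * (K + 1) * (n i + 2) ≤ T) → ∀ (F : Set V) (a : Fin c → ℤ → V) (e : Fin h → ℕ → V),
    Star G ρ T c h F a e → IsFatMinor K (flower m n) G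

/-- **SPL** (150 lines).  Cutting legs into tails.
Proof.  Legs `j < c` remain.  New tails: for every leg `j ≥ c` the two tails `t ↦ a j (ρ + 1 - t)` and
`t ↦ a j (-(ρ + 1 - t))`, and the old tails; there are `2 (k - c) + n ≥ h` of them, take `h` of them
(an injection `Fin h → (Fin (k - c) × Bool) ⊕ Fin n`).  Leg tails (`t ≤ T' ≤ ρ / 2`): `tail` by `Geod`;
`tfar`: `dist (a j 0) x ≥ ρ + 1`; `ttail`: the same leg: `2 (ρ + 1) - s - t ≥ s`; different legs: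
`≥ 2 ρ + 4 - (ρ + 1 - s) - (ρ + 1 - t) ≥ s`; leg tail `s` and old tail `t`: `≥ ρ + 1 - (ρ + 1 - s) = s`
by `tbal`, and `≥ t` by `tleg`; `tleg`: other legs: `≥ 2 ρ + 4 - (ρ + 1 - t) - (ρ + 1)`; `tbal`:
`≥ 2 ρ + 4 - (ρ + 1)`. -/
def SpecSPL : Prop :=
  ∀ (V : Type u) (G : SimpleGraph V), G.Connected → ∀ (ρ T T' k n c h : ℕ), c ≤ k → T' ≤ T →
    2 * T' ≤ ρ → h ≤ 2 * (k - c) + n → ∀ (F : Set V) (a : Fin k → ℤ → V) (e : Fin n → ℕ → V),
    Star G ρ T k n F a e → ∃ (a' : Fin c → ℤ → V) (e' : Fin h → ℕ → V), Star G ρ T' c h F a' e'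

/-- **TR2** (200 lines; TRE with more data, see `BQ/TRE.lean`).  The layering tree with its parent
function.
Proof.  `T`, `Γ`, `f`, `lev` as in TRE, `lev (f x) = dist o x`.  `par P` for `P ≠ f o`: the class of a
vertex `y` adjacent to some `x ∈ P` with `dist o y + 1 = dist o x` (unique class by `LevTree.uniq`),
`par (f o) = f o` (the class of `o` is `{o}`).  Last claim.  `→`: let `z' ∈ Dn z`, `y_t` the vertices of
a geodesic from `o` to `z'` (`y_t` of level `t`), `i = dist o z' - dist o z ≥ 0`; `par^[s] (f z') =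
f (y_(dist o z' - s))` (induction), and `y_t` for `t = dist o z` is joined to `z'` in `{level ≥ t}` along
the geodesic, and `z'` to `z`, so `f y_t = f z`.  `←`: `par^[i] (f z') = f z`: if `i ≤ dist o z'` then
`f z = f y_t`, `t = dist o z' - i = dist o z`, and `z` is joined to `y_t` and `y_t` to `z'` in
`{level ≥ t}`; if `i > dist o z'` then `f z = f o`, so `dist o z = 0` and all points are in `Dn z`. -/
def SpecTR2 : Prop :=
  ∀ (W : Type u) (Z : SimpleGraph W), Z.Connected → ∀ o : W,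
    ∃ (T : Type u) (Γ : SimpleGraph T) (f : W → T) (lev : T → ℕ) (par : T → T),
      Function.Surjective f ∧
      (∀ x y, f x = f y ↔ Z.dist o x = Z.dist o y ∧ Jn Z {z | Z.dist o x ≤ Z.dist o z} x y) ∧
      (∀ P Q, Γ.Adj P Q ↔ P ≠ Q ∧ ∃ x y, f x = P ∧ f y = Q ∧ Z.Adj x y) ∧ LevTree Γ lev ∧
      (∀ x, lev (f x) = Z.dist o x) ∧ par (f o) = f o ∧
      (∀ P, P ≠ f o → Γ.Adj P (par P) ∧ lev (par P) + 1 = lev P) ∧
      (∀ z z', z' ∈ Dn Z o z ↔ ∃ i, par^[i] (f z') = f z)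

/-- **QG2** (the same proof as QIG, see `BQ/QIG.lean`; uses HFA, ZCO, CLD, QIW).  `G` is
quasi-isometric to a given layering tree of `ZZ` plus `k` edges. -/
def SpecQG2 : Prop :=
  ∀ (V : Type u) (G : SimpleGraph V) (r k : ℕ) (a : Fin k → ℤ → V) (Hb : Set V),
    Setup G r k a Hb → ∀ s : ℕ, (∀ (α : ℤ → ↥(UU G r a) ⊕ (Fin k × Bool))
      (F : Set (↥(UU G r a) ⊕ (Fin k × Bool))), ¬ Loop (ZZ G r a Hb) s α F) →
    ∀ (o : ↥(UU G r a) ⊕ (Fin k × Bool)) (T : Type u) (Γ : SimpleGraph T)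
      (f : ↥(UU G r a) ⊕ (Fin k × Bool) → T), Function.Surjective f →
      (∀ x y, f x = f y ↔ (ZZ G r a Hb).dist o x = (ZZ G r a Hb).dist o y ∧
        Jn (ZZ G r a Hb) {z | (ZZ G r a Hb).dist o x ≤ (ZZ G r a Hb).dist o z} x y) →
      (∀ P Q, Γ.Adj P Q ↔ P ≠ Q ∧ ∃ x y, f x = P ∧ f y = Q ∧ (ZZ G r a Hb).Adj x y) →
    ∃ (G' : SimpleGraph T) (g : V → T), QI G G' g (Kc r s) (Kc r s) ∧
      (∀ P Q, Γ.Adj P Q → G'.Adj P Q) ∧
      (∀ P Q, G'.Adj P Q → Γ.Adj P Q ∨ ∃ j, (P = f (.inr (j, true)) ∧ Q = f (.inr (j, false))) ∨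
        (P = f (.inr (j, false)) ∧ Q = f (.inr (j, true))))

/-- **PRU** (180 lines).  Pruning.
Proof.  `ρ P := par^[n] P` for the least `n` with `par^[n] P ∈ Gd` (`n ≤ D`).  `ρ P = P` for `P ∈ Gd`.
`G'.edist P (ρ P) ≤ D` (each step `P → par P` is an edge of `Γ`, so of `G'`, or `P = root`).  `G'.Adj P Q`
implies `ρ P = ρ Q` or `G'.Adj (ρ P) (ρ Q)`: for `P = p j`, `Q = q j` both are in `Gd`; for
`Γ.Adj P Q` the levels differ, say `lev Q < lev P`; then `P ≠ root` (`lev root = 0`) and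
`Q = par P` (`uniq`); if `P ∈ Gd` then `Q ∈ Gd`, and if `P ∉ Gd` then `ρ P = ρ (par P)`.  So
`G''.edist (ρ P) (ρ Q) ≤ G'.edist P Q` for `G'' = G'.induce Gd`, and `G'.edist ≤ G''.edist` on `Gd`.
`f' x := ρ (f x)`: `G.edist x y ≤ M G'.edist (f x) (f y) + A ≤ M (G''.edist (f' x) (f' y) + 2 D) + A`;
the other two properties follow from the Lipschitz property of `ρ`. -/
def SpecPRU : Prop :=
  ∀ (V W : Type u) (G : SimpleGraph V) (G' Γ : SimpleGraph W) (lev : W → ℕ) (par : W → W)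
    (root : W) (Gd : Set W) (D k : ℕ) (p q : Fin k → W) (f : V → W) (M A : ℕ), LevTree Γ lev →
    lev root = 0 → par root = root → (∀ P, P ≠ root → Γ.Adj P (par P) ∧ lev (par P) + 1 = lev P) →
    (∀ P Q, Γ.Adj P Q → G'.Adj P Q) →
    (∀ P Q, G'.Adj P Q → Γ.Adj P Q ∨ ∃ j, (P = p j ∧ Q = q j) ∨ (P = q j ∧ Q = p j)) →
    (∀ j, p j ∈ Gd ∧ q j ∈ Gd) → root ∈ Gd → (∀ P ∈ Gd, par P ∈ Gd) → (∀ P, par^[D] P ∈ Gd) →
    QI G G' f M A → ∃ f' : V → Gd, QI G (G'.induce Gd) f' M (M * (2 * D) + A)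

/-- **CN1** (120 lines).  Counting leaves in a finite multigraph with edge set `ι` and ends `s, t`.
Proof.  Let `Y = X \ B`, `d v` = the degree in the statement, `e(B), ∂, e(Y)` the numbers of edges with
two, one, no end in `B`: `e(B) + ∂ + e(Y) = |ι| ≤ |X| + k - 1`, `Σ_(v ∈ Y) d v = 2 e(Y) + ∂`, and
`Σ_(v ∈ Y) d v ≥ 2 |Y| - #{v ∈ Y : d v = 1}` as `d v ≥ 1`.  So `#leaves ≥ 2 |Y| - 2 e(Y) - ∂ ≥
2 |Y| - 2 (|X| + k - 1) + 2 e(B) + ∂ ≥ 2 |Y| - 2 |X| - 2 k + 2 + 2 (|B| - 1) + ∂ = ∂ - 2 k`. -/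
def SpecCN1 : Prop :=
  ∀ (W : Type u) [DecidableEq W] (X B : Finset W) (ι : Type u) [Fintype ι] [DecidableEq ι]
    (s t : ι → W) (k d : ℕ), B ⊆ X → (∀ e, s e ∈ X ∧ t e ∈ X) →
    Fintype.card ι + 1 ≤ X.card + k →
    B.card ≤ (Finset.univ.filter fun e => s e ∈ B ∧ t e ∈ B).card + 1 →
    d ≤ (Finset.univ.filter fun e => (s e ∈ B ∧ t e ∉ B) ∨ (s e ∉ B ∧ t e ∈ B)).card →
    (∀ v ∈ X \ B, 1 ≤ (Finset.univ.filter fun e => s e = v).card +
      (Finset.univ.filter fun e => t e = v).card) →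
    d ≤ 2 * k + ((X \ B).filter fun v => (Finset.univ.filter fun e => s e = v).card +
      (Finset.univ.filter fun e => t e = v).card = 1).card

/-- **CN2** (250 lines, uses BEF, CN1).  A flower minor of a tree plus `k` edges gives incomparable
vertices.  Write `Anc P Q` (`P` is an ancestor of `Q`) for `∃ i, par^[i] Q = P`.
Proof.  BEF: finite branch sets `B x ⊆ Gd` (as sets of vertices of `W`), `B0 = B none`.  `X` = all
ancestors of the points of the `B x`, of the `p j`, `q j` and of the root: finite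
(`par^[lev P] P = root`, induction on `lev`), closed under `par`, contained in `Gd`.  Edges:
`ι = {v ∈ X | v ≠ root} ⊕ Fin k`, `s v = v`, `t v = par v`, `s j = p j`, `t j = q j`;
`|ι| = |X| - 1 + k`.  Every edge of `G'` between points of `X` is `{s e, t e}` for some `e` (a
`Γ`-edge `{P, Q}` with `lev Q < lev P` is `{P, par P}` by `uniq`, `P ≠ root` as `lev root = 0`).
`B0` is connected in `G'.induce Gd`, so at least `|B0| - 1` edges `e` have both ends in `B0`.  At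
least `2 c + h` edges have exactly one end in `B0`: `none` is adjacent in the flower to
`(i, 0)` and `(i, m i - 1)` (different, `m i ≥ 2`) on the cycles and to `(i, 0)` on the paths, these
are `2 c + h` different vertices with disjoint branch sets, all disjoint from `B0`.  Degrees:
`v ≠ root` has `s v = v`; the root is `p j0`.  CN1: at least `2 c + h - 2 k` leaves `v ∈ X \ B0`; take
them as the `P a`.  A leaf `v` is not the root: `d root ≥ 2`, since `s j0 = root`, and a point `x` of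
`B0`, `x ≠ root`, has an ancestor `v' ≠ root` with `par v' = root`, so `t v' = root`.  So the only edge
at `v` is `s v = v`: no `v' ∈ X`, `v' ≠ root`, has `par v' = v`, and `p j ≠ v`, `q j ≠ v`.  If
`par^[i] x = v` with `x ∈ X`, `x ≠ v`: take the least such `i ≥ 1`, `v' = par^[i-1] x ∈ X`,
`par v' = v`, and `v' ≠ root` (else `v = root`): contradiction.  Apply this to `x = p j, q j` and to
the other leaves. -/
def SpecCN2 : Prop :=
  ∀ (W : Type u) (G' Γ : SimpleGraph W) (lev : W → ℕ) (par : W → W) (root : W) (Gd : Set W)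
    (k : ℕ) (p q : Fin k → W), LevTree Γ lev → lev root = 0 → par root = root →
    (∀ P, P ≠ root → Γ.Adj P (par P) ∧ lev (par P) + 1 = lev P) →
    (∀ P Q, G'.Adj P Q → Γ.Adj P Q ∨ ∃ j, (P = p j ∧ Q = q j) ∨ (P = q j ∧ Q = p j)) →
    (∀ j, p j ∈ Gd ∧ q j ∈ Gd) → root ∈ Gd → (∀ P ∈ Gd, par P ∈ Gd) → (∃ j0, p j0 = root) →
    ∀ (c h : ℕ) (m : Fin c → ℕ) (n : Fin h → ℕ), (∀ i, 2 ≤ m i) → (∀ i, 1 ≤ n i) →
    IsMinor (flower m n) (G'.induce Gd) →
    ∃ P : Fin (2 * c + h - 2 * k) → W, (∀ b, P b ∈ Gd ∧ P b ≠ root) ∧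
      (∀ b j i, par^[i] (p j) ≠ P b ∧ par^[i] (q j) ≠ P b) ∧
      (∀ b b', b ≠ b' → ∀ i, par^[i] (P b') ≠ P b)

/-- **DEP** (150 lines, uses HFA, ZCO).  The height function is `1`-Lipschitz.
Proof.  `Z = ZZ`, `L y = Z.dist o y`.  Facts: if `u ∈ Dn z`, `u ~ u'` in `Z` and `L u' ≥ L z`, then
`u' ∈ Dn z`; `|L u - L u'| ≤ 1` for adjacent `u, u'`; points of `Dn z` have `L ≥ L z`.  (2) Let
`w ∈ bd j`; `inl w` is adjacent to a new vertex `c` (`(j, b)` with `b = false` iff the condition in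
`Att` holds).  If `inl w ∈ Dn z` and `L (inl w) > L z` then `L c ≥ L z` and `c ∈ Dn z`: contradiction.
So `dep w = 0`.  (1) Enough: `G.Adj x y → dep y ≤ dep x + 1` (then a geodesic).  Clear if `dep y = 0`.
Otherwise `inl y ∈ Dn z` and `L (inl y) ≥ L z + 1`.  If `x ∈ UU`: `inl x ~ inl y`, so
`L (inl x) ≥ L (inl y) - 1 ≥ L z` and `inl x ∈ Dn z`.  If `x ∉ UU`: `y ∈ bd j` for some `j` (HFA 7), so
`dep y = 0` by (2).  (3) by definition.  (4) `dep` computed for points of `Dn z`. -/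
def SpecDEP : Prop :=
  ∀ (V : Type u) (G : SimpleGraph V) (r k : ℕ) (a : Fin k → ℤ → V) (Hb : Set V),
    Setup G r k a Hb → ∀ (o z : ↥(UU G r a) ⊕ (Fin k × Bool)),
    (∀ c, Sum.inr c ∉ Dn (ZZ G r a Hb) o z) →
    (∀ x y, dep G r a Hb o z y ≤ dep G r a Hb o z x + G.dist x y) ∧
    (∀ j, ∀ w ∈ bd G r a j, dep G r a Hb o z w = 0) ∧
    (∀ y, y ∉ UU G r a → dep G r a Hb o z y = 0) ∧
    (∀ y : ↥(UU G r a), (Sum.inl y ∈ Dn (ZZ G r a Hb) o z →
      (ZZ G r a Hb).dist o z ≤ (ZZ G r a Hb).dist o (.inl y) ∧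
      dep G r a Hb o z (y : V) = (ZZ G r a Hb).dist o (.inl y) - (ZZ G r a Hb).dist o z) ∧
      (Sum.inl y ∉ Dn (ZZ G r a Hb) o z → dep G r a Hb o z (y : V) = 0))

/-- **TAI** (100 lines, uses ZCO, DEP).  A tail inside a deep branch.
Proof.  Let `y ∈ Dn z`, `L y ≥ L z + D`, and `y_s` (`s ≤ L y`) the vertices of a geodesic of `ZZ` from
`o` to `y`, `L y_s = s`.  For `s ≥ L z` the vertex `y_s` is joined to `y` in `{L ≥ L z}`, so `y_s ∈ Dn z`,
so it is not a new vertex: `y_(L z + t) = inl (η t)`.  Consecutive `η t` are adjacent in `G`, so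
`dist (η s) (η t) ≤ t - s`, and `≥` by DEP 1, as `dep (η t) = t` (DEP 4). -/
def SpecTAI : Prop :=
  ∀ (V : Type u) (G : SimpleGraph V) (r k : ℕ) (a : Fin k → ℤ → V) (Hb : Set V),
    Setup G r k a Hb → ∀ (o z : ↥(UU G r a) ⊕ (Fin k × Bool)) (D : ℕ),
    (∀ c, Sum.inr c ∉ Dn (ZZ G r a Hb) o z) →
    (∃ y ∈ Dn (ZZ G r a Hb) o z, (ZZ G r a Hb).dist o z + D ≤ (ZZ G r a Hb).dist o y) →
    ∃ η : ℕ → V, Geo G D η ∧ ∀ t ≤ D, ∃ hη : η t ∈ UU G r a,
      Sum.inl ⟨η t, hη⟩ ∈ Dn (ZZ G r a Hb) o z ∧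
      (ZZ G r a Hb).dist o (.inl ⟨η t, hη⟩) = (ZZ G r a Hb).dist o z + t

/-- **FZC** (60 lines).  The complement of the deep parts is connected.
Proof.  Let `y` be in the set `S`.  The vertices `y_t` of a geodesic from `o` to `y` are in `S`: if
`y_t ∈ Dn (z b)` with `dist o y_t = t > dist o (z b)` then `y ∈ Dn (z b)` (along the geodesic) and
`dist o y ≥ t > dist o (z b)`: contradiction.  So `Jn Z S o y` (`Cn.of_center`; `o ∈ S` as
`dist o o = 0`). -/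
def SpecFZC : Prop :=
  ∀ (W : Type u) (Z : SimpleGraph W), Z.Connected → ∀ (o : W) (n : ℕ) (z : Fin n → W),
    Cn Z {y | ∀ b, y ∈ Dn Z o (z b) → Z.dist o y ≤ Z.dist o (z b)}

/-- **AAA** (120 lines, uses HFA, ZCO, PHI, DEP, FZC).  Connected sets of `G` outside the deep parts.
Proof.  `S` = the set in FZC.  `Φ` from PHI for `x1`, `A := {x | ∃ y ∈ S, x ∈ Φ y}`, connected by
`Cn.map` and FZC.  `x1 ∈ Φ (inl x1) = {x1}`.  If `x1 ∈ HH` then the points
`p = a j (± (20 r + 21)) ∈ HH ∩ bd j` are joined to `x1` in `UU`, so `Φ (inl p) = {p}`, and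
`inl p ∈ S` by DEP 2, 4.  Let `x ∈ A`, `x ∈ Φ y`, `y ∈ S`.  If `y = inl x`, `Φ y = {x}`: `x ∈ UU`, and
`dep x = 0` by DEP 4 and `y ∈ S`.  Otherwise `dist w x ≤ 12 r + 10` with `w ∈ bd i`: `dep w = 0`, so
`dep x ≤ 12 r + 10`, and `dist (a j 0) x ≥ 20 r + 21 - (12 r + 10)`.  Last claim: `y = inr (j, true)` for
some `j` (`0 < k`) is in `S` (no new vertex is in `Dn (z b)`), and `Φ y` is contained in a ball
`B(w, 12 r + 10)`, `w ∈ bd i`; a point `x` of `Φ y` satisfies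
`dist (a i 0) x ≤ (20 r + 21) + (12 r + 10)`. -/
def SpecAAA : Prop :=
  ∀ (V : Type u) (G : SimpleGraph V) (r k : ℕ) (a : Fin k → ℤ → V) (Hb : Set V),
    Setup G r k a Hb → 0 < k → ∀ (o : ↥(UU G r a) ⊕ (Fin k × Bool)) (n : ℕ)
    (z : Fin n → ↥(UU G r a) ⊕ (Fin k × Bool)),
    (∀ b c, Sum.inr c ∉ Dn (ZZ G r a Hb) o (z b)) →
    ∀ x1 : ↥(UU G r a), (∀ b, Sum.inl x1 ∈ Dn (ZZ G r a Hb) o (z b) →
      (ZZ G r a Hb).dist o (.inl x1) ≤ (ZZ G r a Hb).dist o (z b)) →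
    ∃ A : Set V, Cn G A ∧ (x1 : V) ∈ A ∧
      ((x1 : V) ∈ HH G r a Hb → ∀ j, a j (20 * (r : ℤ) + 21) ∈ A ∧
        a j (-(20 * (r : ℤ) + 21)) ∈ A) ∧
      (∀ x ∈ A, ∀ j, 8 * r + 10 < G.dist (a j 0) x) ∧
      (∀ b, ∀ x ∈ A, dep G r a Hb o (z b) x ≤ 12 * r + 10) ∧
      (∃ x ∈ A, ∃ i, G.dist (a i 0) x ≤ 32 * r + 31)

/-- **HUB** (300 lines, uses HFA, ZCO, DEP, AAA).  The hub.
Proof.  `Z = ZZ`, `L = Z.dist o`, `dep_b` for `z b`, `t0 = 44 r + 41`.  (a) For `b ≠ b'` and `t ≤ t0 + T`: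
`inl (η b t) ∉ Dn (z b')`: otherwise `inl (η b t)` is in both; if `L (z b') ≤ L (z b)` then `z b` is
joined to `inl (η b t)` in `{L ≥ L (z b)} ⊆ {L ≥ L (z b')}`, so `z b ∈ Dn (z b')`; else
`z b' ∈ Dn (z b)`: contradiction.  So `dep_b' (η b t) = 0`, and `dep_b (η b t) = t` (DEP 4).
(b) AAA for `x1 = p_0^+ = a 0 (20 r + 21) ∈ HH ∩ bd 0` (allowed by DEP 2, 4) gives `A0` containing all
`p_l^± = a l (±(20 r + 21))`, and AAA for `x1 = η b 0` (allowed by (a) and `dep_b = 0`) gives `A b`.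
(c) `K' := A0 ∪ {a l t | |t| ≤ 20 r + 21}`.  Choose `s_b ∈ A b`, `q_b ∈ K'` at minimal distance
`N_b ≤ 32 r + 31` (AAA, last claim; `a i 0 ∈ K'`), and a geodesic `g_b` from `s_b` to `q_b`.
(d) For every `l` choose `lam l = i (4 ρ + 1)`, `0 ≤ i ≤ n`, with `dist q_b (a l (lam l)) > 2 ρ` for all
`b` (pigeonhole: for each `b` at most one `i` is bad, as the points are at mutual distance `≥ 4 ρ + 1`);
`lam l ≤ n (4 ρ + 1) ≤ 4 r`.  (e) `g_b` avoids `B(a l (lam l), ρ)`: if `dist (a l (lam l)) (g_b s) ≤ ρ`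
then `N_b ≤ s + ρ` by minimality (`a l (lam l) ∈ K'`), so `dist q_b (a l (lam l)) ≤ (N_b - s) + ρ ≤ 2 ρ`.
(f) Hub `F := A0 ∪ {a l t | |t| ≤ 20 r + 21, |t - lam l| ≥ ρ + 1} ∪ ⋃_b (A b ∪ g_b ∪
{η b t | t ≤ t0})`.  Connected: the parts of the legs contain `p_l^± ∈ A0`; `q_b` is in `A0` or
`q_b = a l t` with `|t - lam l| = dist > 2 ρ ≥ ρ + 1`; `s_b ∈ A b`, `η b 0 ∈ A b`.
(g) Legs `t ↦ a l (lam l + t)`: `Geod.shift`; `sep`: `≥ 60 r + 64 - 8 r`; `pos`, `neg`: in `F`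
(`lam l + ρ + 1 ≤ 20 r + 21`); `far`: `A0, A b`: `≥ 8 r + 11 - 4 r > ρ`; own leg: `≥ ρ + 1`; other legs:
`≥ 60 r + 64 - (20 r + 21) - 4 r`; `g_b` by (e); `η b t ∈ UU`: `≥ 20 r + 21 - 4 r`.
(h) Tails `e b t := η b (t0 + t)`: `tail`, `tmem` (`η b t0 ∈ F`) clear.  `dep_b x ≤ t0` for all `x ∈ F`:
`A0, A b'`: `≤ 12 r + 10`; `a l t`: `0` (not in `UU` for `|t| ≤ 20 r + 20`, in `bd l` for
`|t| = 20 r + 21`); `g_b'`: `≤ 12 r + 10 + N_b' ≤ 44 r + 41`; `η b' t`, `t ≤ t0`: `≤ t0` by (a).  So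
`dist (e b t) x ≥ dep_b (e b t) - dep_b x ≥ (t0 + t) - t0 = t` (`tfar`); `ttail`:
`dist (e b s) (e b' t) ≥ (t0 + s) - 0`; `tleg`: `dep_b = 0` on the points `a j t'`,
`|t'| ≤ 4 r + ρ + 1 ≤ 20 r + 21`; `tbal`: `e b t ∈ UU`. -/
def SpecHUB : Prop :=
  ∀ (V : Type u) (G : SimpleGraph V) (r k : ℕ) (a : Fin k → ℤ → V) (Hb : Set V),
    Setup G r k a Hb → 0 < k → ∀ (o : ↥(UU G r a) ⊕ (Fin k × Bool)) (n ρ T : ℕ)
    (z : Fin n → ↥(UU G r a) ⊕ (Fin k × Bool)) (η : Fin n → ℕ → V), 1 ≤ ρ →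
    (n + 1) * (4 * ρ + 1) ≤ 4 * r →
    (∀ b c, Sum.inr c ∉ Dn (ZZ G r a Hb) o (z b)) →
    (∀ b b', b ≠ b' → z b' ∉ Dn (ZZ G r a Hb) o (z b)) →
    (∀ b, Geo G (44 * r + 41 + T) (η b)) →
    (∀ b, ∀ t ≤ 44 * r + 41 + T, ∃ hη : η b t ∈ UU G r a,
      Sum.inl ⟨η b t, hη⟩ ∈ Dn (ZZ G r a Hb) o (z b) ∧
      (ZZ G r a Hb).dist o (.inl ⟨η b t, hη⟩) = (ZZ G r a Hb).dist o (z b) + t) →
    ∃ (F : Set V) (a' : Fin k → ℤ → V) (e : Fin n → ℕ → V), Star G ρ T k n F a' e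

/-- **EXC** (200 lines, uses NOL, ZCO, TR2, QG2, PRU, CN2, TAI, HUB, SPL, FTH).  The connected case,
`k ≥ c ≥ 1`.
Proof.  `Z = ZZ`, `o = inr (0, true)`, `L = Z.dist o`; `T0, Γ, f, lev, par` from TR2;
`p j = f (inr (j, true))`, `q j = f (inr (j, false))`, `root = f o = p 0`; `G'`, `g` from QG2 with
`s = S0 r k` (NOL).  `D = DD K l r`.  `Gd := {P | ∃ z, f z = P ∧ ((∃ c, inr c ∈ Dn z) ∨ ∃ y ∈ Dn z,
L z + D ≤ L y)}`.  Hypotheses of PRU: `p j, q j, root ∈ Gd` (`inr c ∈ Dn (inr c)`).  `par P ∈ Gd` for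
`P = f z ∈ Gd`: let `par P = f z'`; then `z ∈ Dn z'` (TR2, `i = 1`), so `L z' ≤ L z` and
`Dn z ⊆ Dn z'`.  `par^[D] P ∈ Gd`, `P = f z`: let `par^[D] P = f z'`; if `D ≥ L z` this is the root;
otherwise `L z' = L z - D` and `z ∈ Dn z'`.  PRU gives `QI G (G'.induce Gd) f' (Kc) (Kc * 2 D + Kc)`,
which is `≤ Kf`.  Suppose the flower is a minor of `G'.induce Gd`.  CN2 gives `P b = f (z b)`,
`b < n0 := 2 c + h - 2 k`.  `Dn (z b)` contains no new vertex (else `par^[i] (p j) = P b` or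
`par^[i] (q j) = P b` by TR2), so, `P b` being in `Gd`, it contains some `y` with `L (z b) + D ≤ L y`
(the sets `Dn` of two points of the same class are equal, so any `z` with `f z = P b` will do);
`z b' ∉ Dn (z b)` for `b ≠ b'`.  TAI gives `η b`; HUB with `ρ = RR K l`, `T = TT K l`
(`(n0 + 1)(4 ρ + 1) ≤ (2 c + h + 1)(4 ρ + 1) ≤ 4 r`) gives a star with `k` legs and `n0` tails, SPL
(`h ≤ 2 (k - c) + n0`, `2 TT ≤ RR`) one with `c` legs and `h` tails of length `TT K l`, FTH a `K`-fat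
flower minor of `G`: contradiction. -/
def SpecEXC : Prop :=
  ∀ (V : Type u) (G : SimpleGraph V) (r k : ℕ) (a : Fin k → ℤ → V) (Hb : Set V),
    Setup G r k a Hb → ∀ (K l c h : ℕ) (m : Fin c → ℕ) (n : Fin h → ℕ), 1 ≤ c → c ≤ k →
    (∀ i, 2 ≤ m i ∧ m i ≤ l) → (∀ i, 1 ≤ n i ∧ n i ≤ l) →
    (2 * c + h + 1) * (4 * RR K l + 1) ≤ 4 * r → ¬ IsFatMinor K (flower m n) G →
    ∃ (W : Type u) (G' : SimpleGraph W) (f : V → W), QI G G' f (Kf K l r k) (Kf K l r k) ∧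
      ¬ IsMinor (flower m n) G'

/-- **SYF** (40 lines, uses SPL, FTH).  A system of size `c + h` gives a fat flower.
Proof.  It is a `Star` with `c + h` legs, radius `R` and no tails (`T = TT K l`); SPL with
`T' = TT K l`, `k = c + h`, `n = 0`; FTH. -/
def SpecSYF : Prop :=
  ∀ (V : Type u) (G : SimpleGraph V), G.Connected → ∀ (K l c h R : ℕ) (m : Fin c → ℕ)
    (n : Fin h → ℕ), (∀ i, 2 ≤ m i ∧ m i ≤ l) → (∀ i, 1 ≤ n i ∧ n i ≤ l) → RR K l ≤ R →
    ∀ (a : Fin (c + h) → ℤ → V) (Hb : Set V), Sys G R (c + h) a Hb →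
    IsFatMinor K (flower m n) G

/-- **DI2** (the same proof as DIS, see `BQ/DIS.lean`).  From the components to `G`, for one connected
`H`. -/
def SpecDI2 : Prop :=
  ∀ (V : Type u) (G : SimpleGraph V) (M A : ℕ) (α : Type v) (H : SimpleGraph α), 1 ≤ M →
    H.Connected →
    (∀ C : G.ConnectedComponent, ∃ (W : Type u) (G' : SimpleGraph W) (f : C.supp → W),
      QI (G.induce C.supp) G' f M A ∧ ¬ IsMinor H G') →
    ∃ (W : Type u) (G' : SimpleGraph W) (f : V → W), QI G G' f M A ∧ ¬ IsMinor H G'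

/-- **FLF** (120 lines, uses SCA, CTH, FCT, EXC, SYF, DI2).  The theorem on flowers.
Proof.  `l' := (2 c + h + 1)(4 RR K l + 1)`.  Constants: `M = A = 1 + Σ_(k < c + h) (Kf K l r_k k +
Kc r_k (S0 r_k k))`, `r_k = rs l' (c + h - (k + 1)) ≥ l' + 1`.  For a component `C`, `G_C =
G.induce C.supp` is connected and has no system of size `c + h` and radius `l' + 1` (SYF, `RR K l ≤
l' + 1`), so SCA gives `k < c + h` and `Setup G_C r_k k`.  If `k < c`: CTH gives a graph all of whose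
finite connected minors satisfy `|E| + 1 < |V| + c`; the flower does not (FCT).  If `c ≤ k`: EXC
(`4 r_k ≥ l'`).  `QI` is monotone in the constants.  DI2. -/
def SpecFLF : Prop :=
  ∀ (K l c h : ℕ), 1 ≤ c → ∃ M A : ℕ, ∀ (V : Type u) (G : SimpleGraph V) (m : Fin c → ℕ)
    (n : Fin h → ℕ), (∀ i, 2 ≤ m i ∧ m i ≤ l) → (∀ i, 1 ≤ n i ∧ n i ≤ l) →
    (∀ C : G.ConnectedComponent, ¬ IsFatMinor K (flower m n) (G.induce C.supp)) →
    ∃ (W : Type u) (G' : SimpleGraph W) (f : V → W), QI G G' f M A ∧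
      ¬ IsMinor (flower m n) G'

end Pool.Agent.Lib.MPbafc89.BQ
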