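import Pool.Agent.Lib.MP_bafc89_co.BQ.Spec3

/-!
# TAI: a tail inside a deep branch (from ZCO, DEP)
-/

set_option autoImplicit false

namespace Pool.Agent.Lib.MPbafc89.BQ

open SimpleGraph

universe u v

namespace TAIM

/-- the upper part of a geodesic from `o` to a point of `Dn z` is in `Dn z` -/
theorem mem_Dn {W : Type u} {Z : SimpleGraph W} {o z y : W} (hy : y ∈ Dn Z o z) {g : ℕ → W}
    (g0 : g 0 = o) (g1 : g (Z.dist o y) = y) (hg : Geo Z (Z.dist o y) g) :
    ∀ n : ℕ, Z.dist o z + n ≤ Z.dist o y → g (Z.dist o y - n) ∈ Dn Z o z := by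
  have hL : ∀ s ≤ Z.dist o y, Z.dist o (g s) = s := by
    intro s hs
    have := hg 0 s (Nat.zero_le _) hs
    rw [g0, Nat.sub_zero] at this
    exact this
  intro n
  induction n with
  | zero =>
    intro _
    rw [Nat.sub_zero, g1]
    exact hy
  | succ n ih =>
    intro hn
    have h1 := ih (by omega)
    have h2 : Z.dist (g (Z.dist o y - (n + 1))) (g (Z.dist o y - n)) = 1 := by
      rw [hg _ _ (by omega) (by omega)]
      omega
    have h3 := dist_eq_one_iff_adj.1 h2
    have h4 : g (Z.dist o y - n) ∈ {w | Z.dist o z ≤ Z.dist o w} := by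
      change Z.dist o z ≤ Z.dist o (g (Z.dist o y - n))
      rw [hL _ (by omega)]
      omega
    have h5 : g (Z.dist o y - (n + 1)) ∈ {w | Z.dist o z ≤ Z.dist o w} := by
      change Z.dist o z ≤ Z.dist o (g (Z.dist o y - (n + 1)))
      rw [hL _ (by omega)]
      omega
    exact Jn.trans h1 (Jn.adj h4 h5 h3.symm)

end TAIM

open TAIM

theorem specTAI (hZCO : SpecZCO.{u}) (hDEP : SpecDEP.{u}) : SpecTAI.{u} := by
  intro V G r k a Hb hS o z D hnew hdeep
  obtain ⟨y, hy, hyD⟩ := hdeep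
  have hZ := hZCO V G r k a Hb hS
  obtain ⟨d1, -, -, d4⟩ := hDEP V G r k a Hb hS o z hnew
  obtain ⟨g, g0, g1, hg⟩ := exists_geo hZ o y
  have hL : ∀ s ≤ (ZZ G r a Hb).dist o y, (ZZ G r a Hb).dist o (g s) = s := by
    intro s hs
    have := hg 0 s (Nat.zero_le _) hs
    rw [g0, Nat.sub_zero] at this
    exact this
  have hmem : ∀ t ≤ D, g ((ZZ G r a Hb).dist o z + t) ∈ Dn (ZZ G r a Hb) o z := by
    intro t ht
    have h1 := mem_Dn hy g0 g1 hg ((ZZ G r a Hb).dist o y - ((ZZ G r a Hb).dist o z + t)) (by omega)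
    have h2 : (ZZ G r a Hb).dist o y - ((ZZ G r a Hb).dist o y - ((ZZ G r a Hb).dist o z + t)) =
        (ZZ G r a Hb).dist o z + t := by omega
    rwa [h2] at h1
  set η : ℕ → V := fun t => Sum.elim (fun x : ↥(UU G r a) => (x : V)) (fun c => a c.1 0)
    (g ((ZZ G r a Hb).dist o z + t)) with hη
  have hx : ∀ t ≤ D, ∃ h : η t ∈ UU G r a, g ((ZZ G r a Hb).dist o z + t) = Sum.inl ⟨η t, h⟩ := by
    intro t ht
    have h1 := hmem t ht
    rcases hgt : g ((ZZ G r a Hb).dist o z + t) with x | c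
    · have h2 : η t = (x : V) := by
        rw [hη]
        simp only [hgt, Sum.elim_inl]
      refine ⟨by rw [h2]; exact x.2, ?_⟩
      congr 1
      exact Subtype.ext h2.symm
    · rw [hgt] at h1
      exact absurd h1 (hnew c)
  have hdep : ∀ t ≤ D, dep G r a Hb o z (η t) = t := by
    intro t ht
    obtain ⟨h1, h2⟩ := hx t ht
    have h3 := hmem t ht
    rw [h2] at h3
    have h4 := ((d4 ⟨η t, h1⟩).1 h3).2
    have h5 := hL ((ZZ G r a Hb).dist o z + t) (by omega)
    rw [h2] at h5
    have h6 : dep G r a Hb o z (η t) = (ZZ G r a Hb).dist o (Sum.inl ⟨η t, h1⟩) - (ZZ G r a Hb).dist o z := h4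
    rw [h6, h5]
    omega
  have hadj : ∀ t, t + 1 ≤ D → G.dist (η t) (η (t + 1)) = 1 := by
    intro t ht
    obtain ⟨h1, h2⟩ := hx t (by omega)
    obtain ⟨h3, h4⟩ := hx (t + 1) ht
    have h5 := hg ((ZZ G r a Hb).dist o z + t) ((ZZ G r a Hb).dist o z + (t + 1)) (by omega) (by omega)
    rw [h2, h4] at h5
    have h6 : (ZZ G r a Hb).dist (Sum.inl ⟨η t, h1⟩) (Sum.inl ⟨η (t + 1), h3⟩) = 1 := by
      rw [h5]
      omega
    have h7 := dist_eq_one_iff_adj.1 h6
    exact dist_eq_one_iff_adj.2 h7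
  refine ⟨η, ?_, ?_⟩
  · intro s t hst htD
    have hup : ∀ n : ℕ, s + n ≤ D → G.dist (η s) (η (s + n)) ≤ n := by
      intro n
      induction n with
      | zero =>
        intro _
        simp
      | succ n ih =>
        intro hn
        have h1 := ih (by omega)
        have h2 := hadj (s + n) (by omega)
        have h3 := hS.conn.dist_triangle (u := η s) (v := η (s + n)) (w := η (s + n + 1))
        have h4 : s + (n + 1) = s + n + 1 := rfl
        rw [h4]
        omega
    have h1 := hup (t - s) (by omega)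
    have h2 : s + (t - s) = t := by omega
    rw [h2] at h1
    have h3 := d1 (η s) (η t)
    rw [hdep s (by omega), hdep t htD] at h3
    omega
  · intro t ht
    obtain ⟨h1, h2⟩ := hx t ht
    refine ⟨h1, ?_, ?_⟩
    · rw [← h2]
      exact hmem t ht
    · rw [← h2]
      exact hL _ (by omega)

end Pool.Agent.Lib.MPbafc89.BQ
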