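import Pool.Agent.Lib.MP_bafc89_co.BQ.Spec

/-!
# MP_bafc89_co, module TRE: the layering tree
-/

set_option autoImplicit false

namespace Pool.Agent.Lib.MPbafc89.BQ

open SimpleGraph

universe u

namespace TREM

variable {W : Type u}

/-- the layering relation -/
def Rel (Z : SimpleGraph W) (o x y : W) : Prop :=
  Z.dist o x = Z.dist o y ∧ Jn Z {z | Z.dist o x ≤ Z.dist o z} x y

theorem rel_refl (Z : SimpleGraph W) (o x : W) : Rel Z o x x :=
  ⟨rfl, Jn.refl (show Z.dist o x ≤ Z.dist o x from le_refl _)⟩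

theorem rel_symm {Z : SimpleGraph W} {o x y : W} (h : Rel Z o x y) : Rel Z o y x := by
  obtain ⟨h1, h2⟩ := h
  refine ⟨h1.symm, ?_⟩
  rw [← h1]
  exact h2.symm

theorem rel_trans {Z : SimpleGraph W} {o x y z : W} (h : Rel Z o x y) (h' : Rel Z o y z) :
    Rel Z o x z := by
  obtain ⟨h1, h2⟩ := h
  obtain ⟨h3, h4⟩ := h'
  refine ⟨h1.trans h3, ?_⟩
  rw [← h1] at h4
  exact h2.trans h4

/-- the setoid of the layering partition -/
def std (Z : SimpleGraph W) (o : W) : Setoid W where
  r := Rel Z o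
  iseqv := ⟨rel_refl Z o, fun h => rel_symm h, fun h h' => rel_trans h h'⟩

/-- the class of a vertex -/
def cls (Z : SimpleGraph W) (o : W) (x : W) : Quotient (std Z o) := Quotient.mk (std Z o) x

theorem cls_eq {Z : SimpleGraph W} {o x y : W} : cls Z o x = cls Z o y ↔ Rel Z o x y := by
  constructor
  · intro h
    exact Quotient.exact (s := std Z o) h
  · intro h
    exact Quotient.sound (s := std Z o) h

/-- the level of a class -/
noncomputable def level (Z : SimpleGraph W) (o : W) : Quotient (std Z o) → ℕ :=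
  Quotient.lift (fun x => Z.dist o x) (fun _ _ h => h.1)

theorem level_cls (Z : SimpleGraph W) (o x : W) : level Z o (cls Z o x) = Z.dist o x := rfl

/-- the layering graph -/
def graph (Z : SimpleGraph W) (o : W) : SimpleGraph (Quotient (std Z o)) where
  Adj P Q := P ≠ Q ∧ ∃ x y, cls Z o x = P ∧ cls Z o y = Q ∧ Z.Adj x y
  symm := ⟨by
    rintro P Q ⟨hne, x, y, hx, hy, hxy⟩
    exact ⟨hne.symm, y, x, hy, hx, hxy.symm⟩⟩
  loopless := ⟨by
    rintro P ⟨hne, -⟩
    exact hne rfl⟩

end TREM

open TREM in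
theorem specTRE : SpecTRE.{u} := by
  intro W Z hZ o
  refine ⟨Quotient (std Z o), graph Z o, cls Z o, level Z o, ?_, ?_, ?_, ?_⟩
  · intro P
    obtain ⟨x, hx⟩ := Quotient.exists_rep P
    exact ⟨x, hx⟩
  · intro x y
    exact cls_eq
  · intro P Q
    exact Iff.rfl
  · constructor
    · rintro P Q ⟨hne, x, y, rfl, rfl, hxy⟩ hlev
      rw [level_cls, level_cls] at hlev
      apply hne
      rw [cls_eq]
      refine ⟨hlev, Jn.adj ?_ ?_ hxy⟩
      · exact le_refl (Z.dist o x)
      · exact le_of_eq hlev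
    · rintro P Q R ⟨-, x, y, rfl, rfl, hxy⟩ ⟨-, x', z, hx', rfl, hxz⟩ h1 h2
      rw [level_cls, level_cls] at h1 h2
      rw [cls_eq] at hx'
      obtain ⟨hd, hj⟩ := hx'
      have t1 := hZ.dist_triangle (u := o) (v := y) (w := x)
      have t2 : Z.dist y x = 1 := dist_eq_one_iff_adj.mpr hxy.symm
      have t3 := hZ.dist_triangle (u := o) (v := z) (w := x')
      have t4 : Z.dist z x' = 1 := dist_eq_one_iff_adj.mpr hxz.symm
      have e1 : Z.dist o y = Z.dist o z := by omega
      rw [cls_eq]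
      refine ⟨e1, ?_⟩
      have m1 : x ∈ {w | Z.dist o y ≤ Z.dist o w} := by
        show Z.dist o y ≤ Z.dist o x
        omega
      have m2 : y ∈ {w | Z.dist o y ≤ Z.dist o w} := by
        show Z.dist o y ≤ Z.dist o y
        omega
      have m3 : x' ∈ {w | Z.dist o y ≤ Z.dist o w} := by
        show Z.dist o y ≤ Z.dist o x'
        omega
      have m4 : z ∈ {w | Z.dist o y ≤ Z.dist o w} := by
        show Z.dist o y ≤ Z.dist o z
        omega
      have j1 : Jn Z {w | Z.dist o y ≤ Z.dist o w} y x := Jn.adj m2 m1 hxy.symm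
      have j2 : Jn Z {w | Z.dist o y ≤ Z.dist o w} x x' := by
        refine (hj.symm).mono ?_
        intro w hw
        have hw' : Z.dist o x' ≤ Z.dist o w := hw
        show Z.dist o y ≤ Z.dist o w
        omega
      have j3 : Jn Z {w | Z.dist o y ≤ Z.dist o w} x' z := Jn.adj m3 m4 hxz
      exact (j1.trans j2).trans j3

end Pool.Agent.Lib.MPbafc89.BQ
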