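import Pool.Agent.Lib.MP_bafc89_co.BQ.Spec3
import Pool.Agent.Lib.MP_bafc89_co.BQ.TRE

/-!
# MP_bafc89_co, module TR2: the layering tree with its parent function
-/

set_option autoImplicit false

namespace Pool.Agent.Lib.MPbafc89.BQ

open SimpleGraph

universe u

namespace TR2M

open TREM

variable {W : Type u}

theorem cls_surj (Z : SimpleGraph W) (o : W) : Function.Surjective (cls Z o) := by
  intro P
  obtain ⟨x, hx⟩ := Quotient.exists_rep P
  exact ⟨x, hx⟩

theorem levTree {Z : SimpleGraph W} (hZ : Z.Connected) (o : W) :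
    LevTree (graph Z o) (level Z o) := by
  constructor
  · rintro P Q ⟨hne, x, y, rfl, rfl, hxy⟩ hlev
    rw [level_cls, level_cls] at hlev
    apply hne
    rw [cls_eq]
    refine ⟨hlev, Jn.adj ?_ ?_ hxy⟩
    · exact le_refl (Z.dist o x)
    · exact le_of_eq hlev
  · rintro P Q R ⟨-, x, y, rfl, rfl, hxy⟩ ⟨-, x', z, hx', rfl, hxz⟩ h1 h2
    rw [level_cls, level_cls] at h1 h2
    rw [cls_eq] at hx'
    obtain ⟨hd, hj⟩ := hx'
    have t1 := hZ.dist_triangle (u := o) (v := y) (w := x)
    have t2 : Z.dist y x = 1 := dist_eq_one_iff_adj.mpr hxy.symm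
    have t3 := hZ.dist_triangle (u := o) (v := z) (w := x')
    have t4 : Z.dist z x' = 1 := dist_eq_one_iff_adj.mpr hxz.symm
    have e1 : Z.dist o y = Z.dist o z := by omega
    rw [cls_eq]
    refine ⟨e1, ?_⟩
    have m1 : x ∈ {w | Z.dist o y ≤ Z.dist o w} := by
      show Z.dist o y ≤ Z.dist o x
      omega
    have m2 : y ∈ {w | Z.dist o y ≤ Z.dist o w} := by
      show Z.dist o y ≤ Z.dist o y
      omega
    have m3 : x' ∈ {w | Z.dist o y ≤ Z.dist o w} := by
      show Z.dist o y ≤ Z.dist o x'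
      omega
    have m4 : z ∈ {w | Z.dist o y ≤ Z.dist o w} := by
      show Z.dist o y ≤ Z.dist o z
      omega
    have j1 : Jn Z {w | Z.dist o y ≤ Z.dist o w} y x := Jn.adj m2 m1 hxy.symm
    have j2 : Jn Z {w | Z.dist o y ≤ Z.dist o w} x x' := by
      refine (hj.symm).mono ?_
      intro w hw
      have hw' : Z.dist o x' ≤ Z.dist o w := hw
      show Z.dist o y ≤ Z.dist o w
      omega
    have j3 : Jn Z {w | Z.dist o y ≤ Z.dist o w} x' z := Jn.adj m3 m4 hxz
    exact (j1.trans j2).trans j3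

theorem exists_par {Z : SimpleGraph W} (hZ : Z.Connected) (o : W) (P : Quotient (std Z o)) :
    ∃ Q, (P = cls Z o o → Q = cls Z o o) ∧
      (P ≠ cls Z o o → (graph Z o).Adj P Q ∧ level Z o Q + 1 = level Z o P) := by
  by_cases hP : P = cls Z o o
  · exact ⟨cls Z o o, fun _ => rfl, fun h => absurd hP h⟩
  · obtain ⟨x, rfl⟩ := cls_surj Z o P
    obtain ⟨g, h0, h1, hg⟩ := exists_geo hZ o x
    have hpos : Z.dist o x ≠ 0 := by
      intro h
      rw [h, h0] at h1
      exact hP (by rw [h1])
    have e1 := hg 0 (Z.dist o x - 1) (Nat.zero_le _) (Nat.sub_le _ _)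
    rw [h0, Nat.sub_zero] at e1
    have e2 := hg.adj (s := Z.dist o x - 1) (by omega)
    have e3 : Z.dist o x - 1 + 1 = Z.dist o x := by omega
    rw [e3, h1] at e2
    refine ⟨cls Z o (g (Z.dist o x - 1)), fun h => absurd h hP, fun _ => ⟨⟨?_, x, _, rfl, rfl,
      e2.symm⟩, ?_⟩⟩
    · intro h
      have := congrArg (level Z o) h
      rw [level_cls, level_cls, e1] at this
      omega
    · rw [level_cls, level_cls, e1]
      exact e3

theorem geo_jn {Z : SimpleGraph W} {o : W} {D : ℕ} {g : ℕ → W} (h0 : g 0 = o) (hg : Geo Z D g)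
    {t s : ℕ} (hts : t ≤ s) (hs : s ≤ D) : Jn Z {w | t ≤ Z.dist o w} (g t) (g s) := by
  have h1 := (hg.cn (p := t) (q := s) hts hs).2 (g t) ⟨t, le_rfl, hts, rfl⟩ (g s)
    ⟨s, hts, le_rfl, rfl⟩
  refine h1.mono ?_
  rintro w ⟨r, hr1, hr2, rfl⟩
  have h2 := hg 0 r (Nat.zero_le _) (by omega)
  rw [h0, Nat.sub_zero] at h2
  show t ≤ Z.dist o (g r)
  omega

end TR2M

open TREM TR2M in
theorem specTR2 : SpecTR2.{u} := by
  intro W Z hZ o
  choose par hpar using exists_par hZ o
  have hlev := levTree hZ o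
  have hparo : par (cls Z o o) = cls Z o o := (hpar _).1 rfl
  -- iterating the parent function along a geodesic
  have key : ∀ (z' : W) (g : ℕ → W), g 0 = o → g (Z.dist o z') = z' →
      Geo Z (Z.dist o z') g → ∀ s, s ≤ Z.dist o z' →
      par^[s] (cls Z o z') = cls Z o (g (Z.dist o z' - s)) := by
    intro z' g h0 h1 hg s
    induction s with
    | zero =>
      intro _
      rw [Function.iterate_zero, id_eq, Nat.sub_zero, h1]
    | succ s ih =>
      intro hs
      rw [Function.iterate_succ_apply', ih (by omega)]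
      have d1 := hg 0 (Z.dist o z' - s) (Nat.zero_le _) (Nat.sub_le _ _)
      rw [h0, Nat.sub_zero] at d1
      have d2 := hg 0 (Z.dist o z' - (s + 1)) (Nat.zero_le _) (Nat.sub_le _ _)
      rw [h0, Nat.sub_zero] at d2
      have hne : cls Z o (g (Z.dist o z' - s)) ≠ cls Z o o := by
        intro h
        have := congrArg (level Z o) h
        rw [level_cls, level_cls, d1, SimpleGraph.dist_self] at this
        omega
      obtain ⟨a1, a2⟩ := (hpar _).2 hne
      have b1 : (graph Z o).Adj (cls Z o (g (Z.dist o z' - s)))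
          (cls Z o (g (Z.dist o z' - (s + 1)))) := by
        refine ⟨?_, _, _, rfl, rfl, ?_⟩
        · intro h
          have := congrArg (level Z o) h
          rw [level_cls, level_cls, d1, d2] at this
          omega
        · have e2 := hg.adj (s := Z.dist o z' - (s + 1)) (by omega)
          have e3 : Z.dist o z' - (s + 1) + 1 = Z.dist o z' - s := by omega
          rw [e3] at e2
          exact e2.symm
      refine hlev.uniq _ _ _ a1 b1 (by omega) ?_
      rw [level_cls, level_cls, d1, d2]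
      omega
  have hiter : ∀ i, par^[i] (cls Z o o) = cls Z o o := by
    intro i
    induction i with
    | zero => rfl
    | succ i ih => rw [Function.iterate_succ_apply', ih, hparo]
  refine ⟨Quotient (std Z o), graph Z o, cls Z o, level Z o, par, cls_surj Z o,
    fun x y => cls_eq, fun P Q => Iff.rfl, hlev, fun x => rfl, hparo, fun P hP => (hpar P).2 hP, ?_⟩
  intro z z'
  obtain ⟨g, h0, h1, hg⟩ := exists_geo hZ o z'
  constructor
  · intro hz
    have hz : Jn Z {w | Z.dist o z ≤ Z.dist o w} z z' := hz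
    have hle : Z.dist o z ≤ Z.dist o z' := hz.right
    refine ⟨Z.dist o z' - Z.dist o z, ?_⟩
    rw [key z' g h0 h1 hg _ (Nat.sub_le _ _), cls_eq]
    have e : Z.dist o z' - (Z.dist o z' - Z.dist o z) = Z.dist o z := by omega
    rw [e]
    have d1 := hg 0 (Z.dist o z) (Nat.zero_le _) hle
    rw [h0, Nat.sub_zero] at d1
    refine ⟨d1, ?_⟩
    rw [d1]
    have j1 := geo_jn h0 hg hle le_rfl
    rw [h1] at j1
    exact j1.trans hz.symm
  · rintro ⟨i, hi⟩
    show Jn Z {w | Z.dist o z ≤ Z.dist o w} z z'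
    by_cases hin : i ≤ Z.dist o z'
    · rw [key z' g h0 h1 hg i hin, cls_eq] at hi
      obtain ⟨c1, c2⟩ := hi
      have d1 := hg 0 (Z.dist o z' - i) (Nat.zero_le _) (Nat.sub_le _ _)
      rw [h0, Nat.sub_zero] at d1
      have j1 := geo_jn h0 hg (t := Z.dist o z' - i) (Nat.sub_le _ _) le_rfl
      rw [h1] at j1
      rw [d1] at c1 c2
      rw [← c1]
      exact c2.symm.trans j1
    · have e : par^[i] (cls Z o z') = cls Z o o := by
        have h2 : i = (i - Z.dist o z') + Z.dist o z' := by omega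
        rw [h2, Function.iterate_add_apply, key z' g h0 h1 hg _ le_rfl, Nat.sub_self, h0]
        exact hiter _
      rw [e, cls_eq] at hi
      have h3 : Z.dist o z = 0 := by
        rw [← hi.1, SimpleGraph.dist_self]
      rw [h3]
      obtain ⟨w⟩ := hZ.preconnected z z'
      exact ⟨w, fun y _ => Nat.zero_le _⟩

end Pool.Agent.Lib.MPbafc89.BQ
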