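import Pool.Agent.Lib.MP_bafc89_co.BQ.Spec

/-!
# MP_bafc89_co, module TRF: transfer of a loop of the cut open graph
-/

set_option autoImplicit false

namespace Pool.Agent.Lib.MPbafc89.BQ

open SimpleGraph

universe u

theorem specTRF (hZCO : SpecZCO.{u}) (hCMP : SpecCMP.{u}) (hREC : SpecREC.{u})
    (hPHI : SpecPHI.{u}) : SpecTRF.{u} := by
  intro V G r k a Hb hS s1 s2 hs α F hL hfar
  have hZ := hZCO V G r k a Hb hS
  -- the centre
  obtain ⟨x1, hx1⟩ : ∃ x1 : ↥(UU G r a), α 0 = .inl x1 := by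
    rcases h0 : α 0 with x | c
    · exact ⟨x, rfl⟩
    · exfalso
      have h1 := hfar c
      rw [h0, SimpleGraph.dist_self] at h1
      omega
  -- the vertices `α t`
  have hα : ∀ t : ℤ, t.natAbs ≤ s2 + 1 → ∃ y : ↥(UU G r a), α t = .inl y := by
    intro t ht
    rcases h0 : α t with x | c
    · exact ⟨x, rfl⟩
    · exfalso
      have h1 := hfar c
      have h2 := hL.geo 0 t (by simp) (by omega)
      rw [h0] at h2
      omega
  obtain ⟨C1, C2, C3⟩ := hCMP V G r k a Hb hS x1 s1 (fun c => by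
    have := hfar c
    rw [hx1] at this
    exact this)
  obtain ⟨F1, hF1⟩ := hREC _ (ZZ G r a Hb) hZ s1 s2 0 (by simp; omega) α F hL
  obtain ⟨Φ, P1, P2, P3, P4⟩ := hPHI V G r k a Hb hS (x1 : V) x1.2
  set b : ℤ → V := fun t => Sum.elim (fun x : ↥(UU G r a) => (x : V)) (fun _ => (x1 : V)) (α t)
    with hb
  have hbt : ∀ t (y : ↥(UU G r a)), α t = .inl y → b t = (y : V) := by
    intro t y h
    rw [hb]
    show Sum.elim _ _ (α t) = _
    rw [h]
    rfl
  have hb0 : b 0 = (x1 : V) := hbt 0 x1 hx1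
  have hdz : ∀ t : ℤ, t.natAbs ≤ s2 + 1 → (ZZ G r a Hb).dist (.inl x1) (α t) = t.natAbs := by
    intro t ht
    have h2 := hL.geo 0 t (by simp) (by omega)
    rw [hx1] at h2
    rw [h2]
    omega
  have hgeo : Geod G (s2 + 1) b := by
    intro s t hs' ht'
    obtain ⟨y, hy⟩ := hα s hs'
    obtain ⟨y', hy'⟩ := hα t ht'
    have h1 := hdz s hs'
    have h2 := hL.geo s t (by omega) (by omega)
    have h3 := C3 y y' (by
      rw [← hy, ← hy', h1, h2]
      omega)
    rw [hbt s y hy, hbt t y' hy', h3, ← hy, ← hy', h2]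
  have hends : ∀ t : ℤ, t.natAbs = s2 + 1 → α t ∈ F1 → b t ∈ {x | ∃ y ∈ F1, x ∈ Φ y} := by
    intro t ht hm
    obtain ⟨y, hy⟩ := hα t (by omega)
    refine ⟨α t, hm, ?_⟩
    have h1 : G.dist (x1 : V) (y : V) ≤ s1 := by
      have h2 := hgeo 0 t (by simp) (by omega)
      rw [hb0, hbt t y hy] at h2
      omega
    have h3 := P4 y (C1 (y : V) h1).1
    rw [hbt t y hy, hy, h3]
    exact Set.mem_singleton _
  refine ⟨b, {x | ∃ y ∈ F1, x ∈ Φ y}, ?_, ?_, ?_, ?_⟩
  · refine ⟨hgeo, ?_, ?_, ?_, ?_⟩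
    · exact hF1.cn.map (fun y _ => P1 y) (fun y _ y' _ h => P2 y y' h)
    · apply hends
      · omega
      · have h1 := hF1.pos
        have h2 : (0 : ℤ) + ((s2 : ℤ) + 1) = (s2 : ℤ) + 1 := by ring
        rw [← h2]
        exact h1
    · apply hends
      · omega
      · have h1 := hF1.neg
        have h2 : (0 : ℤ) + (-((s2 : ℤ) + 1)) = -((s2 : ℤ) + 1) := by ring
        rw [← h2]
        exact h1
    · rintro x ⟨z, hz, hx⟩
      rw [hb0]
      rcases P3 z with ⟨y, hy, hΦ⟩ | ⟨j, w, hw, hΦ⟩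
      · rw [hΦ, Set.mem_singleton_iff] at hx
        by_contra hcon
        have hle : G.dist (x1 : V) x ≤ s2 := by omega
        rw [hx] at hle
        have h1 := (C1 (y : V) (by omega)).2 y.2
        have h2 := hF1.far z hz
        have h3 : α (0 + 0) = .inl x1 := by rw [add_zero]; exact hx1
        have h4 : s2 < (ZZ G r a Hb).dist (α (0 + 0)) z := h2
        rw [h3, hy] at h4
        have h5 : (ZZ G r a Hb).dist (.inl x1) (.inl y) = G.dist (x1 : V) (y : V) := h1
        omega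
      · have h1 : G.dist w x ≤ 12 * r + 10 := hΦ hx
        have h2 := C2 j w hw
        have h3 := hS.conn.dist_triangle (u := (x1 : V)) (v := x) (w := w)
        have h4 : G.dist x w = G.dist w x := SimpleGraph.dist_comm
        omega
  · rw [hb0]
    exact x1.2
  · rintro x ⟨z, hz, hx⟩ j
    rcases P3 z with ⟨y, hy, hΦ⟩ | ⟨i, w, hw, hΦ⟩
    · rw [hΦ, Set.mem_singleton_iff] at hx
      have h1 := y.2 j
      rw [hx]
      omega
    · have h1 : G.dist w x ≤ 12 * r + 10 := hΦ hx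
      have h2 := hw.1 j
      have h3 := hS.conn.dist_triangle (u := a j 0) (v := x) (w := w)
      have h4 : G.dist x w = G.dist w x := SimpleGraph.dist_comm
      omega
  · intro y hy
    rw [hb0] at hy ⊢
    exact (C1 y hy).1

end Pool.Agent.Lib.MPbafc89.BQ
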