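import Pool.Agent.Lib.MP_bafc89_co.BQ.Spec

/-!
# MP_bafc89_co, bouquets of cycles: the cut open graph is connected (module ZCO)
-/

set_option autoImplicit false

namespace Pool.Agent.Lib.MPbafc89.BQ

open SimpleGraph

universe u

namespace ZCOM

variable {V : Type u} {G : SimpleGraph V} {r k : ℕ} {a : Fin k → ℤ → V} {Hb : Set V}

/-- a walk of `G` in `UU` is a walk of `ZZ` -/
theorem lift (x y : ↥(UU G r a)) (h : Jn G (UU G r a) (x : V) (y : V)) :
    (ZZ G r a Hb).Reachable (.inl x) (.inl y) := by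
  have key : ∃ hz : (y : V) ∈ UU G r a,
      (ZZ G r a Hb).Reachable (.inl x) (.inl ⟨(y : V), hz⟩) := by
    refine h.induct (fun z => ∃ hz : z ∈ UU G r a,
      (ZZ G r a Hb).Reachable (.inl x) (.inl ⟨z, hz⟩)) ⟨x.2, Reachable.refl _⟩ ?_
    rintro u w hu hw huw ⟨hz, hr⟩
    refine ⟨hw, hr.trans (SimpleGraph.Adj.reachable ?_)⟩
    exact huw
  obtain ⟨hz, hr⟩ := key
  exact hr

end ZCOM

theorem specZCO (hHFA : SpecHFA.{u}) : SpecZCO.{u} := by
  intro V G r k a Hb hS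
  obtain ⟨h1, h2, h3, h4, h5, h6, h7, h8⟩ := hHFA V G r k a Hb hS
  obtain ⟨x0, hx0⟩ := hS.sys.cn.1
  have hx0H : x0 ∈ HH G r a Hb := h2 hx0
  have hx0U : x0 ∈ UU G r a := h1 hx0H
  have hin : ∀ x : ↥(UU G r a), (x : V) ∈ HH G r a Hb →
      (ZZ G r a Hb).Reachable (.inl ⟨x0, hx0U⟩) (.inl x) := by
    intro x hx
    exact ZCOM.lift _ _ ((h5.2 x0 hx0H x hx).mono h1)
  have hf : ∀ j : Fin k, (ZZ G r a Hb).Reachable (.inl ⟨x0, hx0U⟩) (.inr (j, false)) := by
    intro j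
    have hp := (h8 j).2
    have hpH : a j (-(20 * (r : ℤ) + 21)) ∈ HH G r a Hb := h3 j _ (by omega) (by omega)
    refine (hin ⟨_, hp.1⟩ hpH).trans (SimpleGraph.Adj.reachable ?_)
    show Att G r a Hb (j, false) (a j (-(20 * (r : ℤ) + 21)))
    refine ⟨hp, ?_⟩
    refine ⟨fun _ => ⟨hpH, ?_⟩, fun _ => rfl⟩
    show G.dist (a j (-(20 * (r : ℤ) + 21))) (a j (-(20 * (r : ℤ) + 21))) ≤ 6 * r + 5
    rw [SimpleGraph.dist_self]
    exact Nat.zero_le _
  have ht : ∀ j : Fin k, (ZZ G r a Hb).Reachable (.inl ⟨x0, hx0U⟩) (.inr (j, true)) := by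
    intro j
    have hp := (h8 j).1
    have hpH : a j (20 * (r : ℤ) + 21) ∈ HH G r a Hb := h3 j _ (by omega) (by omega)
    refine (hin ⟨_, hp.1⟩ hpH).trans (SimpleGraph.Adj.reachable ?_)
    show Att G r a Hb (j, true) (a j (20 * (r : ℤ) + 21))
    refine ⟨hp, ?_⟩
    refine ⟨fun h => absurd (show true = false from h) Bool.noConfusion, ?_⟩
    rintro ⟨-, h⟩
    exfalso
    have h' : G.dist (a j (-(20 * (r : ℤ) + 21))) (a j (20 * (r : ℤ) + 21)) ≤ 6 * r + 5 := h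
    rw [hS.sys.geo j _ _ (by omega) (by omega)] at h'
    omega
  rw [SimpleGraph.connected_iff_exists_forall_reachable]
  refine ⟨.inl ⟨x0, hx0U⟩, ?_⟩
  rintro (x | ⟨j, b⟩)
  · by_cases hx : (x : V) ∈ HH G r a Hb
    · exact hin x hx
    · obtain ⟨j, y, hy, hxy⟩ := h6 x x.2 hx
      have hyH : y ∉ HH G r a Hb := fun h => hx (h4 y x h hxy.symm)
      have h9 : (ZZ G r a Hb).Reachable (.inl ⟨y, hy.1⟩) (.inl x) := ZCOM.lift _ _ hxy.symm
      refine (ht j).trans (Reachable.trans (SimpleGraph.Adj.reachable ?_) h9)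
      show Att G r a Hb (j, true) y
      refine ⟨hy, ?_⟩
      exact ⟨fun h => absurd (show true = false from h) Bool.noConfusion, fun h => absurd h.1 hyH⟩
  · cases b
    · exact hf j
    · exact ht j

end Pool.Agent.Lib.MPbafc89.BQ
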